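import Mathlib

section

namespace Pool.Agent.MP_810665_al

open Representation Module

section general
variable {G : Type} [Group G] {V W : Type} [AddCommGroup V] [Module ℂ V] [AddCommGroup W]
  [Module ℂ W]

lemma irreducible_iff (ρ : Representation ℂ G V) : ρ.IsIrreducible ↔
    (∃ v : V, v ≠ 0) ∧ ∀ S : Submodule ℂ V, (∀ g, ∀ v ∈ S, ρ g v ∈ S) → S = ⊥ ∨ S = ⊤ := by
  constructor
  · intro h
    constructor
    · by_contra hv
      push Not at hv
      refine (bot_ne_top (α := Subrepresentation ρ)) ?_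
      apply Subrepresentation.toSubmodule_injective
      ext v
      simp [hv v]
    · intro S hS
      rcases h.eq_bot_or_eq_top ⟨S, fun g v hv => hS g v hv⟩ with h1 | h1
      · exact Or.inl (congrArg Subrepresentation.toSubmodule h1)
      · exact Or.inr (congrArg Subrepresentation.toSubmodule h1)
  · rintro ⟨⟨v, hv⟩, h⟩
    have : Nontrivial (Subrepresentation ρ) := ⟨⊥, ⊤, fun h1 => hv (by
      have h2 : (⊥ : Submodule ℂ V) = ⊤ := congrArg Subrepresentation.toSubmodule h1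
      have : v ∈ (⊥ : Submodule ℂ V) := h2 ▸ Submodule.mem_top
      simpa using this)⟩
    refine ⟨fun S => ?_⟩
    rcases h S.toSubmodule (fun g v hv => S.apply_mem_toSubmodule g hv) with h1 | h1
    · exact Or.inl (Subrepresentation.toSubmodule_injective h1)
    · exact Or.inr (Subrepresentation.toSubmodule_injective h1)

lemma irreducible_of_equiv {ρ : Representation ℂ G V} {σ : Representation ℂ G W}
    (e : V ≃ₗ[ℂ] W) (he : ∀ g v, e (ρ g v) = σ g (e v)) (h : ρ.IsIrreducible) :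
    σ.IsIrreducible := by
  rw [irreducible_iff] at h ⊢
  obtain ⟨⟨v, hv⟩, h⟩ := h
  refine ⟨⟨e v, by simpa using hv⟩, fun S hS => ?_⟩
  rcases h (S.comap e.toLinearMap) (fun g v hv => by
    simp only [Submodule.mem_comap, LinearEquiv.coe_coe] at hv ⊢
    rw [he]
    exact hS g _ hv) with h1 | h1
  · left
    rw [eq_bot_iff]
    intro w hw
    have : e.symm w ∈ S.comap e.toLinearMap := by simpa using hw
    rw [h1] at this
    simpa using this
  · right
    rw [eq_top_iff]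
    intro w _
    have : e.symm w ∈ S.comap e.toLinearMap := h1 ▸ Submodule.mem_top
    simpa using this

lemma irreducible_comp_iff {Q : Type} [Group Q] (π : G →* Q) (hπ : Function.Surjective π)
    (σ : Representation ℂ Q V) :
    Representation.IsIrreducible (σ.comp π : Representation ℂ G V) ↔ σ.IsIrreducible := by
  rw [irreducible_iff, irreducible_iff]
  refine and_congr Iff.rfl (forall_congr' (fun S => imp_congr_left ?_))
  constructor
  · intro h q v hv
    obtain ⟨g, rfl⟩ := hπ q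
    exact h g v hv
  · intro h g v hv
    exact h (π g) v hv

/-- A nonzero finite-dimensional representation has an irreducible subrepresentation. -/
lemma exists_irreducible_sub [FiniteDimensional ℂ V] (ρ : Representation ℂ G V)
    (hV : ∃ v : V, v ≠ 0) : ∃ S : Subrepresentation ρ, S.toRepresentation.IsIrreducible := by
  classical
  have hex : ∃ d, ∃ S : Subrepresentation ρ, S.toSubmodule ≠ ⊥ ∧ finrank ℂ S.toSubmodule = d := by
    obtain ⟨v, hv⟩ := hV
    refine ⟨_, ⊤, fun h => hv ?_, rfl⟩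
    have : v ∈ (⊥ : Submodule ℂ V) := h ▸ Submodule.mem_top
    simpa using this
  obtain ⟨S, hS, hd⟩ := Nat.find_spec hex
  refine ⟨S, (irreducible_iff _).2 ⟨?_, fun T hT => ?_⟩⟩
  · obtain ⟨v, hv, hv0⟩ := Submodule.exists_mem_ne_zero_of_ne_bot hS
    exact ⟨⟨v, hv⟩, fun h => hv0 (congrArg Subtype.val h)⟩
  · by_cases hT0 : T = ⊥
    · exact Or.inl hT0
    right
    let T' : Subrepresentation ρ := ⟨T.map S.toSubmodule.subtype, by
      rintro g _ ⟨v, hv, rfl⟩
      exact ⟨_, hT g v hv, rfl⟩⟩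
    have h1 : T'.toSubmodule ≠ ⊥ := by
      intro h
      apply hT0
      rw [eq_bot_iff]
      intro v hv
      have : v.1 ∈ T'.toSubmodule := ⟨v, hv, rfl⟩
      rw [h] at this
      simpa using this
    have h2 := Nat.find_min' hex ⟨T', h1, rfl⟩
    have h3 : finrank ℂ T'.toSubmodule = finrank ℂ T := Submodule.finrank_map_subtype_eq _ _
    exact Submodule.eq_top_of_finrank_eq (le_antisymm T.finrank_le (by omega))

lemma schur [FiniteDimensional ℂ V] {ρ : Representation ℂ G V} (hρ : ρ.IsIrreducible)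
    (T : V →ₗ[ℂ] V) (hT : ∀ g v, T (ρ g v) = ρ g (T v)) : ∃ c : ℂ, ∀ v, T v = c • v := by
  obtain ⟨c, hc⟩ := (IsIrreducible.algebraMap_intertwiningMap_bijective_of_isAlgClosed
    (ρ := ρ)).2 ⟨T, fun g => LinearMap.ext (hT g)⟩
  refine ⟨c, fun v => ?_⟩
  have := congrArg (fun f : IntertwiningMap ρ ρ => f v) hc
  simpa using this.symm

lemma finrank_pos_of_irreducible [FiniteDimensional ℂ V] {ρ : Representation ℂ G V}
    (hρ : ρ.IsIrreducible) : 0 < finrank ℂ V := by
  obtain ⟨v, hv⟩ := ((irreducible_iff ρ).1 hρ).1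
  have : Nontrivial V := ⟨v, 0, hv⟩
  exact finrank_pos

end general

/-- The irreducible complex characters. -/
def IrrChar (G : Type) [Group G] : Set (G → ℂ) :=
  {χ | ∃ (V : Type) (_ : AddCommGroup V) (_ : Module ℂ V) (_ : FiniteDimensional ℂ V)
    (ρ : Representation ℂ G V), ρ.IsIrreducible ∧ ρ.character = χ}

section finite
variable {G : Type} [Group G] [Fintype G] {V W : Type} [AddCommGroup V] [Module ℂ V]
  [AddCommGroup W] [Module ℂ W]

noncomputable instance invCard : Invertible (Nat.card G : ℂ) :=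
  invertibleOfNonzero (by exact_mod_cast (Nat.card_pos (α := G)).ne')

lemma card_ne_zero : (Nat.card G : ℂ) ≠ 0 := by exact_mod_cast (Nat.card_pos (α := G)).ne'

lemma equiv_of_char_eq [FiniteDimensional ℂ V] [FiniteDimensional ℂ W]
    {ρ : Representation ℂ G V} {σ : Representation ℂ G W} (hρ : ρ.IsIrreducible)
    (hσ : σ.IsIrreducible) (h : ρ.character = σ.character) : Nonempty (ρ.Equiv σ) := by
  have h1 := char_orthonormal σ ρ
  have h2 := char_orthonormal σ σ
  rw [h, h2, if_pos ⟨Representation.Equiv.refl σ⟩] at h1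
  by_contra hne
  rw [if_neg hne] at h1
  exact one_ne_zero h1

lemma irr_orth {χ ψ : G → ℂ} (hχ : χ ∈ IrrChar G) (hψ : ψ ∈ IrrChar G) (hne : χ ≠ ψ) :
    ∑ g, χ g * ψ g⁻¹ = 0 := by
  obtain ⟨V, _, _, _, ρ, hρ, rfl⟩ := hχ
  obtain ⟨W, _, _, _, σ, hσ, rfl⟩ := hψ
  have h1 := char_orthonormal ρ σ
  rw [if_neg (fun ⟨e⟩ => hne (char_iso e).symm)] at h1
  exact (mul_eq_zero.1 h1).resolve_left (inv_ne_zero card_ne_zero)

lemma irr_norm {χ : G → ℂ} (hχ : χ ∈ IrrChar G) : ∑ g, χ g * χ g⁻¹ = Nat.card G := by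
  obtain ⟨V, _, _, _, ρ, hρ, rfl⟩ := hχ
  have h1 := char_orthonormal ρ ρ
  rw [if_pos ⟨Representation.Equiv.refl ρ⟩] at h1
  exact ((inv_mul_eq_one₀ card_ne_zero).1 h1).symm

omit [Fintype G] in
lemma irr_conj {χ : G → ℂ} (hχ : χ ∈ IrrChar G) (g h : G) : χ (h * g * h⁻¹) = χ g := by
  obtain ⟨V, _, _, _, ρ, hρ, rfl⟩ := hχ
  exact char_conj ρ g h

omit [Fintype G] in
lemma irr_one {χ : G → ℂ} (hχ : χ ∈ IrrChar G) : ∃ d : ℕ, 0 < d ∧ χ 1 = d := by
  obtain ⟨V, _, _, _, ρ, hρ, rfl⟩ := hχ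
  exact ⟨_, finrank_pos_of_irreducible hρ, char_one ρ⟩

/-- The operator attached to a class function. -/
noncomputable def proj (ψ : G → ℂ) (ρ : Representation ℂ G V) : V →ₗ[ℂ] V := ∑ g, ψ g⁻¹ • ρ g

lemma proj_apply (ψ : G → ℂ) (ρ : Representation ℂ G V) (v : V) :
    proj ψ ρ v = ∑ g, ψ g⁻¹ • ρ g v := by
  simp [proj, LinearMap.sum_apply]

lemma proj_comm {ψ : G → ℂ} (hψ : ∀ g h, ψ (h * g * h⁻¹) = ψ g) (ρ : Representation ℂ G V)
    (h : G) (v : V) : proj ψ ρ (ρ h v) = ρ h (proj ψ ρ v) := by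
  rw [proj_apply, proj_apply, map_sum]
  refine (Fintype.sum_equiv (MulAut.conj h).toEquiv _ _ (fun g => ?_)).symm
  simp only [MulEquiv.toEquiv_eq_coe, EquivLike.coe_coe, MulAut.conj_apply, map_smul]
  have h1 : (h * g * h⁻¹)⁻¹ = h * g⁻¹ * h⁻¹ := by group
  rw [h1, hψ, ← Module.End.mul_apply, ← Module.End.mul_apply, ← map_mul, ← map_mul]
  congr 3
  group

lemma trace_proj [FiniteDimensional ℂ V] (ψ : G → ℂ) (ρ : Representation ℂ G V) :
    LinearMap.trace ℂ V (proj ψ ρ) = ∑ g, ρ.character g * ψ g⁻¹ := by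
  simp [proj, character, mul_comm]

lemma proj_scalar [FiniteDimensional ℂ V] {ρ : Representation ℂ G V} (hρ : ρ.IsIrreducible)
    {ψ : G → ℂ} (hψ : ∀ g h, ψ (h * g * h⁻¹) = ψ g) :
    ∃ c : ℂ, (∀ v, proj ψ ρ v = c • v) ∧ c * finrank ℂ V = ∑ g, ρ.character g * ψ g⁻¹ := by
  obtain ⟨c, hc⟩ := schur hρ (proj ψ ρ) (proj_comm hψ ρ)
  refine ⟨c, hc, ?_⟩
  rw [← trace_proj, show proj ψ ρ = c • LinearMap.id from LinearMap.ext hc]
  simp

lemma proj_eq_zero [FiniteDimensional ℂ V] {ρ : Representation ℂ G V} (hρ : ρ.IsIrreducible)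
    {ψ : G → ℂ} (hψ : ψ ∈ IrrChar G) (hne : ρ.character ≠ ψ) (v : V) : proj ψ ρ v = 0 := by
  obtain ⟨c, hc, hc'⟩ := proj_scalar hρ (irr_conj hψ)
  rw [irr_orth ⟨V, _, _, inferInstance, ρ, hρ, rfl⟩ hψ hne] at hc'
  have h1 : (finrank ℂ V : ℂ) ≠ 0 := by exact_mod_cast (finrank_pos_of_irreducible hρ).ne'
  rw [hc, (mul_eq_zero.1 hc').resolve_right h1, zero_smul]

lemma proj_self [FiniteDimensional ℂ V] {ρ : Representation ℂ G V} (hρ : ρ.IsIrreducible) :
    ∃ c : ℂ, c ≠ 0 ∧ ∀ v, proj ρ.character ρ v = c • v := by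
  obtain ⟨c, hc, hc'⟩ := proj_scalar hρ (char_conj ρ)
  rw [irr_norm ⟨V, _, _, inferInstance, ρ, hρ, rfl⟩] at hc'
  refine ⟨c, fun h => ?_, hc⟩
  rw [h, zero_mul] at hc'
  exact card_ne_zero hc'.symm

/-- A family of functions dual to distinct irreducible characters is independent. -/
lemma card_le_of_dual {X : Type} [Fintype X] (s : Finset (G → ℂ)) (p : G → X)
    (F : (G → ℂ) → X → ℂ) (h0 : ∀ χ ∈ s, ∀ ψ ∈ s, χ ≠ ψ → ∑ g, ψ g⁻¹ * F χ (p g) = 0)
    (h1 : ∀ χ ∈ s, ∑ g, χ g⁻¹ * F χ (p g) ≠ 0) : s.card ≤ Fintype.card X := by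
  have hli : LinearIndependent ℂ (fun χ : s => F χ) := by
    rw [Fintype.linearIndependent_iff]
    intro c hc ψ
    have h2 : ∑ g, ψ.1 g⁻¹ * (∑ χ : s, c χ • F χ) (p g) = 0 := by
      rw [hc]
      simp
    simp only [Finset.sum_apply, Pi.smul_apply, smul_eq_mul, Finset.mul_sum] at h2
    rw [Finset.sum_comm, Finset.sum_eq_single ψ] at h2
    · simp_rw [mul_left_comm _ (c ψ), ← Finset.mul_sum] at h2
      exact (mul_eq_zero.1 h2).resolve_right (h1 ψ ψ.2)
    · intro χ _ hne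
      simp_rw [mul_left_comm _ (c χ), ← Finset.mul_sum]
      rw [h0 χ χ.2 ψ ψ.2 (fun h => hne (Subtype.ext h)), mul_zero]
    · simp
  simpa using hli.fintype_card_le_finrank

lemma card_le_of_factor {X : Type} [Fintype X] (s : Finset (G → ℂ)) (hs : ↑s ⊆ IrrChar G)
    (p : G → X) (hp : ∀ χ ∈ s, ∀ g h, p g = p h → χ g = χ h) : s.card ≤ Fintype.card X := by
  have hF : ∀ χ ∈ s, ∀ g, Function.extend p χ 0 (p g) = χ g := fun χ hχ g =>
    Function.FactorsThrough.extend_apply (fun g h => hp χ hχ g h) 0 g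
  refine card_le_of_dual s p (fun χ => Function.extend p χ 0) (fun χ hχ ψ hψ hne => ?_)
    (fun χ hχ => ?_)
  · simp_rw [hF χ hχ, mul_comm]
    exact irr_orth (hs hχ) (hs hψ) hne
  · simp_rw [hF χ hχ, mul_comm]
    rw [irr_norm (hs hχ)]
    exact card_ne_zero

lemma irrChar_finite : (IrrChar G).Finite := by
  by_contra h
  obtain ⟨s, hs, hc⟩ := Set.Infinite.exists_subset_card_eq h (Fintype.card G + 1)
  have := card_le_of_factor s hs id (fun χ _ g h hgh => congrArg χ hgh)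
  omega

/-- Counting irreducible characters with a matrix coefficient that factors through `p`. -/
lemma card_le_of_coeff {X : Type} [Fintype X] (s : Finset (G → ℂ)) (p : G → X)
    (hs : ∀ χ ∈ s, ∃ (V : Type) (_ : AddCommGroup V) (_ : Module ℂ V) (_ : FiniteDimensional ℂ V)
      (ρ : Representation ℂ G V), ρ.IsIrreducible ∧ ρ.character = χ ∧
      ∃ (v : V) (l : V →ₗ[ℂ] ℂ), l v ≠ 0 ∧ ∀ g h, p g = p h → l (ρ g v) = l (ρ h v)) :
    s.card ≤ Fintype.card X := by
  have key : ∀ χ ∈ s, ∃ F : X → ℂ, (∀ ψ ∈ IrrChar G, χ ≠ ψ → ∑ g, ψ g⁻¹ * F (p g) = 0) ∧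
      ∑ g, χ g⁻¹ * F (p g) ≠ 0 := by
    intro χ hχ
    obtain ⟨V, _, _, _, ρ, hρ, rfl, v, l, hl, hp⟩ := hs χ hχ
    have hF : ∀ g, Function.extend p (fun g => l (ρ g v)) 0 (p g) = l (ρ g v) := fun g =>
      Function.FactorsThrough.extend_apply (g := fun g => l (ρ g v))
        (fun g h hgh => hp g h hgh) 0 g
    have h2 : ∀ ψ : G → ℂ, ∑ g, ψ g⁻¹ * Function.extend p (fun g => l (ρ g v)) 0 (p g)
        = l (proj ψ ρ v) := by
      intro ψ
      simp [hF, proj_apply]
    refine ⟨Function.extend p (fun g => l (ρ g v)) 0, fun ψ hψ hne => ?_, ?_⟩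
    · rw [h2, proj_eq_zero hρ hψ hne, map_zero]
    · obtain ⟨c, hc, hc'⟩ := proj_self hρ
      rw [h2, hc', map_smul]
      exact mul_ne_zero hc hl
  classical
  choose! F hF0 hF1 using key
  refine card_le_of_dual s p F (fun χ hχ ψ hψ hne => hF0 χ hχ ψ ?_ hne) hF1
  obtain ⟨V, _, _, _, ρ, hρ, h, _⟩ := hs ψ hψ
  exact ⟨V, _, _, inferInstance, ρ, hρ, h⟩

/-- Counting irreducible characters with a vector whose orbit map factors through `p`. -/
lemma card_le_of_fixed {X : Type} [Fintype X] (s : Finset (G → ℂ)) (p : G → X)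
    (hs : ∀ χ ∈ s, ∃ (V : Type) (_ : AddCommGroup V) (_ : Module ℂ V) (_ : FiniteDimensional ℂ V)
      (ρ : Representation ℂ G V), ρ.IsIrreducible ∧ ρ.character = χ ∧
      ∃ v : V, v ≠ 0 ∧ ∀ g h, p g = p h → ρ g v = ρ h v) : s.card ≤ Fintype.card X := by
  refine card_le_of_coeff s p (fun χ hχ => ?_)
  obtain ⟨V, _, _, _, ρ, hρ, h, v, hv, hp⟩ := hs χ hχ
  obtain ⟨l, hl⟩ := Module.Projective.exists_dual_ne_zero ℂ hv
  exact ⟨V, _, _, inferInstance, ρ, hρ, h, v, l, hl, fun g h hgh => congrArg l (hp g h hgh)⟩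

/-- A representation whose character has norm one is irreducible. -/
lemma irreducible_of_norm [FiniteDimensional ℂ V] (ρ : Representation ℂ G V)
    (h : ∑ g, ρ.character g * ρ.character g⁻¹ = Nat.card G) : ρ.IsIrreducible := by
  have h1 := card_inv_mul_sum_char_mul_char_eq_finrank ρ ρ
  rw [h, inv_mul_cancel₀ card_ne_zero] at h1
  have h2 : finrank ℂ (IntertwiningMap ρ ρ) = 1 := by exact_mod_cast h1.symm
  have hV : ∃ v : V, v ≠ 0 := by
    by_contra hv
    push Not at hv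
    have : Subsingleton (IntertwiningMap ρ ρ) := ⟨fun a b => by
      ext v
      rw [hv (a.toLinearMap v), hv (b.toLinearMap v)]⟩
    rw [finrank_zero_of_subsingleton] at h2
    exact zero_ne_one h2
  rw [irreducible_iff]
  refine ⟨hV, fun S hS => ?_⟩
  have : NeZero (Nat.card G : ℂ) := ⟨card_ne_zero⟩
  obtain ⟨T, hT⟩ := exists_isCompl (⟨S, fun g v hv => hS g v hv⟩ : Subrepresentation ρ)
  have hT' : IsCompl S T.toSubmodule := by
    refine ⟨disjoint_iff.2 ?_, codisjoint_iff.2 ?_⟩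
    · exact congrArg Subrepresentation.toSubmodule hT.inf_eq_bot
    · exact congrArg Subrepresentation.toSubmodule hT.sup_eq_top
  let P : V →ₗ[ℂ] V := S.projection _ hT'
  have hP1 : ∀ v ∈ S, P v = v := fun v hv => Submodule.projection_apply_of_mem_left hT' hv
  have hP2 : ∀ v ∈ T.toSubmodule, P v = 0 := fun v hv =>
    (Submodule.projection_apply_eq_zero_iff hT').2 hv
  have hP : ∀ g v, P (ρ g v) = ρ g (P v) := by
    intro g v
    have : v ∈ S ⊔ T.toSubmodule := hT'.sup_eq_top ▸ Submodule.mem_top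
    obtain ⟨a, ha, b, hb, rfl⟩ := Submodule.mem_sup.1 this
    rw [map_add, map_add, map_add, hP1 a ha, hP2 b hb, hP1 _ (hS g a ha),
      hP2 _ (T.apply_mem_toSubmodule g hb), map_add, map_zero]
  obtain ⟨v₀, hv₀⟩ := hV
  have hid : (IntertwiningMap.id ρ) ≠ 0 := fun h => hv₀ (by
    simpa using congrArg (fun f : IntertwiningMap ρ ρ => f v₀) h)
  obtain ⟨c, hc⟩ := (finrank_eq_one_iff_of_nonzero' _ hid).1 h2 ⟨P, fun g => LinearMap.ext (hP g)⟩
  have hc' : ∀ v, P v = c • v := fun v => by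
    simpa using (congrArg (fun f : IntertwiningMap ρ ρ => f v) hc).symm
  by_cases hc0 : c = 0
  · left
    rw [eq_bot_iff]
    intro v hv
    have := hP1 v hv
    rw [hc', hc0, zero_smul] at this
    simp [← this]
  · right
    rw [eq_top_iff]
    intro v _
    have : c • v ∈ S := by
      rw [← hc']
      exact Submodule.projection_apply_mem hT' v
    exact (S.smul_mem_iff hc0).1 this

end finite

end Pool.Agent.MP_810665_al

end

section

namespace Pool.Agent.MP_810665_al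

open Representation Module

section prod
variable {G H : Type} [Group G] [Fintype G] [Group H] [Fintype H]

/-- External product of two functions. -/
def extMul (χ : G → ℂ) (ψ : H → ℂ) : G × H → ℂ := fun x => χ x.1 * ψ x.2

lemma extMul_mem {χ : G → ℂ} {ψ : H → ℂ} (hχ : χ ∈ IrrChar G) (hψ : ψ ∈ IrrChar H) :
    extMul χ ψ ∈ IrrChar (G × H) := by
  have h1 := irr_norm hχ
  have h2 := irr_norm hψ
  obtain ⟨V, _, _, _, ρ, hρ, rfl⟩ := hχ
  obtain ⟨W, _, _, _, σ, hσ, rfl⟩ := hψ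
  let τ : Representation ℂ (G × H) (TensorProduct ℂ V W) :=
    tprod (ρ.comp (MonoidHom.fst G H)) (σ.comp (MonoidHom.snd G H))
  have hτ : τ.character = extMul ρ.character σ.character := by
    rw [char_tensor]
    rfl
  refine ⟨_, _, _, inferInstance, τ, irreducible_of_norm τ ?_, hτ⟩
  rw [hτ, Nat.card_prod, Nat.cast_mul, ← h1, ← h2, Finset.sum_mul_sum, Fintype.sum_prod_type]
  refine Finset.sum_congr rfl (fun g _ => Finset.sum_congr rfl (fun h _ => ?_))
  simp only [extMul, Prod.inv_mk]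
  ring

omit [Fintype H] in
lemma exists_scalar_factor {K : Type} [Group K] {U : Type} [AddCommGroup U] [Module ℂ U]
    [FiniteDimensional ℂ U] {τ : Representation ℂ K U} (hτ : τ.IsIrreducible) (i : G →* K)
    (hi : ∀ k : K, ∃ g : G, ∀ x : G, k * i x * k⁻¹ = i (g * x * g⁻¹)) :
    ∃ χ ∈ IrrChar G, ∃ c : ℂ, c ≠ 0 ∧ ∀ v, proj χ (τ.comp i) v = c • v := by
  obtain ⟨S, hS⟩ := exists_irreducible_sub (τ.comp i : Representation ℂ G U)
    ((irreducible_iff τ).1 hτ).1
  have hmem : S.toRepresentation.character ∈ IrrChar G := ⟨_, _, _, inferInstance, _, hS, rfl⟩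
  obtain ⟨c, hc⟩ := schur hτ (proj S.toRepresentation.character (τ.comp i)) (by
    intro k v
    obtain ⟨g, hg⟩ := hi k
    rw [proj_apply, proj_apply, map_sum]
    refine (Fintype.sum_equiv (MulAut.conj g).toEquiv _ _ (fun x => ?_)).symm
    simp only [MulEquiv.toEquiv_eq_coe, EquivLike.coe_coe, MulAut.conj_apply, map_smul,
      MonoidHom.comp_apply]
    have h1 : (g * x * g⁻¹)⁻¹ = g * x⁻¹ * g⁻¹ := by group
    rw [h1, char_conj, ← hg, ← Module.End.mul_apply, ← Module.End.mul_apply, ← map_mul,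
      ← map_mul]
    congr 3
    group)
  refine ⟨_, hmem, c, fun h0 => ?_, hc⟩
  obtain ⟨d, hd, hd'⟩ := proj_self hS
  obtain ⟨v, hv⟩ := ((irreducible_iff _).1 hS).1
  have h1 := congrArg Subtype.val (hd' v)
  have h2 := hc v.1
  rw [proj_apply] at h1 h2
  simp only [AddSubmonoidClass.coe_finsetSum, SetLike.val_smul] at h1
  have h3 : d • v.1 = c • v.1 := h1.symm.trans h2
  rw [h0, zero_smul, smul_eq_zero] at h3
  exact hv (Subtype.ext (h3.resolve_left hd))

lemma exists_extMul {θ : G × H → ℂ} (hθ : θ ∈ IrrChar (G × H)) :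
    ∃ χ ∈ IrrChar G, ∃ ψ ∈ IrrChar H, θ = extMul χ ψ := by
  have hθ' := hθ
  obtain ⟨U, _, _, _, τ, hτ, rfl⟩ := hθ
  obtain ⟨χ, hχ, c, hc, hc'⟩ := exists_scalar_factor hτ (MonoidHom.inl G H)
    (fun k => ⟨k.1, fun x => by ext <;> simp⟩)
  obtain ⟨ψ, hψ, d, hd, hd'⟩ := exists_scalar_factor hτ (MonoidHom.inr G H)
    (fun k => ⟨k.2, fun x => by ext <;> simp⟩)
  refine ⟨χ, hχ, ψ, hψ, ?_⟩
  by_contra hne
  obtain ⟨v, hv⟩ := ((irreducible_iff _).1 hτ).1
  have h1 := proj_eq_zero hτ (extMul_mem hχ hψ) hne v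
  have h2 : proj (extMul χ ψ) τ v
      = proj χ (τ.comp (MonoidHom.inl G H)) (proj ψ (τ.comp (MonoidHom.inr G H)) v) := by
    rw [proj_apply, proj_apply, proj_apply, Fintype.sum_prod_type]
    refine Finset.sum_congr rfl (fun g _ => ?_)
    rw [map_sum, Finset.smul_sum]
    refine Finset.sum_congr rfl (fun h _ => ?_)
    simp only [extMul, Prod.inv_mk, MonoidHom.comp_apply, map_smul, smul_smul]
    rw [← Module.End.mul_apply, ← map_mul]
    simp
  rw [h2, hd', hc', smul_smul, smul_eq_zero] at h1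
  exact hv (h1.resolve_left (mul_ne_zero hc hd))

lemma extMul_inj {χ χ' : G → ℂ} {ψ ψ' : H → ℂ} (hχ : χ ∈ IrrChar G) (hχ' : χ' ∈ IrrChar G)
    (hψ : ψ ∈ IrrChar H) (hψ' : ψ' ∈ IrrChar H) (h : extMul χ ψ = extMul χ' ψ') :
    χ = χ' ∧ ψ = ψ' := by
  have h1 := irr_norm (extMul_mem hχ hψ)
  have h2 : ∑ x : G × H, extMul χ ψ x * extMul χ' ψ' x⁻¹
      = (∑ g, χ g * χ' g⁻¹) * ∑ k, ψ k * ψ' k⁻¹ := by
    rw [Finset.sum_mul_sum, Fintype.sum_prod_type]
    refine Finset.sum_congr rfl (fun g _ => Finset.sum_congr rfl (fun k _ => ?_))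
    simp only [extMul, Prod.inv_mk]
    ring
  rw [← h, h1] at h2
  have h3 := card_ne_zero (G := G × H)
  rw [h2] at h3
  constructor
  · by_contra hne
    rw [irr_orth hχ hχ' hne, zero_mul] at h3
    exact h3 rfl
  · by_contra hne
    rw [irr_orth hψ hψ' hne, mul_zero] at h3
    exact h3 rfl

end prod

/-- The number of irreducible characters of degree `n`. -/
noncomputable def irrCount (G : Type) [Group G] (n : ℕ) : ℕ :=
  {χ ∈ IrrChar G | χ 1 = n}.ncard

lemma irrCount_zero (G : Type) [Group G] : irrCount G 0 = 0 := by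
  unfold irrCount
  suffices h : {χ ∈ IrrChar G | χ 1 = (0 : ℕ)} = ∅ by rw [h, Set.ncard_empty]
  rw [Set.eq_empty_iff_forall_notMem]
  rintro χ ⟨hχ, h0⟩
  obtain ⟨d, hd, hd'⟩ := irr_one hχ
  rw [hd'] at h0
  exact hd.ne' (by exact_mod_cast h0)

/-- The formal representation zeta function. -/
noncomputable def zetaAF (G : Type) [Group G] : ArithmeticFunction ℤ :=
  ⟨fun n => irrCount G n, by simp [irrCount_zero]⟩

lemma zetaAF_apply (G : Type) [Group G] (n : ℕ) : zetaAF G n = irrCount G n := rfl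

lemma zetaAF_prod (G H : Type) [Group G] [Finite G] [Group H] [Finite H] :
    zetaAF (G × H) = zetaAF G * zetaAF H := by
  classical
  have := Fintype.ofFinite G
  have := Fintype.ofFinite H
  ext n
  rcases Nat.eq_zero_or_pos n with rfl | hn
  · simp
  rw [ArithmeticFunction.mul_apply]
  simp only [zetaAF_apply]
  norm_cast
  let A := (irrChar_finite (G := G)).toFinset
  let B := (irrChar_finite (G := H)).toFinset
  have hA : ∀ d : ℕ, irrCount G d = (A.filter (fun χ : G → ℂ => χ 1 = (d : ℂ))).card := fun d => by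
    rw [irrCount, ← Set.ncard_coe_finset]
    congr 1
    ext χ
    simp [A]
  have hB : ∀ d : ℕ, irrCount H d = (B.filter (fun χ : H → ℂ => χ 1 = (d : ℂ))).card := fun d => by
    rw [irrCount, ← Set.ncard_coe_finset]
    congr 1
    ext χ
    simp [B]
  simp_rw [hA, hB, ← Finset.card_product]
  rw [← Finset.card_sigma, irrCount, ← Set.ncard_coe_finset]
  symm
  refine Set.ncard_congr (fun q _ => extMul q.2.1 q.2.2) ?_ ?_ ?_
  · rintro ⟨d, χ, ψ⟩ hq
    simp only [Finset.coe_sigma, Set.mem_sigma_iff, Finset.mem_coe, Nat.mem_divisorsAntidiagonal,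
      Finset.mem_product, Finset.mem_filter, Set.Finite.mem_toFinset, A, B] at hq
    refine ⟨extMul_mem hq.2.1.1 hq.2.2.1, ?_⟩
    simp only [extMul, Prod.fst_one, Prod.snd_one, hq.2.1.2, hq.2.2.2]
    exact_mod_cast hq.1.1
  · rintro ⟨d, χ, ψ⟩ ⟨d', χ', ψ'⟩ hq hq' h
    simp only [Finset.coe_sigma, Set.mem_sigma_iff, Finset.mem_coe, Nat.mem_divisorsAntidiagonal,
      Finset.mem_product, Finset.mem_filter, Set.Finite.mem_toFinset, A, B] at hq hq'
    obtain ⟨rfl, rfl⟩ := extMul_inj hq.2.1.1 hq'.2.1.1 hq.2.2.1 hq'.2.2.1 h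
    have h1 : d.1 = d'.1 := by exact_mod_cast hq.2.1.2.symm.trans hq'.2.1.2
    have h2 : d.2 = d'.2 := by exact_mod_cast hq.2.2.2.symm.trans hq'.2.2.2
    rw [Prod.ext h1 h2]
  · rintro θ ⟨hθ, hθ1⟩
    obtain ⟨χ, hχ, ψ, hψ, rfl⟩ := exists_extMul hθ
    obtain ⟨d, _, hd⟩ := irr_one hχ
    obtain ⟨e, _, he⟩ := irr_one hψ
    refine ⟨⟨(d, e), χ, ψ⟩, ?_, rfl⟩
    simp only [Finset.coe_sigma, Set.mem_sigma_iff, Finset.mem_coe, Nat.mem_divisorsAntidiagonal,
      Finset.mem_product, Finset.mem_filter, Set.Finite.mem_toFinset, A, B]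
    refine ⟨⟨?_, hn.ne'⟩, ⟨hχ, hd⟩, hψ, he⟩
    simp only [extMul, Prod.fst_one, Prod.snd_one, hd, he] at hθ1
    exact_mod_cast hθ1

lemma irrChar_comp {G H : Type} [Group G] [Group H] (π : G →* H) (hπ : Function.Surjective π)
    {χ : H → ℂ} (hχ : χ ∈ IrrChar H) : χ ∘ π ∈ IrrChar G := by
  obtain ⟨V, _, _, _, ρ, hρ, rfl⟩ := hχ
  exact ⟨V, _, _, inferInstance, ρ.comp π, (irreducible_comp_iff π hπ ρ).2 hρ, rfl⟩

lemma zetaAF_congr {G H : Type} [Group G] [Group H] (e : G ≃* H) : zetaAF G = zetaAF H := by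
  ext n
  simp only [zetaAF_apply, Nat.cast_inj, irrCount]
  refine Set.ncard_congr (fun χ _ => χ ∘ e.symm) ?_ ?_ ?_
  · rintro χ ⟨hχ, h1⟩
    exact ⟨irrChar_comp e.symm.toMonoidHom e.symm.surjective hχ, by simpa using h1⟩
  · intro χ ψ _ _ h
    exact e.symm.surjective.injective_comp_right h
  · rintro ψ ⟨hψ, h1⟩
    refine ⟨ψ ∘ e, ⟨irrChar_comp e.toMonoidHom e.surjective hψ, by simpa using h1⟩, ?_⟩
    ext x
    simp

lemma one_mem_irrChar (G : Type) [Group G] : (fun _ => (1 : ℂ)) ∈ IrrChar G := by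
  refine ⟨ℂ, _, _, inferInstance, Representation.trivial ℂ G ℂ, ?_, ?_⟩
  · rw [irreducible_iff]
    exact ⟨⟨1, one_ne_zero⟩, fun S _ => Ideal.eq_bot_or_top S⟩
  · ext g
    simp [character]

lemma char_of_trivial {G V : Type} [Group G] [AddCommGroup V] [Module ℂ V]
    [FiniteDimensional ℂ V] {ρ : Representation ℂ G V} (hρ : ρ.IsIrreducible)
    (h : ∀ g v, ρ g v = v) : ρ.character = fun _ => 1 := by
  obtain ⟨⟨v, hv⟩, hS⟩ := (irreducible_iff ρ).1 hρ
  have h1 : Submodule.span ℂ {v} = ⊤ := by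
    refine (hS _ (fun g w hw => by rwa [h])).resolve_left ?_
    simpa using hv
  have h2 : finrank ℂ V = 1 := by
    rw [← finrank_top, ← h1, finrank_span_singleton hv]
  ext g
  rw [character, show ρ g = LinearMap.id from LinearMap.ext (h g)]
  simp [h2]

lemma zetaAF_unique (G : Type) [Group G] [Subsingleton G] : zetaAF G = 1 := by
  have h : IrrChar G = {fun _ => 1} := by
    ext χ
    constructor
    · rintro ⟨V, _, _, _, ρ, hρ, rfl⟩
      exact char_of_trivial hρ (fun g v => by rw [Subsingleton.elim g 1]; simp)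
    · rintro rfl
      exact one_mem_irrChar G
  ext n
  rw [zetaAF_apply, irrCount, h, ArithmeticFunction.one_apply]
  split_ifs with hn
  · subst hn
    have : {χ ∈ ({fun _ => 1} : Set (G → ℂ)) | χ 1 = (1 : ℕ)} = {fun _ => 1} := by
      ext χ
      constructor
      · exact fun h => h.1
      · rintro rfl
        exact ⟨rfl, by simp⟩
    rw [this]
    simp
  · have : {χ ∈ ({fun _ => 1} : Set (G → ℂ)) | χ 1 = n} = ∅ := by
      rw [Set.eq_empty_iff_forall_notMem]
      rintro χ ⟨rfl, h1⟩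
      have h2 : (n : ℂ) = 1 := h1.symm
      exact hn (by exact_mod_cast h2)
    rw [this]
    simp

lemma zetaAF_pi (ι : Type) [Fintype ι] : ∀ (H : ι → Type) [∀ i, Group (H i)] [∀ i, Finite (H i)],
    zetaAF (∀ i, H i) = ∏ i, zetaAF (H i) := by
  revert ι
  refine Fintype.induction_empty_option ?_ ?_ ?_
  · intro α β _ e ih H _ _
    let : Fintype α := Fintype.ofEquiv β e.symm
    rw [← Equiv.prod_comp e, ← ih (fun a => H (e a))]
    exact zetaAF_congr
      { toFun := fun f a => f (e a)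
        invFun := Equiv.piCongrLeft H e
        left_inv := fun f => (Equiv.piCongrLeft H e).right_inv f
        right_inv := fun f => (Equiv.piCongrLeft H e).left_inv f
        map_mul' := fun _ _ => rfl }
  · intro H _ _
    simp [zetaAF_unique]
  · intro α _ ih H _ _
    rw [Fintype.prod_option, ← ih (fun a => H (some a)), ← zetaAF_prod]
    exact zetaAF_congr
      { toFun := fun f => (f none, fun a => f (some a))
        invFun := fun x o => Option.rec x.1 x.2 o
        left_inv := fun f => by funext o; cases o <;> rfl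
        right_inv := fun x => rfl
        map_mul' := fun _ _ => rfl }

end Pool.Agent.MP_810665_al

end
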