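import Pool.Agent.Mg.F810665.G3babc3

section

open Matrix

noncomputable section

namespace Pool.Agent.MP_8299d6_al.Up

open Pool.Agent.MP_810665_al (IrrChar)

/-- stable range of the integers -/
lemma csp1_sr (a b d x y z : ℤ) (hd : d ≠ 0) (h : a * x + b * y + d * z = 1) :
    ∃ t : ℤ, IsCoprime (a + t * b) d := by
  classical
  let ps : Finset ℕ := d.natAbs.primeFactors.filter (fun p => ¬ (p : ℤ) ∣ a)
  refine ⟨∏ p ∈ ps, (p : ℤ), isCoprime_of_prime_dvd (fun hh => hd hh.2) ?_⟩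
  intro q hq hq1 hq2
  have hp : q.natAbs.Prime := Int.prime_iff_natAbs_prime.1 hq
  have hqp : ∀ w : ℤ, (q.natAbs : ℤ) ∣ w ↔ q ∣ w := fun w => Int.natAbs_dvd
  by_cases hqa : q ∣ a
  · have h1 : q ∣ (∏ p ∈ ps, (p : ℤ)) * b := (dvd_add_right hqa).1 hq1
    rcases hq.dvd_or_dvd h1 with h2 | h2
    · obtain ⟨p, hp1, hp2⟩ := (hq.dvd_finsetProd_iff _).1 h2
      have hp3 := Finset.mem_filter.1 hp1
      have hp4 : p.Prime := Nat.prime_of_mem_primeFactors hp3.1
      have hp5 : q.natAbs ∣ p := by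
        have := (hqp _).2 hp2
        exact_mod_cast this
      have hp6 : q.natAbs = p := (Nat.prime_dvd_prime_iff_eq hp hp4).1 hp5
      exact hp3.2 (hp6 ▸ (hqp a).2 hqa)
    · have : q ∣ 1 := by
        rw [← h]
        exact dvd_add (dvd_add (hqa.mul_right _) (h2.mul_right _)) (hq2.mul_right _)
      exact hq.not_unit (isUnit_of_dvd_one this)
  · have hmem : q.natAbs ∈ ps := by
      refine Finset.mem_filter.2 ⟨Nat.mem_primeFactors.2 ⟨hp, ?_, Int.natAbs_ne_zero.2 hd⟩, ?_⟩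
      · exact Int.natAbs_dvd_natAbs.2 hq2
      · rwa [hqp]
    have h1 : q ∣ ∏ p ∈ ps, (p : ℤ) :=
      (hqp _).1 (Finset.dvd_prod_of_mem (fun p : ℕ => (p : ℤ)) hmem)
    exact hqa ((dvd_add_left (h1.mul_right b)).1 hq1)

lemma csp1_cong_iff {n : ℕ} (m : ℕ) (g : SLn n ℤ) : Cong m g ↔ g ∈ (redSL n m).ker := by
  rw [MonoidHom.mem_ker]
  constructor
  · intro h
    ext i j
    have h1 := (ZMod.intCast_zmod_eq_zero_iff_dvd _ m).2 (h i j)
    rw [Matrix.sub_apply, Int.cast_sub, sub_eq_zero] at h1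
    have h2 : ((redSL n m g).1 i j) = ((g.1 i j : ℤ) : ZMod m) := rfl
    rw [h2, h1]
    by_cases hij : i = j
    · subst hij; simp
    · simp [hij]
  · intro h i j
    rw [← ZMod.intCast_zmod_eq_zero_iff_dvd, Matrix.sub_apply, Int.cast_sub, sub_eq_zero]
    have h2 : ((redSL n m g).1 i j) = ((g.1 i j : ℤ) : ZMod m) := rfl
    rw [← h2, h]
    by_cases hij : i = j
    · subst hij; simp
    · simp [hij]

lemma csp1_coe_mul {n : ℕ} (g h : SLn n ℤ) : (g * h).1 = g.1 * h.1 := rfl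

lemma csp1_row {n : ℕ} (x y : Mat n ℤ) (a b : Fin n) (h : ∀ c, x a c = (1 : Mat n ℤ) a c) :
    (x * y) a b = y a b := by
  have : (x * y) a b = ((1 : Mat n ℤ) * y) a b := by
    simp only [mul_apply, h]
  rw [this, Matrix.one_mul]

lemma csp1_col {n : ℕ} (x y : Mat n ℤ) (a b : Fin n) (h : ∀ c, y c b = (1 : Mat n ℤ) c b) :
    (x * y) a b = x a b := by
  have : (x * y) a b = (x * (1 : Mat n ℤ)) a b := by
    simp only [mul_apply, h]
  rw [this, Matrix.mul_one]

/-- matrices that agree with the identity outside `S × S` -/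
def csp1P {n : ℕ} (S : Finset (Fin n)) : Subgroup (SLn n ℤ) where
  carrier := {g | ∀ a b, (a ∉ S ∨ b ∉ S) → g.1 a b = (1 : Mat n ℤ) a b}
  one_mem' := fun _ _ _ => rfl
  mul_mem' := by
    intro g h hg hh a b hab
    show (g.1 * h.1) a b = _
    rcases hab with ha | hb
    · rw [csp1_row _ _ _ _ (fun c => hg a c (Or.inl ha))]; exact hh a b (Or.inl ha)
    · rw [csp1_col _ _ _ _ (fun c => hh c b (Or.inr hb))]; exact hg a b (Or.inr hb)
  inv_mem' := by
    intro g hg a b hab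
    rcases hab with ha | hb
    · have h1 : g.1 * (g⁻¹).1 = 1 := by
        rw [← csp1_coe_mul, mul_inv_cancel]; rfl
      rw [← h1, csp1_row _ _ _ _ (fun c => hg a c (Or.inl ha))]
    · have h1 : (g⁻¹).1 * g.1 = 1 := by
        rw [← csp1_coe_mul, inv_mul_cancel]; rfl
      rw [← h1, csp1_col _ _ _ _ (fun c => hg c b (Or.inr hb))]

lemma csp1_memP {n : ℕ} {S : Finset (Fin n)} {g : SLn n ℤ} :
    g ∈ csp1P S ↔ ∀ a b, (a ∉ S ∨ b ∉ S) → g.1 a b = (1 : Mat n ℤ) a b := Iff.rfl

lemma csp1_el_mul {n : ℕ} {i j : Fin n} (hij : i ≠ j) (m c : ℤ) (K : Subgroup (SLn n ℤ))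
    (h : el hij m ∈ K) : el hij (m * c) ∈ K := by
  induction c using Int.induction_on with
  | zero => rw [mul_zero, el, SpecialLinearGroup.transvection_coeff_zero]; exact K.one_mem
  | succ k ih => rw [mul_add, mul_one, el, SpecialLinearGroup.transvection_add]; exact K.mul_mem ih h
  | pred k ih =>
    rw [mul_sub, mul_one, sub_eq_add_neg, el, SpecialLinearGroup.transvection_add,
      ← SpecialLinearGroup.transvection_inv]
    exact K.mul_mem ih (K.inv_mem h)

lemma csp1_el_coe {n : ℕ} {i j : Fin n} (hij : i ≠ j) (x : ℤ) :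
    (el hij x).1 = 1 + vecMulVec (Pi.single i x) (Pi.single j 1) := by
  rw [el, SpecialLinearGroup.transvection_coe]
  congr 1
  ext a b
  simp only [single_apply, vecMulVec_apply, Pi.single_apply, @eq_comm _ i a, @eq_comm _ j b]
  by_cases h1 : a = i <;> by_cases h2 : b = j <;> simp [h1, h2]

lemma csp1_el_coe' {n : ℕ} {i j : Fin n} (hij : i ≠ j) (x : ℤ) :
    (el hij x).1 = 1 + vecMulVec (Pi.single i 1) (Pi.single j x) := by
  rw [el, SpecialLinearGroup.transvection_coe]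
  congr 1
  ext a b
  simp only [single_apply, vecMulVec_apply, Pi.single_apply, @eq_comm _ i a, @eq_comm _ j b]
  by_cases h1 : a = i <;> by_cases h2 : b = j <;> simp [h1, h2]

/-- column operations -/
lemma csp1_colE {n : ℕ} (m : ℤ) (K : Subgroup (SLn n ℤ))
    (hK : ∀ (i j : Fin n) (hij : i ≠ j), el hij m ∈ K) (l : Fin n) (T : Finset (Fin n)) :
    ∀ c : Fin n → ℤ, (∀ a, a ∉ T → c a = 0) → c l = 0 → (∀ a, m ∣ c a) →
      ∃ x ∈ K, x.1 = 1 + vecMulVec c (Pi.single l 1) := by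
  induction T using Finset.induction_on with
  | empty =>
    intro c hc _ _
    have : c = 0 := funext fun a => hc a (by simp)
    exact ⟨1, K.one_mem, by simp [this]⟩
  | insert a T ha ih =>
    intro c hc hl hm
    by_cases hal : a = l
    · refine ih c (fun b hb => ?_) hl hm
      by_cases hba : b = a
      · rw [hba, hal, hl]
      · exact hc b (by simp [hba, hb])
    · obtain ⟨x, hx, hx'⟩ := ih (Function.update c a 0) (fun b hb => by
        by_cases hba : b = a
        · simp [hba]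
        · rw [Function.update_of_ne hba]; exact hc b (by simp [hba, hb]))
        (by rw [Function.update_of_ne (Ne.symm hal)]; exact hl)
        (fun b => by
          by_cases hba : b = a
          · simp [hba]
          · rw [Function.update_of_ne hba]; exact hm b)
      obtain ⟨t, ht⟩ := hm a
      refine ⟨el hal (m * t) * x, K.mul_mem (csp1_el_mul hal m t K (hK _ _ hal)) hx, ?_⟩
      rw [csp1_coe_mul, hx', csp1_el_coe, ← ht, Matrix.add_mul, Matrix.one_mul,
        Matrix.mul_add, Matrix.mul_one, vecMulVec_mul_vecMulVec, single_dotProduct,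
        Function.update_of_ne (Ne.symm hal), hl, mul_zero, zero_smul, vecMulVec_zero, add_zero,
        add_assoc, ← add_vecMulVec]
      congr 2
      funext b
      by_cases hba : b = a
      · simp [hba]
      · simp [hba]

/-- row operations -/
lemma csp1_rowE {n : ℕ} (m : ℤ) (K : Subgroup (SLn n ℤ))
    (hK : ∀ (i j : Fin n) (hij : i ≠ j), el hij m ∈ K) (l : Fin n) (T : Finset (Fin n)) :
    ∀ c : Fin n → ℤ, (∀ a, a ∉ T → c a = 0) → c l = 0 → (∀ a, m ∣ c a) →
      ∃ x ∈ K, x.1 = 1 + vecMulVec (Pi.single l 1) c := by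
  induction T using Finset.induction_on with
  | empty =>
    intro c hc _ _
    have : c = 0 := funext fun a => hc a (by simp)
    exact ⟨1, K.one_mem, by simp [this]⟩
  | insert a T ha ih =>
    intro c hc hl hm
    by_cases hal : a = l
    · refine ih c (fun b hb => ?_) hl hm
      by_cases hba : b = a
      · rw [hba, hal, hl]
      · exact hc b (by simp [hba, hb])
    · obtain ⟨x, hx, hx'⟩ := ih (Function.update c a 0) (fun b hb => by
        by_cases hba : b = a
        · simp [hba]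
        · rw [Function.update_of_ne hba]; exact hc b (by simp [hba, hb]))
        (by rw [Function.update_of_ne (Ne.symm hal)]; exact hl)
        (fun b => by
          by_cases hba : b = a
          · simp [hba]
          · rw [Function.update_of_ne hba]; exact hm b)
      obtain ⟨t, ht⟩ := hm a
      refine ⟨x * el (Ne.symm hal) (m * t),
        K.mul_mem hx (csp1_el_mul (Ne.symm hal) m t K (hK _ _ _)), ?_⟩
      rw [csp1_coe_mul, hx', csp1_el_coe', ← ht, Matrix.add_mul, Matrix.one_mul,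
        Matrix.mul_add, Matrix.mul_one, vecMulVec_mul_vecMulVec, dotProduct_single,
        Function.update_of_ne (Ne.symm hal), hl, zero_mul, zero_smul, vecMulVec_zero, add_zero,
        add_assoc, ← vecMulVec_add]
      congr 2
      funext b
      by_cases hba : b = a
      · simp [hba]
      · simp [hba]

lemma csp1_app {n : ℕ} (u w : Fin n → ℤ) (g : Mat n ℤ) (a b : Fin n) :
    ((1 + vecMulVec u w) * g) a b = g a b + u a * ∑ c, w c * g c b := by
  rw [Matrix.add_mul, Matrix.one_mul, Matrix.add_apply, mul_apply, Finset.mul_sum]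
  simp only [vecMulVec_apply, mul_assoc]

lemma csp1_app' {n : ℕ} (u w : Fin n → ℤ) (g : Mat n ℤ) (a b : Fin n) :
    (g * (1 + vecMulVec u w)) a b = g a b + (∑ c, g a c * u c) * w b := by
  rw [Matrix.mul_add, Matrix.mul_one, Matrix.add_apply, mul_apply, Finset.sum_mul]
  simp only [vecMulVec_apply, mul_assoc]

lemma csp1_sum_single {n : ℕ} (k : Fin n) (x : ℤ) (f : Fin n → ℤ) :
    ∑ c, (Pi.single k x : Fin n → ℤ) c * f c = x * f k := by
  rw [Finset.sum_eq_single k]
  · simp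
  · intro b _ hb; simp [hb]
  · simp

lemma csp1_sum_single' {n : ℕ} (k : Fin n) (x : ℤ) (f : Fin n → ℤ) :
    ∑ c, f c * (Pi.single k x : Fin n → ℤ) c = f k * x := by
  rw [Finset.sum_eq_single k]
  · simp
  · intro b _ hb; simp [hb]
  · simp

lemma csp1_el_app {n : ℕ} {i j : Fin n} (hij : i ≠ j) (x : ℤ) (g : SLn n ℤ) (a b : Fin n) :
    (el hij x * g).1 a b = g.1 a b + (if a = i then x else 0) * g.1 j b := by
  rw [csp1_coe_mul, csp1_el_coe, csp1_app, csp1_sum_single, one_mul, Pi.single_apply]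

lemma csp1_tvP {n : ℕ} {S : Finset (Fin n)} {x : SLn n ℤ} {u w : Fin n → ℤ}
    (hx : x.1 = 1 + vecMulVec u w) (hu : ∀ a, a ∉ S → u a = 0) (hw : ∀ a, a ∉ S → w a = 0) :
    x ∈ csp1P S := by
  intro a b hab
  rw [hx, Matrix.add_apply, vecMulVec_apply]
  rcases hab with h | h
  · rw [hu a h, zero_mul, add_zero]
  · rw [hw b h, mul_zero, add_zero]

lemma csp1_single_supp {n : ℕ} {S : Finset (Fin n)} {i : Fin n} (hi : i ∈ S) (x : ℤ) :
    ∀ a, a ∉ S → (Pi.single i x : Fin n → ℤ) a = 0 := by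
  intro a ha
  have : a ≠ i := fun h => ha (h ▸ hi)
  simp [this]

lemma csp1_elP {n : ℕ} {S : Finset (Fin n)} {i j : Fin n} (hij : i ≠ j) (hi : i ∈ S) (hj : j ∈ S)
    (x : ℤ) : el hij x ∈ csp1P S :=
  csp1_tvP (csp1_el_coe hij x) (csp1_single_supp hi x) (csp1_single_supp hj 1)

lemma csp1_cong_mul {n m : ℕ} {g h : SLn n ℤ} (hg : Cong m g) (hh : Cong m h) : Cong m (g * h) :=
  (csp1_cong_iff m _).2 (Subgroup.mul_mem _ ((csp1_cong_iff m _).1 hg) ((csp1_cong_iff m _).1 hh))

lemma csp1_cong_off {n m : ℕ} {g : SLn n ℤ} (hg : Cong m g) {a b : Fin n} (hab : a ≠ b) :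
    (m : ℤ) ∣ g.1 a b := by
  have := hg a b
  rwa [Matrix.sub_apply, one_apply_ne hab, sub_zero] at this

lemma csp1_cong_diag {n m : ℕ} {g : SLn n ℤ} (hg : Cong m g) (a : Fin n) :
    (m : ℤ) ∣ g.1 a a - 1 := by
  have := hg a a
  rwa [Matrix.sub_apply, one_apply_eq] at this

lemma csp1_out {n : ℕ} {S : Finset (Fin n)} {g : SLn n ℤ} (hg : g ∈ csp1P S) {l a : Fin n}
    (hl : l ∈ S) (ha : a ∉ S) : g.1 a l = 0 := by
  rw [hg a l (Or.inl ha), one_apply_ne (fun h : a = l => ha (h ▸ hl))]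

lemma csp1_unimod {n : ℕ} (g : SLn n ℤ) (l : Fin n) : ∑ a, (g⁻¹).1 l a * g.1 a l = 1 := by
  have h1 : (g⁻¹).1 * g.1 = 1 := by
    rw [← csp1_coe_mul, inv_mul_cancel]; rfl
  rw [← mul_apply, h1, one_apply_eq]

/-- column `l` can be cleared -/
def csp1Good {n : ℕ} (K : Subgroup (SLn n ℤ)) (S : Finset (Fin n)) (l : Fin n) (g : SLn n ℤ) :
    Prop := ∃ x ∈ K, x ∈ csp1P S ∧ ∀ a, (x * g).1 a l = (1 : Mat n ℤ) a l

lemma csp1_good_mul {n : ℕ} {K : Subgroup (SLn n ℤ)} {S : Finset (Fin n)} {l : Fin n}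
    {g y : SLn n ℤ} (hy : y ∈ K) (hy' : y ∈ csp1P S) (h : csp1Good K S l (y * g)) :
    csp1Good K S l g := by
  obtain ⟨x, hx, hx', h⟩ := h
  exact ⟨x * y, K.mul_mem hx hy, Subgroup.mul_mem _ hx' hy', fun a => by rw [mul_assoc]; exact h a⟩

section Steps
variable {n m : ℕ} {K : Subgroup (SLn n ℤ)} [hKn : K.Normal]
  (hK : ∀ (i j : Fin n) (hij : i ≠ j), el hij (m : ℤ) ∈ K) (hKc : ∀ x ∈ K, Cong m x)
  {S : Finset (Fin n)} {l k j : Fin n} (hl : l ∈ S) (hk : k ∈ S) (hlk : l ≠ k)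

include hK hl hk hlk in
lemma csp1_step3 {g : SLn n ℤ} (hgP : g ∈ csp1P S) (hg : Cong m g)
    (h : g.1 k l = 1 - g.1 l l) : csp1Good K S l g := by
  obtain ⟨e, he, he'⟩ := csp1_colE (m : ℤ) K hK l Finset.univ
    (fun a => if a = l then 0 else - g.1 a l) (fun a ha => absurd (Finset.mem_univ a) ha)
    (by simp) (fun a => by
      by_cases hal : a = l
      · simp [hal]
      · simp only [hal, if_false]; exact (dvd_neg).2 (csp1_cong_off hg hal))
  have heP : e ∈ csp1P S := csp1_tvP he' (fun a ha => by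
    have hal : a ≠ l := fun h => ha (h ▸ hl)
    simp only [hal, if_false]; rw [csp1_out hgP hl ha, neg_zero]) (csp1_single_supp hl 1)
  have hsP : el hlk (1 : ℤ) ∈ csp1P S := csp1_elP hlk hl hk 1
  refine ⟨(el hlk 1)⁻¹ * e * el hlk 1, hKn.conj_mem' e he _,
    Subgroup.mul_mem _ (Subgroup.mul_mem _ (Subgroup.inv_mem _ hsP) heP) hsP, fun a => ?_⟩
  have h1 : ∀ a, (e * (el hlk 1 * g)).1 a l = (1 : Mat n ℤ) a l := by
    intro a
    rw [csp1_coe_mul, he', csp1_app, csp1_sum_single, csp1_el_app, csp1_el_app, h]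
    by_cases hal : a = l
    · subst hal; simp
    · simp [hal]
  rw [mul_assoc, mul_assoc, el, SpecialLinearGroup.transvection_inv]
  rw [csp1_el_app, h1, h1, one_apply_ne hlk.symm, mul_zero, add_zero]

include hK hKc hl hk hlk in
lemma csp1_step2 {g : SLn n ℤ} (hgP : g ∈ csp1P S) (hg : Cong m g) (u : Fin n → ℤ)
    (h : ∑ a ∈ S.erase k, u a * g.1 a l = 1) : csp1Good K S l g := by
  have he : (m : ℤ) ∣ 1 - g.1 l l - g.1 k l := by
    refine dvd_sub ?_ (csp1_cong_off hg hlk.symm)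
    have := (dvd_neg).2 (csp1_cong_diag hg l)
    rwa [neg_sub] at this
  obtain ⟨y, hy, hy'⟩ := csp1_rowE (m : ℤ) K hK k Finset.univ
    (fun a => if a ∈ S.erase k then (1 - g.1 l l - g.1 k l) * u a else 0)
    (fun a ha => absurd (Finset.mem_univ a) ha) (by simp) (fun a => by
      by_cases ha : a ∈ S.erase k
      · simp only [ha, if_true]; exact he.mul_right _
      · simp only [ha, if_false]; exact dvd_zero _)
  have hyP : y ∈ csp1P S := csp1_tvP hy' (csp1_single_supp hk 1) (fun a ha => by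
    have : a ∉ S.erase k := fun h => ha (Finset.mem_of_mem_erase h)
    simp only [this, if_false])
  have h1 : ∀ a, (y * g).1 a l
      = g.1 a l + (if a = k then 1 else 0) * (1 - g.1 l l - g.1 k l) := by
    intro a
    rw [csp1_coe_mul, hy', csp1_app, Pi.single_apply]
    congr 2
    simp only [ite_mul, zero_mul]
    rw [Finset.sum_ite_mem, Finset.univ_inter]
    simp only [mul_assoc]
    rw [← Finset.mul_sum, h, mul_one]
  refine csp1_good_mul hy hyP (csp1_step3 hK hl hk hlk (Subgroup.mul_mem _ hyP hgP)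
    (csp1_cong_mul (hKc y hy) hg) ?_)
  rw [h1, h1, if_pos rfl, if_neg hlk]
  ring

include hK hKc hl hk hlk in
lemma csp1_step1 (hj : j ∈ S) (hjk : j ≠ k) (hjl : j ≠ l) {g : SLn n ℤ} (hgP : g ∈ csp1P S)
    (hg : Cong m g) (h : g.1 j l ≠ 0) : csp1Good K S l g := by
  have hlT : l ∈ S.erase k := Finset.mem_erase.2 ⟨hlk, hl⟩
  have hjT : j ∈ (S.erase k).erase l := Finset.mem_erase.2 ⟨hjl, Finset.mem_erase.2 ⟨hjk, hj⟩⟩
  obtain ⟨f, hf⟩ := Finset.gcd_eq_sum_mul ((S.erase k).erase l) (fun a => g.1 a l)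
  set d : ℤ := ((S.erase k).erase l).gcd (fun a => g.1 a l) with hd
  have hd0 : d ≠ 0 := fun h0 => h (Finset.gcd_eq_zero_iff.1 h0 j hjT)
  have hu := csp1_unimod g l
  rw [← Finset.sum_subset (Finset.subset_univ S) (fun a _ ha => by
    rw [csp1_out hgP hl ha, mul_zero]), ← Finset.add_sum_erase _ _ hk,
    ← Finset.add_sum_erase _ _ hlT] at hu
  obtain ⟨z, hz⟩ : d ∣ ∑ a ∈ (S.erase k).erase l, (g⁻¹).1 l a * g.1 a l :=
    Finset.dvd_sum (fun a ha => (Finset.gcd_dvd (f := fun a => g.1 a l) ha).mul_left _)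
  rw [hz] at hu
  obtain ⟨t0, ht0⟩ := csp1_cong_diag hg l
  obtain ⟨t, α, β, ht⟩ := csp1_sr (g.1 l l) (m * g.1 k l) d (1 - t0 * m * (g⁻¹).1 l l)
    (- t0 * (g⁻¹).1 l k) (- t0 * m * z) hd0 (by linear_combination ht0 - t0 * m * hu)
  have hy : el hlk ((m : ℤ) * t) ∈ K := csp1_el_mul hlk _ t K (hK _ _ hlk)
  have hyP : el hlk ((m : ℤ) * t) ∈ csp1P S := csp1_elP hlk hl hk _
  refine csp1_good_mul hy hyP (csp1_step2 hK hKc hl hk hlk (Subgroup.mul_mem _ hyP hgP)
    (csp1_cong_mul (hKc _ hy) hg) (fun a => if a = l then α else β * f a) ?_)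
  rw [← Finset.add_sum_erase _ _ hlT, if_pos rfl, csp1_el_app, if_pos rfl]
  have h2 : ∑ a ∈ (S.erase k).erase l, (if a = l then α else β * f a) *
      (el hlk ((m : ℤ) * t) * g).1 a l = β * d := by
    rw [hf, Finset.mul_sum]
    refine Finset.sum_congr rfl (fun a ha => ?_)
    have hal : a ≠ l := (Finset.mem_erase.1 ha).1
    rw [if_neg hal, csp1_el_app, if_neg hal]
    ring
  rw [h2]
  linear_combination ht

include hK hKc hl hk hlk in
lemma csp1_step0 (hj : j ∈ S) (hjk : j ≠ k) (hjl : j ≠ l) {g : SLn n ℤ} (hgP : g ∈ csp1P S)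
    (hg : Cong m g) : csp1Good K S l g := by
  by_cases h : g.1 j l = 0
  swap
  · exact csp1_step1 hK hKc hl hk hlk hj hjk hjl hgP hg h
  by_cases hm : (m : ℤ) = 0
  · refine ⟨1, K.one_mem, Subgroup.one_mem _, fun a => ?_⟩
    have := hg a l
    rw [hm, zero_dvd_iff, Matrix.sub_apply, sub_eq_zero] at this
    rw [one_mul, this]
  obtain ⟨c, hc⟩ : ∃ c, g.1 c l ≠ 0 := by
    by_contra hcon
    push Not at hcon
    have := csp1_unimod g l
    simp [hcon] at this
  have hjc : j ≠ c := fun hh => hc (hh ▸ h)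
  have hcS : c ∈ S := by
    by_contra hcS
    exact hc (csp1_out hgP hl hcS)
  have hy : el hjc (m : ℤ) ∈ K := hK _ _ hjc
  have hyP : el hjc (m : ℤ) ∈ csp1P S := csp1_elP hjc hj hcS _
  refine csp1_good_mul hy hyP (csp1_step1 hK hKc hl hk hlk hj hjk hjl (Subgroup.mul_mem _ hyP hgP)
    (csp1_cong_mul (hKc _ hy) hg) ?_)
  rw [csp1_el_app, if_pos rfl, h, zero_add]
  exact mul_ne_zero hm hc

include hK hKc hl hk hlk in
lemma csp1_remove (hj : j ∈ S) (hjk : j ≠ k) (hjl : j ≠ l) {g : SLn n ℤ} (hgP : g ∈ csp1P S)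
    (hg : Cong m g) : ∃ g' ∈ csp1P (S.erase l), Cong m g' ∧ g * g'⁻¹ ∈ K := by
  obtain ⟨x, hx, hxP, h⟩ := csp1_step0 hK hKc hl hk hlk hj hjk hjl hgP hg
  have hc : Cong m (x * g) := csp1_cong_mul (hKc x hx) hg
  have hP : x * g ∈ csp1P S := Subgroup.mul_mem _ hxP hgP
  obtain ⟨y, hy, hy'⟩ := csp1_rowE (m : ℤ) K hK l Finset.univ
    (fun b => if b = l then 0 else - (x * g).1 l b) (fun a ha => absurd (Finset.mem_univ a) ha)
    (by simp) (fun b => by
      by_cases hbl : b = l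
      · simp [hbl]
      · simp only [hbl, if_false]; exact (dvd_neg).2 (csp1_cong_off hc (Ne.symm hbl)))
  have hyP : y ∈ csp1P S := csp1_tvP hy' (csp1_single_supp hl 1) (fun b hb => by
    have hbl : b ≠ l := fun h => hb (h ▸ hl)
    simp only [hbl, if_false]
    rw [hP l b (Or.inr hb), one_apply_ne hbl.symm, neg_zero])
  refine ⟨x * g * y, fun a b hab => ?_, csp1_cong_mul hc (hKc y hy), ?_⟩
  · by_cases hal : a = l
    · subst hal
      rw [csp1_coe_mul, hy', csp1_app', csp1_sum_single', h, one_apply_eq]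
      by_cases hbl : b = a
      · subst hbl; rw [h]; simp
      · rw [if_neg hbl, one_apply_ne (Ne.symm hbl)]; ring
    by_cases hbl : b = l
    · subst hbl
      rw [csp1_coe_mul, hy', csp1_app', if_pos rfl, h]; ring
    refine (Subgroup.mul_mem _ hP hyP) a b ?_
    simpa [hal, hbl] using hab
  · have : g * (x * g * y)⁻¹ = g * y⁻¹ * g⁻¹ * x⁻¹ := by group
    rw [this]
    exact K.mul_mem (hKn.conj_mem _ (K.inv_mem hy) g) (K.inv_mem hx)

include hK hKc in
lemma csp1_ind {i j : Fin n} (hij : i ≠ j) (T : Finset (Fin n)) :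
    ∀ g ∈ csp1P ({i, j} ∪ T), Cong m g → ∃ g' ∈ csp1P {i, j}, Cong m g' ∧ g * g'⁻¹ ∈ K := by
  induction T using Finset.induction_on with
  | empty =>
    intro g hgP hg
    rw [Finset.union_empty] at hgP
    exact ⟨g, hgP, hg, by rw [mul_inv_cancel]; exact K.one_mem⟩
  | insert a T ha ih =>
    intro g hgP hg
    by_cases haij : a ∈ ({i, j} : Finset (Fin n))
    · refine ih g ?_ hg
      rwa [Finset.union_insert, Finset.insert_eq_of_mem (Finset.mem_union_left _ haij)] at hgP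
    · have hai : a ≠ i := fun h => haij (by simp [h])
      have haj : a ≠ j := fun h => haij (by simp [h])
      obtain ⟨g1, h1, h2, h3⟩ := csp1_remove hK hKc (l := a) (k := i) (j := j) (by simp) (by simp)
        hai (by simp) hij.symm haj.symm hgP hg
      have hS : ({i, j} ∪ insert a T : Finset (Fin n)).erase a = {i, j} ∪ T := by
        rw [Finset.union_insert, Finset.erase_insert]
        simp [hai, haj, ha]
      rw [hS] at h1
      obtain ⟨g2, h4, h5, h6⟩ := ih g1 h1 h2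
      refine ⟨g2, h4, h5, ?_⟩
      have : g * g2⁻¹ = (g * g1⁻¹) * (g1 * g2⁻¹) := by group
      rw [this]
      exact K.mul_mem h3 h6

end Steps

lemma csp1_el_cong {n : ℕ} (m : ℕ) {i j : Fin n} (hij : i ≠ j) : Cong m (el hij (m : ℤ)) := by
  intro a b
  rw [csp1_el_coe, add_sub_cancel_left, vecMulVec_apply, Pi.single_apply]
  refine Dvd.dvd.mul_right ?_ _
  split_ifs
  · exact dvd_rfl
  · exact dvd_zero _

lemma csp1_blk {n : ℕ} {i j : Fin n} (hij : i ≠ j) {g : SLn n ℤ} (hg : g ∈ csp1P {i, j}) :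
    g.1 = blk i j (g.1 i i) (g.1 i j) (g.1 j i) (g.1 j j) := by
  ext a b
  simp only [blk, Matrix.add_apply, single_apply, @eq_comm _ i a, @eq_comm _ j b,
    @eq_comm _ i b, @eq_comm _ j a]
  by_cases hai : a = i
  · subst hai
    by_cases hbi : b = a
    · subst hbi; simp [hij]
    · by_cases hbj : b = j
      · subst hbj; simp [hij, hbi]
      · rw [hg a b (Or.inr (by simp [hbi, hbj]))]; simp [hbi, hbj]
  · by_cases haj : a = j
    · subst haj
      by_cases hbi : b = i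
      · subst hbi; simp [hij, hai]
      · by_cases hbj : b = a
        · subst hbj; simp [hbi]
        · rw [hg a b (Or.inr (by simp [hbi, hbj]))]; simp [hbi, hbj]
    · rw [hg a b (Or.inl (by simp [hai, haj]))]; simp [hai, haj]

lemma csp1_det {n : ℕ} {i j : Fin n} (hij : i ≠ j) {g : SLn n ℤ} (hg : g ∈ csp1P {i, j}) :
    g.1 i i * g.1 j j - g.1 i j * g.1 j i = 1 := by
  obtain ⟨e, he0, he1⟩ : ∃ e : Fin 2 → Fin n, e 0 = i ∧ e 1 = j := ⟨![i, j], rfl, rfl⟩
  let U : Matrix (Fin n) (Fin 2) ℤ := of fun x y => if x = e y then 1 else 0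
  let V : Matrix (Fin 2) (Fin n) ℤ := of fun y x => g.1 (e y) x - if e y = x then 1 else 0
  have h1 : g.1 = 1 + U * V := by
    ext a b
    simp only [Matrix.add_apply, mul_apply, Fin.sum_univ_two, U, V, of_apply, he0, he1]
    by_cases hai : a = i
    · subst hai; simp [hij, one_apply]
    · by_cases haj : a = j
      · subst haj; simp [hai, one_apply]
      · rw [hg a b (Or.inl (by simp [hai, haj]))]; simp [hai, haj]
  have h2 : (1 + V * U).det = 1 := by rw [← det_one_add_mul_comm, ← h1, g.2]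
  rw [det_fin_two] at h2
  simp only [Matrix.add_apply, mul_apply, U, V, of_apply, he0, he1,
    mul_ite, mul_one, mul_zero, Finset.sum_ite_eq',
    Finset.mem_univ, if_true, one_apply_eq, if_neg hij, if_neg hij.symm,
    one_apply_ne (zero_ne_one : (0 : Fin 2) ≠ 1), one_apply_ne (one_ne_zero : (1 : Fin 2) ≠ 0)]
    at h2
  linear_combination h2

/-- reduction of the principal congruence subgroup to a two by two block -/
theorem csp_reduce {n : ℕ} (hn : 3 ≤ n) (m : ℕ) (N : Subgroup (SLn n ℤ)) [N.Normal]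
    (hN : ∀ (i j : Fin n) (hij : i ≠ j), el hij (m : ℤ) ∈ N) {i j : Fin n} (hij : i ≠ j)
    (g : SLn n ℤ) (hg : Cong m g) :
    ∃ (a b c d : ℤ) (g' : SLn n ℤ), a * d - b * c = 1 ∧ g'.1 = blk i j a b c d ∧ Cong m g' ∧
      g * g'⁻¹ ∈ N := by
  have _ := hn
  obtain ⟨g', h1, h2, h3⟩ := csp1_ind (m := m) (K := N ⊓ (redSL n m).ker)
    (fun i j hij => ⟨hN i j hij, (csp1_cong_iff m _).1 (csp1_el_cong m hij)⟩)
    (fun x hx => (csp1_cong_iff m _).2 hx.2) hij Finset.univ g
    (fun a b hab => by simp at hab) hg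
  exact ⟨_, _, _, _, g', csp1_det hij h1, csp1_blk hij h1, h2, h3.1⟩

/-- the congruence subgroup is central modulo `N` -/
theorem csp_central {n : ℕ} (hn : 3 ≤ n) (m : ℕ) (N : Subgroup (SLn n ℤ)) [N.Normal]
    (hN : ∀ (i j : Fin n) (hij : i ≠ j), el hij (m : ℤ) ∈ N)
    (g : SLn n ℤ) (hg : Cong m g) (γ : SLn n ℤ) : γ * g * γ⁻¹ * g⁻¹ ∈ N := by
  have key : (Subgroup.centralizer {(QuotientGroup.mk g : SLn n ℤ ⧸ N)}).comap
      (QuotientGroup.mk' N) = ⊤ := by
    refine gen_int n _ (fun k l hkl => ?_)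
    obtain ⟨j, hjk, hjl⟩ := Fin.exists_ne_and_ne_of_two_lt k l (by omega)
    obtain ⟨g', h1, h2, h3⟩ := csp1_remove (m := m) (K := N ⊓ (redSL n m).ker)
      (fun i j hij => ⟨hN i j hij, (csp1_cong_iff m _).1 (csp1_el_cong m hij)⟩)
      (fun x hx => (csp1_cong_iff m _).2 hx.2) (S := Finset.univ) (l := l) (k := k) (j := j)
      (Finset.mem_univ _) (Finset.mem_univ _) hkl.symm (Finset.mem_univ _) hjk hjl (g := g)
      (fun a b hab => by simp at hab) hg
    have hrow : ∀ b, g'.1 l b = (1 : Mat n ℤ) l b := fun b => h1 l b (Or.inl (by simp))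
    obtain ⟨x, hx, hx'⟩ := csp1_colE (m : ℤ) N hN l Finset.univ
      (fun a => (g'.1 - 1) a k) (fun a ha => absurd (Finset.mem_univ a) ha)
      (by simp only [Matrix.sub_apply, hrow, sub_self]) (fun a => h2 a k)
    have e1 : g' * el hkl 1 = x * (el hkl 1 * g') := by
      apply Subtype.ext
      ext a b
      rw [csp1_coe_mul x, hx', csp1_app, csp1_sum_single, csp1_el_app, csp1_el_app,
        csp1_coe_mul, csp1_el_coe, csp1_app', csp1_sum_single', if_neg hkl.symm, hrow,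
        Matrix.sub_apply, Pi.single_apply, one_apply, one_apply]
      simp only [@eq_comm _ l b]
      by_cases hak : a = k <;> by_cases hbl : b = l <;> simp [hak, hbl]
    have e2 : (QuotientGroup.mk g : SLn n ℤ ⧸ N) = QuotientGroup.mk g' := by
      have : g = (g * g'⁻¹) * g' := by group
      rw [this, QuotientGroup.mk_mul, (QuotientGroup.eq_one_iff _).2 h3.1, one_mul]
    rw [Subgroup.mem_comap, Subgroup.mem_centralizer_singleton_iff, e2, QuotientGroup.mk'_apply,
      ← QuotientGroup.mk_mul, ← QuotientGroup.mk_mul, e1, QuotientGroup.mk_mul _ x,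
      (QuotientGroup.eq_one_iff _).2 hx, one_mul]
  have h : γ ∈ (Subgroup.centralizer {(QuotientGroup.mk g : SLn n ℤ ⧸ N)}).comap
      (QuotientGroup.mk' N) := by rw [key]; exact Subgroup.mem_top γ
  rw [Subgroup.mem_comap, Subgroup.mem_centralizer_singleton_iff, QuotientGroup.mk'_apply] at h
  rw [← QuotientGroup.eq_one_iff, QuotientGroup.mk_mul, QuotientGroup.mk_mul, QuotientGroup.mk_mul,
    h, QuotientGroup.mk_inv, QuotientGroup.mk_inv]
  group

end Pool.Agent.MP_8299d6_al.Up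

end
end

section

open Matrix

noncomputable section

namespace Pool.Agent.MP_8299d6_al.Up

open Pool.Agent.MP_810665_al (IrrChar)

/-- the matrix of an inclusion of coordinates -/
def csp2P {n : ℕ} (f : Fin 3 → Fin n) : Matrix (Fin n) (Fin 3) ℤ := (1 : Mat n ℤ).submatrix id f

/-- a three by three matrix placed in the positions given by `f` -/
def csp2Emb {n : ℕ} (f : Fin 3 → Fin n) (A : Mat 3 ℤ) : Mat n ℤ :=
  1 + csp2P f * (A - 1) * (csp2P f)ᵀ

theorem csp2P_mul {n : ℕ} {f : Fin 3 → Fin n} (hf : Function.Injective f) :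
    (csp2P f)ᵀ * csp2P f = 1 := by
  unfold csp2P
  rw [transpose_submatrix, transpose_one,
    ← submatrix_mul _ _ _ _ _ Function.bijective_id, mul_one, submatrix_one _ hf]

theorem csp2Emb_mul {n : ℕ} {f : Fin 3 → Fin n} (hf : Function.Injective f) (A B : Mat 3 ℤ) :
    csp2Emb f (A * B) = csp2Emb f A * csp2Emb f B := by
  have h : csp2P f * (A - 1) * (csp2P f)ᵀ * (csp2P f * (B - 1) * (csp2P f)ᵀ) =
      csp2P f * ((A - 1) * (B - 1)) * (csp2P f)ᵀ := by
    calc _ = csp2P f * (A - 1) * ((csp2P f)ᵀ * csp2P f) * (B - 1) * (csp2P f)ᵀ := by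
          simp only [Matrix.mul_assoc]
      _ = _ := by rw [csp2P_mul hf, Matrix.mul_one]; simp only [Matrix.mul_assoc]
  have e : A * B - 1 = (B - 1) + ((A - 1) + (A - 1) * (B - 1)) := by noncomm_ring
  unfold csp2Emb
  rw [add_mul, mul_add, mul_add, h, e, Matrix.mul_add, Matrix.mul_add, Matrix.add_mul,
    Matrix.add_mul]
  simp only [one_mul, mul_one, add_assoc]

theorem csp2Emb_det {n : ℕ} {f : Fin 3 → Fin n} (hf : Function.Injective f) (A : Mat 3 ℤ) :
    (csp2Emb f A).det = A.det := by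
  unfold csp2Emb
  rw [det_one_add_mul_comm, ← Matrix.mul_assoc, csp2P_mul hf, Matrix.one_mul, add_sub_cancel]

theorem csp2P_single {n : ℕ} (f : Fin 3 → Fin n) (x y : Fin 3) (t : ℤ) :
    csp2P f * single x y t * (csp2P f)ᵀ = single (f x) (f y) t := by
  ext r s
  rw [mul_apply, Finset.sum_eq_single y, mul_single_apply_same]
  · by_cases h1 : f x = r
    · by_cases h2 : f y = s
      · subst h1 h2; simp [csp2P, one_apply]
      · simp [csp2P, one_apply, h2, Ne.symm h2]
    · simp [csp2P, one_apply, h1, Ne.symm h1]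
  · intro z _ hz
    rw [mul_single_apply_of_ne _ _ _ _ _ hz, zero_mul]
  · simp

/-- the block in the first two positions -/
def csp2M (a b c d : ℤ) : Mat 3 ℤ := !![a, b, 0; c, d, 0; 0, 0, 1]

theorem csp2M_det (a b c d : ℤ) : (csp2M a b c d).det = a * d - b * c := by
  simp [csp2M, det_fin_three]

theorem csp2Emb_M {n : ℕ} (f : Fin 3 → Fin n) (a b c d : ℤ) :
    csp2Emb f (csp2M a b c d) = blk (f 0) (f 1) a b c d := by
  have e : csp2M a b c d - 1 =
      single 0 0 (a - 1) + single 0 1 b + single 1 0 c + single 1 1 (d - 1) := by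
    ext x y
    fin_cases x <;> fin_cases y <;> simp [csp2M]
  unfold csp2Emb blk
  rw [e]
  simp only [Matrix.mul_add, Matrix.add_mul, csp2P_single, add_assoc]

/-- what is used of the class map -/
structure Csp2Cls (m : ℕ) {C : Type} [Group C] (ψ : Mat 3 ℤ → C) : Prop where
  mul : ∀ A B, A.det = 1 → B.det = 1 → ψ (A * B) = ψ A * ψ B
  el : ∀ x y t, x ≠ y → (m : ℤ) ∣ t → ψ (transvection x y t) = 1
  cen : ∀ A G, A.det = 1 → G.det = 1 → (∀ x y, (m : ℤ) ∣ (A - 1) x y) → ψ G * ψ A = ψ A * ψ G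

section Cls
variable {m : ℕ} {C : Type} [Group C] {ψ : Mat 3 ℤ → C}

theorem Csp2Cls.left (h : Csp2Cls m ψ) (x y : Fin 3) (t : ℤ) (hxy : x ≠ y) (ht : (m : ℤ) ∣ t)
    {A B : Mat 3 ℤ} (hA : A.det = 1) (e : B = transvection x y t * A) :
    B.det = 1 ∧ ψ B = ψ A := by
  have hd := det_transvection_of_ne x y hxy t
  rw [e, h.mul _ _ hd hA, h.el x y t hxy ht, one_mul, det_mul, hd, hA]
  exact ⟨one_mul _, rfl⟩

theorem Csp2Cls.right (h : Csp2Cls m ψ) (x y : Fin 3) (t : ℤ) (hxy : x ≠ y) (ht : (m : ℤ) ∣ t)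
    {A B : Mat 3 ℤ} (hA : A.det = 1) (e : B = A * transvection x y t) :
    B.det = 1 ∧ ψ B = ψ A := by
  have hd := det_transvection_of_ne x y hxy t
  rw [e, h.mul _ _ hA hd, h.el x y t hxy ht, mul_one, det_mul, hd, hA]
  exact ⟨one_mul _, rfl⟩

theorem Csp2Cls.conj (h : Csp2Cls m ψ) (G : Mat 3 ℤ) {A B : Mat 3 ℤ} (hG : G.det = 1)
    (hA : A.det = 1) (hc : ∀ x y, (m : ℤ) ∣ (A - 1) x y) (e : B * G = G * A) :
    B.det = 1 ∧ ψ B = ψ A := by
  have hB : B.det = 1 := by
    have := congrArg det e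
    rwa [det_mul, det_mul, hG, hA, mul_one, mul_one] at this
  refine ⟨hB, mul_right_cancel (b := ψ G) ?_⟩
  rw [← h.mul _ _ hB hG, e, h.mul _ _ hG hA, h.cen A G hA hG hc]

/-- admissible blocks -/
structure Csp2Ok (m : ℕ) (a b c d : ℤ) : Prop where
  det : a * d - b * c = 1
  ha : (m : ℤ) ∣ a - 1
  hb : (m : ℤ) ∣ b
  hc : (m : ℤ) ∣ c

theorem Csp2Ok.hd {a b c d : ℤ} (h : Csp2Ok m a b c d) : (m : ℤ) ∣ d - 1 := by
  have e : d - 1 = b * c - (a - 1) * d := by linear_combination h.det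
  rw [e]
  exact dvd_sub (h.hb.mul_right c) (h.ha.mul_right d)

theorem Csp2Ok.mw {a b c d : ℤ} (h : Csp2Ok m a b c d) : MW m a b :=
  ⟨⟨d, -c, by linear_combination h.det⟩, h.ha, h.hb⟩

theorem Csp2Ok.mdet {a b c d : ℤ} (h : Csp2Ok m a b c d) : (csp2M a b c d).det = 1 := by
  rw [csp2M_det, h.det]

theorem Csp2Ok.cong {a b c d : ℤ} (h : Csp2Ok m a b c d) (x y : Fin 3) :
    (m : ℤ) ∣ (csp2M a b c d - 1) x y := by
  have h1 := h.ha
  have h2 := h.hb
  have h3 := h.hc
  have h4 := h.hd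
  fin_cases x <;> fin_cases y <;> simp [csp2M, h1, h2, h3, h4]

theorem csp2_exists {a b : ℤ} (h : MW m a b) : ∃ p : ℤ × ℤ, Csp2Ok m a b p.1 p.2 := by
  obtain ⟨hab, ⟨s, hs⟩, hb⟩ := h
  have ham : IsCoprime a (m : ℤ) := ⟨1, -s, by linear_combination hs⟩
  obtain ⟨u, v, huv⟩ := hab.mul_right ham
  exact ⟨(-(v * m), u), by linear_combination huv, ⟨s, hs⟩, hb, (dvd_mul_left _ _).neg_right⟩

open Classical in
/-- the symbol -/
def csp2K (m : ℕ) (ψ : Mat 3 ℤ → C) (a b : ℤ) : C :=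
  if h : MW m a b then ψ (csp2M a b (csp2_exists h).choose.1 (csp2_exists h).choose.2) else 1

theorem csp2K_eq (h : Csp2Cls m ψ) {a b c d : ℤ} (ok : Csp2Ok m a b c d) :
    csp2K m ψ a b = ψ (csp2M a b c d) := by
  unfold csp2K
  rw [dif_pos ok.mw]
  have ok' := (csp2_exists ok.mw).choose_spec
  generalize (csp2_exists ok.mw).choose.1 = c' at ok' ⊢
  generalize (csp2_exists ok.mw).choose.2 = d' at ok' ⊢
  refine (h.left 1 0 (c' * d - d' * c) (by decide)
    (dvd_sub (ok'.hc.mul_right d) (ok.hc.mul_left d')) ok.mdet ?_).2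
  have h1 := ok.det
  have h2 := ok'.det
  ext x y
  fin_cases x <;> fin_cases y <;>
    simp [csp2M, transvection, mul_apply, Fin.sum_univ_three, one_apply]
  · linear_combination (-c') * h1 + c * h2
  · linear_combination (-d') * h1 + d * h2

theorem csp2_ms2 (h : Csp2Cls m ψ) {a b c d b' c' d' : ℤ} (ok : Csp2Ok m a b c d)
    (ok' : Csp2Ok m a b' c' d') :
    Csp2Ok m a (b * b') (-(c * c')) (d - b * c * d') ∧
      ψ (csp2M a (b * b') (-(c * c')) (d - b * c * d')) =
        ψ (csp2M a b c d) * ψ (csp2M a b' c' d') := by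
  have h1 := ok.det
  have h2 := ok'.det
  have ok2 : Csp2Ok m a (b * b') (-(c * c')) (d - b * c * d') :=
    ⟨by linear_combination h1 - b * c * h2, ok.ha, ok.hb.mul_right b',
      (ok.hc.mul_right c').neg_right⟩
  refine ⟨ok2, ?_⟩
  obtain ⟨d0, e0⟩ := h.conj !![0, 1, 0; 0, 0, -1; -1, 0, 0]
    (B := !![d', 0, -c'; 0, 1, 0; -b', 0, a]) (by simp [det_fin_three]) ok'.mdet ok'.cong (by
      ext x y
      fin_cases x <;> fin_cases y <;> simp [csp2M, mul_apply, Fin.sum_univ_three])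
  have d1 : (csp2M a b c d * !![d', 0, -c'; 0, 1, 0; -b', 0, a]).det = 1 := by
    rw [det_mul, ok.mdet, d0, one_mul]
  obtain ⟨d2, e2⟩ := h.left 0 2 c' (by decide) ok'.hc
    (B := !![1, b, 0; c * d', d, -(c * c'); -b', 0, a]) d1 (by
      ext x y
      fin_cases x <;> fin_cases y <;>
        simp [csp2M, transvection, mul_apply, Fin.sum_univ_three, one_apply]
      · linear_combination -h2
      · ring)
  obtain ⟨d3, e3⟩ := h.left 2 0 b' (by decide) ok'.hb
    (B := !![1, b, 0; c * d', d, -(c * c'); 0, b * b', a]) d2 (by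
      ext x y
      fin_cases x <;> fin_cases y <;>
        simp [transvection, mul_apply, Fin.sum_univ_three, one_apply]
      exact mul_comm _ _)
  obtain ⟨d4, e4⟩ := h.left 1 0 (-(c * d')) (by decide) (ok.hc.mul_right d').neg_right
    (B := !![1, b, 0; 0, d - b * c * d', -(c * c'); 0, b * b', a]) d3 (by
      ext x y
      fin_cases x <;> fin_cases y <;>
        simp [transvection, mul_apply, Fin.sum_univ_three, one_apply]
      ring)
  obtain ⟨d5, e5⟩ := h.right 0 1 (-b) (by decide) ok.hb.neg_right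
    (B := !![1, 0, 0; 0, d - b * c * d', -(c * c'); 0, b * b', a]) d4 (by
      ext x y
      fin_cases x <;> fin_cases y <;>
        simp [transvection, mul_apply, Fin.sum_univ_three, one_apply])
  obtain ⟨-, e6⟩ := h.conj !![0, 0, -1; 0, 1, 0; 1, 0, 0]
    (B := !![1, 0, 0; 0, d - b * c * d', -(c * c'); 0, b * b', a]) (by simp [det_fin_three])
    ok2.mdet ok2.cong (by
      ext x y
      fin_cases x <;> fin_cases y <;> simp [csp2M, mul_apply, Fin.sum_univ_three])
  rw [← e6, e5, e4, e3, e2, h.mul _ _ ok.mdet d0, e0]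

theorem csp2_menn (h : Csp2Cls m ψ) : Menn m (csp2K m ψ) where
  one := by
    rw [csp2K_eq h (c := 0) (d := 1) ⟨by norm_num, by simp, by simp, by simp⟩,
      ← h.el 0 1 0 (by decide) (dvd_zero _)]
    congr 1
    ext x y
    fin_cases x <;> fin_cases y <;> simp [csp2M, transvection]
  ms1a := by
    intro a b t hab ht
    obtain ⟨⟨c, d⟩, ok⟩ := csp2_exists hab
    have ok2 : Csp2Ok m a (b + t * a) c (d + t * c) :=
      ⟨by linear_combination ok.det, ok.ha, dvd_add ok.hb (ht.mul_right a), ok.hc⟩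
    rw [csp2K_eq h ok, csp2K_eq h ok2]
    refine (h.right 0 1 t (by decide) ht ok.mdet ?_).2
    ext x y
    fin_cases x <;> fin_cases y <;>
      simp [csp2M, transvection, mul_apply, Fin.sum_univ_three, one_apply] <;> ring
  ms1b := by
    intro a b t hab
    obtain ⟨⟨c, d⟩, ok⟩ := csp2_exists hab
    have ok2 : Csp2Ok m (a + t * b) b (c + t * d - t * (a + t * b)) (d - t * b) := by
      refine ⟨by linear_combination ok.det, ?_, ok.hb, ?_⟩
      · rw [add_sub_right_comm]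
        exact dvd_add ok.ha (ok.hb.mul_left t)
      · have e : c + t * d - t * (a + t * b) = c + t * (d - 1) - t * (a - 1) - t * t * b := by
          ring
        rw [e]
        exact dvd_sub (dvd_sub (dvd_add ok.hc (ok.hd.mul_left t)) (ok.ha.mul_left t))
          (ok.hb.mul_left _)
    rw [csp2K_eq h ok, csp2K_eq h ok2]
    refine (h.conj !![1, 0, 0; -t, 1, 0; 0, 0, 1] (by simp [det_fin_three]) ok.mdet ok.cong ?_).2
    ext x y
    fin_cases x <;> fin_cases y <;> simp [csp2M, mul_apply, Fin.sum_univ_three] <;> ring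
  ms2 := by
    intro a b b' hab hab'
    obtain ⟨⟨c, d⟩, ok⟩ := csp2_exists hab
    obtain ⟨⟨c', d'⟩, ok'⟩ := csp2_exists hab'
    obtain ⟨ok2, e⟩ := csp2_ms2 h ok ok'
    rw [csp2K_eq h ok, csp2K_eq h ok', csp2K_eq h ok2, e]

end Cls

/-- the class of a block depends on its first row and is a Mennicke symbol -/
theorem csp_menn {n : ℕ} (hn : 3 ≤ n) (m : ℕ) (N : Subgroup (SLn n ℤ)) [N.Normal]
    (hN : ∀ (i j : Fin n) (hij : i ≠ j), el hij (m : ℤ) ∈ N) {i j : Fin n} (hij : i ≠ j) :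
    ∃ κ : ℤ → ℤ → SLn n ℤ ⧸ N, Menn m κ ∧
      ∀ (a b c d : ℤ) (g' : SLn n ℤ), g'.1 = blk i j a b c d → Cong m g' →
        MW m a b ∧ (QuotientGroup.mk g' : SLn n ℤ ⧸ N) = κ a b := by
  classical
  obtain ⟨k, hki, hkj⟩ : ∃ k : Fin n, k ≠ i ∧ k ≠ j := by
    by_contra hne
    have hsub : (Finset.univ : Finset (Fin n)) ⊆ {i, j} := by
      intro k _
      by_contra hk
      simp only [Finset.mem_insert, Finset.mem_singleton, not_or] at hk
      exact hne ⟨k, hk⟩
    have h1 := (Finset.card_le_card hsub).trans Finset.card_le_two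
    rw [Finset.card_univ, Fintype.card_fin] at h1
    omega
  let f : Fin 3 → Fin n := ![i, j, k]
  have hf : Function.Injective f := by
    intro x y hxy
    fin_cases x <;> fin_cases y <;> simp_all [f, eq_comm]
  let ψ : Mat 3 ℤ → SLn n ℤ ⧸ N := fun A =>
    if h : A.det = 1 then QuotientGroup.mk ⟨csp2Emb f A, (csp2Emb_det hf A).trans h⟩ else 1
  have hψ : ∀ (A : Mat 3 ℤ) (g : SLn n ℤ), g.1 = csp2Emb f A → ψ A = QuotientGroup.mk g := by
    intro A g hg
    have hA : A.det = 1 := by rw [← csp2Emb_det hf, ← hg]; exact g.2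
    simp only [ψ, dif_pos hA]
    congr 1
    exact Subtype.ext hg.symm
  have hcls : Csp2Cls m ψ := by
    refine ⟨fun A B hA hB => ?_, fun x y t hxy ht => ?_, fun A G hA hG hc => ?_⟩
    · let gA : SLn n ℤ := ⟨csp2Emb f A, (csp2Emb_det hf A).trans hA⟩
      let gB : SLn n ℤ := ⟨csp2Emb f B, (csp2Emb_det hf B).trans hB⟩
      rw [hψ A gA rfl, hψ B gB rfl, hψ (A * B) (gA * gB) (csp2Emb_mul hf A B).symm,
        QuotientGroup.mk_mul]
    · have hne : f x ≠ f y := fun e => hxy (hf e)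
      rw [hψ _ (el hne t) (by
        unfold csp2Emb transvection
        rw [add_sub_cancel_left, csp2P_single]; rfl), QuotientGroup.eq_one_iff]
      obtain ⟨s, rfl⟩ := ht
      induction s using Int.induction_on with
      | zero => simp
      | succ s ih =>
        rw [mul_add, mul_one, el, SpecialLinearGroup.transvection_add]
        exact N.mul_mem ih (hN _ _ hne)
      | pred s ih =>
        rw [mul_sub, mul_one, sub_eq_add_neg, el, SpecialLinearGroup.transvection_add,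
          ← SpecialLinearGroup.transvection_inv]
        exact N.mul_mem ih (N.inv_mem (hN _ _ hne))
    · let gA : SLn n ℤ := ⟨csp2Emb f A, (csp2Emb_det hf A).trans hA⟩
      let gG : SLn n ℤ := ⟨csp2Emb f G, (csp2Emb_det hf G).trans hG⟩
      have hcA : Cong m gA := by
        intro r s
        change (m : ℤ) ∣ (csp2Emb f A - 1) r s
        unfold csp2Emb
        rw [add_sub_cancel_left, mul_apply]
        refine Finset.dvd_sum fun y _ => Dvd.dvd.mul_right ?_ _
        rw [mul_apply]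
        exact Finset.dvd_sum fun x _ => (hc x y).mul_left _
      have h1 := (QuotientGroup.eq_one_iff _).2 (csp_central hn m N hN gA hcA gG)
      rw [hψ A gA rfl, hψ G gG rfl]
      simp only [QuotientGroup.mk_mul, QuotientGroup.mk_inv] at h1
      rw [mul_inv_eq_one, mul_inv_eq_iff_eq_mul] at h1
      exact h1
  refine ⟨csp2K m ψ, csp2_menn hcls, fun a b c d g' hg hc => ?_⟩
  have hg' : g'.1 = csp2Emb f (csp2M a b c d) := by rw [csp2Emb_M, hg]; rfl
  have ok : Csp2Ok m a b c d := by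
    have h1 := hc i i
    have h2 := hc i j
    have h3 := hc j i
    rw [hg] at h1 h2 h3
    refine ⟨?_, ?_, ?_, ?_⟩
    · rw [← csp2M_det, ← csp2Emb_det hf, ← hg']; exact g'.2
    · simpa [blk, hij, hij.symm] using h1
    · simpa [blk, hij, hij.symm] using h2
    · simpa [blk, hij, hij.symm] using h3
  exact ⟨ok.mw, by rw [csp2K_eq hcls ok, hψ _ g' hg']⟩

end Pool.Agent.MP_8299d6_al.Up

end
end

section

open Matrix

noncomputable section

namespace Pool.Agent.MP_8299d6_al.Up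

open Pool.Agent.MP_810665_al (IrrChar)

theorem csp3_modb {m : ℕ} {C : Type} [Group C] {κ : ℤ → ℤ → C} (h : Menn m κ)
    {a b b' : ℤ} (hab : MW m a b) (hb' : (m : ℤ) ∣ b') (hd : a ∣ b' - b) : κ a b' = κ a b := by
  obtain ⟨t, ht⟩ := hd
  have hco : IsCoprime (m : ℤ) a := by
    obtain ⟨s, hs⟩ := hab.2.1
    exact ⟨-s, 1, by linear_combination hs⟩
  have hmt : (m : ℤ) ∣ t := by
    have h1 : (m : ℤ) ∣ a * t := ht ▸ dvd_sub hb' hab.2.2
    exact hco.dvd_of_dvd_mul_left h1
  have h2 : b' = b + t * a := by linear_combination ht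
  rw [h2]
  exact h.ms1a a b t hab hmt

theorem csp3_moda {m : ℕ} {C : Type} [Group C] {κ : ℤ → ℤ → C} (h : Menn m κ)
    {a a' b : ℤ} (hab : MW m a b) (hd : b ∣ a' - a) : κ a' b = κ a b := by
  obtain ⟨t, ht⟩ := hd
  have h2 : a' = a + t * b := by linear_combination ht
  rw [h2]
  exact h.ms1b a b t hab

theorem csp3_mw_moda {m : ℕ} {a a' b : ℤ} (hab : MW m a b) (hd : b ∣ a' - a) : MW m a' b := by
  obtain ⟨t, ht⟩ := hd
  have h2 : a' = a + b * t := by linear_combination ht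
  refine ⟨?_, ?_, hab.2.2⟩
  · rw [h2]
    exact hab.1.add_mul_left_left t
  · have h3 : a' - 1 = (a - 1) + b * t := by linear_combination ht
    rw [h3]
    exact dvd_add hab.2.1 (hab.2.2.mul_right t)

theorem csp3_one {m : ℕ} {C : Type} [Group C] {κ : ℤ → ℤ → C} (h : Menn m κ)
    {a b : ℤ} (hb : (m : ℤ) ∣ b) (hd : b ∣ a - 1) : κ a b = 1 := by
  have h0 : MW m 1 0 := ⟨isCoprime_one_left, by simp, by simp⟩
  have h1 : MW m 1 b := ⟨isCoprime_one_left, by simp, hb⟩
  rw [csp3_moda h h1 hd, csp3_modb h h0 hb (one_dvd _), h.one]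

theorem csp3_pm {m : ℕ} {C : Type} [Group C] {κ : ℤ → ℤ → C} (h : Menn m κ)
    {a b : ℤ} (hab : MW m a b) (hd : a ∣ b - 1 ∨ a ∣ b + 1) : κ a b = 1 := by
  rcases hd with hd | hd
  · have hm : (m : ℤ) ∣ 1 - a := by
      have := hab.2.1.neg_right
      rwa [neg_sub] at this
    have h1 : a ∣ (1 - a) - b := by
      have h2 : (1 - a) - b = -(b - 1) - a := by ring
      rw [h2]
      exact dvd_sub hd.neg_right dvd_rfl
    rw [← csp3_modb h hab hm h1]
    exact csp3_one h hm ⟨-1, by ring⟩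
  · have h1 : a ∣ (a - 1) - b := by
      have h2 : (a - 1) - b = a - (b + 1) := by ring
      rw [h2]
      exact dvd_sub dvd_rfl hd
    rw [← csp3_modb h hab hab.2.1 h1]
    exact csp3_one h hab.2.1 dvd_rfl

theorem csp3_pow {m : ℕ} {C : Type} [Group C] {κ : ℤ → ℤ → C} (h : Menn m κ)
    {a b : ℤ} (hab : MW m a b) (k : ℕ) :
    MW m a (b ^ (k + 1)) ∧ κ a (b ^ (k + 1)) = κ a b ^ (k + 1) := by
  induction k with
  | zero => simpa using hab
  | succ k ih =>
    refine ⟨⟨hab.1.pow_right, hab.2.1, hab.2.2.trans (dvd_pow_self b (Nat.succ_ne_zero _))⟩, ?_⟩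
    rw [pow_succ b (k + 1), h.ms2 a _ b ih.1 hab, ih.2, ← pow_succ]

theorem csp3_prime {m : ℕ} {C : Type} [Group C] {κ : ℤ → ℤ → C} (h : Menn m κ)
    {a b : ℤ} (hab : MW m a b) {P : ℕ} (hP : P.Prime) (h2 : 2 < P) (ha : a = P ∨ a = -P) :
    κ a b ^ (P / 2) = 1 := by
  have : Fact P.Prime := ⟨hP⟩
  obtain ⟨k, hk⟩ : ∃ k, P / 2 = k + 1 := ⟨P / 2 - 1, by omega⟩
  have hdvd : ∀ z : ℤ, (P : ℤ) ∣ z → a ∣ z := by
    intro z hz
    rcases ha with rfl | rfl
    · exact hz
    · exact hz.neg_left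
  have hb : (b : ZMod P) ≠ 0 := by
    intro h0
    rw [ZMod.intCast_zmod_eq_zero_iff_dvd] at h0
    have hu : IsUnit a := hab.1.isUnit_of_dvd' dvd_rfl (hdvd b h0)
    rcases Int.isUnit_iff.1 hu with h1 | h1 <;> rcases ha with h3 | h3 <;> omega
  obtain ⟨h1, h3⟩ := csp3_pow h hab k
  rw [hk, ← h3]
  apply csp3_pm h h1
  rcases ZMod.pow_div_two_eq_neg_one_or_one P hb with h4 | h4
  · left
    apply hdvd
    rw [← ZMod.intCast_zmod_eq_zero_iff_dvd]
    push_cast
    rw [← hk, h4, sub_self]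
  · right
    apply hdvd
    rw [← ZMod.intCast_zmod_eq_zero_iff_dvd]
    push_cast
    rw [← hk, h4, neg_add_cancel]

theorem csp3_dir {a b : ℤ} (hab : IsCoprime a b) (hb : b ≠ 0) {l : ℕ} (hl : 2 ≤ l) :
    ∃ (P : ℕ) (a' : ℤ), P.Prime ∧ 2 < P ∧ (a' = P ∨ a' = -P) ∧ b ∣ a' - a ∧ ¬ l ∣ P / 2 := by
  have hb0 : b.natAbs ≠ 0 := Int.natAbs_ne_zero.2 hb
  have hco : IsCoprime a (b.natAbs : ℤ) := by
    rw [Int.natCast_natAbs]
    exact hab.abs_right
  set q : ℕ := b.natAbs * (2 * l) with hq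
  have hq0 : q ≠ 0 := mul_ne_zero hb0 (by omega)
  obtain ⟨Q, hQq, hQp, hQa⟩ := Nat.forall_exists_prime_gt_and_zmodEq q hb0 hco
  have hQco : IsCoprime (Q : ℤ) (q : ℤ) := by
    rw [Nat.isCoprime_iff_coprime]
    exact (Nat.coprime_of_lt_prime hq0 hQq hQp)
  have hQb : b ∣ (Q : ℤ) - a := by
    have := hQa.symm.dvd
    exact Int.natAbs_dvd.1 this
  have hbq : b ∣ (q : ℤ) := by
    rw [hq]
    push_cast
    exact (self_dvd_abs b).mul_right _
  have hlq : (2 * (l : ℤ)) ∣ (q : ℤ) := by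
    rw [hq]
    push_cast
    exact Dvd.intro_left _ rfl
  have key : ∀ (P : ℕ), P.Prime → 2 < P → l ∣ P / 2 → (2 * (l : ℤ)) ∣ (P : ℤ) - 1 := by
    intro P hP h2 ⟨t, ht⟩
    have hodd : P % 2 = 1 := by
      rcases hP.eq_two_or_odd with h | h
      · omega
      · exact h
    have h3 : P = 2 * (l * t) + 1 := by omega
    refine ⟨t, ?_⟩
    rw [h3]
    push_cast
    ring
  by_cases hc : (2 * (l : ℤ)) ∣ (Q : ℤ) - 1
  · obtain ⟨P, hP2, hPp, hPa⟩ := Nat.forall_exists_prime_gt_and_zmodEq 2 hq0 hQco.neg_left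
    have h1 : (q : ℤ) ∣ -(Q : ℤ) - P := hPa.dvd
    refine ⟨P, -P, hPp, hP2, Or.inr rfl, ?_, fun hd => ?_⟩
    · have h3 : -(P : ℤ) - a = (-(Q : ℤ) - P) + (Q - a) := by ring
      rw [h3]
      exact dvd_add (hbq.trans h1) hQb
    · have h4 := key P hPp hP2 hd
      have h5 : (2 * (l : ℤ)) ∣ 2 := by
        have h6 : (2 : ℤ) = -((-(Q : ℤ) - P) + (Q - 1) + (P - 1)) := by ring
        have h7 := (dvd_add (dvd_add (hlq.trans h1) hc) h4).neg_right
        rwa [← h6] at h7
      have := Int.le_of_dvd (by norm_num) h5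
      omega
  · obtain ⟨P, hP2, hPp, hPa⟩ := Nat.forall_exists_prime_gt_and_zmodEq 2 hq0 hQco
    have h1 : (q : ℤ) ∣ (Q : ℤ) - P := hPa.dvd
    refine ⟨P, P, hPp, hP2, Or.inl rfl, ?_, fun hd => hc ?_⟩
    · have h3 : (P : ℤ) - a = -((Q : ℤ) - P) + (Q - a) := by ring
      rw [h3]
      exact dvd_add (hbq.trans h1).neg_right hQb
    · have h4 := key P hPp hP2 hd
      have h6 : (Q : ℤ) - 1 = ((Q : ℤ) - P) + (P - 1) := by ring
      rw [h6]
      exact dvd_add (hlq.trans h1) h4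

/-- Mennicke symbols over `ℤ` are trivial -/
theorem menn_triv (m : ℕ) {C : Type} [Group C] {κ : ℤ → ℤ → C} (h : Menn m κ)
    (a b : ℤ) (hab : MW m a b) : κ a b = 1 := by
  by_cases hb : b = 0
  · subst hb
    have hu : IsUnit a := isCoprime_zero_right.1 hab.1
    exact csp3_pm h hab (Or.inl hu.dvd)
  · have key : ∀ l : ℕ, 2 ≤ l → ∃ k : ℕ, ¬ l ∣ k ∧ κ a b ^ k = 1 := by
      intro l hl
      obtain ⟨P, a', hP, h2, ha', hd, hl'⟩ := csp3_dir hab.1 hb hl
      refine ⟨P / 2, hl', ?_⟩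
      rw [← csp3_moda h hab hd]
      exact csp3_prime h (csp3_mw_moda hab hd) hP h2 ha'
    rw [← orderOf_eq_one_iff]
    by_contra hne
    by_cases h0 : orderOf (κ a b) = 0
    · obtain ⟨k, hk, hk1⟩ := key 2 le_rfl
      have := orderOf_dvd_of_pow_eq_one hk1
      rw [h0, zero_dvd_iff] at this
      exact hk (this ▸ dvd_zero 2)
    · obtain ⟨k, hk, hk1⟩ := key (orderOf (κ a b)) (by omega)
      exact hk (orderOf_dvd_of_pow_eq_one hk1)

/-- the congruence subgroup property of `SL_n(ℤ)` -/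
theorem csp {n : ℕ} (hn : 3 ≤ n) (m : ℕ) (N : Subgroup (SLn n ℤ)) [N.Normal]
    (hN : ∀ (i j : Fin n) (hij : i ≠ j), el hij (m : ℤ) ∈ N)
    (g : SLn n ℤ) (hg : Cong m g) : g ∈ N := by
  have hij : (⟨0, by omega⟩ : Fin n) ≠ ⟨1, by omega⟩ := by simp
  obtain ⟨a, b, c, d, g', -, hg', hc, hgN⟩ := csp_reduce hn m N hN hij g hg
  obtain ⟨κ, hκ, hk⟩ := csp_menn hn m N hN hij
  obtain ⟨hw, he⟩ := hk a b c d g' hg' hc
  rw [menn_triv m hκ a b hw, QuotientGroup.eq_one_iff] at he
  have := N.mul_mem hgN he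
  simpa using this

theorem cong_iff {n : ℕ} (m : ℕ) (g : SLn n ℤ) : Cong m g ↔ redSL n m g = 1 := by
  refine Iff.trans ?_ (Matrix.SpecialLinearGroup.ext_iff (redSL n m g) 1).symm
  refine forall₂_congr (fun i j => ?_)
  rw [← ZMod.intCast_zmod_eq_zero_iff_dvd]
  have h1 : (redSL n m g) i j = ((g.1 i j : ℤ) : ZMod m) := rfl
  have h2 : (1 : SLn n (ZMod m)) i j = (((1 : Mat n ℤ) i j : ℤ) : ZMod m) := by
    change (1 : Mat n (ZMod m)) i j = _
    by_cases hij : i = j
    · subst hij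
      simp
    · simp [one_apply_ne hij]
  rw [h1, h2, Matrix.sub_apply, Int.cast_sub, sub_eq_zero]

/-- the first congruence subgroup of `SL_n(ℤ/p^M)` is generated by commutators -/
theorem s1_le {n : ℕ} (hn : 3 ≤ n) (p M : ℕ) [NeZero (p ^ M)] (N : Subgroup (GLn n (ZMod (p ^ M))))
    [N.Normal]
    (hN : ∀ g u : GLn n (ZMod (p ^ M)), u ∈ UU (pI n (ZMod (p ^ M)) p) → g * u * g⁻¹ * u⁻¹ ∈ N)
    (x : SLn n (ZMod (p ^ M))) (hx : x.1 - 1 ∈ pI n (ZMod (p ^ M)) p) : inGL n _ x ∈ N := by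
  obtain ⟨g, rfl⟩ := redSL_surj n (p ^ M) x
  let φ : SLn n ℤ →* GLn n (ZMod (p ^ M)) := (inGL n _).comp (redSL n (p ^ M))
  rcases Nat.eq_zero_or_pos M with rfl | hM
  · have : Subsingleton (ZMod (p ^ 0)) := by
      rw [pow_zero]
      infer_instance
    have h1 : inGL n _ (redSL n (p ^ 0) g) = 1 := by
      ext i j
      exact Subsingleton.elim _ _
    rw [h1]
    exact N.one_mem
  · change g ∈ N.comap φ
    refine csp hn p (N.comap φ) (fun i j hij => ?_) g (fun i j => ?_)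
    · obtain ⟨k, hki, hkj⟩ : ∃ k : Fin n, k ≠ i ∧ k ≠ j := by
        by_contra hcon
        push Not at hcon
        have hsub : (Finset.univ : Finset (Fin n)) ⊆ {i, j} := by
          intro k _
          by_cases hk : k = i
          · simp [hk]
          · simp [hcon k hk]
        have h1 := Finset.card_le_card hsub
        have h2 : ({i, j} : Finset (Fin n)).card ≤ 2 := Finset.card_le_two
        rw [Finset.card_univ, Fintype.card_fin] at h1
        omega
      have h1 := el_comm hki.symm hkj hij (1 : ℤ) (p : ℤ)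
      rw [one_mul] at h1
      rw [← h1, Subgroup.mem_comap, map_mul, map_mul, map_mul, map_inv, map_inv]
      apply hN
      rw [mem_UU]
      intro a b
      have h2 : ((φ (el hkj (p : ℤ)) : GLn n (ZMod (p ^ M))) : Mat n (ZMod (p ^ M))) =
          transvection k j (p : ZMod (p ^ M)) := by
        change ((redSL n (p ^ M) (el hkj (p : ℤ))).1 : Mat n (ZMod (p ^ M))) = _
        rw [map_el]
        simp
        rfl
      rw [h2, transvection, add_sub_cancel_left]
      by_cases hab : k = a ∧ j = b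
      · obtain ⟨rfl, rfl⟩ := hab
        simp
      · rw [single_apply_of_ne _ _ _ _ _ hab]
        exact dvd_zero _
    · obtain ⟨y, hy⟩ := hx i j
      rw [← ZMod.intCast_zmod_eq_zero_iff_dvd]
      have h1 : ((redSL n (p ^ M) g).1 - 1) i j = (((g.1 - 1) i j : ℤ) : ZMod (p ^ M)) := by
        rw [Matrix.sub_apply, Matrix.sub_apply, Int.cast_sub]
        congr 1
        by_cases hij : i = j
        · subst hij
          simp
        · simp [one_apply_ne hij]
      rw [h1] at hy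
      have h2 := congrArg (ZMod.castHom (dvd_pow_self p hM.ne') (ZMod p)) hy
      rw [map_intCast, map_mul, map_natCast, ZMod.natCast_self, zero_mul] at h2
      exact h2

end Pool.Agent.MP_8299d6_al.Up

end
end

section

open Matrix

noncomputable section

namespace Pool.Agent.MP_8299d6_al.Up

open Pool.Agent.MP_810665_al (IrrChar)

variable {A : Type} [Ring A] [Algebra ℂ A]

theorem nexp_eq_sum {x : A} {k : ℕ} (h : x ^ k = 0) :
    nexp x = ∑ i ∈ Finset.range k, ((i.factorial : ℂ))⁻¹ • x ^ i := by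
  unfold nexp
  let _ : Module ℚ A := Module.compHom A (algebraMap ℚ ℂ)
  rw [IsNilpotent.exp_eq_sum h]
  refine Finset.sum_congr rfl fun i _ => ?_
  change (algebraMap ℚ ℂ (i.factorial : ℚ)⁻¹) • x ^ i = _
  rw [map_inv₀, map_natCast]

theorem nexp_zero : nexp (0 : A) = 1 := by
  rw [nexp_eq_sum (pow_one 0)]
  simp

theorem nexp_add {x y : A} (h : Commute x y) (hx : IsNilpotent x) (hy : IsNilpotent y) :
    nexp (x + y) = nexp x * nexp y := by
  unfold nexp
  let _ : Module ℚ A := Module.compHom A (algebraMap ℚ ℂ)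
  exact IsNilpotent.exp_add_of_commute h hx hy

theorem nexp_nsmul {x : A} (hx : IsNilpotent x) (m : ℕ) : nexp ((m : ℂ) • x) = nexp x ^ m := by
  induction m with
  | zero => simp [nexp_zero]
  | succ m ih =>
    rw [Nat.cast_succ, add_smul, one_smul,
      nexp_add ((Commute.refl x).smul_left _) (hx.smul _) hx, ih, pow_succ]

theorem nexp_map {A' : Type} [Ring A'] [Algebra ℂ A'] (f : A →ₐ[ℂ] A') {x : A}
    (hx : IsNilpotent x) : f (nexp x) = nexp (f x) := by
  obtain ⟨k, hk⟩ := hx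
  have hk' : f x ^ k = 0 := by rw [← map_pow, hk, map_zero]
  rw [nexp_eq_sum hk, nexp_eq_sum hk', map_sum]
  simp only [map_smul, map_pow]

theorem nexp_conj (u : Aˣ) {x : A} (hx : IsNilpotent x) :
    nexp ((u : A) * x * (u⁻¹ : Aˣ)) = (u : A) * nexp x * (u⁻¹ : Aˣ) := by
  obtain ⟨k, hk⟩ := hx
  have hk' : ((u : A) * x * (u⁻¹ : Aˣ)) ^ k = 0 := by
    rw [Units.conj_pow, hk, mul_zero, zero_mul]
  rw [nexp_eq_sum hk, nexp_eq_sum hk', Finset.mul_sum, Finset.sum_mul]
  refine Finset.sum_congr rfl fun i _ => ?_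
  rw [Units.conj_pow, mul_smul_comm, smul_mul_assoc]

theorem commute_nexp {x y : A} (hx : IsNilpotent x) (h : Commute y x) : Commute y (nexp x) := by
  obtain ⟨k, hk⟩ := hx
  rw [nexp_eq_sum hk]
  exact Commute.sum_right _ _ _ fun i _ => (h.pow_right i).smul_right _

theorem sr1_mul_neg {x : A} (hx : IsNilpotent x) : nexp x * nexp (-x) = 1 := by
  rw [← nexp_add (Commute.refl x).neg_right hx hx.neg, add_neg_cancel, nexp_zero]

/-- the expansion to second order -/
theorem sr1_split {x : A} (hx : IsNilpotent x) :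
    ∃ M : A, (∀ y, Commute y x → Commute y M) ∧ nexp x = 1 + x + x ^ 2 * M := by
  obtain ⟨k, hk⟩ := hx
  refine ⟨∑ i ∈ Finset.range k, (((i + 1 + 1).factorial : ℂ))⁻¹ • x ^ i,
    fun y h => Commute.sum_right _ _ _ fun i _ => (h.pow_right i).smul_right _, ?_⟩
  have hk' : x ^ (k + 1 + 1) = 0 := pow_eq_zero_of_le (by omega) hk
  rw [nexp_eq_sum hk', Finset.sum_range_succ', Finset.sum_range_succ', Finset.mul_sum]
  have e : ∀ i : ℕ, x ^ 2 * (((i + 1 + 1).factorial : ℂ))⁻¹ • x ^ i =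
      (((i + 1 + 1).factorial : ℂ))⁻¹ • x ^ (i + 1 + 1) := fun i => by
    rw [mul_smul_comm, ← pow_add, add_comm 2 i]
  simp only [e]
  simp only [zero_add, Nat.factorial_one, Nat.factorial_zero, Nat.cast_one, inv_one, one_smul,
    pow_one, pow_zero]
  abel

omit [Algebra ℂ A] in
theorem sr1_unit {x M : A} (hx : IsNilpotent x) (h : Commute x M) : IsUnit (1 + x * M) :=
  (h.isNilpotent_mul_right hx).isUnit_one_add

theorem sr1_eq_one {x : A} (hx : IsNilpotent x) (h : nexp x = 1) : x = 0 := by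
  obtain ⟨M, hM, e⟩ := sr1_split hx
  have h1 : x * (1 + x * M) = 0 := by
    rw [h, add_assoc, left_eq_add] at e
    rw [← e]; noncomm_ring
  exact ((sr1_unit hx (hM x rfl)).mul_left_eq_zero).1 h1

theorem sr1_ad {a : A} (ha : IsNilpotent a) (b : A) :
    nexp (LinearMap.mulLeft ℂ a - LinearMap.mulRight ℂ a : Module.End ℂ A) b =
      nexp a * b * nexp (-a) := by
  have hl : IsNilpotent (LinearMap.mulLeft ℂ a) := (LinearMap.isNilpotent_mulLeft_iff ℂ a).2 ha
  have hr : IsNilpotent (LinearMap.mulRight ℂ (-a)) :=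
    (LinearMap.isNilpotent_mulRight_iff ℂ _).2 ha.neg
  have e : (LinearMap.mulLeft ℂ a - LinearMap.mulRight ℂ a : Module.End ℂ A) =
      LinearMap.mulLeft ℂ a + LinearMap.mulRight ℂ (-a) := by
    ext c; simp [sub_eq_add_neg]
  rw [e, nexp_add (LinearMap.commute_mulLeft_right _ _) hl hr]
  obtain ⟨k, hk⟩ := ha
  have hk' : (-a) ^ k = 0 := by rw [neg_pow, hk, mul_zero]
  have h1 : (LinearMap.mulLeft ℂ a : Module.End ℂ A) ^ k = 0 := by
    rw [LinearMap.pow_mulLeft, hk, LinearMap.mulLeft_zero_eq_zero]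
  have h2 : (LinearMap.mulRight ℂ (-a) : Module.End ℂ A) ^ k = 0 := by
    rw [LinearMap.pow_mulRight, hk', LinearMap.mulRight_zero_eq_zero]
  have e1 : ∀ c, nexp (LinearMap.mulLeft ℂ a : Module.End ℂ A) c = nexp a * c := fun c => by
    rw [nexp_eq_sum h1, nexp_eq_sum hk, Finset.sum_mul, LinearMap.sum_apply]
    simp only [LinearMap.pow_mulLeft, LinearMap.smul_apply, LinearMap.mulLeft_apply,
      smul_mul_assoc]
  have e2 : ∀ c, nexp (LinearMap.mulRight ℂ (-a) : Module.End ℂ A) c = c * nexp (-a) := fun c => by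
    rw [nexp_eq_sum h2, nexp_eq_sum hk', Finset.mul_sum, LinearMap.sum_apply]
    simp only [LinearMap.pow_mulRight, LinearMap.smul_apply, LinearMap.mulRight_apply,
      mul_smul_comm]
  rw [Module.End.mul_apply, e1, e2, mul_assoc]

theorem sr1_nexp_ad {a b z : A} (ha : IsNilpotent a) (hz : Commute a z) :
    a * b - b * a = z ↔ nexp a * b * nexp (-a) = b + z := by
  rw [← sr1_ad ha]
  set T : Module.End ℂ A := LinearMap.mulLeft ℂ a - LinearMap.mulRight ℂ a with hT
  have hn : IsNilpotent T := (LinearMap.commute_mulLeft_right a a).isNilpotent_sub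
    ((LinearMap.isNilpotent_mulLeft_iff ℂ a).2 ha) ((LinearMap.isNilpotent_mulRight_iff ℂ a).2 ha)
  obtain ⟨M, hM, e⟩ := sr1_split hn
  have hc : Commute T M := hM T rfl
  have hb : a * b - b * a = T b := by simp [hT]
  have h0 : T z = 0 := by simp [hT, hz.eq]
  have e1 : nexp T b = b + (1 + T * M) (T b) := by
    have : nexp T = 1 + (1 + T * M) * T := by
      rw [e, add_mul, mul_assoc, ← hc.eq]; noncomm_ring
    rw [this]; rfl
  have e2 : (1 + T * M) z = z := by
    rw [hc.eq, LinearMap.add_apply, Module.End.mul_apply, h0, map_zero, add_zero]; rfl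
  have hinj : Function.Injective (1 + T * M : Module.End ℂ A) :=
    ((Module.End.isUnit_iff _).1 (sr1_unit hn hc)).1
  rw [hb, e1, add_right_inj]
  constructor
  · intro h; rw [h, e2]
  · intro h; exact hinj (h.trans e2.symm)

/-- whatever commutes with `exp x` commutes with `x` -/
theorem commute_of_nexp {x y : A} (hx : IsNilpotent x) (h : Commute y (nexp x)) : Commute y x := by
  have h1 := (sr1_nexp_ad (b := y) hx (Commute.zero_right x)).2
    (by rw [← h.eq, mul_assoc, sr1_mul_neg hx, mul_one, add_zero])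
  exact (sub_eq_zero.1 h1).symm

theorem nexp_inj {x y : A} (hx : IsNilpotent x) (hy : IsNilpotent y) (h : nexp x = nexp y) :
    x = y := by
  have hc : Commute y x := commute_of_nexp hx (h ▸ commute_nexp hy (Commute.refl y))
  have h1 : nexp (x + -y) = 1 := by
    rw [nexp_add hc.symm.neg_right hx hy.neg, h, sr1_mul_neg hy]
  have h2 := sr1_eq_one (hc.symm.neg_right.isNilpotent_add hx hy.neg) h1
  exact add_neg_eq_zero.1 h2

theorem sr1_log (k : ℕ) : ∀ n : A, n ^ (k + 1) = 0 →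
    ∃ x : A, IsNilpotent x ∧ (∀ y, Commute y n → Commute y x) ∧ nexp x = 1 + n := by
  induction k with
  | zero =>
    intro n hn
    rw [zero_add, pow_one] at hn
    exact ⟨0, IsNilpotent.zero, fun y _ => Commute.zero_right y, by rw [nexp_zero, hn, add_zero]⟩
  | succ k ih =>
    intro n hn
    have hN : IsNilpotent n := ⟨_, hn⟩
    obtain ⟨M, hM, e⟩ := sr1_split hN.neg
    have hQ : ∀ y, Commute y n → Commute y (M * (1 + n) - 1) := fun y h =>
      ((hM y h.neg_right).mul_right ((Commute.one_right y).add_right h)).sub_right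
        (Commute.one_right y)
    have hQ' : ∀ y, Commute y n → Commute y (n ^ 2 * (M * (1 + n) - 1)) := fun y h =>
      (h.pow_right 2).mul_right (hQ y h)
    have h1 : (n ^ 2 * (M * (1 + n) - 1)) ^ (k + 1) = 0 := by
      rw [((hQ n rfl).pow_left 2).mul_pow, ← pow_mul, pow_eq_zero_of_le (by omega) hn, zero_mul]
    obtain ⟨x, hx, hxc, ex⟩ := ih _ h1
    have hc : Commute n x := hxc n (hQ' n rfl)
    refine ⟨n + x, hc.isNilpotent_add hN hx, fun y h => h.add_right (hxc y (hQ' y h)), ?_⟩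
    have h2 : 1 + n ^ 2 * (M * (1 + n) - 1) = nexp (-n) * (1 + n) := by
      rw [e]; noncomm_ring
    rw [nexp_add hc hN hx, ex, h2, ← mul_assoc, sr1_mul_neg hN, one_mul]

theorem exists_log {u : A} (hu : IsNilpotent (u - 1)) : ∃ x : A, IsNilpotent x ∧ nexp x = u := by
  obtain ⟨k, hk⟩ := hu
  obtain ⟨x, hx, -, e⟩ := sr1_log k (u - 1) (pow_eq_zero_of_le (Nat.le_succ k) hk)
  exact ⟨x, hx, by rw [e, add_sub_cancel]⟩

/-- conjugation by an exponential when the double commutator vanishes -/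
theorem nexp_ad {a b z : A} (ha : IsNilpotent a) (hz : Commute a z) :
    a * b - b * a = z ↔ nexp a * b * nexp (-a) = b + z := sr1_nexp_ad ha hz

theorem sr1_det {W : Type} [AddCommGroup W] [Module ℂ W] [FiniteDimensional ℂ W]
    {a b z : Module.End ℂ W} {μ : ℂ} (ha : Function.Injective a) (hb : Function.Injective b)
    (h : a * b = z * b * a) (hz : IsNilpotent (z - algebraMap ℂ _ μ)) :
    μ ^ Module.finrank ℂ W = 1 := by
  have da : LinearMap.det a ≠ 0 := fun h0 =>
    (LinearMap.det_eq_zero_iff_ker_ne_bot.1 h0) (LinearMap.ker_eq_bot.2 ha)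
  have db : LinearMap.det b ≠ 0 := fun h0 =>
    (LinearMap.det_eq_zero_iff_ker_ne_bot.1 h0) (LinearMap.ker_eq_bot.2 hb)
  have h1 := congrArg LinearMap.det h
  rw [map_mul, map_mul, map_mul] at h1
  have h2 : LinearMap.det z = 1 := by
    apply mul_right_cancel₀ (mul_ne_zero db da)
    rw [← mul_assoc, ← h1]; ring
  have h3 := LinearMap.eval_charpoly (-(z - algebraMap ℂ _ μ)) μ
  rw [hz.neg.charpoly_eq_X_pow_finrank, sub_neg_eq_add, add_sub_cancel, h2] at h3
  simpa using h3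

/-- the central element of a Heisenberg triple is quasi-unipotent -/
theorem heis_unip {V : Type} [AddCommGroup V] [Module ℂ V] [FiniteDimensional ℂ V]
    (a b z : (Module.End ℂ V)ˣ) (h : a * b * a⁻¹ * b⁻¹ = z) (ha : Commute a z) (hb : Commute b z) :
    IsNilpotent (((z ^ (Module.finrank ℂ V).factorial : (Module.End ℂ V)ˣ) : Module.End ℂ V) - 1) := by
  set D := Module.finrank ℂ V with hD
  set Z : Module.End ℂ V := z.val with hZ
  have hab : (a : Module.End ℂ V) * b = Z * b * a := by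
    have : a * b = z * b * a := by rw [← h]; group
    exact congrArg Units.val this
  have hza : Commute Z (a : Module.End ℂ V) := ha.symm.units_val
  have hzb : Commute Z (b : Module.End ℂ V) := hb.symm.units_val
  have ia : Function.Injective (a : Module.End ℂ V) := ((Module.End.isUnit_iff _).1 a.isUnit).1
  have ib : Function.Injective (b : Module.End ℂ V) := ((Module.End.isUnit_iff _).1 b.isUnit).1
  refine ⟨D, ?_⟩
  rw [Units.val_pow_eq_pow_val, ← LinearMap.ker_eq_top, eq_top_iff,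
    ← Module.End.iSup_maxGenEigenspace_eq_top Z, iSup_le_iff]
  intro μ v hv
  by_cases hv0 : v = 0
  · rw [hv0]; exact Submodule.zero_mem _
  have ma := Module.End.mapsTo_maxGenEigenspace_of_comm hza μ
  have mb := Module.End.mapsTo_maxGenEigenspace_of_comm hzb μ
  have mz := Module.End.mapsTo_maxGenEigenspace_of_comm (Commute.refl Z) μ
  have h1 : μ ^ Module.finrank ℂ (Z.maxGenEigenspace μ) = 1 := by
    refine sr1_det (a := (a : Module.End ℂ V).restrict ma) (b := (b : Module.End ℂ V).restrict mb)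
      (z := Z.restrict mz) (fun x y e => Subtype.ext (ia (congrArg Subtype.val e)))
      (fun x y e => Subtype.ext (ib (congrArg Subtype.val e))) ?_ ?_
    · ext x
      exact LinearMap.congr_fun hab x
    · convert Z.isNilpotent_restrict_maxGenEigenspace_sub_algebraMap μ using 1
      ext x
      rfl
  have hpos : 0 < Module.finrank ℂ (Z.maxGenEigenspace μ) :=
    Module.finrank_pos_iff_exists_ne_zero.2 ⟨⟨v, hv⟩, fun e => hv0 (congrArg Subtype.val e)⟩
  have h2 : μ ^ D.factorial = 1 := by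
    obtain ⟨c, hc⟩ := Nat.dvd_factorial hpos (Submodule.finrank_le _)
    rw [hc, pow_mul, h1, one_pow]
  have h3 : Polynomial.X - Polynomial.C μ ∣ (Polynomial.X ^ D.factorial - 1 : Polynomial ℂ) := by
    rw [Polynomial.dvd_iff_isRoot]
    simp [h2]
  obtain ⟨q, hq⟩ := h3
  have h4 : (Z ^ D.factorial - 1) ^ D = Polynomial.aeval Z (q ^ D) * (Z - μ • 1) ^ D := by
    have := congrArg (fun p => Polynomial.aeval Z (p ^ D)) hq
    simp only [mul_comm _ q, mul_pow, map_mul, map_pow, map_sub, Polynomial.aeval_X, map_one,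
      Polynomial.aeval_C, Algebra.algebraMap_eq_smul_one] at this
    rw [this, map_pow]
  rw [Module.End.maxGenEigenspace_eq_genEigenspace_finrank, Module.End.mem_genEigenspace_nat,
    LinearMap.mem_ker] at hv
  rw [LinearMap.mem_ker, h4, Module.End.mul_apply, hv, map_zero]

end Pool.Agent.MP_8299d6_al.Up

end
end

section

open Matrix

noncomputable section

namespace Pool.Agent.MP_8299d6_al.Up

open Pool.Agent.MP_810665_al (IrrChar)

section Tensor

variable {κ : Type} [Fintype κ] [DecidableEq κ] {n : ℕ}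

/-- the Kronecker product of a family of matrices -/
def hw2P : (κ → Mat n ℂ) →* Matrix (κ → Fin n) (κ → Fin n) ℂ where
  toFun g := of fun a b => ∏ k, g k (a k) (b k)
  map_one' := by
    ext a b
    simp only [of_apply, Pi.one_apply, one_apply, Finset.prod_boole, Finset.mem_univ,
      forall_true_left, funext_iff]
  map_mul' g h := by
    ext a c
    simp only [of_apply, Pi.mul_apply, mul_apply, ← Finset.prod_mul_distrib]
    rw [Finset.prod_univ_sum, Fintype.piFinset_univ]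

lemma hw2P_single (k : κ) (A : Mat n ℂ) (a b : κ → Fin n) :
    hw2P (Pi.mulSingle k A) a b =
      A (a k) (b k) * ∏ l ∈ Finset.univ.erase k, (1 : Mat n ℂ) (a l) (b l) := by
  show ∏ l, (Pi.mulSingle k A : κ → Mat n ℂ) l (a l) (b l) = _
  rw [← Finset.mul_prod_erase _ _ (Finset.mem_univ k), Pi.mulSingle_eq_same]
  congr 1
  exact Finset.prod_congr rfl fun l hl => by rw [Pi.mulSingle_eq_of_ne (Finset.ne_of_mem_erase hl)]

/-- the action in one slot -/
def hw2Y (k : κ) : Mat n ℂ →+* Matrix (κ → Fin n) (κ → Fin n) ℂ where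
  toFun A := hw2P (Pi.mulSingle k A)
  map_one' := by rw [Pi.mulSingle_one, map_one]
  map_mul' A B := by rw [Pi.mulSingle_mul, map_mul]
  map_zero' := by
    ext a b
    rw [hw2P_single, Matrix.zero_apply, zero_mul, Matrix.zero_apply]
  map_add' A B := by
    ext a b
    rw [Matrix.add_apply, hw2P_single, hw2P_single, hw2P_single, Matrix.add_apply, add_mul]

lemma hw2Y_comm {k l : κ} (h : k ≠ l) (A B : Mat n ℂ) : Commute (hw2Y k A) (hw2Y l B) :=
  (Pi.mulSingle_commute (f := fun _ : κ => Mat n ℂ) h A B).map hw2P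

lemma hw2Y_comm' (k l : κ) (A : Mat n ℂ) : Commute (hw2Y k A) (hw2Y l A) := by
  rcases eq_or_ne k l with rfl | h
  · exact Commute.refl _
  · exact hw2Y_comm h A A

/-- the action of the Lie algebra -/
def hw2D (κ : Type) [Fintype κ] [DecidableEq κ] (A : Mat n ℂ) :
    Matrix (κ → Fin n) (κ → Fin n) ℂ := ∑ k : κ, hw2Y k A

lemma hw2D_sub (A B : Mat n ℂ) : hw2D κ (A - B) = hw2D κ A - hw2D κ B := by
  simp only [hw2D, map_sub, Finset.sum_sub_distrib]

lemma hw2D_lie (A B : Mat n ℂ) :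
    hw2D κ A * hw2D κ B - hw2D κ B * hw2D κ A = hw2D κ (A * B - B * A) := by
  unfold hw2D
  rw [Finset.sum_mul_sum, Finset.sum_mul_sum, Finset.sum_comm (f := fun l k => hw2Y l B * hw2Y k A),
    ← Finset.sum_sub_distrib]
  refine Finset.sum_congr rfl fun k _ => ?_
  rw [← Finset.sum_sub_distrib, Finset.sum_eq_single k (fun l _ h => ?_) (by simp), map_sub,
    map_mul, map_mul]
  exact sub_eq_zero.2 (hw2Y_comm h.symm A B).eq

lemma hw2_nil {A : Mat n ℂ} (h : A * A = 0) (k : κ) : hw2Y k A ^ 2 = 0 := by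
  rw [sq, ← map_mul, h, map_zero]

lemma hw2_nil_sum {A : Mat n ℂ} (h : A * A = 0) (s : Finset κ) :
    IsNilpotent (∑ k ∈ s, hw2Y k A) :=
  Commute.isNilpotent_sum (fun k _ => ⟨2, hw2_nil h k⟩) fun k l _ _ => hw2Y_comm' k l A

lemma hw2_exp {A : Mat n ℂ} (h : A * A = 0) (s : Finset κ) :
    nexp (∑ k ∈ s, hw2Y k A) = hw2P fun k => if k ∈ s then 1 + A else 1 := by
  induction s using Finset.induction_on with
  | empty =>
    rw [Finset.sum_empty, nexp_zero]
    exact (map_one hw2P).symm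
  | insert k s hk ih =>
    have e : nexp (hw2Y k A) = hw2P (Pi.mulSingle k (1 + A)) := by
      rw [nexp_eq_sum (hw2_nil h k)]
      show _ = hw2Y k (1 + A)
      simp [Finset.sum_range_succ]
    rw [Finset.sum_insert hk, nexp_add (Commute.sum_right _ _ _ fun l _ => hw2Y_comm' k l A)
      ⟨2, hw2_nil h k⟩ (hw2_nil_sum h s), ih, e, ← map_mul]
    congr 1
    funext l
    rcases eq_or_ne l k with rfl | hl
    · simp [hk]
    · simp [hl]

lemma hw2D_perm (A : Mat n ℂ) (σ : Equiv.Perm κ) (a b : κ → Fin n) :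
    hw2D κ A (a ∘ σ) (b ∘ σ) = hw2D κ A a b := by
  unfold hw2D
  rw [Matrix.sum_apply, Matrix.sum_apply, ← Equiv.sum_comp σ fun k => hw2Y k A a b]
  refine Finset.sum_congr rfl fun k _ => ?_
  show ∏ l, (Pi.mulSingle k A : κ → Mat n ℂ) l (a (σ l)) (b (σ l)) =
    ∏ l, (Pi.mulSingle (σ k) A : κ → Mat n ℂ) l (a l) (b l)
  rw [← Equiv.prod_comp σ fun l => (Pi.mulSingle (σ k) A : κ → Mat n ℂ) l (a l) (b l)]
  refine Finset.prod_congr rfl fun l _ => ?_
  rcases eq_or_ne l k with rfl | hl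
  · simp
  · rw [Pi.mulSingle_eq_of_ne hl, Pi.mulSingle_eq_of_ne (σ.injective.ne hl)]

lemma hw2D_single (i j : Fin n) (a : κ → Fin n) :
    hw2D κ (single i j 1) *ᵥ Pi.single a 1 =
      ∑ k, if a k = j then Pi.single (Function.update a k i) (1 : ℂ) else 0 := by
  funext c
  rw [mulVec_single_one, col_apply, hw2D, Matrix.sum_apply, Finset.sum_apply]
  refine Finset.sum_congr rfl fun k _ => ?_
  show hw2P (Pi.mulSingle k _) c a = _
  rw [hw2P_single]
  simp only [one_apply, Finset.prod_boole, single_apply, Finset.mem_erase, Finset.mem_univ,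
    and_true]
  by_cases h : a k = j
  · rw [if_pos h, Pi.single_apply]
    by_cases h1 : c = Function.update a k i
    · subst h1
      rw [if_pos ⟨by simp, h.symm⟩, if_pos fun l hl => by simp [hl], if_pos rfl, one_mul]
    · rw [if_neg h1, mul_eq_zero]
      by_contra h2
      push Not at h2
      exact h1 (Function.eq_update_iff.2 ⟨(of_ite_ne h2.1).1.symm, of_ite_ne h2.2⟩)
  · rw [if_neg h, if_neg fun e => h e.2.symm, zero_mul, Pi.zero_apply]
where
  of_ite_ne {p : Prop} {_ : Decidable p} (h : (if p then (1 : ℂ) else 0) ≠ 0) : p := by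
    by_contra h'
    exact h (if_neg h')

/-- the antisymmetriser of a group of permutations -/
def hw2A (C : Subgroup (Equiv.Perm κ)) [Fintype C] :
    ((κ → Fin n) → ℂ) →ₗ[ℂ] ((κ → Fin n) → ℂ) :=
  ∑ σ : C, ((Equiv.Perm.sign σ.1 : ℤ) : ℂ) • LinearMap.funLeft ℂ ℂ fun a => a ∘ σ.1

variable {C : Subgroup (Equiv.Perm κ)} [Fintype C]

lemma hw2A_apply (F : (κ → Fin n) → ℂ) (a : κ → Fin n) :
    hw2A C F a = ∑ σ : C, ((Equiv.Perm.sign σ.1 : ℤ) : ℂ) * F (a ∘ σ.1) := by
  simp [hw2A, LinearMap.sum_apply, Finset.sum_apply]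

lemma hw2A_comm (A : Mat n ℂ) (F : (κ → Fin n) → ℂ) :
    hw2D κ A *ᵥ hw2A C F = hw2A C (hw2D κ A *ᵥ F) := by
  funext a
  simp only [mulVec, dotProduct, hw2A_apply, Finset.mul_sum]
  rw [Finset.sum_comm]
  refine Finset.sum_congr rfl fun σ _ => ?_
  refine Fintype.sum_equiv (σ.1.symm.arrowCongr (Equiv.refl _)) _ _ fun b => ?_
  rw [← hw2D_perm A σ.1 a b, mul_left_comm]
  rfl

lemma hw2A_zero {k l : κ} (h : k ≠ l) (hC : Equiv.swap k l ∈ C) {u : κ → Fin n} (hu : u k = u l) :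
    hw2A C (Pi.single u (1 : ℂ)) = 0 := by
  funext a
  have e : u ∘ Equiv.swap k l = u := funext fun x => Equiv.apply_swap_eq_self hu x
  have h1 : hw2A C (Pi.single u (1 : ℂ)) a = -hw2A C (Pi.single u (1 : ℂ)) a := by
    rw [hw2A_apply, ← Finset.sum_neg_distrib]
    refine Fintype.sum_equiv (Equiv.mulRight ⟨_, hC⟩) _ _ fun σ => ?_
    have e1 : a ∘ σ.1 = u ↔ a ∘ ⇑(σ.1 * Equiv.swap k l) = u := by
      rw [Equiv.Perm.coe_mul, ← Function.comp_assoc]
      conv_rhs => rw [← e]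
      exact (Equiv.swap k l).surjective.injective_comp_right.eq_iff.symm
    simp only [Equiv.coe_mulRight, Subgroup.coe_mul, Equiv.Perm.sign_mul, Equiv.Perm.sign_swap h,
      Pi.single_apply, e1]
    split_ifs <;> simp
  exact self_eq_neg.1 h1

lemma hw2_model {β : Type} (bl : κ → β) (a : κ → Fin n)
    (inj : ∀ k l, bl k = bl l → a k = a l → k = l)
    (down : ∀ k i, i < a k → ∃ l, bl l = bl k ∧ a l = i) :
    ∃ (X : Fin n → Fin n → Module.End ℂ ((κ → Fin n) → ℂ))
      (π : Representation ℂ (SLn n ℤ) ((κ → Fin n) → ℂ)) (v : (κ → Fin n) → ℂ),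
      StRel X ∧ v ≠ 0 ∧ (∀ i j, i < j → X i j v = 0) ∧
      (∀ i j, Hh X i j v = ((∑ k, if a k = i then (1 : ℂ) else 0) -
        ∑ k, if a k = j then (1 : ℂ) else 0) • v) ∧ Integ X π := by
  classical
  let C : Subgroup (Equiv.Perm κ) :=
    { carrier := {σ | ∀ k, bl (σ k) = bl k}
      one_mem' := fun _ => rfl
      mul_mem' := fun {σ τ} h1 h2 k => (h1 (τ k)).trans (h2 k)
      inv_mem' := fun {σ} h k => by simpa using (h (σ⁻¹ k)).symm }
  let φ := Matrix.toLinAlgEquiv' (R := ℂ) (n := κ → Fin n)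
  have lie : ∀ A B : Mat n ℂ, φ (hw2D κ A) * φ (hw2D κ B) - φ (hw2D κ B) * φ (hw2D κ A) =
      φ (hw2D κ (A * B - B * A)) := fun A B => by rw [← hw2D_lie, map_sub, map_mul, map_mul]
  have sq : ∀ i j : Fin n, i ≠ j → single i j (1 : ℂ) * single i j (1 : ℂ) = 0 := fun i j h =>
    single_mul_single_of_ne _ _ _ _ h.symm _
  have act : ∀ i j, φ (hw2D κ (single i j 1)) (hw2A C (Pi.single a 1)) =
      ∑ k, if a k = j then hw2A C (Pi.single (Function.update a k i) (1 : ℂ)) else 0 :=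
    fun i j => by
      rw [toLinAlgEquiv'_apply, hw2A_comm, hw2D_single, map_sum]
      exact Finset.sum_congr rfl fun k _ => by split_ifs <;> simp
  have dg : ∀ i, φ (hw2D κ (single i i 1)) (hw2A C (Pi.single a 1)) =
      (∑ k, if a k = i then (1 : ℂ) else 0) • hw2A C (Pi.single a 1) := fun i => by
    rw [act, Finset.sum_smul]
    refine Finset.sum_congr rfl fun k _ => ?_
    split_ifs with h
    · rw [← h, Function.update_eq_self, one_smul]
    · rw [zero_smul]
  refine ⟨fun i j => φ (hw2D κ (single i j 1)),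
    { toFun := fun g => φ (hw2P fun _ => (Int.castRingHom ℂ).mapMatrix g.1)
      map_one' := ?_
      map_mul' := fun g h => ?_ }, hw2A C (Pi.single a 1), ⟨fun i j k _ _ h => ?_,
      fun i j k l _ _ h h' => ?_, fun i j h => (hw2_nil_sum (sq i j h) _).map φ⟩, fun h => ?_,
      fun i j h => ?_, fun i j => ?_, fun i j h => ?_⟩
  · show φ (hw2P fun _ => (Int.castRingHom ℂ).mapMatrix (1 : Mat n ℤ)) = 1
    rw [map_one]
    exact (congrArg φ (map_one hw2P)).trans (map_one φ)
  · show φ (hw2P fun _ => (Int.castRingHom ℂ).mapMatrix (g.1 * h.1)) = _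
    rw [← map_mul φ, ← map_mul hw2P, map_mul (Int.castRingHom ℂ).mapMatrix]
    rfl
  · rw [lie, single_mul_single_same, single_mul_single_of_ne _ _ _ _ h.symm, sub_zero, mul_one]
  · refine sub_eq_zero.1 ?_
    rw [lie, single_mul_single_of_ne _ _ _ _ h, single_mul_single_of_ne _ _ _ _ h'.symm, sub_self,
      ← sub_self (0 : Mat n ℂ), hw2D_sub, sub_self, map_zero]
  · have h1 := congrFun h a
    rw [hw2A_apply, Finset.sum_eq_single 1 (fun σ _ hσ => ?_) (by simp)] at h1
    · simp at h1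
    · rw [Pi.single_eq_of_ne, mul_zero]
      exact fun e => hσ (Subtype.ext (Equiv.ext fun k => inj _ _ (σ.2 k) (congrFun e k)))
  · rw [act]
    refine Finset.sum_eq_zero fun k _ => ?_
    split_ifs with e
    · obtain ⟨l, h1, h2⟩ := down k i (e ▸ h)
      have hl : l ≠ k := fun e' => h.ne (by rw [← h2, e', e])
      refine hw2A_zero hl.symm (fun x => ?_) (by simp [hl, h2])
      exact Equiv.apply_swap_eq_self h1.symm x
    · rfl
  · rw [Hh, lie, single_mul_single_same, single_mul_single_same, mul_one, hw2D_sub, map_sub,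
      LinearMap.sub_apply, dg, dg, sub_smul]
  · show φ (hw2P fun _ => (Int.castRingHom ℂ).mapMatrix (1 + single i j 1)) = nexp (φ _)
    rw [hw2D, ← φ.coe_toAlgHom, ← nexp_map _ (hw2_nil_sum (sq i j h) _), hw2_exp (sq i j h),
      map_add, map_one]
    congr 2
    funext k
    rw [if_pos (Finset.mem_univ k), RingHom.mapMatrix_apply, Matrix.map_single]
    simp

end Tensor

/-- an integrable module with a highest weight vector of weight `lam` -/
theorem hw_model (r : ℕ) (lam : Fin r → ℕ) :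
    ∃ (W : Type) (_ : AddCommGroup W) (_ : Module ℂ W) (_ : FiniteDimensional ℂ W)
      (X : Fin (r + 1) → Fin (r + 1) → Module.End ℂ W) (π : Representation ℂ (SLn (r + 1) ℤ) W)
      (v : W), StRel X ∧ IsHW X v lam ∧ Integ X π := by
  classical
  obtain ⟨X, π, v, h1, h2, h3, h4, h5⟩ := hw2_model
    (κ := {p : (Σ i : Fin r, Fin (lam i)) × Fin (r + 1) // p.2.val ≤ p.1.1.val})
    (fun p => p.1.1) (fun p => p.1.2) (fun k l e e' => Subtype.ext (Prod.ext e e'))
    (fun k i h => ⟨⟨(k.1.1, i), (Fin.lt_def.1 h).le.trans k.2⟩, rfl, rfl⟩)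
  refine ⟨_, _, _, inferInstance, X, π, v, h1, ⟨h2, h3, fun i => ?_⟩, h5⟩
  have cnt : ∀ x : Fin (r + 1), (∑ k : {p : (Σ i : Fin r, Fin (lam i)) × Fin (r + 1) //
      p.2.val ≤ p.1.1.val}, if k.1.2 = x then (1 : ℂ) else 0) =
      ∑ j : Fin r, if x.val ≤ j.val then (lam j : ℂ) else 0 := fun x => by
    rw [← Finset.sum_subtype (Finset.univ.filter fun p : (Σ i : Fin r, Fin (lam i)) × Fin (r + 1) =>
      p.2.val ≤ p.1.1.val) (by simp) fun p => if p.2 = x then (1 : ℂ) else 0, Finset.sum_filter,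
      Fintype.sum_prod_type, Fintype.sum_sigma]
    refine Finset.sum_congr rfl fun j _ => ?_
    rw [Finset.sum_congr rfl fun c _ => Finset.sum_eq_single x (fun y _ hy => by simp [hy])
      (by simp)]
    simp
  rw [h4, cnt, cnt, ← Finset.sum_sub_distrib, Finset.sum_eq_single i (fun j _ hj => ?_) (by simp)]
  · simp
  · have : j.val ≠ i.val := fun e => hj (Fin.ext e)
    simp only [Fin.val_castSucc, Fin.val_succ]
    split_ifs <;> first | omega | simp

end Pool.Agent.MP_8299d6_al.Up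

end
end

section

open Matrix

noncomputable section

namespace Pool.Agent.MP_8299d6_al.Up

open Pool.Agent.MP_810665_al (IrrChar)

section Alg
variable {A : Type} [Ring A] [Algebra ℂ A]

theorem sr2_neg_mul {x : A} (hx : IsNilpotent x) : nexp (-x) * nexp x = 1 := by
  rw [← nexp_add (Commute.refl x).neg_left hx.neg hx, neg_add_cancel, nexp_zero]

theorem sr2_mul_neg {x : A} (hx : IsNilpotent x) : nexp x * nexp (-x) = 1 := by
  rw [← nexp_add (Commute.refl x).neg_right hx hx.neg, add_neg_cancel, nexp_zero]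

omit [Algebra ℂ A] in
theorem sr2_conj_nil (u : Aˣ) {x : A} (hx : IsNilpotent x) :
    IsNilpotent ((u : A) * x * (u⁻¹ : Aˣ)) := by
  obtain ⟨k, hk⟩ := hx
  exact ⟨k, by rw [Units.conj_pow, hk, mul_zero, zero_mul]⟩

/-- a relation between exponentials gives the relation between the logarithms -/
theorem sr2_conj (u : Aˣ) {b z : A} (hb : IsNilpotent b) (hz : IsNilpotent z) (hc : Commute z b)
    (h : (u : A) * nexp b * (u⁻¹ : Aˣ) = nexp z * nexp b) : (u : A) * b * (u⁻¹ : Aˣ) = b + z := by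
  apply nexp_inj (sr2_conj_nil u hb) (hc.symm.isNilpotent_add hb hz)
  rw [nexp_conj u hb, h, add_comm, nexp_add hc hz hb]

end Alg

theorem sr2_third {n : ℕ} (hn : 3 ≤ n) (i j : Fin n) : ∃ k : Fin n, k ≠ i ∧ k ≠ j := by
  by_contra h
  push Not at h
  have h1 : (Finset.univ : Finset (Fin n)) ⊆ {i, j} := fun k _ => by
    by_cases hk : k = i
    · simp [hk]
    · simp [h k hk]
  have h2 := (Finset.card_le_card h1).trans Finset.card_le_two
  simp at h2
  omega

section Rep
variable {n : ℕ} {V : Type} [AddCommGroup V] [Module ℂ V] {ρ : Representation ℂ (SLn n ℤ) V}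

theorem sr2_log [FiniteDimensional ℂ V] (hn : 3 ≤ n) (ρ : Representation ℂ (SLn n ℤ) V)
    (i j : Fin n) : ∃ y : Module.End ℂ V, ∀ h : i ≠ j, IsNilpotent y ∧
      nexp y = ρ (el h (((Module.finrank ℂ V).factorial : ℕ) : ℤ)) := by
  by_cases h : i = j
  · exact ⟨0, fun h' => absurd h h'⟩
  obtain ⟨k, hki, hkj⟩ := sr2_third hn i j
  have e1 := el_comm hki.symm hkj h (1 : ℤ) 1
  rw [mul_one] at e1
  have h1 := heis_unip (ρ.toHomUnits (el hki.symm 1)) (ρ.toHomUnits (el hkj 1))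
    (ρ.toHomUnits (el h 1)) (by rw [← e1]; simp only [map_mul, map_inv])
    ((el_commute hki.symm h hki h 1 1).map _) ((el_commute hkj h (Ne.symm h) hkj 1 1).map _)
  rw [← map_pow, el_pow, mul_one] at h1
  obtain ⟨y, hy⟩ := exists_log h1
  exact ⟨y, fun _ => hy⟩

/-- the logarithms of the elementary matrices of level `m` -/
structure sr2Log (ρ : Representation ℂ (SLn n ℤ) V) (m : ℕ)
    (X : Fin n → Fin n → Module.End ℂ V) : Prop where
  pos : (m : ℂ) ≠ 0
  nil : ∀ i j, i ≠ j → IsNilpotent (X i j)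
  eq : ∀ (i j : Fin n) (h : i ≠ j), ρ (el h (m : ℤ)) = nexp ((m : ℂ) • X i j)

variable {m : ℕ} {X : Fin n → Fin n → Module.End ℂ V}

theorem sr2_cancel {y x : Module.End ℂ V} (hm : (m : ℂ) ≠ 0) (h : Commute y ((m : ℂ) • x)) :
    Commute y x := by
  have := h.smul_right (m : ℂ)⁻¹
  rwa [smul_smul, inv_mul_cancel₀ hm, one_smul] at this

theorem sr2Log.comm (H : sr2Log ρ m X) {i j : Fin n} (h : i ≠ j) {y : Module.End ℂ V}
    (hy : Commute y (ρ (el h (m : ℤ)))) : Commute y (X i j) := by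
  rw [H.eq] at hy
  exact sr2_cancel H.pos (commute_of_nexp ((H.nil i j h).smul _) hy)

theorem sr2Log.comm_el (H : sr2Log ρ m X) {i j k l : Fin n} (hij : i ≠ j) (hkl : k ≠ l)
    (hjk : j ≠ k) (hil : i ≠ l) (x : ℤ) : Commute (ρ (el hkl x)) (X i j) :=
  H.comm hij ((el_commute hij hkl hjk hil _ x).symm.map ρ)

theorem sr2Log.r2 (H : sr2Log ρ m X) {i j k l : Fin n} (hij : i ≠ j) (hkl : k ≠ l)
    (hjk : j ≠ k) (hil : i ≠ l) : Commute (X i j) (X k l) :=
  H.comm hkl (H.comm_el hij hkl hjk hil _).symm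

theorem sr2Log.eq_mul (H : sr2Log ρ m X) {i j : Fin n} (h : i ≠ j) (c : ℕ) :
    ρ (el h ((c : ℤ) * m)) = nexp ((m : ℂ) • (c : ℂ) • X i j) := by
  have := el_pow h (m : ℤ) c
  rw [← this, map_pow, H.eq, ← nexp_nsmul ((H.nil i j h).smul _), smul_comm]

/-- conjugation of a logarithm -/
theorem sr2Log.conj (H : sr2Log ρ m X) {i j p q : Fin n} (hij : i ≠ j) (hpq : p ≠ q)
    (hqi : q ≠ i) (hpj : p ≠ j) (c : ℕ) {g : SLn n ℤ}
    (hg : g * el hij (m : ℤ) * g⁻¹ = el hpq ((c : ℤ) * m) * el hij (m : ℤ)) :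
    ρ g * X i j * ρ g⁻¹ = X i j + (c : ℂ) • X p q := by
  have h1 := sr2_conj (ρ.toHomUnits g) ((H.nil i j hij).smul (m : ℂ))
    (((H.nil p q hpq).smul (c : ℂ)).smul (m : ℂ))
    ((((H.r2 hpq hij hqi hpj).smul_left _).smul_left _).smul_right _)
    (by
      rw [← H.eq i j hij, ← H.eq_mul hpq, ← map_mul, ← hg, ← map_inv]
      simp only [MonoidHom.coe_toHomUnits, map_mul])
  rw [← map_inv] at h1
  simp only [MonoidHom.coe_toHomUnits] at h1
  apply smul_right_injective _ H.pos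
  simp only [smul_add]
  rw [← h1, mul_smul_comm, smul_mul_assoc]

theorem sr2Log.conj_left (H : sr2Log ρ m X) {i j k : Fin n} (hij : i ≠ j) (hjk : j ≠ k)
    (hik : i ≠ k) (c : ℕ) :
    ρ (el hij (c : ℤ)) * X j k * ρ (el hij (c : ℤ))⁻¹ = X j k + (c : ℂ) • X i k :=
  H.conj hjk hik hjk.symm hik c (by rw [← el_comm hij hjk hik]; group)

theorem sr2Log.conj_right (H : sr2Log ρ m X) {i j k : Fin n} (hij : i ≠ j) (hjk : j ≠ k)
    (hik : i ≠ k) : ρ (el hjk (1 : ℤ))⁻¹ * X i j * ρ (el hjk (1 : ℤ)) = X i j + X i k := by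
  have h1 := H.conj hij hik hik.symm hij 1 (g := (el hjk (1 : ℤ))⁻¹) (by
    have e1 := el_comm hij hjk hik (m : ℤ) 1
    have e2 := (el_commute hjk hik hik.symm hjk (1 : ℤ) ((m : ℤ) * 1)).eq
    rw [Nat.cast_one, mul_comm (1 : ℤ)]
    calc (el hjk (1 : ℤ))⁻¹ * el hij (m : ℤ) * (el hjk (1 : ℤ))⁻¹⁻¹
        = (el hjk (1 : ℤ))⁻¹ * ((el hij (m : ℤ) * el hjk (1 : ℤ) * (el hij (m : ℤ))⁻¹ *
          (el hjk (1 : ℤ))⁻¹) * el hjk (1 : ℤ)) * el hij (m : ℤ) := by group
      _ = _ := by rw [e1, ← e2]; group)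
  rwa [inv_inv, Nat.cast_one, one_smul] at h1

theorem sr2Log.r1 (H : sr2Log ρ m X) {i j k : Fin n} (hij : i ≠ j) (hjk : j ≠ k) (hik : i ≠ k) :
    X i j * X j k - X j k * X i j = X i k := by
  have hn := (H.nil i j hij).smul (m : ℂ)
  have h1 := H.conj_left hij hjk hik m
  have h2 : ρ (el hij (m : ℤ))⁻¹ = nexp (-((m : ℂ) • X i j)) := by
    rw [← mul_one (ρ _), ← sr2_mul_neg hn, ← H.eq i j hij, ← mul_assoc, ← map_mul,
      inv_mul_cancel, map_one, one_mul]
  rw [h2, H.eq, ← nexp_ad hn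
    (((H.r2 hij hik hij.symm hik).smul_left _).smul_right _)] at h1
  apply smul_right_injective _ H.pos
  simp only [smul_sub]
  rw [← h1, mul_smul_comm, smul_mul_assoc]

theorem sr2Log.caseA (H : sr2Log ρ m X) {i j k l : Fin n} (hij : i ≠ j) (hkl : k ≠ l)
    (hjk : j ≠ k) (hil : i ≠ l) : Commute (ρ (el hkl 1) * nexp (-X k l)) (X i j) :=
  (H.comm_el hij hkl hjk hil 1).mul_left
    (commute_nexp (H.nil k l hkl).neg (H.r2 hij hkl hjk hil).neg_right).symm

theorem sr2Log.caseB (H : sr2Log ρ m X) {i j k : Fin n} (hij : i ≠ j) (hki : k ≠ i)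
    (hkj : k ≠ j) : Commute (ρ (el hki 1) * nexp (-X k i)) (X i j) := by
  have hn := H.nil k i hki
  have h1 := H.conj_left hki hij hkj 1
  rw [Nat.cast_one, Nat.cast_one, one_smul] at h1
  have h2 := (nexp_ad hn (H.r2 hki hkj hki.symm hkj)).1 (H.r1 hki hij hkj)
  have h3 : Commute (ρ (el hki 1)) (nexp (-X k i)) :=
    commute_nexp hn.neg (H.comm_el hki hki hki.symm hki 1).neg_right
  have h4 : ρ (el hki 1)⁻¹ * ρ (el hki 1) = 1 := by rw [← map_mul, inv_mul_cancel, map_one]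
  rw [h3.eq]
  calc nexp (-X k i) * ρ (el hki 1) * X i j
      = nexp (-X k i) * (ρ (el hki 1) * X i j * ρ (el hki 1)⁻¹) * ρ (el hki 1) := by
        simp only [mul_assoc, h4, mul_one]
    _ = (nexp (-X k i) * nexp (X k i)) * X i j * (nexp (-X k i) * ρ (el hki 1)) := by
        rw [h1, ← h2]; simp only [mul_assoc]
    _ = _ := by rw [sr2_neg_mul hn, one_mul]

theorem sr2Log.caseC (H : sr2Log ρ m X) {i j l : Fin n} (hij : i ≠ j) (hjl : j ≠ l)
    (hil : i ≠ l) : Commute (ρ (el hjl 1) * nexp (-X j l)) (X i j) := by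
  have hn := H.nil j l hjl
  have h1 := H.conj_right hij hjl hil
  have h2 := (nexp_ad (b := X i j) hn.neg (H.r2 hjl hil hil.symm hjl).neg_left).1
    (by rw [← H.r1 hij hjl hil]; noncomm_ring)
  rw [neg_neg] at h2
  have h4 : ρ (el hjl 1) * ρ (el hjl 1)⁻¹ = 1 := by rw [← map_mul, mul_inv_cancel, map_one]
  calc ρ (el hjl 1) * nexp (-X j l) * X i j
      = ρ (el hjl 1) * (nexp (-X j l) * X i j * nexp (X j l)) * nexp (-X j l) := by
        simp only [mul_assoc, sr2_mul_neg hn, mul_one]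
    _ = (ρ (el hjl 1) * ρ (el hjl 1)⁻¹) * X i j * (ρ (el hjl 1) * nexp (-X j l)) := by
        rw [h2, ← h1]; simp only [mul_assoc]
    _ = _ := by rw [h4, one_mul]

end Rep

theorem superrigid {n : ℕ} (hn : 3 ≤ n) {V : Type} [AddCommGroup V] [Module ℂ V]
    [FiniteDimensional ℂ V] (ρ : Representation ℂ (SLn n ℤ) V) :
    ∃ m : ℕ, 0 < m ∧ ∃ X : Fin n → Fin n → Module.End ℂ V, StRel X ∧
      (∀ (i j : Fin n) (h : i ≠ j), ρ (el h (m : ℤ)) = nexp ((m : ℂ) • X i j)) ∧
      (∀ (k l : Fin n) (h : k ≠ l) (i j : Fin n), i ≠ j →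
        Commute (ρ (el h 1) * nexp (-X k l)) (X i j)) := by
  choose Y hY using sr2_log hn ρ
  have hm0 := (Module.finrank ℂ V).factorial_pos
  set m := (Module.finrank ℂ V).factorial
  have hm : (m : ℂ) ≠ 0 := Nat.cast_ne_zero.2 hm0.ne'
  have H : sr2Log ρ m fun i j => (m : ℂ)⁻¹ • Y i j :=
    ⟨hm, fun i j h => (hY i j h).1.smul _, fun i j h => by
      rw [smul_smul, mul_inv_cancel₀ hm, one_smul, (hY i j h).2]⟩
  refine ⟨m, hm0, _, ⟨fun i j k => H.r1, fun i j k l => H.r2, H.nil⟩, H.eq, ?_⟩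
  intro k l h i j hij
  by_cases hjk : j = k
  · subst hjk
    by_cases hil : i = l
    · subst hil
      obtain ⟨r, hri, hrj⟩ := sr2_third hn i j
      have h1 := H.caseB hri.symm h hrj.symm
      have h2 := H.caseC hrj h hri
      rw [← H.r1 hri.symm hrj hij]
      exact (h1.mul_right h2).sub_right (h2.mul_right h1)
    · exact H.caseC hij h hil
  · by_cases hil : i = l
    · subst hil
      exact H.caseB hij h (Ne.symm hjk)
    · exact H.caseA hij h hjk hil

end Pool.Agent.MP_8299d6_al.Up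

end
end

section

open Matrix

noncomputable section

namespace Pool.Agent.MP_8299d6_al.Up

open Pool.Agent.MP_810665_al (IrrChar)

variable {V : Type} [AddCommGroup V] [Module ℂ V]

/-- the Jacobi identity, first form -/
lemma hw1_jac {A : Type} [Ring A] (a b c : A) :
    (a * b - b * a) * c - c * (a * b - b * a) =
      (a * (b * c - c * b) - (b * c - c * b) * a) - (b * (a * c - c * a) - (a * c - c * a) * b) := by
  noncomm_ring

/-- the Jacobi identity, derivation form -/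
lemma hw1_der {A : Type} [Ring A] (h a b : A) :
    h * (a * b - b * a) - (a * b - b * a) * h =
      ((h * a - a * h) * b - b * (h * a - a * h)) + (a * (h * b - b * h) - (h * b - b * h) * a) := by
  noncomm_ring

lemma hw1_neg {n : ℕ} (X : Fin n → Fin n → Module.End ℂ V) (i j : Fin n) :
    Hh X j i = - Hh X i j := by
  simp [Hh]

lemma hw1_self {n : ℕ} (X : Fin n → Fin n → Module.End ℂ V) (i : Fin n) : Hh X i i = 0 := by
  simp [Hh]

lemma hw1_r2 {n : ℕ} {X : Fin n → Fin n → Module.End ℂ V} (hX : StRel X) {i j k l : Fin n}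
    (h1 : i ≠ j) (h2 : k ≠ l) (h3 : j ≠ k) (h4 : i ≠ l) : X i j * X k l - X k l * X i j = 0 :=
  sub_eq_zero.2 (hX.r2 i j k l h1 h2 h3 h4).eq

lemma hw1_r1' {n : ℕ} {X : Fin n → Fin n → Module.End ℂ V} (hX : StRel X) {i j k : Fin n}
    (h1 : i ≠ j) (h2 : j ≠ k) (h3 : i ≠ k) : X j k * X i j - X i j * X j k = - X i k := by
  rw [← hX.r1 i j k h1 h2 h3]; abel

lemma hw1_cA {n : ℕ} {X : Fin n → Fin n → Module.End ℂ V} (hX : StRel X) {i j k l : Fin n}
    (hij : i ≠ j) (hkl : k ≠ l) (hik : i ≠ k) (hil : i ≠ l) (hjk : j ≠ k) (hjl : j ≠ l) :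
    Hh X i j * X k l - X k l * Hh X i j = 0 := by
  unfold Hh
  rw [hw1_jac, hw1_r2 hX hij.symm hkl hik hjl, hw1_r2 hX hij hkl hjk hil]
  simp

lemma hw1_cB {n : ℕ} {X : Fin n → Fin n → Module.End ℂ V} (hX : StRel X) {i j l : Fin n}
    (hij : i ≠ j) (hil : i ≠ l) (hjl : j ≠ l) :
    Hh X i j * X i l - X i l * Hh X i j = X i l := by
  unfold Hh
  rw [hw1_jac, hX.r1 j i l hij.symm hil hjl, hw1_r2 hX hij hil hij.symm hil,
    hX.r1 i j l hij hjl hil]
  simp

lemma hw1_cE {n : ℕ} {X : Fin n → Fin n → Module.End ℂ V} (hX : StRel X) {i j k : Fin n}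
    (hij : i ≠ j) (hik : i ≠ k) (hjk : j ≠ k) :
    Hh X i j * X k j - X k j * Hh X i j = X k j := by
  unfold Hh
  rw [hw1_jac, hw1_r1' hX hjk.symm hij.symm hik.symm, hw1_r2 hX hij hjk.symm hjk hij]
  have := hw1_r1' hX hik.symm hij hjk.symm
  simp only [mul_neg, neg_mul, mul_zero, zero_mul, sub_self, sub_zero]
  rw [← neg_neg (X k j), ← this]; abel

lemma hw1_third {n : ℕ} (hn : 3 ≤ n) (i j : Fin n) : ∃ r : Fin n, r ≠ i ∧ r ≠ j := by
  by_contra h
  push Not at h
  have hs : (Finset.univ : Finset (Fin n)) ⊆ {i, j} := by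
    intro r _
    by_cases hr : r = i
    · simp [hr]
    · simp [h r hr]
  have h1 := Finset.card_le_card hs
  have h2 : ({i, j} : Finset (Fin n)).card ≤ 2 := Finset.card_le_two
  simp at h1
  omega

lemma hw1_cF {n : ℕ} (hn : 3 ≤ n) {X : Fin n → Fin n → Module.End ℂ V} (hX : StRel X)
    {i j : Fin n} (hij : i ≠ j) :
    Hh X i j * X i j - X i j * Hh X i j = X i j + X i j := by
  obtain ⟨r, hri, hrj⟩ := hw1_third hn i j
  have e := hX.r1 i r j hri.symm hrj hij
  have h1 := hw1_cB hX hij hri.symm hrj.symm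
  have h2 := hw1_cE hX hij hri.symm hrj.symm
  generalize Hh X i j = H at h1 h2
  rw [← e, hw1_der, h1, h2]

lemma hw1_flip {n : ℕ} {X : Fin n → Fin n → Module.End ℂ V} {i j : Fin n} {Y Z : Module.End ℂ V}
    (h : Hh X j i * Y - Y * Hh X j i = Z) : Hh X i j * Y - Y * Hh X i j = - Z := by
  rw [← h, hw1_neg X j i]; noncomm_ring

theorem Hh_X {n : ℕ} (hn : 3 ≤ n) {X : Fin n → Fin n → Module.End ℂ V} (hX : StRel X)
    {i j k l : Fin n} (hij : i ≠ j) (hkl : k ≠ l) :
    Hh X i j * X k l - X k l * Hh X i j =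
      ((if i = k then 1 else 0) - (if i = l then 1 else 0) - (if j = k then 1 else 0)
        + (if j = l then 1 else 0) : ℂ) • X k l := by
  by_cases hik : i = k
  · subst hik
    by_cases hjl : j = l
    · subst hjl
      rw [hw1_cF hn hX hij]
      simp only [hij, hij.symm, if_true, if_false, sub_zero, add_smul, one_smul]
    · rw [hw1_cB hX hij hkl hjl]
      simp [hkl, hij.symm, hjl]
  · by_cases hil : i = l
    · subst hil
      by_cases hjk : j = k
      · subst hjk
        rw [hw1_flip (hw1_cF hn hX hij.symm)]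
        simp only [hij, hij.symm, if_true, if_false, zero_sub, add_zero, sub_smul, one_smul,
          neg_smul]
        abel
      · rw [hw1_flip (hw1_cE hX hij.symm hjk hik)]
        simp [hik, hjk, hij.symm]
    · by_cases hjk : j = k
      · subst hjk
        rw [hw1_flip (hw1_cB hX hij.symm hkl hil)]
        simp [hik, hil, hkl]
      · by_cases hjl : j = l
        · subst hjl
          rw [hw1_cE hX hij hik hjk]
          simp [hik, hil, hjk]
        · rw [hw1_cA hX hij hkl hik hil hjk hjl]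
          simp [hik, hil, hjk, hjl]

theorem Hh_add {n : ℕ} {X : Fin n → Fin n → Module.End ℂ V} (hX : StRel X)
    {i j k : Fin n} (hij : i ≠ j) (hjk : j ≠ k) (hik : i ≠ k) :
    Hh X i j + Hh X j k = Hh X i k := by
  have e := hX.r1 i j k hij hjk hik
  have h : Hh X i k = (X i j * X j k - X j k * X i j) * X k i -
      X k i * (X i j * X j k - X j k * X i j) := by
    rw [e]; rfl
  rw [h, hw1_jac, hX.r1 j k i hjk hik.symm hij.symm, hw1_r1' hX hik.symm hij hjk.symm]
  unfold Hh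
  noncomm_ring

theorem Hh_commute {n : ℕ} (hn : 3 ≤ n) {X : Fin n → Fin n → Module.End ℂ V} (hX : StRel X)
    {i j k l : Fin n} (hij : i ≠ j) (hkl : k ≠ l) : Commute (Hh X i j) (Hh X k l) := by
  have h1 := Hh_X hn hX hij hkl
  have h2 := Hh_X hn hX hij hkl.symm
  have e : Hh X k l = X k l * X l k - X l k * X k l := rfl
  apply sub_eq_zero.1
  rw [e, hw1_der, h1, h2]
  simp only [smul_mul_assoc, mul_smul_comm]
  module

/-- an operator acting on the root vectors by prescribed differences -/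
lemma hw1_grade {r : ℕ} (hr : 2 ≤ r) {X : Fin (r + 1) → Fin (r + 1) → Module.End ℂ V}
    (hX : StRel X) (g : Fin (r + 1) → ℂ) :
    ∃ c : Fin (r + 1) → ℂ, ∀ k l, k ≠ l →
      (∑ i, c i • Hh X 0 i) * X k l - X k l * (∑ i, c i • Hh X 0 i) = (g k - g l) • X k l := by
  set a : ℂ := (∑ i, g i) / ((r : ℂ) + 1) with ha
  have hr1 : ((r : ℂ) + 1) ≠ 0 := by exact_mod_cast Nat.succ_ne_zero r
  have hs : ∑ i, (a - g i) = 0 := by
    rw [Finset.sum_sub_distrib, Finset.sum_const, Finset.card_univ, Fintype.card_fin, ha,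
      nsmul_eq_mul]
    push_cast
    field_simp
    ring
  refine ⟨fun i => a - g i, fun k l hkl => ?_⟩
  have key : ∀ i, Hh X 0 i * X k l - X k l * Hh X 0 i =
      ((if 0 = k then 1 else 0) - (if 0 = l then 1 else 0) - (if i = k then 1 else 0)
        + (if i = l then 1 else 0) : ℂ) • X k l := by
    intro i
    by_cases hi : 0 = i
    · subst hi
      rw [hw1_self]
      have : ((if (0 : Fin (r + 1)) = k then 1 else 0) - (if 0 = l then 1 else 0) -
        (if 0 = k then 1 else 0) + (if 0 = l then 1 else 0) : ℂ) = 0 := by ring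
      rw [this]; simp
    · exact Hh_X (by omega) hX hi hkl
  rw [Finset.sum_mul, Finset.mul_sum, ← Finset.sum_sub_distrib]
  have : ∀ i, ((a - g i) • Hh X 0 i) * X k l - X k l * ((a - g i) • Hh X 0 i) =
      ((a - g i) * ((if 0 = k then 1 else 0) - (if 0 = l then 1 else 0)) -
        (if i = k then a - g i else 0) + (if i = l then a - g i else 0) : ℂ) • X k l := by
    intro i
    rw [smul_mul_assoc, mul_smul_comm, ← smul_sub, key, smul_smul]
    congr 1
    split_ifs <;> ring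
  simp only [this]
  rw [← Finset.sum_smul, Finset.sum_add_distrib, Finset.sum_sub_distrib, ← Finset.sum_mul, hs]
  simp

/-- shifting of eigenvectors -/
lemma hw1_shift {h f : Module.End ℂ V} {c μ : ℂ} (hf : h * f - f * h = c • f) {v : V}
    (hv : h v = μ • v) (m : ℕ) : h ((f ^ m) v) = (μ + m * c) • (f ^ m) v := by
  induction m with
  | zero => simpa using hv
  | succ m ih =>
    have h1 := congrArg (fun T : Module.End ℂ V => T ((f ^ m) v)) hf
    simp only [LinearMap.sub_apply, Module.End.mul_apply, LinearMap.smul_apply, ih,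
      map_smul] at h1
    rw [pow_succ', Module.End.mul_apply, sub_eq_iff_eq_add.1 h1]
    push_cast
    module

/-- the basic lemma on primitive vectors -/
lemma hw1_sl2 {h e f : Module.End ℂ V} (hf : h * f - f * h = (-2 : ℂ) • f)
    (hef : e * f - f * e = h) (hn : IsNilpotent f) {v : V} {μ : ℂ} (hv0 : v ≠ 0)
    (hv : h v = μ • v) (he : e v = 0) : ∃ m : ℕ, μ = m ∧ ∀ a ≤ m, (f ^ a) v ≠ 0 := by
  classical
  have hE : ∀ m : ℕ, e ((f ^ (m + 1)) v) = (((m : ℂ) + 1) * (μ - m)) • (f ^ m) v := by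
    intro m
    induction m with
    | zero =>
      have h1 := congrArg (fun T : Module.End ℂ V => T v) hef
      simp only [LinearMap.sub_apply, Module.End.mul_apply, he, map_zero, sub_zero, hv] at h1
      simp [h1]
    | succ m ih =>
      have h1 := congrArg (fun T : Module.End ℂ V => T ((f ^ (m + 1)) v)) hef
      simp only [LinearMap.sub_apply, Module.End.mul_apply, ih, map_smul,
        hw1_shift hf hv (m + 1)] at h1
      rw [pow_succ' f (m + 1), Module.End.mul_apply, sub_eq_iff_eq_add.1 h1,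
        ← Module.End.mul_apply f (f ^ m), ← pow_succ']
      push_cast
      module
  have hex : ∃ m : ℕ, (f ^ m) v = 0 := by
    obtain ⟨m, hm⟩ := hn
    exact ⟨m, by simp [hm]⟩
  have h0 : Nat.find hex ≠ 0 := by
    intro h0
    have := Nat.find_spec hex
    rw [h0] at this
    exact hv0 (by simpa using this)
  obtain ⟨m, hm⟩ := Nat.exists_eq_succ_of_ne_zero h0
  have hz : (f ^ (m + 1)) v = 0 := by
    have := Nat.find_spec hex
    rwa [hm] at this
  have hlt : ∀ a ≤ m, (f ^ a) v ≠ 0 := fun a ha => Nat.find_min hex (by omega)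
  refine ⟨m, ?_, hlt⟩
  have h1 := hE m
  rw [hz, map_zero] at h1
  rcases smul_eq_zero.1 h1.symm with h2 | h2
  · rcases mul_eq_zero.1 h2 with h3 | h3
    · exact absurd h3 (by exact_mod_cast Nat.succ_ne_zero m)
    · exact sub_eq_zero.1 h3
  · exact absurd h2 (hlt m le_rfl)

/-- common eigenvectors of commuting operators -/
lemma hw1_common [FiniteDimensional ℂ V] {ι : Type} [DecidableEq ι] (H : ι → Module.End ℂ V)
    (hc : ∀ i j, Commute (H i) (H j)) (W : Submodule ℂ V) (hW : W ≠ ⊥)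
    (hi : ∀ i, ∀ w ∈ W, H i w ∈ W) (s : Finset ι) :
    ∃ W' : Submodule ℂ V, W' ≤ W ∧ W' ≠ ⊥ ∧ (∀ i, ∀ w ∈ W', H i w ∈ W') ∧
      ∀ i ∈ s, ∃ μ : ℂ, ∀ w ∈ W', H i w = μ • w := by
  induction s using Finset.induction_on with
  | empty => exact ⟨W, le_rfl, hW, hi, by simp⟩
  | insert j s _ ih =>
    obtain ⟨W', h1, h2, h3, h4⟩ := ih
    have : Nontrivial W' := Submodule.nontrivial_iff_ne_bot.2 h2
    obtain ⟨μ, hμ⟩ := Module.End.exists_eigenvalue ((H j).restrict (h3 j))
    obtain ⟨w, hw⟩ := hμ.exists_hasEigenvector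
    refine ⟨W' ⊓ (H j).eigenspace μ, inf_le_left.trans h1, ?_, ?_, ?_⟩
    · rw [Submodule.ne_bot_iff]
      refine ⟨w.1, ⟨w.2, ?_⟩, fun h => hw.2 (Subtype.ext h)⟩
      have := congrArg Subtype.val hw.apply_eq_smul
      exact Module.End.mem_eigenspace_iff.2 this
    · rintro i x ⟨hx1, hx2⟩
      refine ⟨h3 i x hx1, Module.End.mem_eigenspace_iff.2 ?_⟩
      have e := Module.End.mem_eigenspace_iff.1 hx2
      rw [← Module.End.mul_apply, (hc j i).eq, Module.End.mul_apply, e, map_smul]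
    · intro i hi'
      rcases Finset.mem_insert.1 hi' with rfl | hi'
      · exact ⟨μ, fun x hx => Module.End.mem_eigenspace_iff.1 hx.2⟩
      · obtain ⟨ν, hν⟩ := h4 i hi'
        exact ⟨ν, fun x hx => hν x hx.1⟩

lemma hw1_ne {r : ℕ} (i : Fin r) : i.castSucc ≠ i.succ := (Fin.castSucc_lt_succ).ne

lemma hw1_hf {r : ℕ} (hr : 2 ≤ r) {X : Fin (r + 1) → Fin (r + 1) → Module.End ℂ V}
    (hX : StRel X) (i : Fin r) :
    Hh X i.castSucc i.succ * X i.succ i.castSucc - X i.succ i.castSucc * Hh X i.castSucc i.succ =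
      (-2 : ℂ) • X i.succ i.castSucc := by
  rw [Hh_X (by omega) hX (hw1_ne i) (hw1_ne i).symm]
  simp only [hw1_ne i, (hw1_ne i).symm, if_true, if_false]
  norm_num

theorem hw_exists {r : ℕ} (hr : 2 ≤ r) [FiniteDimensional ℂ V]
    {X : Fin (r + 1) → Fin (r + 1) → Module.End ℂ V} (hX : StRel X) (hV : ∃ v : V, v ≠ 0) :
    ∃ (v : V) (lam : Fin r → ℕ), IsHW X v lam := by
  classical
  obtain ⟨c, hc⟩ := hw1_grade hr hX (fun k => -((k : ℕ) : ℂ))
  set D : Module.End ℂ V := ∑ i, c i • Hh X 0 i with hD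
  have : Nontrivial V := by
    obtain ⟨v, hv⟩ := hV
    exact ⟨⟨v, 0, hv⟩⟩
  have hfin : {μ : ℂ | D.HasEigenvalue μ}.Finite := Module.End.finite_hasEigenvalue D
  obtain ⟨μ, hμ, hmax⟩ := Set.exists_max_image _ Complex.re hfin (Module.End.exists_eigenvalue D)
  obtain ⟨v, hv⟩ := Module.End.HasEigenvalue.exists_hasEigenvector hμ
  let W : Submodule ℂ V :=
    { carrier := {w | ∀ i j, i < j → X i j w = 0}
      zero_mem' := fun i j _ => map_zero _
      add_mem' := fun {a b} ha hb i j hij => by rw [map_add, ha i j hij, hb i j hij, add_zero]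
      smul_mem' := fun a w hw i j hij => by rw [map_smul, hw i j hij, smul_zero] }
  have hvW : v ∈ W := by
    intro i j hij
    by_contra hne
    have h1 := hw1_shift (hc i j hij.ne) hv.apply_eq_smul 1
    rw [pow_one] at h1
    have h2 : D.HasEigenvalue (μ + ((1 : ℕ) : ℂ) * (-((i : ℕ) : ℂ) - -((j : ℕ) : ℂ))) :=
      Module.End.hasEigenvalue_of_hasEigenvector ⟨Module.End.mem_eigenspace_iff.2 h1, hne⟩
    have h3 := hmax _ h2
    simp at h3
    exact absurd hij (not_lt.2 h3)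
  have hW : W ≠ ⊥ := by
    rw [Submodule.ne_bot_iff]
    exact ⟨v, hvW, hv.2⟩
  obtain ⟨W', h1, h2, -, h4⟩ := hw1_common (fun i : Fin r => Hh X i.castSucc i.succ)
    (fun i j => Hh_commute (by omega) hX (hw1_ne i) (hw1_ne j)) W hW (by
      intro t w hw i j hij
      have h1 := congrArg (fun T : Module.End ℂ V => T w) (Hh_X (by omega) hX (hw1_ne t) hij.ne)
      simp only [LinearMap.sub_apply, Module.End.mul_apply, LinearMap.smul_apply, hw i j hij,
        map_zero, smul_zero, zero_sub, neg_eq_zero] at h1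
      exact h1) Finset.univ
  obtain ⟨w, hw, hw0⟩ := (Submodule.ne_bot_iff _).1 h2
  have h5 : ∀ i : Fin r, ∃ m : ℕ, Hh X i.castSucc i.succ w = (m : ℂ) • w := by
    intro i
    obtain ⟨ν, hν⟩ := h4 i (Finset.mem_univ i)
    obtain ⟨m, hm, -⟩ := hw1_sl2 (e := X i.castSucc i.succ) (hw1_hf hr hX i) rfl
      (hX.nil _ _ (hw1_ne i).symm) hw0 (hν w hw) (h1 hw _ _ Fin.castSucc_lt_succ)
    exact ⟨m, by rw [← hm]; exact hν w hw⟩
  choose lam hlam using h5
  exact ⟨w, lam, hw0, h1 hw, hlam⟩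

lemma hw1_eig {r : ℕ} {X : Fin (r + 1) → Fin (r + 1) → Module.End ℂ V} (hX : StRel X) {v : V}
    {lam : Fin r → ℕ} (hv : IsHW X v lam) (i : Fin (r + 1)) : ∃ μ : ℂ, Hh X 0 i v = μ • v := by
  induction i using Fin.induction with
  | zero => exact ⟨0, by simp [hw1_self]⟩
  | succ i ih =>
    obtain ⟨μ, hμ⟩ := ih
    by_cases h0 : (0 : Fin (r + 1)) = i.castSucc
    · exact ⟨lam i, by rw [h0]; exact hv.wt i⟩
    · refine ⟨μ + lam i, ?_⟩
      rw [← Hh_add hX h0 (hw1_ne i) (Fin.succ_ne_zero i).symm, LinearMap.add_apply, hμ, hv.wt i,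
        add_smul]

lemma hw1_chain {r : ℕ} (hr : 2 ≤ r) {X : Fin (r + 1) → Fin (r + 1) → Module.End ℂ V}
    (hX : StRel X) {v : V} {lam : Fin r → ℕ} (hv : IsHW X v lam) {G : Module.End ℂ V} {μ : ℂ}
    {d : Fin r → ℂ} (hG : G v = μ • v)
    (hd : ∀ i : Fin r, G * X i.succ i.castSucc - X i.succ i.castSucc * G =
      d i • X i.succ i.castSucc)
    (a : Fin r → ℕ) (ha : ∀ i, a i ≤ lam i) (t : ℕ) (ht : t ≤ r) :
    ∃ u : V, u ≠ 0 ∧ (∀ i : Fin r, t ≤ i → X i.castSucc i.succ u = 0 ∧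
        ∃ m : ℕ, Hh X i.castSucc i.succ u = ((lam i + m : ℕ) : ℂ) • u) ∧
      G u = (μ + ∑ j : Fin r, if (j : ℕ) < t then (a j : ℂ) * d j else 0) • u := by
  induction t with
  | zero =>
    refine ⟨v, hv.ne, fun i _ => ⟨hv.up _ _ Fin.castSucc_lt_succ, 0, hv.wt i⟩, by simpa using hG⟩
  | succ t ih =>
    obtain ⟨u, hu0, hu, hGu⟩ := ih (by omega)
    set s : Fin r := ⟨t, ht⟩ with hs
    obtain ⟨he, m, hm⟩ := hu s le_rfl
    obtain ⟨m', hm', hne⟩ := hw1_sl2 (e := X s.castSucc s.succ) (hw1_hf hr hX s) rfl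
      (hX.nil _ _ (hw1_ne s).symm) hu0 hm he
    have hm'' : lam s + m = m' := by exact_mod_cast hm'
    refine ⟨(X s.succ s.castSucc ^ a s) u, hne _ (by have := ha s; omega), ?_, ?_⟩
    · intro i hi
      have his : i ≠ s := by
        intro h
        rw [h] at hi
        simp [hs] at hi
      obtain ⟨he', k, hk⟩ := hu i (by omega)
      constructor
      · have hc : Commute (X i.castSucc i.succ) (X s.succ s.castSucc) :=
          hX.r2 _ _ _ _ (hw1_ne i) (hw1_ne s).symm (fun h => his (Fin.succ_injective _ h))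
            (fun h => his (Fin.castSucc_injective _ h))
        rw [← Module.End.mul_apply, (hc.pow_right _).eq, Module.End.mul_apply, he', map_zero]
      · have h1 := Hh_X (by omega) hX (hw1_ne i) (hw1_ne s).symm
        have e1 : i.castSucc ≠ s.castSucc := fun h => his (Fin.castSucc_injective _ h)
        have e2 : i.succ ≠ s.succ := fun h => his (Fin.succ_injective _ h)
        have e3 : i.succ ≠ s.castSucc := by
          intro h
          have := congrArg Fin.val h
          simp [hs] at this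
          omega
        simp only [e1, e2, e3, if_false, sub_zero, add_zero] at h1
        have h2 := hw1_shift h1 hk (a s)
        by_cases e4 : i.castSucc = s.succ
        · refine ⟨k + a s, ?_⟩
          rw [h2, if_pos e4]
          congr 1
          push_cast
          ring
        · refine ⟨k, ?_⟩
          rw [h2, if_neg e4]
          congr 1
          ring
    · rw [hw1_shift (hd s) hGu (a s)]
      congr 1
      have : ∀ j : Fin r, (if (j : ℕ) < t + 1 then (a j : ℂ) * d j else 0) =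
          (if (j : ℕ) < t then (a j : ℂ) * d j else 0) +
            (if j = s then (a j : ℂ) * d j else 0) := by
        intro j
        by_cases h1 : j = s
        · subst h1
          simp [hs]
        · have h2 : (j : ℕ) ≠ t := fun h => h1 (Fin.ext h)
          by_cases h3 : (j : ℕ) < t
          · simp [h1, h3, show (j : ℕ) < t + 1 by omega]
          · simp [h1, h3, show ¬ (j : ℕ) < t + 1 by omega]
      simp only [this, Finset.sum_add_distrib, Finset.sum_ite_eq', Finset.mem_univ, if_true]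
      ring

theorem hw_dim {r : ℕ} (hr : 2 ≤ r) [FiniteDimensional ℂ V]
    {X : Fin (r + 1) → Fin (r + 1) → Module.End ℂ V} (hX : StRel X) {v : V} {lam : Fin r → ℕ}
    (hv : IsHW X v lam) : ∏ i, (lam i + 1) ≤ Module.finrank ℂ V := by
  classical
  let d : Fin r → ℕ := fun i => ∏ j : Fin i, (lam (Fin.castLE i.is_lt.le j) + 1)
  let g : Fin (r + 1) → ℂ := fun k => ∑ j : Fin r, if (j : ℕ) < k then (d j : ℂ) else 0
  have hg : ∀ i : Fin r, g i.succ - g i.castSucc = d i := by
    intro i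
    have : ∀ j : Fin r, (if (j : ℕ) < (i.succ : ℕ) then (d j : ℂ) else 0) =
        (if (j : ℕ) < (i.castSucc : ℕ) then (d j : ℂ) else 0) +
          (if j = i then (d j : ℂ) else 0) := by
      intro j
      by_cases h1 : j = i
      · subst h1
        simp
      · have h2 : (j : ℕ) ≠ i := fun h => h1 (Fin.ext h)
        by_cases h3 : (j : ℕ) < i
        · simp [h1, h3, show (j : ℕ) < i + 1 by omega]
        · simp [h1, h3, show ¬ (j : ℕ) < i + 1 by omega]
    simp only [g, this, Finset.sum_add_distrib, Finset.sum_ite_eq', Finset.mem_univ, if_true]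
    ring
  obtain ⟨c, hc⟩ := hw1_grade hr hX g
  choose ν hν using hw1_eig hX hv
  set G : Module.End ℂ V := ∑ i, c i • Hh X 0 i with hG
  have hGv : G v = (∑ i, c i * ν i) • v := by
    rw [hG, LinearMap.sum_apply, Finset.sum_smul]
    refine Finset.sum_congr rfl (fun i _ => ?_)
    rw [LinearMap.smul_apply, hν, smul_smul]
  have hd : ∀ i : Fin r, G * X i.succ i.castSucc - X i.succ i.castSucc * G =
      (d i : ℂ) • X i.succ i.castSucc := by
    intro i
    rw [hc _ _ (hw1_ne i).symm, hg]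
  have key : ∀ a : (∀ i : Fin r, Fin (lam i + 1)), ∃ u : V,
      G.HasEigenvector ((∑ i, c i * ν i) + ((finPiFinEquiv a : ℕ) : ℂ)) u := by
    intro a
    obtain ⟨u, hu0, -, hu⟩ := hw1_chain hr hX hv hGv hd (fun i => a i)
      (fun i => Nat.lt_succ_iff.1 (a i).2) r le_rfl
    refine ⟨u, Module.End.mem_eigenspace_iff.2 ?_, hu0⟩
    rw [hu, finPiFinEquiv_apply]
    simp [d]
  choose u hu using key
  have hli : LinearIndependent ℂ u := by
    refine Module.End.eigenvectors_linearIndependent' G _ ?_ u hu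
    intro a b hab
    have h1 : ((finPiFinEquiv a : ℕ) : ℂ) = ((finPiFinEquiv b : ℕ) : ℂ) := add_left_cancel hab
    have h2 : (finPiFinEquiv a : ℕ) = (finPiFinEquiv b : ℕ) := by exact_mod_cast h1
    exact finPiFinEquiv.injective (Fin.ext h2)
  simpa using hli.fintype_card_le_finrank

end Pool.Agent.MP_8299d6_al.Up

end
end

section

open Matrix

noncomputable section

namespace Pool.Agent.MP_8299d6_al.Up

open Pool.Agent.MP_810665_al (IrrChar)

variable {V V' : Type} [AddCommGroup V] [Module ℂ V] [AddCommGroup V'] [Module ℂ V']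

/-- a monomial in the operators applied to a vector -/
def hw3_mon {n : ℕ} (X : Fin n → Fin n → Module.End ℂ V) (u : V) : List (Fin n × Fin n) → V
  | [] => u
  | p :: l => X p.1 p.2 (hw3_mon X u l)

/-- the span of the lowering monomials -/
def hw3_D {n : ℕ} (X : Fin n → Fin n → Module.End ℂ V) (u : V) : Submodule ℂ V :=
  Submodule.span ℂ {w | ∃ l : List (Fin n × Fin n), (∀ p ∈ l, p.2 < p.1) ∧ w = hw3_mon X u l}

lemma hw3_mon_mem {n : ℕ} (X : Fin n → Fin n → Module.End ℂ V) (u : V)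
    {l : List (Fin n × Fin n)} (hl : ∀ p ∈ l, p.2 < p.1) : hw3_mon X u l ∈ hw3_D X u :=
  Submodule.subset_span ⟨l, hl, rfl⟩

lemma hw3_stab_of {n : ℕ} (X : Fin n → Fin n → Module.End ℂ V) (u : V) (T : Module.End ℂ V)
    (h : ∀ l : List (Fin n × Fin n), (∀ p ∈ l, p.2 < p.1) → T (hw3_mon X u l) ∈ hw3_D X u) :
    ∀ w ∈ hw3_D X u, T w ∈ hw3_D X u := by
  intro w hw
  have : hw3_D X u ≤ (hw3_D X u).comap T := by
    refine Submodule.span_le.2 ?_
    rintro _ ⟨l, hl, rfl⟩
    exact h l hl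
  exact this hw

lemma hw3_low {n : ℕ} (X : Fin n → Fin n → Module.End ℂ V) (u : V) {i j : Fin n} (hij : j < i) :
    ∀ w ∈ hw3_D X u, X i j w ∈ hw3_D X u := by
  refine hw3_stab_of X u _ (fun l hl => ?_)
  refine hw3_mon_mem X u (l := (i, j) :: l) ?_
  intro p hp
  rcases List.mem_cons.1 hp with rfl | hp
  · exact hij
  · exact hl p hp

lemma hw3_Hh_swap {n : ℕ} (X : Fin n → Fin n → Module.End ℂ V) (i j : Fin n) :
    Hh X j i = - Hh X i j := by
  simp [Hh]

lemma hw3_wt0 {r : ℕ} {X : Fin (r + 1) → Fin (r + 1) → Module.End ℂ V} (hX : StRel X)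
    (lam : Fin r → ℕ) (j : Fin (r + 1)) :
    ∃ c : ℂ, ∀ u, IsHW X u lam → j ≠ 0 → Hh X 0 j u = c • u := by
  induction j using Fin.induction with
  | zero => exact ⟨0, fun _ _ h => (h rfl).elim⟩
  | succ i ih =>
    obtain ⟨c, hc⟩ := ih
    by_cases h0 : i.castSucc = 0
    · refine ⟨lam i, fun u hu _ => ?_⟩
      rw [← h0]; exact hu.wt i
    · refine ⟨c + lam i, fun u hu h1 => ?_⟩
      have := Hh_add hX (i := 0) (j := i.castSucc) (k := i.succ) (Ne.symm h0)
        (Fin.castSucc_lt_succ).ne (Ne.symm h1)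
      rw [← this, LinearMap.add_apply, hc u hu h0, hu.wt i, add_smul]

lemma hw3_wt {r : ℕ} {X : Fin (r + 1) → Fin (r + 1) → Module.End ℂ V} (hX : StRel X)
    {lam : Fin r → ℕ} {u : V} (hu : IsHW X u lam) {i j : Fin (r + 1)} (hij : i ≠ j) :
    ∃ c : ℂ, Hh X i j u = c • u := by
  choose c hc using hw3_wt0 hX lam
  by_cases hi : i = 0
  · subst hi
    exact ⟨c j, hc j u hu hij.symm⟩
  by_cases hj : j = 0
  · subst hj
    refine ⟨- c i, ?_⟩
    rw [hw3_Hh_swap, LinearMap.neg_apply, hc i u hu hi, neg_smul]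
  · refine ⟨- c i + c j, ?_⟩
    rw [← Hh_add hX (j := 0) hi (Ne.symm hj) hij, LinearMap.add_apply, hw3_Hh_swap,
      LinearMap.neg_apply, hc i u hu hi, hc j u hu hj, add_smul, neg_smul]

lemma hw3_eig {T Y : Module.End ℂ V} {a c : ℂ} {w : V} (h : T * Y - Y * T = a • Y)
    (hw : T w = c • w) : T (Y w) = (c + a) • Y w := by
  have := LinearMap.congr_fun h w
  simp only [LinearMap.sub_apply, Module.End.mul_apply, LinearMap.smul_apply, hw,
    map_smul] at this
  rw [add_smul, ← this]; abel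

lemma hw3_mon_wt {r : ℕ} (hr : 2 ≤ r) {X : Fin (r + 1) → Fin (r + 1) → Module.End ℂ V}
    (hX : StRel X) {lam : Fin r → ℕ} {u : V} (hu : IsHW X u lam) {i j : Fin (r + 1)}
    (hij : i ≠ j) (l : List (Fin (r + 1) × Fin (r + 1))) (hl : ∀ p ∈ l, p.2 < p.1) :
    ∃ c : ℂ, Hh X i j (hw3_mon X u l) = c • hw3_mon X u l := by
  induction l with
  | nil => exact hw3_wt hX hu hij
  | cons p l ih =>
    obtain ⟨c, hc⟩ := ih (fun q hq => hl q (List.mem_cons_of_mem _ hq))
    have hp : p.1 ≠ p.2 := (hl p List.mem_cons_self).ne'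
    exact ⟨_, hw3_eig (Hh_X (by omega) hX hij hp) hc⟩

lemma hw3_mon_stab {r : ℕ} (hr : 2 ≤ r) {X : Fin (r + 1) → Fin (r + 1) → Module.End ℂ V}
    (hX : StRel X) {lam : Fin r → ℕ} {u : V} (hu : IsHW X u lam)
    (l : List (Fin (r + 1) × Fin (r + 1))) (hl : ∀ p ∈ l, p.2 < p.1) :
    ∀ i j, i ≠ j → X i j (hw3_mon X u l) ∈ hw3_D X u := by
  induction l with
  | nil =>
    intro i j hij
    rcases lt_or_gt_of_ne hij with h | h
    · have : X i j (hw3_mon X u []) = 0 := hu.up i j h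
      rw [this]; exact zero_mem _
    · exact hw3_low X u h _ (hw3_mon_mem X u hl)
  | cons p l ih =>
    intro i j hij
    obtain ⟨k, m⟩ := p
    have hl' : ∀ q ∈ l, q.2 < q.1 := fun q hq => hl q (List.mem_cons_of_mem _ hq)
    have hkm : m < k := hl (k, m) List.mem_cons_self
    have ih' := ih hl'
    have h1 : X k m (X i j (hw3_mon X u l)) ∈ hw3_D X u := hw3_low X u hkm _ (ih' i j hij)
    have h2 : (X i j * X k m - X k m * X i j) (hw3_mon X u l) ∈ hw3_D X u := by
      by_cases hjk : j = k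
      · subst hjk
        by_cases him : i = m
        · subst him
          obtain ⟨c, hc⟩ := hw3_mon_wt hr hX hu hij l hl'
          have : (X i j * X j i - X j i * X i j) (hw3_mon X u l) = c • hw3_mon X u l := hc
          rw [this]
          exact Submodule.smul_mem _ _ (hw3_mon_mem X u hl')
        · rw [hX.r1 i j m hij hkm.ne' him]
          exact ih' i m him
      · by_cases him : i = m
        · subst him
          have := hX.r1 k i j hkm.ne' hij (Ne.symm hjk)
          rw [← neg_sub, this, LinearMap.neg_apply]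
          exact neg_mem (ih' k j (Ne.symm hjk))
        · rw [(hX.r2 i j k m hij hkm.ne' hjk him).eq, sub_self]
          exact zero_mem _
    have h3 := add_mem h1 h2
    simp only [LinearMap.sub_apply, Module.End.mul_apply, add_sub_cancel] at h3
    exact h3

/-- the grading operator -/
def hw3_H {r : ℕ} (X : Fin (r + 1) → Fin (r + 1) → Module.End ℂ V) : Module.End ℂ V :=
  ∑ j : Fin (r + 1), ((j : ℕ) : ℂ) • Hh X 0 j

lemma hw3_H_wt {r : ℕ} {X : Fin (r + 1) → Fin (r + 1) → Module.End ℂ V} (hX : StRel X)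
    (lam : Fin r → ℕ) : ∃ c : ℂ, ∀ u, IsHW X u lam → hw3_H X u = c • u := by
  choose c hc using hw3_wt0 hX lam
  refine ⟨∑ j : Fin (r + 1), ((j : ℕ) : ℂ) * c j, fun u hu => ?_⟩
  rw [hw3_H, LinearMap.sum_apply, Finset.sum_smul]
  refine Finset.sum_congr rfl (fun j _ => ?_)
  by_cases hj : j = 0
  · subst hj; simp
  · rw [LinearMap.smul_apply, hc j u hu hj, smul_smul]

lemma hw3_H_X {r : ℕ} (hr : 2 ≤ r) {X : Fin (r + 1) → Fin (r + 1) → Module.End ℂ V}
    (hX : StRel X) {k l : Fin (r + 1)} (hkl : l < k) :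
    ∃ m : ℕ, 0 < m ∧ hw3_H X * X k l - X k l * hw3_H X = (-(m : ℂ)) • X k l := by
  have hk0 : (0 : Fin (r + 1)) ≠ k := (lt_of_le_of_lt (Fin.zero_le l) hkl).ne
  have key : hw3_H X * X k l - X k l * hw3_H X =
      (∑ j : Fin (r + 1), ((j : ℕ) : ℂ) * (0 - (if (0 : Fin (r + 1)) = l then 1 else 0)
        - (if j = k then 1 else 0) + (if j = l then 1 else 0))) • X k l := by
    rw [hw3_H, Finset.sum_mul, Finset.mul_sum, ← Finset.sum_sub_distrib, Finset.sum_smul]
    refine Finset.sum_congr rfl (fun j _ => ?_)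
    by_cases hj : j = 0
    · subst hj; simp
    · rw [smul_mul_assoc, mul_smul_comm, ← smul_sub, Hh_X (by omega) hX (Ne.symm hj) hkl.ne',
        if_neg hk0, smul_smul]
  have hlt : (l : ℕ) < k := hkl
  refine ⟨(if (0 : Fin (r + 1)) = l then ∑ j : Fin (r + 1), (j : ℕ) else 0) + (k - l), by omega, ?_⟩
  rw [key]
  congr 1
  simp only [mul_add, mul_sub, Finset.sum_add_distrib, Finset.sum_sub_distrib, mul_ite, mul_one,
    mul_zero, Finset.sum_ite_eq', Finset.mem_univ, if_true]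
  push_cast [Nat.cast_sub hlt.le]
  split_ifs <;> simp <;> ring

lemma hw3_mon_H {r : ℕ} (hr : 2 ≤ r) {X : Fin (r + 1) → Fin (r + 1) → Module.End ℂ V}
    (hX : StRel X) {u : V} {c : ℂ} (hu : hw3_H X u = c • u)
    (l : List (Fin (r + 1) × Fin (r + 1))) (hl : ∀ p ∈ l, p.2 < p.1) :
    ∃ m : ℕ, (l ≠ [] → 0 < m) ∧ hw3_H X (hw3_mon X u l) = (c - m) • hw3_mon X u l := by
  induction l with
  | nil => exact ⟨0, fun h => (h rfl).elim, by simpa [hw3_mon] using hu⟩
  | cons p l ih =>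
    obtain ⟨m, -, hm⟩ := ih (fun q hq => hl q (List.mem_cons_of_mem _ hq))
    obtain ⟨m', hm0, hm'⟩ := hw3_H_X hr hX (hl p List.mem_cons_self)
    refine ⟨m + m', fun _ => by omega, ?_⟩
    have := hw3_eig hm' hm
    rw [show c - ((m + m' : ℕ) : ℂ) = c - m + -(m' : ℂ) by push_cast; ring]
    exact this

/-- the module generated by a highest weight vector has one highest weight line -/
lemma hw3_gen {r : ℕ} (hr : 2 ≤ r) {X : Fin (r + 1) → Fin (r + 1) → Module.End ℂ V}
    (hX : StRel X) {lam : Fin r → ℕ} {u : V} (hu : IsHW X u lam) :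
    ∃ D : Submodule ℂ V, u ∈ D ∧ (∀ i j, i ≠ j → ∀ w ∈ D, X i j w ∈ D) ∧
      ∀ w ∈ D, IsHW X w lam → ∃ a : ℂ, w = a • u := by
  refine ⟨hw3_D X u, hw3_mon_mem X u (l := []) (by simp), fun i j hij => ?_, ?_⟩
  · exact hw3_stab_of X u _ (fun l hl => hw3_mon_stab hr hX hu l hl i j hij)
  · intro w hw hw'
    obtain ⟨c, hc⟩ := hw3_H_wt hX lam
    have hle : hw3_D X u ≤ (ℂ ∙ u) ⊔ ⨆ μ, ⨆ (_ : μ ≠ c), (hw3_H X).eigenspace μ := by
      refine Submodule.span_le.2 ?_
      rintro _ ⟨l, hl, rfl⟩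
      by_cases h0 : l = []
      · subst h0
        exact Submodule.mem_sup_left (Submodule.mem_span_singleton_self u)
      · obtain ⟨m, hm0, hm⟩ := hw3_mon_H hr hX (hc u hu) l hl
        refine Submodule.mem_sup_right ?_
        have hne : c - m ≠ c := by
          have : (m : ℂ) ≠ 0 := by exact_mod_cast (hm0 h0).ne'
          intro h
          exact this (by linear_combination -h)
        exact Submodule.mem_iSup_of_mem (c - m) (Submodule.mem_iSup_of_mem hne
          (Module.End.mem_eigenspace_iff.2 hm))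
    obtain ⟨y, hy, z, hz, rfl⟩ := Submodule.mem_sup.1 (hle hw)
    obtain ⟨a, rfl⟩ := Submodule.mem_span_singleton.1 hy
    have hz' : z ∈ (hw3_H X).eigenspace c := by
      refine Module.End.mem_eigenspace_iff.2 ?_
      have h1 := hc _ hw'
      rw [map_add, map_smul, hc u hu, smul_add, smul_comm a c u] at h1
      exact add_left_cancel h1
    have hdis := (Module.End.eigenspaces_iSupIndep (hw3_H X)) c
    have : z = 0 := (Submodule.disjoint_def.1 hdis) z hz' hz
    exact ⟨a, by rw [this, add_zero]⟩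

lemma hw3_prod_rel {n : ℕ} {X : Fin n → Fin n → Module.End ℂ V}
    {X' : Fin n → Fin n → Module.End ℂ V'} (hX : StRel X) (hX' : StRel X') :
    StRel (fun i j => ((X i j).prodMap (X' i j) : Module.End ℂ (V × V'))) where
  r1 := fun i j k hij hjk hik => by
    refine LinearMap.ext (fun w => Prod.ext ?_ ?_)
    · exact LinearMap.congr_fun (hX.r1 i j k hij hjk hik) w.1
    · exact LinearMap.congr_fun (hX'.r1 i j k hij hjk hik) w.2
  r2 := fun i j k l hij hkl hjk hil => by
    refine LinearMap.ext (fun w => Prod.ext ?_ ?_)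
    · exact LinearMap.congr_fun (hX.r2 i j k l hij hkl hjk hil).eq w.1
    · exact LinearMap.congr_fun (hX'.r2 i j k l hij hkl hjk hil).eq w.2
  nil := fun i j hij => by
    obtain ⟨a, ha⟩ := hX.nil i j hij
    obtain ⟨b, hb⟩ := hX'.nil i j hij
    have hp : ∀ (m : ℕ) (w : V × V'),
        (((X i j).prodMap (X' i j) : Module.End ℂ (V × V')) ^ m) w
          = ((X i j ^ m) w.1, (X' i j ^ m) w.2) := by
      intro m
      induction m with
      | zero => intro w; rfl
      | succ m ih =>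
        intro w
        rw [pow_succ, pow_succ, pow_succ, Module.End.mul_apply, ih]
        rfl
    refine ⟨a + b, LinearMap.ext (fun w => ?_)⟩
    rw [hp, pow_eq_zero_of_le (Nat.le_add_right a b) ha, pow_eq_zero_of_le (Nat.le_add_left b a) hb]
    rfl

lemma hw3_prod_hw {r : ℕ} {X : Fin (r + 1) → Fin (r + 1) → Module.End ℂ V}
    {X' : Fin (r + 1) → Fin (r + 1) → Module.End ℂ V'} {lam : Fin r → ℕ} {v : V} {v' : V'}
    (h0 : (v, v') ≠ 0) (hv : v = 0 ∨ IsHW X v lam) (hv' : v' = 0 ∨ IsHW X' v' lam) :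
    IsHW (fun i j => ((X i j).prodMap (X' i j) : Module.End ℂ (V × V'))) (v, v') lam where
  ne := h0
  up := fun i j hij => by
    refine Prod.ext ?_ ?_
    · rcases hv with rfl | hv
      · exact map_zero (X i j)
      · exact hv.up i j hij
    · rcases hv' with rfl | hv'
      · exact map_zero (X' i j)
      · exact hv'.up i j hij
  wt := fun i => by
    refine Prod.ext ?_ ?_
    · show Hh X i.castSucc i.succ v = (lam i : ℂ) • v
      rcases hv with rfl | hv
      · simp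
      · exact hv.wt i
    · show Hh X' i.castSucc i.succ v' = (lam i : ℂ) • v'
      rcases hv' with rfl | hv'
      · simp
      · exact hv'.wt i

/-- the submodule of `V × V'` generated by the two highest weight vectors does not contain
`(v, 0)` -/
theorem hw_diag {r : ℕ} (hr : 2 ≤ r) {X : Fin (r + 1) → Fin (r + 1) → Module.End ℂ V}
    {X' : Fin (r + 1) → Fin (r + 1) → Module.End ℂ V'} (hX : StRel X) (hX' : StRel X')
    {v : V} {v' : V'} {lam : Fin r → ℕ} (hv : IsHW X v lam) (hv' : IsHW X' v' lam) :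
    ∃ D : Submodule ℂ (V × V'), (v, v') ∈ D ∧ (v, 0) ∉ D ∧ (0, v') ∉ D ∧
      ∀ i j, i ≠ j → ∀ w ∈ D, (X i j w.1, X' i j w.2) ∈ D := by
  have hu := hw3_prod_hw (X := X) (X' := X') (lam := lam) (v := v) (v' := v')
    (fun h => hv.ne (congrArg Prod.fst h)) (Or.inr hv) (Or.inr hv')
  obtain ⟨D, h1, h2, h3⟩ := hw3_gen hr (hw3_prod_rel hX hX') hu
  refine ⟨D, h1, fun h => ?_, fun h => ?_, h2⟩
  · obtain ⟨a, ha⟩ := h3 _ h (hw3_prod_hw (fun h => hv.ne (congrArg Prod.fst h)) (Or.inr hv)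
      (Or.inl rfl))
    have e1 : v = a • v := congrArg Prod.fst ha
    have e2 : (0 : V') = a • v' := congrArg Prod.snd ha
    rcases smul_eq_zero.1 e2.symm with h0 | h0
    · exact hv.ne (by rw [e1, h0, zero_smul])
    · exact hv'.ne h0
  · obtain ⟨a, ha⟩ := h3 _ h (hw3_prod_hw (fun h => hv'.ne (congrArg Prod.snd h)) (Or.inl rfl)
      (Or.inr hv'))
    have e1 : (0 : V) = a • v := congrArg Prod.fst ha
    have e2 : v' = a • v' := congrArg Prod.snd ha
    rcases smul_eq_zero.1 e1.symm with h0 | h0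
    · exact hv'.ne (by rw [e2, h0, zero_smul])
    · exact hv.ne h0

lemma hw3_fst {n : ℕ} {X : Fin n → Fin n → Module.End ℂ V}
    {X' : Fin n → Fin n → Module.End ℂ V'} (hi : StIrr X) {D : Submodule ℂ (V × V')}
    (hD : ∀ i j, i ≠ j → ∀ w ∈ D, (X i j w.1, X' i j w.2) ∈ D) {v : V} {v' : V'} (hv : v ≠ 0)
    (h1 : (v, v') ∈ D) (h2 : (v, 0) ∉ D) :
    (∀ a, (a, 0) ∈ D → a = 0) ∧ ∀ a, ∃ b, (a, b) ∈ D := by
  constructor
  · rcases hi.2 (D.comap (LinearMap.inl ℂ V V')) (fun i j hij a ha => by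
      have := hD i j hij (a, 0) ha
      simpa using this) with h | h
    · intro a ha
      have : a ∈ D.comap (LinearMap.inl ℂ V V') := ha
      rw [h] at this
      exact this
    · have : v ∈ D.comap (LinearMap.inl ℂ V V') := by rw [h]; trivial
      exact (h2 this).elim
  · rcases hi.2 (D.map (LinearMap.fst ℂ V V')) (fun i j hij a ha => by
      obtain ⟨w, hw, rfl⟩ := ha
      exact ⟨_, hD i j hij w hw, rfl⟩) with h | h
    · have : v ∈ D.map (LinearMap.fst ℂ V V') := ⟨_, h1, rfl⟩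
      rw [h] at this
      exact (hv this).elim
    · intro a
      have : a ∈ D.map (LinearMap.fst ℂ V V') := by rw [h]; trivial
      obtain ⟨w, hw, rfl⟩ := this
      exact ⟨w.2, hw⟩

theorem hw_uniq {r : ℕ} (hr : 2 ≤ r) {X : Fin (r + 1) → Fin (r + 1) → Module.End ℂ V}
    {X' : Fin (r + 1) → Fin (r + 1) → Module.End ℂ V'} (hX : StRel X) (hX' : StRel X')
    (hi : StIrr X) (hi' : StIrr X')
    {v : V} {v' : V'} {lam : Fin r → ℕ} (hv : IsHW X v lam) (hv' : IsHW X' v' lam) :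
    ∃ e : V ≃ₗ[ℂ] V', ∀ i j, i ≠ j → ∀ w, e (X i j w) = X' i j (e w) := by
  obtain ⟨D, h1, h2, h3, hD⟩ := hw_diag hr hX hX' hv hv'
  obtain ⟨k1, s1⟩ := hw3_fst hi hD hv.ne h1 h2
  obtain ⟨k2, s2⟩ := hw3_fst (X := X') (X' := X) hi'
    (D := D.comap (LinearEquiv.prodComm ℂ V' V).toLinearMap)
    (fun i j hij w hw => hD i j hij (w.2, w.1) hw) (v' := v) hv'.ne h1 h3
  let f1 : D →ₗ[ℂ] V := (LinearMap.fst ℂ V V').comp D.subtype
  let f2 : D →ₗ[ℂ] V' := (LinearMap.snd ℂ V V').comp D.subtype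
  have b1 : Function.Bijective f1 := by
    constructor
    · refine (injective_iff_map_eq_zero f1).2 ?_
      rintro ⟨⟨a, b⟩, hab⟩ h
      have ha : a = 0 := h
      subst ha
      have hb : b = 0 := k2 b hab
      subst hb
      rfl
    · intro a
      obtain ⟨b, hb⟩ := s1 a
      exact ⟨⟨(a, b), hb⟩, rfl⟩
  have b2 : Function.Bijective f2 := by
    constructor
    · refine (injective_iff_map_eq_zero f2).2 ?_
      rintro ⟨⟨a, b⟩, hab⟩ h
      have hb : b = 0 := h
      subst hb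
      have ha : a = 0 := k1 a hab
      subst ha
      rfl
    · intro b
      obtain ⟨a, ha⟩ := s2 b
      exact ⟨⟨(a, b), ha⟩, rfl⟩
  let e : V ≃ₗ[ℂ] V' := (LinearEquiv.ofBijective f1 b1).symm.trans (LinearEquiv.ofBijective f2 b2)
  have he : ∀ a b, (a, b) ∈ D → e a = b := by
    intro a b hab
    have : (LinearEquiv.ofBijective f1 b1).symm a = ⟨(a, b), hab⟩ :=
      (LinearEquiv.symm_apply_eq _).2 rfl
    show LinearEquiv.ofBijective f2 b2 ((LinearEquiv.ofBijective f1 b1).symm a) = b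
    rw [this]
    rfl
  refine ⟨e, fun i j hij w => ?_⟩
  obtain ⟨b, hb⟩ := s1 w
  rw [he w b hb]
  exact he _ _ (hD i j hij _ hb)

lemma hw3_nexp_mem {x : Module.End ℂ V} {y : Module.End ℂ V'} (hx : IsNilpotent x)
    (hy : IsNilpotent y) {D : Submodule ℂ (V × V')} (hD : ∀ w ∈ D, (x w.1, y w.2) ∈ D) :
    ∀ w ∈ D, (nexp x w.1, nexp y w.2) ∈ D := by
  obtain ⟨a, ha⟩ := hx
  obtain ⟨b, hb⟩ := hy
  have hp : ∀ (m : ℕ), ∀ w ∈ D, ((x ^ m) w.1, (y ^ m) w.2) ∈ D := by
    intro m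
    induction m with
    | zero => intro w hw; exact hw
    | succ m ih =>
      intro w hw
      rw [pow_succ', pow_succ']
      exact hD _ (ih w hw)
  intro w hw
  rw [nexp_eq_sum (pow_eq_zero_of_le (Nat.le_add_right a b) ha),
    nexp_eq_sum (pow_eq_zero_of_le (Nat.le_add_left b a) hb), LinearMap.sum_apply,
    LinearMap.sum_apply, prod_mk_sum]
  exact sum_mem (fun m _ => D.smul_mem ((m.factorial : ℂ))⁻¹ (hp m w hw))

theorem hw_integ {r : ℕ} (hr : 2 ≤ r) [FiniteDimensional ℂ V]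
    {X : Fin (r + 1) → Fin (r + 1) → Module.End ℂ V} (hX : StRel X) (hi : StIrr X) :
    ∃ π : Representation ℂ (SLn (r + 1) ℤ) V, Integ X π := by
  obtain ⟨v, lam, hv⟩ := hw_exists hr hX hi.1
  obtain ⟨W, _, _, _, X', π', v', hX', hv', hπ'⟩ := hw_model r lam
  obtain ⟨D, h1, h2, -, hD⟩ := hw_diag hr hX hX' hv hv'
  obtain ⟨k1, s1⟩ := hw3_fst hi hD hv.ne h1 h2
  let P : SLn (r + 1) ℤ → Module.End ℂ V → Prop := fun g T => ∀ w ∈ D, (T w.1, π' g w.2) ∈ D
  have uniq : ∀ g T T', P g T → P g T' → T = T' := by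
    intro g T T' hT hT'
    refine LinearMap.ext (fun a => ?_)
    obtain ⟨b, hb⟩ := s1 a
    have := sub_mem (hT _ hb) (hT' _ hb)
    rw [Prod.mk_sub_mk, sub_self] at this
    exact sub_eq_zero.1 (k1 _ this)
  have Pone : P 1 1 := by
    intro w hw
    rw [map_one]
    exact hw
  have Pmul : ∀ g h T U, P g T → P h U → P (g * h) (T * U) := by
    intro g h T U hT hU w hw
    rw [map_mul]
    exact hT _ (hU w hw)
  have Pel : ∀ (i j : Fin (r + 1)) (h : i ≠ j), P (el h 1) (nexp (X i j)) := by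
    intro i j h w hw
    rw [hπ' i j h]
    exact hw3_nexp_mem (hX.nil i j h) (hX'.nil i j h) (hD i j h) w hw
  have Pel' : ∀ (i j : Fin (r + 1)) (h : i ≠ j), P (el h 1)⁻¹ (nexp (- X i j)) := by
    intro i j h w hw
    have e1 : nexp (X' i j) * nexp (- X' i j) = 1 := by
      rw [← nexp_add (Commute.refl _).neg_right (hX'.nil i j h) (hX'.nil i j h).neg,
        add_neg_cancel, nexp_zero]
    have e2 : π' (el h 1)⁻¹ = nexp (- X' i j) := by
      rw [← mul_one (π' (el h 1)⁻¹), ← e1, ← mul_assoc, ← hπ' i j h, ← map_mul, inv_mul_cancel,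
        map_one, one_mul]
    rw [e2]
    refine hw3_nexp_mem (hX.nil i j h).neg (hX'.nil i j h).neg (fun w hw => ?_) w hw
    exact neg_mem (hD i j h w hw)
  let H : Subgroup (SLn (r + 1) ℤ) :=
    { carrier := {g | (∃ T, P g T) ∧ ∃ T, P g⁻¹ T}
      one_mem' := ⟨⟨1, Pone⟩, ⟨1, by rw [inv_one]; exact Pone⟩⟩
      mul_mem' := by
        rintro g h ⟨⟨T, hT⟩, ⟨T', hT'⟩⟩ ⟨⟨U, hU⟩, ⟨U', hU'⟩⟩
        exact ⟨⟨_, Pmul _ _ _ _ hT hU⟩, ⟨_, by rw [_root_.mul_inv_rev]; exact Pmul _ _ _ _ hU' hT'⟩⟩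
      inv_mem' := by
        rintro g ⟨hT, hT'⟩
        exact ⟨hT', by rw [inv_inv]; exact hT⟩ }
  have hH : H = ⊤ := gen_int _ H (fun i j h => ⟨⟨_, Pel i j h⟩, ⟨_, Pel' i j h⟩⟩)
  have hall : ∀ g, ∃ T, P g T := by
    intro g
    have : g ∈ H := by rw [hH]; trivial
    exact this.1
  choose T hT using hall
  refine ⟨{ toFun := T
            map_one' := uniq _ _ _ (hT 1) Pone
            map_mul' := fun g h => uniq _ _ _ (hT (g * h)) (Pmul _ _ _ _ (hT g) (hT h)) }, ?_⟩
  intro i j h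
  exact uniq _ _ _ (hT _) (Pel i j h)

end Pool.Agent.MP_8299d6_al.Up

end
end

section

open Matrix
open scoped TensorProduct

noncomputable section

namespace Pool.Agent.MP_8299d6_al.Up

open Pool.Agent.MP_810665_al (IrrChar)

section aux

variable {n : ℕ} {V W : Type} [AddCommGroup V] [Module ℂ V] [AddCommGroup W] [Module ℂ W]

/-- an irreducible subfamily -/
theorem tens_min [FiniteDimensional ℂ V] {X : Fin n → Fin n → Module.End ℂ V} (hX : StRel X)
    (hV : ∃ v : V, v ≠ 0) : ∃ (S : Submodule ℂ V) (Y : Fin n → Fin n → Module.End ℂ S),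
      StRel Y ∧ StIrr Y ∧ ∀ i j, i ≠ j → ∀ w, (Y i j w : V) = X i j w := by
  obtain ⟨S, ⟨hS0, hS⟩, hmin⟩ := (wellFounded_lt (α := Submodule ℂ V)).has_min
    {S | S ≠ ⊥ ∧ ∀ i j, i ≠ j → ∀ v ∈ S, X i j v ∈ S} ⟨⊤, by
      obtain ⟨v, hv⟩ := hV
      exact ⟨(Submodule.ne_bot_iff _).2 ⟨v, trivial, hv⟩, fun _ _ _ _ _ => trivial⟩⟩
  let Y : Fin n → Fin n → Module.End ℂ S := fun i j =>
    if h : i ≠ j then (X i j).restrict (hS i j h) else 0
  have hY : ∀ i j, i ≠ j → ∀ w, (Y i j w : V) = X i j w := fun i j h w => by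
    simp only [Y, dif_pos h]; rfl
  refine ⟨S, Y, ⟨fun i j k h1 h2 h3 => ?_, fun i j k l h1 h2 h3 h4 => ?_, fun i j h => ?_⟩,
    ⟨?_, fun T hT => ?_⟩, hY⟩
  · ext w
    simpa [hY, h1, h2, h3] using LinearMap.congr_fun (hX.r1 i j k h1 h2 h3) w
  · ext w
    simpa [hY, h1, h2] using LinearMap.congr_fun (hX.r2 i j k l h1 h2 h3 h4).eq w
  · simp only [Y, dif_pos h]
    exact Module.End.isNilpotent.restrict _ (hX.nil i j h)
  · obtain ⟨v, hv, h⟩ := (Submodule.ne_bot_iff _).1 hS0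
    exact ⟨⟨v, hv⟩, fun e => h (congrArg Subtype.val e)⟩
  · by_contra hc
    push Not at hc
    refine hmin (T.map S.subtype) ⟨fun h => hc.1 ?_, ?_⟩
      (lt_of_le_of_ne (S.map_subtype_le T) fun h => hc.2 ?_)
    · exact Submodule.map_injective_of_injective S.injective_subtype (by simpa using h)
    · rintro i j h _ ⟨w, hw, rfl⟩
      exact ⟨_, hT i j h w hw, hY i j h w⟩
    · exact Submodule.map_injective_of_injective S.injective_subtype (by simpa using h)

theorem tens_schur [FiniteDimensional ℂ W] {Y : Fin n → Fin n → Module.End ℂ W} (hY : StIrr Y)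
    (f : Module.End ℂ W) (hf : ∀ i j, i ≠ j → ∀ w, f (Y i j w) = Y i j (f w)) :
    ∃ c : ℂ, ∀ w, f w = c • w := by
  obtain ⟨v, hv⟩ := hY.1
  have : Nontrivial W := ⟨v, 0, hv⟩
  obtain ⟨c, hc⟩ := f.exists_eigenvalue
  rcases hY.2 (f.eigenspace c) (fun i j h w hw => by
    rw [Module.End.mem_eigenspace_iff] at hw ⊢
    rw [hf i j h, hw, map_smul]) with h | h
  · exact absurd h hc
  · exact ⟨c, fun w => Module.End.mem_eigenspace_iff.1 (h.ge trivial)⟩

theorem tens_indep [FiniteDimensional ℂ W] {X : Fin n → Fin n → Module.End ℂ V}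
    {Y : Fin n → Fin n → Module.End ℂ W} (hY : StIrr Y) : ∀ (k : ℕ) (T : Fin k → W →ₗ[ℂ] V),
    LinearIndependent ℂ T → (∀ a i j, i ≠ j → ∀ w, T a (Y i j w) = X i j (T a w)) →
      ∀ w : Fin k → W, ∑ a, T a (w a) = 0 → w = 0 := by
  intro k
  induction k with
  | zero => exact fun _ _ _ w _ => Subsingleton.elim _ _
  | succ k ih =>
    intro T hT hX w hw
    have ih' := ih (fun a => T a.succ) (hT.comp _ (Fin.succ_injective k)) fun a => hX a.succ
    let Φ : (Fin k → W) →ₗ[ℂ] V := ∑ a : Fin k, T a.succ ∘ₗ LinearMap.proj a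
    have hΦ : ∀ x, Φ x = ∑ a : Fin k, T a.succ (x a) := fun x => by
      simp [Φ, LinearMap.sum_apply]
    have hΦX : ∀ i j, i ≠ j → ∀ x, Φ (fun a => Y i j (x a)) = X i j (Φ x) := fun i j h x => by
      simp only [hΦ, map_sum, hX _ i j h]
    have hker : LinearMap.ker Φ = ⊥ := LinearMap.ker_eq_bot'.2 fun x hx => ih' x (hΦ x ▸ hx)
    rw [Fin.sum_univ_succ, ← hΦ] at hw
    rcases hY.2 ((LinearMap.range Φ).comap (T 0)) (by
      rintro i j h v ⟨x, hx⟩
      exact ⟨_, by rw [hΦX i j h, hx, hX _ i j h]⟩) with h | h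
    · have h0 : w 0 = 0 := h.le ⟨-fun a => w a.succ, by
        rw [map_neg]; exact (eq_neg_of_add_eq_zero_left hw).symm⟩
      rw [h0, map_zero, zero_add, hΦ] at hw
      funext a
      exact Fin.cases h0 (fun a => congrFun (ih' _ hw) a) a
    · obtain ⟨L, hL⟩ := Φ.exists_leftInverse_of_injective hker
      have hg : ∀ x, Φ (L (T 0 x)) = T 0 x := fun x => by
        obtain ⟨y, hy⟩ := h.ge (Submodule.mem_top (x := x))
        rw [← hy]
        exact congrArg Φ (LinearMap.congr_fun hL y)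
      have hc : ∀ a, ∃ c : ℂ, ∀ x, L (T 0 x) a = c • x := fun a =>
        tens_schur hY (LinearMap.proj a ∘ₗ L ∘ₗ T 0) fun i j hij x => by
          refine congrFun (LinearMap.ker_eq_bot.1 hker (?_ : Φ (L (T 0 (Y i j x))) =
            Φ fun a => Y i j (L (T 0 x) a))) a
          rw [hΦX i j hij, hg, hg, hX _ i j hij]
      choose c hc using hc
      have := Fintype.linearIndependent_iff.1 hT (Fin.cons (-1) c) (by
        ext x
        have := hg x
        simp only [hΦ, hc, map_smul] at this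
        simp [Fin.sum_univ_succ, LinearMap.sum_apply, this]) 0
      simp at this

theorem tens_nexp {x : Module.End ℂ V} {y : Module.End ℂ W} (hx : IsNilpotent x)
    (hy : IsNilpotent y) {T : W →ₗ[ℂ] V} (h : ∀ w, T (y w) = x (T w)) (w : W) :
    T (nexp y w) = nexp x (T w) := by
  obtain ⟨a, ha⟩ := hx
  obtain ⟨b, hb⟩ := hy
  have hp : ∀ i w, T ((y ^ i) w) = (x ^ i) (T w) := fun i => by
    induction i with
    | zero => simp
    | succ i ih => intro w; simp only [pow_succ, Module.End.mul_apply, ih, h]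
  rw [nexp_eq_sum (k := a + b) (by rw [pow_add, hb, mul_zero]),
    nexp_eq_sum (k := a + b) (by rw [pow_add, ha, zero_mul])]
  simp only [LinearMap.sum_apply, LinearMap.smul_apply, map_sum, map_smul, hp]

/-- the stabiliser of a subspace -/
def tensStab {G : Type} [Group G] [FiniteDimensional ℂ V] (τ : Representation ℂ G V)
    (S : Submodule ℂ V) : Subgroup G where
  carrier := {g | ∀ v ∈ S, τ g v ∈ S}
  one_mem' := fun v hv => by simpa using hv
  mul_mem' := fun {a b} ha hb v hv => by simpa using ha _ (hb v hv)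
  inv_mem' := fun {g} hg v hv => by
    have hi : Function.Injective ((τ g).restrict hg) := fun x y h =>
      Subtype.ext ((τ.apply_bijective g).1 (congrArg Subtype.val h))
    obtain ⟨x, hx⟩ := LinearMap.injective_iff_surjective.1 hi ⟨v, hv⟩
    rw [← show τ g x = v from congrArg Subtype.val hx, τ.inv_self_apply]
    exact x.2

theorem tens_factor {G Q M : Type} [Group G] [Group Q] [Monoid M] (f : G →* Q)
    (hf : Function.Surjective f) (σ : G →* M) (h : ∀ g, f g = 1 → σ g = 1) :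
    ∃ τ : Q →* M, ∀ g, τ (f g) = σ g :=
  ⟨(Units.coeHom M).comp (f.liftOfSurjective hf ⟨σ.toHomUnits, fun g hg => Units.ext (h g hg)⟩),
    fun g => by simp⟩

theorem tens_equiv [FiniteDimensional ℂ W] {X : Fin n → Fin n → Module.End ℂ V}
    {Y : Fin n → Fin n → Module.End ℂ W} (hY : StIrr Y) {G : Type} [Group G]
    {ρ : Representation ℂ G V}
    (hirr : ∀ S : Submodule ℂ V, (∀ g, ∀ v ∈ S, ρ g v ∈ S) → S = ⊥ ∨ S = ⊤)
    {U : Type} [AddCommGroup U] [Module ℂ U] [FiniteDimensional ℂ U] (hU : ∃ u : U, u ≠ 0)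
    (j : U →ₗ[ℂ] W →ₗ[ℂ] V) (hj : Function.Injective j)
    (hX : ∀ u a b, a ≠ b → ∀ w, j u (Y a b w) = X a b (j u w)) (π : G → W → W) (σ : G → U → U)
    (h : ∀ g w u, j (σ g u) (π g w) = ρ g (j u w)) :
    ∃ e : W ⊗[ℂ] U ≃ₗ[ℂ] V, ∀ g w u, e (π g w ⊗ₜ σ g u) = ρ g (e (w ⊗ₜ u)) := by
  let e : W ⊗[ℂ] U →ₗ[ℂ] V := TensorProduct.lift j.flip
  have he : ∀ g w u, e (π g w ⊗ₜ σ g u) = ρ g (e (w ⊗ₜ u)) := h
  have hinj : Function.Injective e := by
    rw [injective_iff_map_eq_zero]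
    intro t ht
    obtain ⟨b, rfl⟩ := TensorProduct.eq_repr_basis_right (Module.finBasis ℂ U) t
    rw [Finsupp.sum_fintype _ _ (by simp)] at ht ⊢
    have := tens_indep (X := X) hY _ _ ((Module.finBasis ℂ U).linearIndependent.map'
      j (LinearMap.ker_eq_bot.2 hj)) (fun a => hX _) b (by simpa [e] using ht)
    simp [this]
  have hsurj : Function.Surjective e := by
    rcases hirr (LinearMap.range e) (by
      rintro γ _ ⟨t, rfl⟩
      induction t using TensorProduct.induction_on with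
      | zero => simp
      | tmul w u => exact ⟨_, he γ w u⟩
      | add x y hx hy => rw [map_add, map_add]; exact Submodule.add_mem _ hx hy) with h | h
    · obtain ⟨u, hu⟩ := hU
      refine absurd (hj (LinearMap.ext fun w => ?_)) hu
      rw [map_zero]
      exact h.le ⟨w ⊗ₜ u, rfl⟩
    · exact LinearMap.range_eq_top.1 h
  exact ⟨LinearEquiv.ofBijective e ⟨hinj, hsurj⟩, he⟩

end aux

/-- an irreducible representation is an algebraic one tensored with one of a congruence
quotient -/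
theorem decomp {r : ℕ} (hr : 2 ≤ r) {V : Type} [AddCommGroup V] [Module ℂ V]
    [FiniteDimensional ℂ V] (ρ : Representation ℂ (SLn (r + 1) ℤ) V) (hρ : ρ.IsIrreducible) :
    ∃ m : ℕ, 0 < m ∧ ∀ (m' : ℕ) [NeZero m'], m ∣ m' →
      ∃ (W : Type) (_ : AddCommGroup W) (_ : Module ℂ W) (_ : FiniteDimensional ℂ W)
        (U : Type) (_ : AddCommGroup U) (_ : Module ℂ U) (_ : FiniteDimensional ℂ U)
        (X : Fin (r + 1) → Fin (r + 1) → Module.End ℂ W) (π : Representation ℂ (SLn (r + 1) ℤ) W)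
        (σ : Representation ℂ (SLn (r + 1) (ZMod m')) U) (e : W ⊗[ℂ] U ≃ₗ[ℂ] V),
        StRel X ∧ StIrr X ∧ Integ X π ∧ σ.IsIrreducible ∧
        ∀ γ w u, e (π γ w ⊗ₜ σ (redSL (r + 1) m' γ) u) = ρ γ (e (w ⊗ₜ u)) := by
  obtain ⟨hV, hirr⟩ := (MP_810665_al.irreducible_iff ρ).1 hρ
  obtain ⟨m, hm, X, hX, h1, h2⟩ := superrigid (by omega) ρ
  obtain ⟨W, Y, hY, hYi, hYX⟩ := tens_min hX hV
  obtain ⟨π, hπ⟩ := hw_integ hr hY hYi
  let U₀ : Submodule ℂ (W →ₗ[ℂ] V) :=
    { carrier := {T | ∀ i j, i ≠ j → ∀ w, T (Y i j w) = X i j (T w)}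
      zero_mem' := fun _ _ _ _ => by simp
      add_mem' := fun ha hb i j h w => by simp [ha i j h, hb i j h]
      smul_mem' := fun c _ ha i j h w => by simp [ha i j h] }
  let τ := Representation.linHom π ρ
  have hτ : ∀ γ T w, τ γ T (π γ w) = ρ γ (T w) := fun γ T w => by simp [τ]
  have hτ' : ∀ γ (T T' : W →ₗ[ℂ] V), (∀ w, T' (π γ w) = ρ γ (T w)) → τ γ T = T' :=
    fun γ T T' h => LinearMap.ext fun w => by
      obtain ⟨w, rfl⟩ := (π.apply_bijective γ).2 w
      rw [hτ, h]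
  have hst : tensStab τ U₀ = ⊤ := gen_int _ _ fun k l h T hT => by
    have hn := hX.nil k l h
    rw [hτ' _ T ((ρ (el h 1) * nexp (-X k l)) ∘ₗ T) fun w => by
      rw [hπ k l h, LinearMap.comp_apply, tens_nexp hn (hY.nil k l h) (hT k l h),
        ← Module.End.mul_apply, mul_assoc, ← nexp_add (Commute.refl _).neg_left hn.neg hn,
        neg_add_cancel, nexp_zero, mul_one]]
    intro i j hij w
    rw [LinearMap.comp_apply, hT i j hij]
    exact LinearMap.congr_fun (h2 k l h i j hij).eq (T w)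
  let σ₁ := τ.subrepresentation U₀ fun γ T hT => hst.ge (Subgroup.mem_top γ) T hT
  refine ⟨m, hm, fun m' _ hm' => ?_⟩
  obtain ⟨σ₂, hσ₂⟩ := tens_factor (redSL (r + 1) m') (redSL_surj _ _) σ₁ fun g hg =>
    csp (by omega) m (MonoidHom.ker σ₁) (fun i j h => LinearMap.ext fun T => Subtype.ext
      (hτ' _ T.1 T.1 fun w => by
        have e : el h (m : ℤ) = el h 1 ^ m := by rw [el_pow, mul_one]
        rw [h1, e, map_pow, hπ, ← nexp_nsmul (hY.nil i j h)]
        exact tens_nexp ((hX.nil i j h).smul _) ((hY.nil i j h).smul _)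
          (fun w => by simp [T.2 i j h]) w))
      g fun i j => (Int.natCast_dvd_natCast.2 hm').trans ((cong_iff m' g).2 hg i j)
  obtain ⟨S, hS⟩ := MP_810665_al.exists_irreducible_sub σ₂
    ⟨⟨W.subtype, fun i j h w => hYX i j h w⟩, fun h => by
      obtain ⟨v, hv⟩ := hYi.1
      exact hv (Subtype.ext (LinearMap.congr_fun (congrArg Subtype.val h) v))⟩
  let j : S.toSubmodule →ₗ[ℂ] W →ₗ[ℂ] V := U₀.subtype ∘ₗ S.toSubmodule.subtype
  have hj : Function.Injective j := U₀.injective_subtype.comp S.toSubmodule.injective_subtype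
  obtain ⟨e, he⟩ := tens_equiv (X := X) hYi hirr ((MP_810665_al.irreducible_iff _).1 hS).1 j hj
    (fun u => u.1.2) (fun γ => π γ) (fun γ => S.toRepresentation (redSL (r + 1) m' γ))
    fun γ w u => by
      change (σ₂ (redSL (r + 1) m' γ) u.1).1 (π γ w) = ρ γ (u.1.1 w)
      rw [hσ₂]
      exact hτ γ _ w
  exact ⟨W, inferInstance, inferInstance, inferInstance, S.toSubmodule, inferInstance,
    inferInstance, inferInstance, Y, π, S.toRepresentation, e, hY, hYi, hπ, hS, he⟩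

end Pool.Agent.MP_8299d6_al.Up

end
end

section

open Matrix

noncomputable section

namespace Pool.Agent.MP_8299d6_al.Up

open Pool.Agent.MP_810665_al (IrrChar)

open scoped TensorProduct ENNReal

/-- `ρ` is the module of highest weight `lam` tensored with the module of character `χ` -/
def countDat {r : ℕ} (m : ℕ) {V : Type} [AddCommGroup V] [Module ℂ V]
    (ρ : Representation ℂ (SLn (r + 1) ℤ) V) (lam : Fin r → ℕ)
    (χ : SLn (r + 1) (ZMod m) → ℂ) : Prop :=
  ∃ (W : Type) (_ : AddCommGroup W) (_ : Module ℂ W) (_ : FiniteDimensional ℂ W)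
    (U : Type) (_ : AddCommGroup U) (_ : Module ℂ U) (_ : FiniteDimensional ℂ U)
    (X : Fin (r + 1) → Fin (r + 1) → Module.End ℂ W) (π : Representation ℂ (SLn (r + 1) ℤ) W)
    (σ : Representation ℂ (SLn (r + 1) (ZMod m)) U) (e : W ⊗[ℂ] U ≃ₗ[ℂ] V) (v : W),
    StRel X ∧ StIrr X ∧ Integ X π ∧ σ.IsIrreducible ∧
    (∀ γ w u, e (π γ w ⊗ₜ σ (redSL (r + 1) m γ) u) = ρ γ (e (w ⊗ₜ u))) ∧
    IsHW X v lam ∧ σ.character = χ

theorem count_exists {r : ℕ} (hr : 2 ≤ r) {V : Type} [AddCommGroup V] [Module ℂ V]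
    [FiniteDimensional ℂ V] (ρ : Representation ℂ (SLn (r + 1) ℤ) V) (hρ : ρ.IsIrreducible) :
    ∃ m : ℕ, 0 < m ∧ ∀ (m' : ℕ) [NeZero m'], m ∣ m' → ∃ lam χ, countDat m' ρ lam χ := by
  obtain ⟨m, hm, h⟩ := decomp hr ρ hρ
  refine ⟨m, hm, fun m' _ hd => ?_⟩
  obtain ⟨W, _, _, _, U, _, _, _, X, π, σ, e, h1, h2, h3, h4, h5⟩ := h m' hd
  obtain ⟨v, lam, hv⟩ := hw_exists hr h1 h2.1
  exact ⟨lam, σ.character, W, _, _, inferInstance, U, _, _, inferInstance, X, π, σ, e, v,
    h1, h2, h3, h4, h5, hv, rfl⟩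

theorem count_irr {r m : ℕ} {V : Type} [AddCommGroup V] [Module ℂ V]
    {ρ : Representation ℂ (SLn (r + 1) ℤ) V} {lam : Fin r → ℕ} {χ : SLn (r + 1) (ZMod m) → ℂ}
    (h : countDat m ρ lam χ) : χ ∈ IrrChar (SLn (r + 1) (ZMod m)) := by
  obtain ⟨W, _, _, _, U, _, _, _, X, π, σ, e, v, -, -, -, h4, -, -, h7⟩ := h
  exact ⟨U, _, _, inferInstance, σ, h4, h7⟩

theorem count_dim {r m : ℕ} (hr : 2 ≤ r) {V : Type} [AddCommGroup V] [Module ℂ V]
    {ρ : Representation ℂ (SLn (r + 1) ℤ) V} {lam : Fin r → ℕ} {χ : SLn (r + 1) (ZMod m) → ℂ}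
    (h : countDat m ρ lam χ) :
    (∏ i, ((lam i : ℝ) + 1)) * ‖χ 1‖ ≤ Module.finrank ℂ V := by
  obtain ⟨W, _, _, _, U, _, _, _, X, π, σ, e, v, h1, -, -, -, -, hv, rfl⟩ := h
  rw [← e.finrank_eq, Module.finrank_tensorProduct, Representation.char_one, Complex.norm_natCast,
    Nat.cast_mul]
  have : (∏ i, ((lam i : ℝ) + 1)) ≤ Module.finrank ℂ W := by exact_mod_cast hw_dim hr h1 hv
  gcongr

theorem count_uniq {r m : ℕ} [NeZero m] (hr : 2 ≤ r) {V V' : Type} [AddCommGroup V] [Module ℂ V]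
    [AddCommGroup V'] [Module ℂ V'] {ρ : Representation ℂ (SLn (r + 1) ℤ) V}
    {ρ' : Representation ℂ (SLn (r + 1) ℤ) V'} {lam : Fin r → ℕ}
    {χ : SLn (r + 1) (ZMod m) → ℂ} (h : countDat m ρ lam χ) (h' : countDat m ρ' lam χ) :
    Nonempty (ρ.Equiv ρ') := by
  obtain ⟨W, _, _, _, U, _, _, _, X, π, σ, e, v, h1, h2, h3, h4, h5, hv, rfl⟩ := h
  obtain ⟨W', _, _, _, U', _, _, _, X', π', σ', e', v', h1', h2', h3', h4', h5', hv', hc⟩ := h'
  obtain ⟨e₁, he₁⟩ := hw_uniq hr h1 h1' h2 h2' hv hv'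
  have : Fintype (SLn (r + 1) (ZMod m)) := Fintype.ofFinite _
  obtain ⟨e₂⟩ := Pool.Agent.MP_810665_al.equiv_of_char_eq h4 h4' hc.symm
  let f : Module.End ℂ W →ₐ[ℂ] Module.End ℂ W' := (e₁.conjAlgEquiv ℂ).toAlgHom
  have hf : ∀ (T : Module.End ℂ W) w, f T w = e₁ (T (e₁.symm w)) := fun T w => rfl
  have hX : ∀ i j, i ≠ j → f (X i j) = X' i j := fun i j hij => by
    ext w
    rw [hf, he₁ i j hij, LinearEquiv.apply_symm_apply]
  have htop : ((f : Module.End ℂ W →* Module.End ℂ W').comp π).eqLocus π' = ⊤ := by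
    refine gen_int _ _ fun i j hij => ?_
    change f (π (el hij 1)) = π' (el hij 1)
    rw [h3 i j hij, h3' i j hij, nexp_map f (h1.nil i j hij), hX i j hij]
  have hπ : ∀ γ w, e₁ (π γ w) = π' γ (e₁ w) := fun γ w => by
    have h6 : f (π γ) = π' γ := (htop ▸ Subgroup.mem_top γ :
      γ ∈ ((f : Module.End ℂ W →* Module.End ℂ W').comp π).eqLocus π')
    rw [← h6, hf, LinearEquiv.symm_apply_apply]
  let E : V ≃ₗ[ℂ] V' := e.symm ≪≫ₗ TensorProduct.congr e₁ e₂.toLinearEquiv ≪≫ₗ e'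
  have hE : ∀ w u, E (e (w ⊗ₜ u)) = e' (e₁ w ⊗ₜ e₂ u) := fun w u => by
    simp only [E, LinearEquiv.trans_apply, LinearEquiv.symm_apply_apply, TensorProduct.congr_tmul]
    rfl
  have key : ∀ γ x, E (ρ γ (e x)) = ρ' γ (E (e x)) := fun γ x => by
    induction x using TensorProduct.induction_on with
    | zero => simp
    | tmul w u => rw [← h5, hE, hE, ← h5', hπ, equiv_apply e₂]
    | add x y hx hy => simp only [map_add, hx, hy]
  refine ⟨Representation.Equiv.mk E fun γ => ?_⟩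
  ext1 x
  have := key γ (e.symm x)
  rwa [LinearEquiv.apply_symm_apply] at this

theorem count_cls {G : Type} [Group G] {c c' : Cls G}
    (h : Nonempty (c.2.out.1.Equiv c'.2.out.1)) : c = c' := by
  obtain ⟨n, q⟩ := c
  obtain ⟨n', q'⟩ := c'
  obtain ⟨e⟩ := h
  have hn : n = n' := by simpa using e.toLinearEquiv.finrank_eq
  subst hn
  congr 1
  rw [← Quotient.out_eq q, ← Quotient.out_eq q']
  exact Quotient.sound ⟨e⟩

theorem count_sum {r : ℕ} (hr : 2 ≤ r) {s : ℝ} (hs : 0 ≤ s) (C K : ℝ)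
    (hK : ∀ B, ∑ k ∈ Finset.range B, ((k : ℝ) + 1) ^ (-s) ≤ K)
    (hC : ∀ (m : ℕ) [NeZero m], Zs (SLn (r + 1) (ZMod m)) (fun _ => True) s ≤ C)
    (F : Finset (Cls (SLn (r + 1) ℤ))) :
    ∑ c ∈ F, ((c.1 + 1 : ℕ) : ℝ) ^ (-s) ≤ K ^ r * C := by
  classical
  choose m hm h using fun c : F => count_exists hr c.1.2.out.1 c.1.2.out.2
  have : NeZero (∏ c, m c) := ⟨Finset.prod_ne_zero_iff.2 fun c _ => (hm c).ne'⟩
  choose lam χ hd using fun c : F =>
    h c (∏ c, m c) (Finset.dvd_prod_of_mem m (Finset.mem_univ c))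
  obtain ⟨B, hB⟩ := (Set.finite_range fun p : F × Fin r => lam p.1 p.2).bddAbove
  let φ : F → (Fin r → ℕ) × (SLn (r + 1) (ZMod (∏ c, m c)) → ℂ) := fun c => (lam c, χ c)
  have hφ : Function.Injective φ := fun c c' e => by
    obtain ⟨e1, e2⟩ := Prod.mk.inj e
    refine Subtype.ext (count_cls (count_uniq hr (hd c) ?_))
    rw [e1, e2]
    exact hd c'
  let g : (Fin r → ℕ) × (SLn (r + 1) (ZMod (∏ c, m c)) → ℂ) → ℝ := fun p =>
    (∏ i, ((p.1 i : ℝ) + 1) ^ (-s)) * ‖p.2 1‖ ^ (-s)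
  have hg : ∀ p, 0 ≤ g p := fun p => by positivity
  have h1 : ∀ c : F, ((c.1.1 + 1 : ℕ) : ℝ) ^ (-s) ≤ g (φ c) := fun c => by
    have h2 := count_dim hr (hd c)
    rw [Module.finrank_fin_fun] at h2
    obtain ⟨d, hd0, hd1⟩ := Pool.Agent.MP_810665_al.irr_one (count_irr (hd c))
    have h3 : 0 < ‖χ c 1‖ := by
      rw [hd1, Complex.norm_natCast]
      exact_mod_cast hd0
    have h4 : 0 < ∏ i, ((lam c i : ℝ) + 1) := by positivity
    refine (Real.rpow_le_rpow_of_nonpos (mul_pos h4 h3) h2 (neg_nonpos.2 hs)).trans_eq ?_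
    rw [Real.mul_rpow h4.le h3.le, ← Real.finsetProd_rpow _ _ (fun i _ => by positivity)]
  have hK0 : 0 ≤ ∑ k ∈ Finset.range (B + 1), ((k : ℝ) + 1) ^ (-s) := by positivity
  calc ∑ c ∈ F, ((c.1 + 1 : ℕ) : ℝ) ^ (-s) = ∑ c : F, ((c.1.1 + 1 : ℕ) : ℝ) ^ (-s) :=
        (Finset.sum_coe_sort F _).symm
    _ ≤ ∑ c : F, g (φ c) := Finset.sum_le_sum fun c _ => h1 c
    _ = ∑ p ∈ Finset.univ.image φ, g p := (Finset.sum_image hφ.injOn).symm
    _ ≤ ∑ p ∈ (Fintype.piFinset fun _ : Fin r => Finset.range (B + 1)) ×ˢ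
          Irr (SLn (r + 1) (ZMod (∏ c, m c))), g p := by
        refine Finset.sum_le_sum_of_subset_of_nonneg (fun p hp => ?_) fun p _ _ => hg p
        obtain ⟨c, -, rfl⟩ := Finset.mem_image.1 hp
        exact Finset.mem_product.2 ⟨Fintype.mem_piFinset.2 fun i =>
          Finset.mem_range.2 (Nat.lt_succ_of_le (hB ⟨(c, i), rfl⟩)), mem_Irr.2 (count_irr (hd c))⟩
    _ = (∑ k ∈ Finset.range (B + 1), ((k : ℝ) + 1) ^ (-s)) ^ r *
          Zs (SLn (r + 1) (ZMod (∏ c, m c))) (fun _ => True) s := by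
        rw [Zs, Finset.filter_true, Finset.sum_product, ← Fin.prod_const, Finset.prod_univ_sum,
          Finset.sum_mul_sum]
    _ ≤ K ^ r * C := by
        have h5 : 0 ≤ Zs (SLn (r + 1) (ZMod (∏ c, m c))) (fun _ => True) s :=
          Finset.sum_nonneg fun _ _ => by positivity
        exact mul_le_mul (pow_le_pow_left₀ hK0 (hK _) r) (hC _) h5
          (pow_nonneg (hK0.trans (hK _)) r)

theorem zeta_lt_top {n : ℕ} (hn : 3 ≤ n) {s : ℝ} (hs : 1 < s) (C : ℝ)
    (hC : ∀ (m : ℕ) [NeZero m], Zs (SLn n (ZMod m)) (fun _ => True) s ≤ C) :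
    repZeta (SLn n ℤ) s < ⊤ := by
  obtain ⟨r, rfl⟩ : ∃ r, n = r + 1 := ⟨n - 1, by omega⟩
  have hsum : Summable fun k : ℕ => ((k : ℝ) + 1) ^ (-s) := by
    have := (summable_nat_add_iff 1).2 (Real.summable_nat_rpow.2 (by linarith : -s < -1))
    simpa using this
  rw [repZeta_eq, ENNReal.tsum_eq_iSup_sum]
  refine lt_of_le_of_lt (iSup_le fun F => ?_)
    (ENNReal.ofReal_lt_top (r := (∑' k : ℕ, ((k : ℝ) + 1) ^ (-s)) ^ r * C))
  have h := count_sum (by omega) (by linarith) C _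
    (fun B => hsum.sum_le_tsum (Finset.range B) fun k _ => by positivity) hC F
  refine le_trans (le_of_eq ?_) (ENNReal.ofReal_le_ofReal h)
  rw [ENNReal.ofReal_sum_of_nonneg fun c _ => by positivity]
  refine Finset.sum_congr rfl fun c _ => ?_
  rw [← ENNReal.ofReal_rpow_of_pos (by positivity), ENNReal.ofReal_natCast]

end Pool.Agent.MP_8299d6_al.Up

end
end
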