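import Pool.Agent.Mg.F810665.G3babc3

section

open Matrix
open Classical Finset

set_option linter.unusedSectionVars false

noncomputable section

namespace Pool.Agent.MP_8299d6_al.Up

open Pool.Agent.MP_810665_al (IrrChar)

variable {n p : ℕ} [Fact p.Prime]

lemma lv1_dvd {a b : ℕ} {x : ZMod (p ^ (a + b))} (h : (p : ZMod (p ^ (a + b))) ^ a * x = 0) :
    (p : ZMod (p ^ (a + b))) ^ b ∣ x := by
  obtain ⟨y, rfl⟩ := ZMod.natCast_zmod_surjective x
  have hp : 0 < p ^ a := pow_pos (Fact.out : p.Prime).pos a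
  rw [← Nat.cast_pow, ← Nat.cast_mul, ZMod.natCast_eq_zero_iff, pow_add,
    Nat.mul_dvd_mul_iff_left hp] at h
  rw [← Nat.cast_pow]
  exact Nat.cast_dvd_cast h

lemma lv1_pow (m : ℕ) : (p : ZMod (p ^ m)) ^ m = 0 := by
  rw [← Nat.cast_pow, ZMod.natCast_self]

lemma lv1_pI {R : Type} [CommRing R] {a : R} {x : Mat n R} : x ∈ pI n R a ↔ ∃ y, x = a • y := by
  constructor
  · intro h
    choose y hy using h
    exact ⟨Matrix.of y, by ext i j; simp [hy]⟩
  · rintro ⟨y, rfl⟩ i j
    exact Dvd.intro _ rfl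

lemma lv1_top {m : ℕ} {x : Mat n (ZMod (p ^ (m + 1)))} :
    (p : ZMod (p ^ (m + 1))) ^ m • x = 0 ↔ redP n p m x = 0 := by
  rw [redP_eq_zero]
  constructor
  · intro h i j
    have := lv1_dvd (a := m) (b := 1) (congrFun (congrFun h i) j)
    rwa [pow_one] at this
  · intro h
    obtain ⟨y, rfl⟩ := lv1_pI.1 h
    rw [smul_smul, ← pow_succ, lv1_pow, zero_smul]

lemma lv1_bot {m : ℕ} {x : Mat n (ZMod (p ^ (m + 1)))} :
    (p : ZMod (p ^ (m + 1))) • x = 0 ↔ redM n p m x = 0 := by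
  rw [redM_eq_zero]
  constructor
  · intro h i j
    have key : ∀ k, k = 1 + m → ∀ y : ZMod (p ^ k), (p : ZMod (p ^ k)) * y = 0 →
        (p : ZMod (p ^ k)) ^ m ∣ y := by
      rintro k rfl y hy
      exact lv1_dvd (by rwa [pow_one])
    exact key _ (add_comm _ _) _ (congrFun (congrFun h i) j)
  · intro h
    obtain ⟨y, rfl⟩ := lv1_pI.1 h
    rw [smul_smul, ← pow_succ', lv1_pow, zero_smul]

lemma lv1_cent {M : Type} [Ring M] {A x : M} : x ∈ cent A ↔ A * x - x * A = 0 := by
  unfold cent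
  rw [Subring.mem_centralizer_iff, sub_eq_zero]
  simp

lemma lv1_card (N : ℕ) : Nat.card (Mat n (ZMod N)) = N ^ (n ^ 2) := by
  unfold Mat Matrix
  rw [Nat.card_fun, Nat.card_fun, Nat.card_zmod, Nat.card_eq_fintype_card, Fintype.card_fin,
    ← pow_mul, sq]

/-- the matrix `p ^ m B` -/
def lv1up (m : ℕ) (B : Mat n (ZMod p)) : Mat n (ZMod (p ^ (m + 1))) :=
  (p : ZMod (p ^ (m + 1))) ^ m • Function.surjInv (redP_surj n p m) B

lemma lv1up_red {m : ℕ} (y : Mat n (ZMod (p ^ (m + 1)))) :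
    lv1up m (redP n p m y) = (p : ZMod (p ^ (m + 1))) ^ m • y := by
  unfold lv1up
  rw [← sub_eq_zero, ← smul_sub, lv1_top, map_sub, Function.surjInv_eq (redP_surj n p m), sub_self]

lemma lv1up_inj (m : ℕ) : Function.Injective (lv1up (n := n) (p := p) m) := by
  intro B C h
  unfold lv1up at h
  rwa [← sub_eq_zero, ← smul_sub, lv1_top, map_sub, Function.surjInv_eq (redP_surj n p m),
    Function.surjInv_eq (redP_surj n p m), sub_eq_zero] at h

lemma lv1_lift {m : ℕ} {A A' : Mat n (ZMod (p ^ (m + 1)))} :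
    redM n p m A' = redM n p m A ↔ ∃ B, A + lv1up m B = A' := by
  rw [← sub_eq_zero, ← map_sub, redM_eq_zero, lv1_pI]
  constructor
  · rintro ⟨y, hy⟩
    exact ⟨_, by rw [lv1up_red, ← hy, add_sub_cancel]⟩
  · rintro ⟨B, rfl⟩
    exact ⟨_, by rw [add_sub_cancel_left]; rfl⟩

lemma lv1_comm {R : Type} [CommRing R] (a c : R) (B x : Mat n R) :
    (a • 1 + c • B) * x - x * (a • 1 + c • B) = c • (B * x - x * B) := by
  simp only [add_mul, mul_add, smul_mul_assoc, mul_smul_comm, one_mul, mul_one, smul_sub]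
  abel

lemma lv1_redP_smul {m : ℕ} (c : ZMod p) :
    ∃ a : ZMod (p ^ (m + 1)), redP n p m (a • 1) = c • 1 := by
  obtain ⟨a, rfl⟩ := ZMod.natCast_zmod_surjective c
  exact ⟨a, by rw [Nat.cast_smul_eq_nsmul, Nat.cast_smul_eq_nsmul, map_nsmul, map_one]⟩

lemma lv1_card_cent (m : ℕ) (A : Mat n (ZMod (p ^ (m + 1)))) :
    Nat.card (cent A) = Nat.card (cent (redM n p m A)) * Nat.card (sh n p m A) := by
  let g : cent A →+ Mat n (ZMod p) :=
    (redP n p m).toAddMonoidHom.comp (cent A).subtype.toAddMonoidHom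
  have h1 : Nat.card g.range = Nat.card (sh n p m A) :=
    Nat.card_congr (Equiv.subtypeEquivRight fun x =>
      ⟨fun ⟨y, hy⟩ => ⟨y.1, y.2, hy⟩, fun ⟨y, a, b⟩ => ⟨⟨y, a⟩, b⟩⟩)
  have hs := Function.surjInv_eq (redM_surj n p m)
  have h0 : ∀ y, (p : ZMod (p ^ (m + 1))) • y ∈ cent A ↔ redM n p m y ∈ cent (redM n p m A) :=
    fun y => by
      rw [lv1_cent, lv1_cent, ← map_mul, ← map_mul, ← map_sub, ← lv1_bot, mul_smul_comm,
        smul_mul_assoc, smul_sub]
  have h2 : Nat.card (cent (redM n p m A)) = Nat.card g.ker := by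
    refine Nat.card_congr (Equiv.ofBijective (fun x =>
      ⟨⟨(p : ZMod (p ^ (m + 1))) • Function.surjInv (redM_surj n p m) x.1,
        (h0 _).2 (by rw [hs]; exact x.2)⟩, (redP_eq_zero _).2 (lv1_pI.2 ⟨_, rfl⟩)⟩) ⟨?_, ?_⟩)
    · intro x y h
      have h' := congrArg (fun z => z.1.1) h
      simp only at h'
      rw [← sub_eq_zero, ← smul_sub, lv1_bot, map_sub, hs, hs, sub_eq_zero] at h'
      exact Subtype.ext h'
    · rintro ⟨⟨z, hz⟩, hz'⟩
      obtain ⟨y, rfl⟩ := lv1_pI.1 ((redP_eq_zero z).1 hz')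
      refine ⟨⟨redM n p m y, (h0 y).1 hz⟩, Subtype.ext (Subtype.ext ?_)⟩
      simp only
      rw [← sub_eq_zero, ← smul_sub, lv1_bot, map_sub, hs, sub_self]
  rw [h2, ← h1, mul_comm, ← Nat.card_congr (QuotientAddGroup.quotientKerEquivRange g).toEquiv]
  exact AddSubgroup.card_eq_card_quotient_mul_card_addSubgroup _

lemma lv1_cc_scal {R : Type} [CommRing R] [Finite R] {A : Mat n R} (h : IsScal A) : cc A = 1 := by
  obtain ⟨a, rfl⟩ := h
  have : cent (a • (1 : Mat n R)) = ⊤ := by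
    rw [eq_top_iff]
    intro x _
    rw [lv1_cent, smul_mul_assoc, mul_smul_comm, one_mul, mul_one, sub_self]
  unfold cc
  rw [this, Nat.card_congr Subring.topEquiv.toEquiv, div_self]
  exact_mod_cast Nat.card_pos.ne'

lemma lv1_sh {m : ℕ} (a : ZMod (p ^ (m + 1))) (B : Mat n (ZMod p)) :
    sh n p m (a • 1 + lv1up m B) = cent B := by
  obtain ⟨y, rfl⟩ := redP_surj n p m B
  ext x
  obtain ⟨φ, rfl⟩ := redP_surj n p m x
  have h : ∀ ψ, ψ ∈ cent (a • 1 + lv1up m (redP n p m y)) ↔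
      redP n p m ψ ∈ cent (redP n p m y) := fun ψ => by
    rw [lv1_cent, lv1_cent, lv1up_red, lv1_comm, lv1_top, map_sub, map_mul, map_mul]
  exact ⟨fun ⟨ψ, a, b⟩ => b ▸ (h ψ).1 a, fun h' => ⟨φ, (h φ).2 h', rfl⟩⟩

lemma lv1_trace {m : ℕ} {A y φ ψ : Mat n (ZMod (p ^ (m + 1)))} (hφ : φ ∈ cent A)
    (hψ : ψ ∈ cent (A + (p : ZMod (p ^ (m + 1))) ^ m • y)) :
    trace (redP n p m y * (redP n p m φ * redP n p m ψ - redP n p m ψ * redP n p m φ)) = 0 := by
  rw [lv1_cent, sub_eq_zero] at hφ hψ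
  have h1 : trace (ψ * ((A + (p : ZMod (p ^ (m + 1))) ^ m • y) * φ)) =
      trace (ψ * (φ * (A + (p : ZMod (p ^ (m + 1))) ^ m • y))) := by
    rw [← mul_assoc, ← hψ, mul_assoc, trace_mul_comm, mul_assoc]
  rw [add_mul, mul_add, mul_add, mul_add, hφ, trace_add, trace_add, add_right_inj, smul_mul_assoc,
    mul_smul_comm, mul_smul_comm, mul_smul_comm, trace_smul, trace_smul, trace_mul_comm ψ,
    ← mul_assoc ψ, trace_mul_comm _ y, mul_assoc, ← sub_eq_zero, ← smul_sub, ← trace_sub,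
    ← mul_sub, smul_eq_mul] at h1
  obtain ⟨c, hc⟩ := lv1_dvd (a := m) (b := 1) h1
  rw [← map_mul, ← map_mul, ← map_sub, ← map_mul]
  have h2 := AddMonoidHom.map_trace
    (ZMod.castHom (dvd_pow_self p (Nat.succ_ne_zero m)) (ZMod p)) (y * (φ * ψ - ψ * φ))
  refine h2.symm.trans ?_
  rw [hc, pow_one, map_mul, map_natCast, ZMod.natCast_self, zero_mul]

lemma lv1_tau (N : ℕ) [NeZero N] (x : Mat n (ZMod N)) :
    tau n N x = ZMod.stdAddChar (trace x) := rfl

lemma lv1_sumOn {X Y Z : Type} [Fintype X] [Fintype Y] [Fintype Z] (S : Set X) (T : Set Y)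
    (f : X → ℝ) (g : Y → ℝ) (F : Z → Y → X) (h0 : ∀ x, 0 ≤ f x) (h1 : ∀ z y, f (F z y) = g y)
    (h2 : ∀ x ∈ S, ∃ z, ∃ y ∈ T, F z y = x) : sumOn S f ≤ Fintype.card Z * sumOn T g := by
  unfold sumOn
  refine le_trans (sum_le_sum_of_subset_of_nonneg (t := ((univ : Finset Z) ×ˢ
    univ.filter (· ∈ T)).image fun z => F z.1 z.2) (fun x hx => ?_) fun x _ _ => h0 x)
    ((sum_image_le_of_nonneg fun x _ => h0 x).trans (le_of_eq ?_))
  · obtain ⟨z, y, a, b⟩ := h2 x (mem_filter.1 hx).2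
    exact mem_image.2 ⟨(z, y), mem_product.2 ⟨mem_univ _, mem_filter.2 ⟨mem_univ _, a⟩⟩, b⟩
  · simp only [h1]
    rw [sum_product]
    simp only [sum_const, card_univ, nsmul_eq_mul]

theorem cc_step (m : ℕ) (A : Mat n (ZMod (p ^ (m + 1)))) :
    cc A = cc (redM n p m A) * (Nat.card (sh n p m A) : ℝ) / (p : ℝ) ^ (n ^ 2) := by
  have hp : (0 : ℝ) < p := by exact_mod_cast (Fact.out : p.Prime).pos
  unfold cc
  rw [lv1_card_cent, lv1_card, lv1_card]
  push_cast
  rw [pow_succ (p : ℝ) m, mul_pow]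
  field_simp

theorem sh_le (m : ℕ) (A : Mat n (ZMod (p ^ (m + 1 + 1)))) :
    sh n p (m + 1) A ≤ sh n p m (redM n p (m + 1) A) := by
  rintro x ⟨φ, hφ, rfl⟩
  refine ⟨redM n p (m + 1) φ, ?_, ?_⟩
  · refine lv1_cent.2 ?_
    rw [← map_mul, ← map_mul, ← map_sub, lv1_cent.1 hφ, map_zero]
  · ext i j
    exact DFunLike.congr_fun (ZMod.castHom_comp (dvd_pow_self p (Nat.succ_ne_zero m))
      (pow_dvd_pow p (Nat.le_succ (m + 1)))) (φ i j)

theorem sh_central (m : ℕ) (A : Mat n (ZMod (p ^ (m + 1)))) (hA : ¬ IsScal A) :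
    ∃ z ∈ sh n p m A, ¬ IsScal z ∧ ∀ x ∈ sh n p m A, z * x = x * z := by
  have key : ∀ d j, j + d = m + 1 → ∀ (a : ZMod (p ^ (m + 1))) (B : Mat n (ZMod (p ^ (m + 1)))),
      A = a • 1 + (p : ZMod (p ^ (m + 1))) ^ j • B →
      ∃ z ∈ sh n p m A, ¬ IsScal z ∧ ∀ x ∈ sh n p m A, z * x = x * z := by
    intro d
    induction d with
    | zero =>
      intro j hj a B h
      rw [add_zero] at hj
      rw [hj, lv1_pow, zero_smul, add_zero] at h
      exact absurd ⟨a, h⟩ hA
    | succ d ih =>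
      intro j hj a B h
      by_cases hB : IsScal (redP n p m B)
      · obtain ⟨c, hc⟩ := hB
        obtain ⟨b, hb⟩ := lv1_redP_smul (n := n) (m := m) c
        rw [← hb, ← sub_eq_zero, ← map_sub, redP_eq_zero, lv1_pI] at hc
        obtain ⟨y, hy⟩ := hc
        refine ih (j + 1) (by omega) (a + (p : ZMod (p ^ (m + 1))) ^ j * b) y ?_
        rw [h, pow_succ (p : ZMod (p ^ (m + 1))) j, mul_smul, ← hy, add_smul, mul_smul, smul_sub]
        abel
      · refine ⟨_, ⟨B, lv1_cent.2 ?_, rfl⟩, hB, ?_⟩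
        · rw [h, lv1_comm, sub_self, smul_zero]
        · rintro x ⟨φ, hφ, rfl⟩
          replace hφ := lv1_cent.1 hφ
          rw [h, lv1_comm] at hφ
          rw [← sub_eq_zero, ← map_mul, ← map_mul, ← map_sub, ← lv1_top]
          have e : (p : ZMod (p ^ (m + 1))) ^ m = (p : ZMod (p ^ (m + 1))) ^ d *
              (p : ZMod (p ^ (m + 1))) ^ j := by
            rw [← pow_add]; congr 1; omega
          rw [e, mul_smul, hφ, smul_zero]
  exact key (m + 1) 0 (zero_add _) 0 A (by simp)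

theorem card_fiber (m : ℕ) (A : Mat n (ZMod (p ^ m))) :
    (univ.filter (fun A' => redM n p m A' = A)).card = p ^ (n ^ 2) := by
  obtain ⟨A₀, rfl⟩ := redM_surj n p m A
  have : univ.filter (fun A' => redM n p m A' = redM n p m A₀) =
      univ.image fun B => A₀ + lv1up m B := by
    ext x
    simp only [mem_filter, mem_univ, true_and, mem_image, lv1_lift]
  rw [this, card_image_of_injective _ fun B C h => lv1up_inj m (add_left_cancel h), card_univ,
    ← Nat.card_eq_fintype_card, lv1_card]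

theorem card_stay (m : ℕ) (A : Mat n (ZMod (p ^ (m + 1)))) :
    (univ.filter (fun A' => redM n p (m + 1) A' = A ∧ sh n p (m + 1) A' = sh n p m A)).card
      * Nat.card (commS (sh n p m A)) ≤ p ^ (n ^ 2) := by
  rcases (univ.filter (fun A' => redM n p (m + 1) A' = A ∧
    sh n p (m + 1) A' = sh n p m A)).eq_empty_or_nonempty with h | ⟨A₀, h⟩
  · rw [h, card_empty, zero_mul]
    exact Nat.zero_le _
  obtain ⟨h1, h2⟩ := (mem_filter.1 h).2
  rw [← lv1_card p, ← (frob_tau n p).card_perp (commS (sh n p m A)), mul_comm]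
  refine Nat.mul_le_mul_left _ ?_
  refine le_trans (card_le_card (t := (univ.filter fun B =>
    B ∈ perp (tau n p) (commS (sh n p m A))).image fun B => A₀ + lv1up (m + 1) B)
    fun A₁ hA => ?_) (card_image_le.trans (le_of_eq ?_))
  · obtain ⟨h3, h4⟩ := (mem_filter.1 hA).2
    obtain ⟨B, rfl⟩ := lv1_lift.1 (h3.trans h1.symm)
    refine mem_image.2 ⟨B, mem_filter.2 ⟨mem_univ _, fun z hz => ?_⟩, rfl⟩
    obtain ⟨y, rfl⟩ := redP_surj n p (m + 1) B
    induction hz using AddSubgroup.closure_induction with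
    | mem z hz =>
      obtain ⟨x, hx, w, hw, rfl⟩ := hz
      rw [← h2] at hx
      rw [← h4, lv1up_red] at hw
      obtain ⟨φ, hφ, rfl⟩ := hx
      obtain ⟨ψ, hψ, rfl⟩ := hw
      rw [lv1_tau, lv1_trace hφ hψ, AddChar.map_zero_eq_one]
    | zero => rw [mul_zero, AddChar.map_zero_eq_one]
    | add x w _ _ a b => rw [mul_add, AddChar.map_add_eq_mul, a, b, one_mul]
    | neg x _ a => rw [mul_neg, AddChar.map_neg_eq_inv, a, inv_one]
  · rw [Nat.card_eq_fintype_card, Fintype.card_subtype]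

theorem first_level (m : ℕ) (t : ℝ) :
    sumOn {A : Mat n (ZMod (p ^ (m + 1))) | ¬ IsScal A ∧ IsScal (redM n p m A)} (fun A => cc A ^ t)
      ≤ (p : ℝ) ^ m * sumOn {B : Mat n (ZMod p) | ¬ IsScal B} (fun B => cc B ^ t) := by
  have hc : ∀ (a : ZMod (p ^ (m + 1))) (B : Mat n (ZMod p)),
      IsScal (redM n p m (a • 1 + lv1up m B)) := fun a B => by
    rw [lv1_lift.2 ⟨B, rfl⟩]
    obtain ⟨a, rfl⟩ := ZMod.natCast_zmod_surjective a
    exact ⟨a, by rw [Nat.cast_smul_eq_nsmul, Nat.cast_smul_eq_nsmul, map_nsmul, map_one]⟩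
  refine (lv1_sumOn _ {B : Mat n (ZMod p) | ¬ IsScal B} _ (fun B => cc B ^ t)
    (fun (a : ZMod (p ^ m)) B => (a.val : ZMod (p ^ (m + 1))) • 1 + lv1up m B)
    (fun A => Real.rpow_nonneg (div_nonneg (Nat.cast_nonneg _) (Nat.cast_nonneg _)) t)
    (fun a B => ?_) ?_).trans (le_of_eq (by rw [ZMod.card, Nat.cast_pow]))
  · have e : cc ((a.val : ZMod (p ^ (m + 1))) • 1 + lv1up m B) = cc B := by
      rw [cc_step, lv1_cc_scal (hc _ _), lv1_sh, one_mul, cc, lv1_card, Nat.cast_pow]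
    exact congrArg (· ^ t) e
  · rintro A ⟨h1, a, h2⟩
    obtain ⟨B, rfl⟩ := (lv1_lift (A := (a.val : ZMod (p ^ (m + 1))) • 1) (A' := A)).1 (by
      rw [h2, Nat.cast_smul_eq_nsmul, map_nsmul, map_one, ← Nat.cast_smul_eq_nsmul (ZMod (p ^ m)),
        ZMod.natCast_zmod_val])
    refine ⟨a, B, ?_, rfl⟩
    rintro ⟨c, hc'⟩
    obtain ⟨b, hb⟩ := lv1_redP_smul (n := n) (m := m) c
    refine h1 ⟨a.val + (p : ZMod (p ^ (m + 1))) ^ m * b, ?_⟩
    rw [hc', ← hb, lv1up_red, add_smul, mul_smul]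

theorem card_scal (m : ℕ) :
    (univ.filter (fun A : Mat n (ZMod (p ^ m)) => IsScal A)).card ≤ p ^ m := by
  refine le_trans (card_le_card (t := univ.image fun a : ZMod (p ^ m) => a • (1 : Mat n _))
    fun A hA => ?_) (card_image_le.trans (by rw [card_univ, ZMod.card]))
  obtain ⟨a, rfl⟩ := (mem_filter.1 hA).2
  exact mem_image_of_mem _ (mem_univ a)

end Pool.Agent.MP_8299d6_al.Up

end
end

section

open Matrix
open MvPolynomial

noncomputable section

namespace Pool.Agent.MP_8299d6_al.Up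

open Pool.Agent.MP_810665_al (IrrChar)

section Newton

variable {F : Type} [Field F] {A : Type} [CommRing A] [Algebra F A] {N : ℕ}

/-- first order expansion of a polynomial -/
lemma bez_taylor (H : Ideal A) (u h : Fin N → A) (hh : ∀ j, h j ∈ H) (p : MvPolynomial (Fin N) F) :
    aeval (u + h) p - aeval u p - ∑ j, aeval u (pderiv j p) * h j ∈ H * H := by
  induction p using MvPolynomial.induction_on with
  | C a => simp
  | add p q hp hq =>
    have := Ideal.add_mem _ hp hq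
    simp only [map_add, add_mul, Finset.sum_add_distrib]
    convert this using 1
    ring
  | mul_X p n hp =>
    have h1 : (∑ j, aeval u (pderiv j p) * h j) * h n ∈ H * H :=
      Ideal.mul_mem_mul (Ideal.sum_mem _ fun j _ => Ideal.mul_mem_left _ _ (hh j)) (hh n)
    have h2 := Ideal.add_mem _ (Ideal.mul_mem_right (u n + h n) _ hp) h1
    have h3 : ∑ j, aeval u (pderiv j (p * X n)) * h j =
        (∑ j, aeval u (pderiv j p) * h j) * u n + aeval u p * h n := by
      have h4 : ∀ j, aeval u (pderiv j (p * X n)) * h j =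
          aeval u (pderiv j p) * h j * u n + (if n = j then aeval u p * h j else 0) := by
        intro j
        rw [pderiv_mul, pderiv_X, map_add, map_mul, map_mul, aeval_X]
        by_cases hj : n = j
        · subst hj
          simp
          ring
        · simp [hj]
          ring
      simp only [h4, Finset.sum_add_distrib, Finset.sum_mul, Finset.sum_ite_eq, Finset.mem_univ,
        if_true]
    rw [h3, map_mul, map_mul, aeval_X, aeval_X, Pi.add_apply]
    convert h2 using 1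
    ring

lemma bez_congr (H : Ideal A) (u w : Fin N → A) (hh : ∀ j, u j - w j ∈ H)
    (p : MvPolynomial (Fin N) F) : aeval u p - aeval w p ∈ H := by
  induction p using MvPolynomial.induction_on with
  | C a => simp
  | add p q hp hq =>
    have := Ideal.add_mem _ hp hq
    simp only [map_add]
    convert this using 1
    ring
  | mul_X p n hp =>
    have := Ideal.add_mem _ (Ideal.mul_mem_right (u n) _ hp)
      (Ideal.mul_mem_left _ (aeval w p) (hh n))
    rw [map_mul, map_mul, aeval_X, aeval_X]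
    convert this using 1
    ring

lemma bez_const (x : Fin N → F) (p : MvPolynomial (Fin N) F) :
    aeval (fun j => algebraMap F A (x j)) p = algebraMap F A (eval x p) := by
  rw [← coe_aeval_eq_eval]
  exact aeval_algebraMap_apply A x p

/-- successive approximation at a nonsingular zero -/
lemma bez_newton (I : Ideal A) (f : Fin N → MvPolynomial (Fin N) F) (x : Fin N → F)
    (h0 : ∀ i, eval x (f i) = 0) (hd : (Matrix.of (fun i j => eval x (pderiv j (f i)))).det ≠ 0)
    (y : Fin N → A) (hy : ∀ i, y i ∈ I) (K : ℕ) :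
    ∃ u : Fin N → A, (∀ j, u j - algebraMap F A (x j) ∈ I) ∧
      ∀ i, aeval u (f i) - y i ∈ I ^ (K + 1) := by
  induction K with
  | zero =>
    refine ⟨fun j => algebraMap F A (x j), fun j => by simp, fun i => ?_⟩
    rw [bez_const, h0, map_zero, zero_sub, zero_add, pow_one]
    exact neg_mem (hy i)
  | succ K ih =>
    obtain ⟨u, hu, hr⟩ := ih
    set M : Matrix (Fin N) (Fin N) F := Matrix.of (fun i j => eval x (pderiv j (f i))) with hM
    have hMi : M * M⁻¹ = 1 := Matrix.mul_nonsing_inv M (isUnit_iff_ne_zero.mpr hd)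
    set h : Fin N → A := fun j => -∑ l, algebraMap F A (M⁻¹ j l) * (aeval u (f l) - y l) with hh
    have hm : ∀ j, h j ∈ I ^ (K + 1) := fun j =>
      neg_mem (Ideal.sum_mem _ fun l _ => Ideal.mul_mem_left _ _ (hr l))
    have hle : I ^ (K + 1) ≤ I := Ideal.pow_le_self (by omega)
    refine ⟨u + h, fun j => ?_, fun i => ?_⟩
    · have := Ideal.add_mem _ (hu j) (hle (hm j))
      rw [Pi.add_apply]
      convert this using 1
      ring
    · have t1 : aeval (u + h) (f i) - aeval u (f i) - ∑ j, aeval u (pderiv j (f i)) * h j ∈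
          I ^ (K + 1 + 1) := by
        refine (show I ^ (K + 1) * I ^ (K + 1) ≤ I ^ (K + 1 + 1) from ?_)
          (bez_taylor _ u h hm (f i))
        rw [pow_succ I (K + 1)]
        exact Ideal.mul_mono_right hle
      have t2 : ∑ j, (aeval u (pderiv j (f i)) - algebraMap F A (M i j)) * h j ∈
          I ^ (K + 1 + 1) := by
        refine Ideal.sum_mem _ fun j _ => ?_
        rw [pow_succ' I (K + 1)]
        refine Ideal.mul_mem_mul ?_ (hm j)
        have := bez_congr I u (fun j => algebraMap F A (x j)) hu (pderiv j (f i))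
        rwa [bez_const] at this
      have t3 : ∑ j, algebraMap F A (M i j) * h j = -(aeval u (f i) - y i) := by
        have e1 : ∀ j, algebraMap F A (M i j) * h j =
            -∑ l, algebraMap F A (M i j * M⁻¹ j l) * (aeval u (f l) - y l) := by
          intro j
          simp only [hh, mul_neg, Finset.mul_sum, map_mul, mul_assoc]
        simp only [e1, Finset.sum_neg_distrib]
        rw [Finset.sum_comm]
        congr 1
        have e2 : ∀ l, ∑ j, algebraMap F A (M i j * M⁻¹ j l) * (aeval u (f l) - y l) =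
            if i = l then aeval u (f l) - y l else 0 := by
          intro l
          rw [← Finset.sum_mul, ← map_sum, ← Matrix.mul_apply, hMi, Matrix.one_apply]
          split_ifs <;> simp
        simp only [e2, Finset.sum_ite_eq, Finset.mem_univ, if_true]
      have t4 := Ideal.add_mem _ t1 t2
      simp only [sub_mul, Finset.sum_sub_distrib] at t4
      rw [t3] at t4
      convert t4 using 1
      ring

end Newton

/-- many polynomials of bounded degree are dependent -/
lemma bez_dep {F : Type} [Field F] {N m : ℕ} {ι : Type} [Fintype ι]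
    (v : ι → MvPolynomial (Fin N) F) (hv : ∀ i, (v i).totalDegree ≤ m)
    (hc : (m + 1) ^ N < Fintype.card ι) : ∃ c : ι → F, c ≠ 0 ∧ ∑ i, c i • v i = 0 := by
  classical
  let L : (ι → F) →ₗ[F] ((Fin N → Fin (m + 1)) → F) :=
    LinearMap.pi fun β => (lcoeff F (Finsupp.equivFunOnFinite.symm fun i => (β i : ℕ))) ∘ₗ
      Fintype.linearCombination F v
  have hk : LinearMap.ker L ≠ ⊥ := LinearMap.ker_ne_bot_of_finrank_lt (by simpa using hc)
  obtain ⟨c, hc1, hc2⟩ := Submodule.exists_mem_ne_zero_of_ne_bot hk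
  refine ⟨c, hc2, ?_⟩
  have hdeg : (∑ i, c i • v i).totalDegree ≤ m :=
    totalDegree_finsetSum_le fun i _ => (totalDegree_smul_le _ _).trans (hv i)
  ext n
  rw [coeff_zero]
  by_contra hn
  have hs : n ∈ (∑ i, c i • v i).support := mem_support_iff.mpr hn
  have hb : ∀ i, n i < m + 1 := fun i =>
    Nat.lt_succ_of_le ((monomial_le_degreeOf i hs).trans ((degreeOf_le_totalDegree _ i).trans hdeg))
  have h1 := congrFun (LinearMap.mem_ker.mp hc1) (fun i => ⟨n i, hb i⟩)
  have h2 : (Finsupp.equivFunOnFinite.symm fun i => n i) = n := by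
    ext i
    simp
  simp only [L, LinearMap.pi_apply, LinearMap.comp_apply, lcoeff_apply, h2,
    Fintype.linearCombination_apply, Pi.zero_apply] at h1
  exact hn h1

/-- an algebraic relation between `N + 1` polynomials in `N` variables -/
lemma bez_rel {F : Type} [Field F] {N δ : ℕ} (f : Fin N → MvPolynomial (Fin N) F)
    (hf : ∀ i, (f i).totalDegree ≤ δ) (j : Fin N) :
    ∃ q : Fin ((N * δ + 1) ^ N + 1) → MvPolynomial (Fin N) F, q ≠ 0 ∧
      ∑ b : Fin ((N * δ + 1) ^ N + 1), X j ^ (b : ℕ) * aeval f (q b) = 0 := by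
  classical
  set D := (N * δ + 1) ^ N with hD
  let v : (Fin N → Fin (D + 1)) × Fin (D + 1) → MvPolynomial (Fin N) F :=
    fun a => X j ^ (a.2 : ℕ) * ∏ i, f i ^ (a.1 i : ℕ)
  have hv : ∀ a, (v a).totalDegree ≤ (N * δ + 1) * D := by
    intro a
    refine (totalDegree_mul _ _).trans ?_
    have h1 : (X j ^ (a.2 : ℕ) : MvPolynomial (Fin N) F).totalDegree ≤ D := by
      rw [totalDegree_X_pow]
      exact Nat.le_of_lt_succ a.2.2
    have h2 : (∏ i, f i ^ (a.1 i : ℕ)).totalDegree ≤ N * (D * δ) := by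
      refine (totalDegree_finsetProd _ _).trans ?_
      refine (Finset.sum_le_card_nsmul _ _ (D * δ) fun i _ => ?_).trans (by simp)
      exact (totalDegree_pow _ _).trans
        (Nat.mul_le_mul (Nat.le_of_lt_succ (a.1 i).2) (hf i))
    nlinarith
  have hc : ((N * δ + 1) * D + 1) ^ N < Fintype.card ((Fin N → Fin (D + 1)) × Fin (D + 1)) := by
    have h1 : ((N * δ + 1) * D + 1) ^ N ≤ ((N * δ + 1) * (D + 1)) ^ N :=
      Nat.pow_le_pow_left (by nlinarith) N
    rw [mul_pow, ← hD] at h1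
    have h2 : 0 < (D + 1) ^ N := by positivity
    simp only [Fintype.card_prod, Fintype.card_fun, Fintype.card_fin]
    nlinarith
  obtain ⟨c, hc0, hc1⟩ := bez_dep v hv hc
  let e : (Fin N → Fin (D + 1)) → (Fin N →₀ ℕ) :=
    fun α => Finsupp.equivFunOnFinite.symm fun i => (α i : ℕ)
  have he : Function.Injective e := by
    intro α β h
    ext i
    simpa [e] using DFunLike.congr_fun h i
  refine ⟨fun b => ∑ α, monomial (e α) (c (α, b)), fun h => hc0 ?_, ?_⟩
  · ext ⟨α, b⟩
    have h1 := congrArg (coeff (e α)) (congrFun h b)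
    simpa [coeff_sum, coeff_monomial, he.eq_iff] using h1
  · rw [← hc1, Fintype.sum_prod_type_right]
    refine Finset.sum_congr rfl fun b _ => ?_
    rw [map_sum, Finset.mul_sum]
    refine Finset.sum_congr rfl fun α _ => ?_
    rw [aeval_monomial, Finsupp.prod_fintype _ _ (by simp), smul_eq_C_mul]
    simp only [v, e, Finsupp.equivFunOnFinite_symm_apply_apply, algebraMap_eq]
    ring

/-- a coordinate takes boundedly many values on the nonsingular zeros -/
lemma bez_coord {F : Type} [Field F] {N δ : ℕ} (f : Fin N → MvPolynomial (Fin N) F)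
    (hf : ∀ i, (f i).totalDegree ≤ δ) (j : Fin N) (x : Fin ((N * δ + 1) ^ N + 1) → Fin N → F)
    (hx : ∀ a, (∀ i, eval (x a) (f i) = 0) ∧
      (Matrix.of (fun i j => eval (x a) (pderiv j (f i)))).det ≠ 0) :
    ¬Function.Injective fun a => x a j := by
  classical
  intro hinj
  obtain ⟨q, hq0, hq⟩ := bez_rel f hf j
  let I : Ideal (MvPolynomial (Fin N) F) := RingHom.ker (constantCoeff (σ := Fin N) (R := F))
  have hI : I ≠ ⊤ := RingHom.ker_ne_top _
  apply hq0
  funext b
  rw [Pi.zero_apply, ← Ideal.mem_bot, ← Ideal.iInf_pow_eq_bot_of_isDomain I hI, Ideal.mem_iInf]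
  intro K
  refine Ideal.pow_le_pow_right (Nat.le_succ K) ?_
  let B := MvPolynomial (Fin N) F ⧸ I ^ (K + 1)
  let π : MvPolynomial (Fin N) F →ₐ[F] B := Ideal.Quotient.mkₐ F (I ^ (K + 1))
  let J : Ideal B := I.map (Ideal.Quotient.mk (I ^ (K + 1)))
  have hJ : J ^ (K + 1) = ⊥ := by
    rw [← Ideal.map_pow, Ideal.map_quotient_self]
  have hy : ∀ i, π (X i) ∈ J := fun i =>
    Ideal.mem_map_of_mem _ (by simp [I, RingHom.mem_ker])
  choose u hu hr using fun a => bez_newton J f (x a) (hx a).1 (hx a).2 (fun i => π (X i)) hy K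
  have hr' : ∀ a, (fun i => aeval (u a) (f i)) = fun i => π (X i) := by
    intro a
    funext i
    have := hr a i
    rwa [hJ, Ideal.mem_bot, sub_eq_zero] at this
  have hrel : (Matrix.vandermonde fun a => u a j) *ᵥ (fun b => π (q b)) = 0 := by
    funext a
    have h1 := congrArg (aeval (u a)) hq
    rw [map_sum, map_zero] at h1
    rw [Pi.zero_apply, ← h1]
    simp only [Matrix.mulVec, dotProduct, Matrix.vandermonde_apply]
    refine Finset.sum_congr rfl fun b _ => ?_
    rw [map_mul, map_pow, aeval_X, comp_aeval_apply, hr', ← comp_aeval_apply]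
    simp
  have hdet : IsUnit (Matrix.vandermonde fun a => u a j).det := by
    rw [Matrix.det_vandermonde]
    refine IsUnit.prod_univ_iff.mpr fun a => IsUnit.prod_iff.mpr fun a' ha' => ?_
    have hne : x a' j - x a j ≠ 0 := fun h =>
      (Finset.mem_Ioi.mp ha').ne' (hinj (sub_eq_zero.mp h))
    have h1 : IsUnit (algebraMap F B (x a' j - x a j)) := (isUnit_iff_ne_zero.mpr hne).map _
    have h2 : IsNilpotent ((u a' j - algebraMap F B (x a' j)) - (u a j - algebraMap F B (x a j))) := by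
      refine ⟨K + 1, ?_⟩
      rw [← Ideal.mem_bot, ← hJ]
      exact Ideal.pow_mem_pow (sub_mem (hu a' j) (hu a j)) _
    have h3 := h2.isUnit_add_left_of_commute h1 (Commute.all _ _)
    have h4 : algebraMap F B (x a' j - x a j) + (u a' j - algebraMap F B (x a' j) -
        (u a j - algebraMap F B (x a j))) = u a' j - u a j := by
      rw [map_sub]
      ring
    rw [h4] at h3
    exact h3
  have hz := Matrix.mulVec_injective_of_isUnit ((Matrix.isUnit_iff_isUnit_det _).mpr hdet)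
    (hrel.trans (Matrix.mulVec_zero _).symm)
  exact Ideal.Quotient.eq_zero_iff_mem.mp (congrFun hz b)

/-- nonsingular solutions of a square system -/
theorem bez_square (N δ : ℕ) : ∃ C : ℕ, ∀ (F : Type) [Field F] (f : Fin N → MvPolynomial (Fin N) F),
    (∀ i, (f i).totalDegree ≤ δ) → ∀ S : Finset (Fin N → F),
    (∀ x ∈ S, (∀ i, eval x (f i) = 0) ∧
      (Matrix.of (fun i j => eval x (pderiv j (f i)))).det ≠ 0) → S.card ≤ C := by
  classical
  refine ⟨((N * δ + 1) ^ N) ^ N, fun F _ f hf S hS => ?_⟩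
  have h1 : ∀ j, (S.image fun x => x j).card ≤ (N * δ + 1) ^ N := by
    intro j
    by_contra hn
    have h2 : Fintype.card (Fin ((N * δ + 1) ^ N + 1)) ≤ (S.image fun x => x j).card := by
      rw [Fintype.card_fin]
      omega
    obtain ⟨g, hg⟩ := Function.Embedding.exists_of_card_le_finset h2
    have h3 : ∀ a, ∃ x ∈ S, x j = g a := fun a => by
      simpa using hg (Set.mem_range_self a)
    choose x hx1 hx2 using h3
    refine bez_coord f hf j x (fun a => hS _ (hx1 a)) ?_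
    intro a a' h
    apply g.injective
    rw [← hx2, ← hx2]
    exact h
  have h2 : S ⊆ Fintype.piFinset fun j => S.image fun x => x j := fun x hx =>
    Fintype.mem_piFinset.mpr fun j => Finset.mem_image_of_mem _ hx
  refine (Finset.card_le_card h2).trans ?_
  rw [Fintype.card_piFinset]
  exact (Finset.prod_le_pow_card _ _ _ fun j _ => h1 j).trans (by simp)

/-- completion of the rows of a matrix by coordinate vectors -/
lemma bez_choose {F : Type} [Field F] {N k e : ℕ} (M : Matrix (Fin k) (Fin N) F)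
    (h : N ≤ e + M.rank) : ∃ σ : Fin N → Fin k ⊕ Fin N,
      (Matrix.of fun i => Sum.elim M.row (fun c => Pi.single c (1 : F)) (σ i)).det ≠ 0 ∧
      (Finset.univ.filter fun c => ∃ i, σ i = Sum.inr c).card ≤ e := by
  classical
  set w : Fin k ⊕ Fin N → Fin N → F := Sum.elim M.row (fun c => Pi.single c (1 : F)) with hw
  obtain ⟨b0, hb0, -, hs0, hl0⟩ := exists_linearIndepOn_extension
    (linearIndepOn_empty F w) (Set.empty_subset (Set.range Sum.inl))
  obtain ⟨b, -, hb, hs, hl⟩ := exists_linearIndepOn_extension hl0 (Set.subset_univ b0)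
  have hcard : ∀ s : Set (Fin k ⊕ Fin N), LinearIndepOn F w s →
      Module.finrank F (Submodule.span F (w '' s)) = s.toFinset.card := by
    intro s hs
    rw [Set.image_eq_range, finrank_span_eq_card hs, Set.toFinset_card]
  have h0 : M.rank ≤ b0.toFinset.card := by
    rw [← hcard b0 hl0, Matrix.rank_eq_finrank_span_row]
    refine Submodule.finrank_mono (Submodule.span_le.mpr ?_)
    rintro _ ⟨a, rfl⟩
    exact hs0 ⟨Sum.inl a, ⟨a, rfl⟩, rfl⟩
  have h1 : b.toFinset.card = N := by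
    rw [← hcard b hl]
    have htop : Submodule.span F (w '' b) = ⊤ := by
      rw [eq_top_iff, ← (Pi.basisFun F (Fin N)).span_eq, Submodule.span_le]
      rintro _ ⟨c, rfl⟩
      exact hs ⟨Sum.inr c, Set.mem_univ _, by simp [hw]⟩
    rw [htop]
    simp
  have h2 : Fintype.card b = N := by rw [← Set.toFinset_card, h1]
  let ε : Fin N ≃ b := (Fintype.equivFinOfCardEq h2).symm
  refine ⟨fun i => (ε i : Fin k ⊕ Fin N), ?_, ?_⟩
  · have h3 : LinearIndependent F (Matrix.of fun i => w (ε i : Fin k ⊕ Fin N)).row :=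
      LinearIndependent.comp hl ε ε.injective
    exact ((Matrix.isUnit_iff_isUnit_det _).mp
      (Matrix.linearIndependent_rows_iff_isUnit.mp h3)).ne_zero
  · have h3 : ((Finset.univ.filter fun c => ∃ i, (ε i : Fin k ⊕ Fin N) = Sum.inr c).image
        Sum.inr) ⊆ b.toFinset \ b0.toFinset := by
      intro z hz
      obtain ⟨c, hc, rfl⟩ := Finset.mem_image.mp hz
      obtain ⟨i, hi⟩ := (Finset.mem_filter.mp hc).2
      refine Finset.mem_sdiff.mpr ⟨Set.mem_toFinset.mpr (hi ▸ (ε i).2), fun hz0 => ?_⟩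
      obtain ⟨a, ha⟩ := hb0 (Set.mem_toFinset.mp hz0)
      cases ha
    have h4 := Finset.card_le_card h3
    rw [Finset.card_image_of_injective _ Sum.inr_injective,
      Finset.card_sdiff_of_subset (Set.toFinset_subset_toFinset.mpr hb), h1] at h4
    exact h4.trans (by omega)

/-- points with small Zariski tangent space -/
theorem bez (N k δ : ℕ) : ∃ C : ℕ, ∀ (F : Type) [Field F] [Fintype F]
    (f : Fin k → MvPolynomial (Fin N) F), (∀ i, (f i).totalDegree ≤ δ) → ∀ (e : ℕ)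
    (S : Finset (Fin N → F)), (∀ x ∈ S, (∀ i, eval x (f i) = 0) ∧
      N ≤ e + (Matrix.of (fun i j => eval x (pderiv j (f i)))).rank) →
    S.card ≤ C * Fintype.card F ^ e := by
  classical
  obtain ⟨C0, hC⟩ := bez_square N (max δ 1)
  refine ⟨Fintype.card (Fin N → Fin k ⊕ Fin N) * C0, fun F _ _ f hf e S hS => ?_⟩
  let T : (Fin N → Fin k ⊕ Fin N) → Finset (Fin N) :=
    fun σ => Finset.univ.filter fun c => ∃ i, σ i = Sum.inr c
  let P : (Fin N → Fin k ⊕ Fin N) → (Fin N → F) → Prop := fun σ x =>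
    (Matrix.of fun i => Sum.elim (Matrix.of (fun i j => eval x (pderiv j (f i)))).row
      (fun c => Pi.single c (1 : F)) (σ i)).det ≠ 0 ∧ (T σ).card ≤ e
  have h1 : S ⊆ Finset.univ.biUnion fun σ => S.filter (P σ) := by
    intro x hx
    obtain ⟨σ, hσ⟩ := bez_choose _ (hS x hx).2
    exact Finset.mem_biUnion.mpr ⟨σ, Finset.mem_univ _, Finset.mem_filter.mpr ⟨hx, hσ⟩⟩
  have h2 : ∀ σ, (S.filter (P σ)).card ≤ C0 * Fintype.card F ^ e := by
    intro σ
    by_cases hT : (T σ).card ≤ e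
    swap
    · rw [Finset.filter_false_of_mem fun x _ h => hT h.2]
      simp
    have h3 := Finset.card_le_mul_card_image_of_maps_to (s := S.filter (P σ))
      (t := (Finset.univ : Finset (T σ → F))) (f := fun x (c : T σ) => x c.1) (fun _ _ => Finset.mem_univ _)
      C0 ?_
    · refine h3.trans (Nat.mul_le_mul_left _ ?_)
      rw [Finset.card_univ, Fintype.card_fun, Fintype.card_coe]
      exact Nat.pow_le_pow_right Fintype.card_pos hT
    · intro a _
      let a' : Fin N → F := fun c => if h : c ∈ T σ then a ⟨c, h⟩ else 0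
      refine hC F (fun i => Sum.elim f (fun c => X c - C (a' c)) (σ i)) (fun i => ?_) _ ?_
      · rcases σ i with l | c
        · exact (hf l).trans (le_max_left _ _)
        · refine (totalDegree_sub_C_le _ _).trans ?_
          rw [totalDegree_X]
          exact le_max_right _ _
      · intro x hx
        obtain ⟨hx1, hx2⟩ := Finset.mem_filter.mp hx
        obtain ⟨hx3, hx4⟩ := Finset.mem_filter.mp hx1
        constructor
        · intro i
          rcases hi : σ i with l | c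
          · exact (hS x hx3).1 l
          · have hc : c ∈ T σ := Finset.mem_filter.mpr ⟨Finset.mem_univ _, i, hi⟩
            have := congrFun hx2 ⟨c, hc⟩
            simp only [Sum.elim_inr, map_sub, eval_X, eval_C, a', dif_pos hc]
            exact sub_eq_zero.mpr this
        · convert hx4.1 using 2
          ext i j
          simp only [Matrix.of_apply]
          rcases σ i with l | c
          · rfl
          · simp [pderiv_X, Pi.single_apply, eq_comm]
  refine (Finset.card_le_card h1).trans (Finset.card_biUnion_le.trans ?_)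
  refine (Finset.sum_le_card_nsmul _ _ _ fun σ _ => h2 σ).trans (le_of_eq ?_)
  rw [Finset.card_univ, smul_eq_mul, mul_assoc]

end Pool.Agent.MP_8299d6_al.Up

end
end

section

open Matrix

noncomputable section

namespace Pool.Agent.MP_8299d6_al.Up

open Pool.Agent.MP_810665_al (IrrChar)

open MvPolynomial in
/-- zeros of a quadratic map at which the derivative has a small kernel -/
theorem tan_quad (D : ℕ) : ∃ C : ℕ, ∀ (F : Type) [Field F] [Fintype F]
    (W U : Type) [AddCommGroup W] [Module F W] [FiniteDimensional F W]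
    [AddCommGroup U] [Module F U] [FiniteDimensional F U],
    Module.finrank F W ≤ D → Module.finrank F U ≤ D →
    ∀ (c : U) (L : W →ₗ[F] U) (Q : W →ₗ[F] W →ₗ[F] U) (e : ℕ) (S : Finset W),
    (∀ x ∈ S, c + L x + Q x x = 0 ∧
      Module.finrank F (LinearMap.ker (L + Q x + Q.flip x)) ≤ e) →
    S.card ≤ C * Fintype.card F ^ e := by
  choose K hK using fun N k => bez N k 2
  refine ⟨∑ N ∈ Finset.range (D + 1), ∑ k ∈ Finset.range (D + 1), K N k, ?_⟩
  intro F _ _ W U _ _ _ _ _ _ hW hU c L Q e S hS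
  classical
  let bW := Module.finBasis F W
  let bU := Module.finBasis F U
  let f : Fin (Module.finrank F U) → MvPolynomial (Fin (Module.finrank F W)) F := fun i =>
    C (bU.repr c i) + ∑ j, C (bU.repr (L (bW j)) i) * X j +
      ∑ j, ∑ l, C (bU.repr (Q (bW j) (bW l)) i) * (X j * X l)
  have hdeg : ∀ i, (f i).totalDegree ≤ 2 := by
    intro i
    refine (totalDegree_add _ _).trans (max_le ((totalDegree_add _ _).trans (max_le ?_ ?_)) ?_)
    · simp
    · refine totalDegree_finsetSum_le fun j _ => (totalDegree_mul _ _).trans ?_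
      simp
    · refine totalDegree_finsetSum_le fun j _ => totalDegree_finsetSum_le fun l _ =>
        (totalDegree_mul _ _).trans ?_
      have := totalDegree_mul (X j : MvPolynomial (Fin (Module.finrank F W)) F) (X l)
      simpa using this
  have h := hK _ _ F f hdeg e (S.map bW.equivFun.toEquiv.toEmbedding) (by
    intro y hy
    obtain ⟨x, hx, rfl⟩ := Finset.mem_map.1 hy
    obtain ⟨h0, h1⟩ := hS x hx
    have hL : ∀ (φ : W →ₗ[F] U) i, bU.repr (φ x) i = ∑ j, bU.repr (φ (bW j)) i * bW.repr x j := by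
      intro φ i
      conv_lhs => rw [← bW.sum_repr x, map_sum, map_sum, Finset.sum_apply']
      simp [mul_comm]
    refine ⟨fun i => ?_, ?_⟩
    · have e1 : bU.repr (c + L x + Q x x) i = 0 := by rw [h0]; simp
      rw [map_add, map_add, Finsupp.add_apply, Finsupp.add_apply, hL L,
        ← LinearMap.flip_apply Q x x, hL (Q.flip x)] at e1
      simp only [LinearMap.flip_apply, hL (Q _), Finset.sum_mul] at e1
      rw [← e1]
      simp [f, mul_comm, mul_assoc]
    · have e2 : (Matrix.of fun i j => eval (bW.equivFun.toEquiv.toEmbedding x) (pderiv j (f i))) =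
          LinearMap.toMatrix bW bU (L + Q x + Q.flip x) := by
        ext i j
        rw [LinearMap.toMatrix_apply, LinearMap.add_apply, LinearMap.add_apply, map_add, map_add,
          Finsupp.add_apply, Finsupp.add_apply, ← LinearMap.flip_apply Q x (bW j),
          hL (Q.flip (bW j)), LinearMap.flip_apply Q (bW j) x, hL (Q (bW j))]
        simp [f, Pi.single_apply, mul_add, Finset.sum_add_distrib, add_assoc]
      rw [e2, rank_eq_finrank_range_toLin _ bU bW, toLin_toMatrix]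
      have := (L + Q x + Q.flip x).finrank_range_add_finrank_ker
      omega)
  rw [Finset.card_map] at h
  refine h.trans (Nat.mul_le_mul_right _ ?_)
  refine le_trans ?_ (Finset.single_le_sum (f := fun N => ∑ k ∈ Finset.range (D + 1), K N k)
    (fun _ _ => Nat.zero_le _) (Finset.mem_range.2 (Nat.lt_succ_of_le hW)))
  exact Finset.single_le_sum (f := fun k => K (Module.finrank F W) k)
    (fun _ _ => Nat.zero_le _) (Finset.mem_range.2 (Nat.lt_succ_of_le hU))

/-- a coordinate complement of the kernel -/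
theorem tan_chart {F H H' ι : Type} [Field F] [AddCommGroup H] [Module F H] [AddCommGroup H']
    [Module F H'] (b : Module.Basis ι F H) (M : H →ₗ[F] H') :
    ∃ (J : Set ι) (Y : H →ₗ[F] H), M ∘ₗ Y = M ∧ (∀ v, Y v ∈ Submodule.span F (b '' J)) ∧
      ∀ v ∈ Submodule.span F (b '' J), M v = 0 → v = 0 := by
  obtain ⟨J, -, -, h1, h2⟩ := exists_linearIndepOn_extension (K := F) (v := M ∘ b)
    (linearIndepOn_empty F _) (Set.empty_subset Set.univ)
  have h3 : ∀ k, ∃ y ∈ Submodule.span F (b '' J), M y = M (b k) := by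
    intro k
    have := h1 ⟨k, Set.mem_univ k, rfl⟩
    rw [Set.image_comp, ← Submodule.map_span] at this
    exact this
  choose y hy hy' using h3
  refine ⟨J, b.constr F y, b.ext fun k => by simp [hy'], fun v => ?_, fun v hv h0 => ?_⟩
  · have : LinearMap.range (b.constr F y) ≤ Submodule.span F (b '' J) := by
      rw [b.constr_range]
      exact Submodule.span_le.2 (by rintro _ ⟨k, rfl⟩; exact hy k)
    exact this ⟨v, rfl⟩
  · obtain ⟨l, hl, rfl⟩ := (Finsupp.mem_span_image_iff_linearCombination F).1 hv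
    rw [Finsupp.apply_linearCombination] at h0
    rw [linearIndepOn_iff.1 h2 l hl h0, map_zero]

/-- members of an affine family of linear maps whose rank stratum has a small tangent space -/
theorem tangent_count (D : ℕ) : ∃ C : ℕ, ∀ (F : Type) [Field F] [Fintype F]
    (V H H' : Type) [AddCommGroup V] [Module F V] [FiniteDimensional F V]
    [AddCommGroup H] [Module F H] [FiniteDimensional F H]
    [AddCommGroup H'] [Module F H'] [FiniteDimensional F H'],
    Module.finrank F V ≤ D → Module.finrank F H ≤ D → Module.finrank F H' ≤ D →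
    ∀ (Θ : H →ₗ[F] H') (Λ : V →ₗ[F] H →ₗ[F] H') (e : ℕ) (S : Finset V),
    (∀ B ∈ S, ∃ T : Submodule F V, Module.finrank F T ≤ e ∧ ∀ β : V,
      (∀ v ∈ LinearMap.ker (Θ + Λ B), Λ β v ∈ LinearMap.range (Θ + Λ B)) → β ∈ T) →
    S.card ≤ C * Fintype.card F ^ e := by
  obtain ⟨K, hK⟩ := tan_quad (D + 2 * (D * D))
  refine ⟨2 ^ D * K, ?_⟩
  intro F _ _ V H H' _ _ _ _ _ _ _ _ _ hV hH hH' Θ Λ e S hS
  classical
  let b := Module.finBasis F H
  choose J Y hY1 hY2 hY3 using fun B : V => tan_chart b (Θ + Λ B)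
  have key : ∀ I : Set (Fin (Module.finrank F H)),
      (S.filter fun B => J B = I).card ≤ K * Fintype.card F ^ e := by
    intro I
    let N := Submodule.span F (b '' I)
    let L : (V × (H →ₗ[F] H)) →ₗ[F] (H →ₗ[F] H') × (H →ₗ[F] H ⧸ N) :=
      LinearMap.prod (Λ ∘ₗ LinearMap.fst _ _ _ -
        LinearMap.llcomp F H H H' Θ ∘ₗ LinearMap.snd _ _ _)
        (LinearMap.llcomp F H H (H ⧸ N) N.mkQ ∘ₗ LinearMap.snd _ _ _)
    let Q : (V × (H →ₗ[F] H)) →ₗ[F] (V × (H →ₗ[F] H)) →ₗ[F] (H →ₗ[F] H') × (H →ₗ[F] H ⧸ N) :=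
      ((-(LinearMap.llcomp F H H H')).compl₁₂ (Λ ∘ₗ LinearMap.fst _ _ _)
        (LinearMap.snd _ _ _)).compr₂ (LinearMap.inl _ _ _)
    have hL : ∀ x, L x = (Λ x.1 - Θ ∘ₗ x.2, N.mkQ ∘ₗ x.2) := fun _ => rfl
    have hQ : ∀ x y, Q x y = (-(Λ x.1 ∘ₗ y.2), 0) := fun _ _ => rfl
    have hq : Module.finrank F (H ⧸ N) ≤ D := (Submodule.finrank_quotient_le N).trans hH
    have h := hK F (V × (H →ₗ[F] H)) ((H →ₗ[F] H') × (H →ₗ[F] H ⧸ N))
      (by
        rw [Module.finrank_prod, Module.finrank_linearMap]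
        have := Nat.mul_le_mul hH hH
        omega)
      (by
        rw [Module.finrank_prod, Module.finrank_linearMap, Module.finrank_linearMap]
        have := Nat.mul_le_mul hH hH'
        have := Nat.mul_le_mul hH hq
        omega)
      (Θ, 0) L Q e ((S.filter fun B => J B = I).map
        ⟨fun B => (B, Y B), fun _ _ h => congrArg Prod.fst h⟩) (by
      intro x hx
      obtain ⟨B, hB, rfl⟩ := Finset.mem_map.1 hx
      obtain ⟨hB, hI⟩ := Finset.mem_filter.1 hB
      obtain ⟨T, hT, hT'⟩ := hS B hB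
      have h2 : ∀ v, Y B v ∈ N := fun v => by simpa only [hI] using hY2 B v
      have h3 : ∀ v ∈ N, (Θ + Λ B) v = 0 → v = 0 := fun v hv => hY3 B v (by rwa [hI])
      have h1 : ∀ v, (Θ + Λ B) (Y B v) = (Θ + Λ B) v := fun v => LinearMap.congr_fun (hY1 B) v
      refine ⟨?_, ?_⟩
      · rw [hL, hQ]
        refine Prod.ext (LinearMap.ext fun v => ?_) (LinearMap.ext fun v => ?_)
        · have := h1 v
          simp only [LinearMap.add_apply] at this
          simp only [Function.Embedding.coeFn_mk, Prod.fst_add, LinearMap.add_apply,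
            LinearMap.sub_apply, LinearMap.neg_apply, LinearMap.comp_apply, Prod.fst_zero,
            LinearMap.zero_apply]
          linear_combination (norm := abel_nf) -this
        · simpa using h2 v
      · set G := L + Q (B, Y B) + Q.flip (B, Y B) with hG
        have hker : ∀ z ∈ LinearMap.ker G, (∀ v, z.2 v ∈ N) ∧
            ∀ v, Λ z.1 v - Λ z.1 (Y B v) = (Θ + Λ B) (z.2 v) := by
          intro z hz
          rw [LinearMap.mem_ker, hG, LinearMap.add_apply, LinearMap.add_apply,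
            LinearMap.flip_apply, hL, hQ, hQ] at hz
          refine ⟨fun v => ?_, fun v => ?_⟩
          · simpa using LinearMap.congr_fun (congrArg Prod.snd hz) v
          · have := LinearMap.congr_fun (congrArg Prod.fst hz) v
            simp only [Prod.fst_add, LinearMap.add_apply,
              LinearMap.sub_apply, LinearMap.neg_apply, LinearMap.comp_apply, Prod.fst_zero,
              LinearMap.zero_apply] at this
            rw [LinearMap.add_apply]
            linear_combination (norm := abel_nf) this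
        have hmem : ∀ z : LinearMap.ker G,
            (LinearMap.fst F V (H →ₗ[F] H) ∘ₗ (LinearMap.ker G).subtype) z ∈ T := by
          intro z
          refine hT' _ fun v hv => ⟨z.1.2 v, ?_⟩
          have hv0 : Y B v = 0 := h3 _ (h2 v) ((h1 v).trans hv)
          rw [← (hker z.1 z.2).2 v, hv0, map_zero, sub_zero]
          rfl
        refine le_trans (LinearMap.finrank_le_finrank_of_injective
          (f := LinearMap.codRestrict T _ hmem) ?_) hT
        rw [injective_iff_map_eq_zero]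
        intro z hz
        have hz1 : z.1.1 = 0 := congrArg Subtype.val hz
        refine Subtype.ext (Prod.ext hz1 (LinearMap.ext fun v => ?_))
        refine h3 _ ((hker z.1 z.2).1 v) ?_
        rw [← (hker z.1 z.2).2 v, hz1]
        simp)
    rwa [Finset.card_map] at h
  have h := Finset.card_le_mul_card_image_of_maps_to (s := S) (t := Finset.univ) (f := J)
    (fun _ _ => Finset.mem_univ _) _ fun I _ => key I
  rw [Finset.card_univ, Fintype.card_set, Fintype.card_fin] at h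
  refine h.trans ?_
  rw [mul_comm, mul_assoc]
  exact Nat.mul_le_mul_right _ (Nat.pow_le_pow_right two_pos hH)

end Pool.Agent.MP_8299d6_al.Up

end
end

section

open Matrix
open Classical Finset

noncomputable section

namespace Pool.Agent.MP_8299d6_al.Up

open Pool.Agent.MP_810665_al (IrrChar)

section Aux

variable {n p m : ℕ} [Fact p.Prime]

theorem lv2_scal (y : ZMod (p ^ (m + 1))) : (p : ZMod (p ^ (m + 1))) ^ m * y = 0 ↔
    ZMod.castHom (dvd_pow_self p (Nat.succ_ne_zero m)) (ZMod p) y = 0 := by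
  obtain ⟨k, rfl⟩ := ZMod.natCast_zmod_surjective y
  have hp : 0 < p ^ m := pow_pos (Fact.out : p.Prime).pos m
  rw [map_natCast, ← Nat.cast_pow, ← Nat.cast_mul, ZMod.natCast_eq_zero_iff,
    ZMod.natCast_eq_zero_iff, pow_succ, Nat.mul_dvd_mul_iff_left hp]

theorem lv2_mat (X : Mat n (ZMod (p ^ (m + 1)))) : (p : ZMod (p ^ (m + 1))) ^ m • X = 0 ↔
    redP n p m X = 0 := by
  simp only [← Matrix.ext_iff, Matrix.smul_apply, smul_eq_mul, Matrix.zero_apply, lv2_scal, redP,
    RingHom.mapMatrix_apply, Matrix.map_apply]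

theorem lv2_iota (n p m : ℕ) [Fact p.Prime] :
    ∃ ι : Mat n (ZMod p) →+ Mat n (ZMod (p ^ (m + 1))),
      ∀ X, ι (redP n p m X) = (p : ZMod (p ^ (m + 1))) ^ m • X := by
  have hs := redP_surj n p m
  refine ⟨AddMonoidHom.mk' (fun B => (p : ZMod (p ^ (m + 1))) ^ m • Function.surjInv hs B)
    fun B B' => ?_, fun X => ?_⟩
  · rw [← smul_add, ← sub_eq_zero, ← smul_sub, lv2_mat]
    simp [Function.surjInv_eq hs]
  · rw [AddMonoidHom.mk'_apply, ← sub_eq_zero, ← smul_sub, lv2_mat]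
    simp [Function.surjInv_eq hs]

variable {ι : Mat n (ZMod p) →+ Mat n (ZMod (p ^ (m + 1)))}
  (hι : ∀ X, ι (redP n p m X) = (p : ZMod (p ^ (m + 1))) ^ m • X)

include hι

theorem lv2_inj : Function.Injective ι := by
  rw [injective_iff_map_eq_zero]
  intro B hB
  obtain ⟨X, rfl⟩ := redP_surj n p m B
  rwa [hι, lv2_mat] at hB

theorem lv2_mul (B : Mat n (ZMod p)) (X : Mat n (ZMod (p ^ (m + 1)))) :
    ι B * X = ι (B * redP n p m X) ∧ X * ι B = ι (redP n p m X * B) := by
  obtain ⟨Y, rfl⟩ := redP_surj n p m B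
  rw [← map_mul, ← map_mul, hι, hι, hι, smul_mul_assoc, mul_smul_comm]
  exact ⟨rfl, rfl⟩

theorem lv2_range (X : Mat n (ZMod (p ^ (m + 1)))) : redM n p m X = 0 ↔ ∃ B, ι B = X := by
  rw [redM_eq_zero]
  constructor
  · intro h
    choose Y hY using h
    refine ⟨redP n p m (Matrix.of Y), ?_⟩
    rw [hι]
    ext i j
    rw [hY i j]
    rfl
  · rintro ⟨B, rfl⟩ i j
    obtain ⟨Y, rfl⟩ := redP_surj n p m B
    rw [hι]
    exact dvd_mul_right _ _

theorem lv2_trace {B : Mat n (ZMod p)} (h : (ι B).trace = 0) : B.trace = 0 := by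
  obtain ⟨Y, rfl⟩ := redP_surj n p m B
  rw [hι, trace_smul, smul_eq_mul, lv2_scal, AddMonoidHom.map_trace] at h
  exact h

end Aux

theorem lv2_rank {n p e : ℕ} [Fact p.Prime] (J : AddSubgroup (Mat n (ZMod p)))
    (h : p ^ (n ^ 2) ≤ p ^ e * Nat.card J) :
    Module.finrank (ZMod p) (AddSubgroup.toZModSubmodule p (perp (tau n p) J)) ≤ e := by
  have h1 := (frob_tau n p).card_perp J
  have h2 : Nat.card (Mat n (ZMod p)) = p ^ (n ^ 2) := by
    rw [Module.natCard_eq_pow_finrank (K := ZMod p), Nat.card_zmod, Module.finrank_matrix]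
    simp [sq]
  have h3 : Nat.card (perp (tau n p) J) = p ^ Module.finrank (ZMod p)
      (AddSubgroup.toZModSubmodule p (perp (tau n p) J)) := by
    have h4 := Module.natCard_eq_pow_finrank (K := ZMod p)
      (V := AddSubgroup.toZModSubmodule p (perp (tau n p) J))
    rw [Nat.card_zmod] at h4
    exact h4
  rw [h2, h3] at h1
  rw [← h1, mul_comm] at h
  exact (Nat.pow_le_pow_iff_right (Fact.out : p.Prime).one_lt).1
    (Nat.le_of_mul_le_mul_right h Nat.card_pos)

theorem lv2_perp {n p : ℕ} [Fact p.Prime] (h : Subring (Mat n (ZMod p))) (β : Mat n (ZMod p))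
    (hβ : ∀ u ∈ h, ∀ v ∈ h, (u * (β * v - v * β)).trace = 0) : β ∈ perp (tau n p) (commS h) := by
  intro x hx
  induction hx using AddSubgroup.closure_induction with
  | mem z hz =>
    obtain ⟨v, hv, u, hu, rfl⟩ := hz
    have h1 : (β * (v * u - u * v)).trace = 0 := by
      rw [← hβ u hu v hv, mul_sub, mul_sub, trace_sub, trace_sub, trace_mul_comm u (β * v),
        ← mul_assoc u v β, trace_mul_comm (u * v) β, mul_assoc]
    change ZMod.stdAddChar (β * (v * u - u * v)).trace = 1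
    rw [h1, AddChar.map_zero_eq_one]
  | zero => simp
  | add x y _ _ hx hy => rw [mul_add, AddChar.map_add_eq_mul, hx, hy, one_mul]
  | neg x _ hx => rw [mul_neg, AddChar.map_neg_eq_inv, hx, inv_one]

theorem lv2_fam {n p m : ℕ} [Fact p.Prime]
    {ι : Mat n (ZMod p) →+ Mat n (ZMod (p ^ (m + 1 + 1)))}
    (hι : ∀ X, ι (redP n p (m + 1) X) = (p : ZMod (p ^ (m + 1 + 1))) ^ (m + 1) • X)
    (A0 : Mat n (ZMod (p ^ (m + 1 + 1)))) :
    ∃ (H W : Submodule (ZMod p) (Mat n (ZMod p)))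
      (Θ : H →ₗ[ZMod p] Mat n (ZMod p) ⧸ W),
      (∀ ψ, redM n p (m + 1) (A0 * ψ - ψ * A0) = 0 → redP n p (m + 1) ψ ∈ H) ∧
      (∀ (v : H) ψ t, redP n p (m + 1) ψ = v → ι t = A0 * ψ - ψ * A0 → Θ v = W.mkQ t) ∧
      ∀ (v : H) t, Θ v = W.mkQ t → ∃ ψ, redP n p (m + 1) ψ = v ∧ ι t = A0 * ψ - ψ * A0 := by
  let ad : Mat n (ZMod (p ^ (m + 1 + 1))) →+ Mat n (ZMod (p ^ (m + 1 + 1))) :=
    AddMonoidHom.mk' (fun ψ => A0 * ψ - ψ * A0) fun a b => by noncomm_ring
  have had : ∀ ψ, ad ψ = A0 * ψ - ψ * A0 := fun _ => rfl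
  let O : AddSubgroup (Mat n (ZMod (p ^ (m + 1 + 1)))) :=
    ((redM n p (m + 1)).toAddMonoidHom.comp ad).ker
  let H := AddSubgroup.toZModSubmodule p (O.map (redP n p (m + 1)).toAddMonoidHom)
  let W := AddSubgroup.toZModSubmodule p
    (((redP n p (m + 1)).toAddMonoidHom.ker.map ad).comap ι)
  have hW : ∀ t, t ∈ W ↔ ∃ ψ, redP n p (m + 1) ψ = 0 ∧ ad ψ = ι t := fun t => Iff.rfl
  have hH : ∀ v : H, ∃ z : Mat n (ZMod (p ^ (m + 1 + 1))) × Mat n (ZMod p),
      redP n p (m + 1) z.1 = v ∧ ι z.2 = ad z.1 := by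
    rintro ⟨_, ψ, hψ, rfl⟩
    obtain ⟨t, ht⟩ := (lv2_range hι (ad ψ)).1 hψ
    exact ⟨(ψ, t), rfl, ht⟩
  choose z hz1 hz2 using hH
  have key : ∀ (v : H) ψ t, redP n p (m + 1) ψ = v → ι t = ad ψ → W.mkQ (z v).2 = W.mkQ t := by
    intro v ψ t h1 h2
    rw [Submodule.mkQ_apply, Submodule.mkQ_apply, Submodule.Quotient.eq, hW]
    exact ⟨(z v).1 - ψ, by rw [map_sub, hz1, h1, sub_self], by rw [map_sub, map_sub, hz2, h2]⟩
  refine ⟨H, W, (AddMonoidHom.mk' (fun v => W.mkQ (z v).2) fun a b => ?_).toZModLinearMap p,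
    fun ψ hψ => ⟨ψ, hψ, rfl⟩, key, fun v t ht => ?_⟩
  · rw [← map_add]
    exact key (a + b) ((z a).1 + (z b).1) _ (by rw [map_add, hz1, hz1]; rfl)
      (by rw [map_add, map_add, hz2, hz2])
  · have h1 : W.mkQ (z v).2 = W.mkQ t := ht
    rw [Submodule.mkQ_apply, Submodule.mkQ_apply, Submodule.Quotient.eq, hW] at h1
    obtain ⟨ψ, h2, h3⟩ := h1
    refine ⟨(z v).1 - ψ, by rw [map_sub, hz1, h2, sub_zero], ?_⟩
    rw [← had, map_sub, h3, map_sub, hz2, sub_sub_cancel]

theorem card_drop (n : ℕ) : ∃ C : ℕ, ∀ (p : ℕ) [Fact p.Prime] (m : ℕ)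
    (A : Mat n (ZMod (p ^ (m + 1)))) (e : ℕ),
    (univ.filter (fun A' => redM n p (m + 1) A' = A ∧
      p ^ (n ^ 2) ≤ p ^ e * Nat.card (commS (sh n p (m + 1) A')))).card ≤ C * p ^ e := by
  obtain ⟨C, hC⟩ := tangent_count (n ^ 2)
  refine ⟨C, fun p _ m A e => ?_⟩
  obtain ⟨A0, rfl⟩ := redM_surj n p (m + 1) A
  obtain ⟨ι, hι⟩ := lv2_iota n p (m + 1)
  obtain ⟨H, W, Θ, h1, h2, h3⟩ := lv2_fam hι A0
  let Λ : Mat n (ZMod p) →ₗ[ZMod p] H →ₗ[ZMod p] Mat n (ZMod p) ⧸ W :=
    ((LinearMap.mul (ZMod p) (Mat n (ZMod p)) -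
      (LinearMap.mul (ZMod p) (Mat n (ZMod p))).flip).compl₂ H.subtype).compr₂ W.mkQ
  have hΛ : ∀ B (v : H), Λ B v = W.mkQ (B * v - v * B) := fun _ _ => rfl
  have hV : Module.finrank (ZMod p) (Mat n (ZMod p)) ≤ n ^ 2 := by
    rw [Module.finrank_matrix]
    simp [sq]
  have hbr : ∀ B ψ, (A0 + ι B) * ψ - ψ * (A0 + ι B) = (A0 * ψ - ψ * A0) +
      ι (B * redP n p (m + 1) ψ - redP n p (m + 1) ψ * B) := by
    intro B ψ
    rw [map_sub, ← (lv2_mul hι B ψ).1, ← (lv2_mul hι B ψ).2]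
    noncomm_ring
  have h := hC (ZMod p) (Mat n (ZMod p)) H (Mat n (ZMod p) ⧸ W) hV
    ((Submodule.finrank_le H).trans hV) ((Submodule.finrank_quotient_le W).trans hV) Θ Λ e
    (univ.filter fun B => p ^ (n ^ 2) ≤ p ^ e * Nat.card (commS (sh n p (m + 1) (A0 + ι B))))
    (fun B hB => ?_)
  · rw [ZMod.card] at h
    refine le_trans (le_trans (card_le_card fun A' hA' => ?_)
      (card_image_le (f := fun B => A0 + ι B))) h
    obtain ⟨-, h4, h5⟩ := mem_filter.1 hA'
    obtain ⟨B, hB⟩ := (lv2_range hι (A' - A0)).1 (by rw [map_sub, h4, sub_self])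
    have h6 : A0 + ι B = A' := by rw [hB, add_sub_cancel]
    exact mem_image.2 ⟨B, mem_filter.2 ⟨mem_univ _, by rwa [h6]⟩, h6⟩
  · refine ⟨_, lv2_rank _ (mem_filter.1 hB).2, fun β hβ => lv2_perp _ β ?_⟩
    rintro _ ⟨χ, hχ, rfl⟩ _ ⟨ψ, hψ, rfl⟩
    have hχ' : (A0 + ι B) * χ = χ * (A0 + ι B) := hχ _ rfl
    have hψ' : (A0 + ι B) * ψ = ψ * (A0 + ι B) := hψ _ rfl
    have e1 : ι (-(B * redP n p (m + 1) ψ - redP n p (m + 1) ψ * B)) = A0 * ψ - ψ * A0 := by
      have e2 := hbr B ψ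
      rw [hψ', sub_self] at e2
      rw [map_neg]
      exact (eq_neg_of_add_eq_zero_left e2.symm).symm
    have hv := h1 ψ ((lv2_range hι _).2 ⟨_, e1⟩)
    obtain ⟨w, hw⟩ := hβ ⟨_, hv⟩ (by
      rw [LinearMap.mem_ker, LinearMap.add_apply, h2 ⟨_, hv⟩ ψ _ rfl e1, hΛ, map_neg]
      exact neg_add_cancel _)
    rw [LinearMap.add_apply, hΛ, hΛ, ← eq_sub_iff_add_eq, ← map_sub] at hw
    obtain ⟨φ, hφ, e3⟩ := h3 w _ hw
    have e4 : ι (β * redP n p (m + 1) ψ - redP n p (m + 1) ψ * β) =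
        (A0 + ι B) * φ - φ * (A0 + ι B) := by
      rw [hbr, ← e3, hφ, ← map_add, sub_add_cancel]
    refine lv2_trace hι ?_
    rw [← (lv2_mul hι _ χ).2, e4, mul_sub, trace_sub, ← mul_assoc, ← hχ', mul_assoc,
      trace_mul_comm (A0 + ι B), mul_assoc, sub_self]

end Pool.Agent.MP_8299d6_al.Up

end
end

section

open Matrix

noncomputable section

namespace Pool.Agent.MP_8299d6_al.Up

open Pool.Agent.MP_810665_al (IrrChar)

/-- the algebra inequality for shadows -/
theorem sh_ineq {n p : ℕ} [Fact p.Prime] (hn : 4 ≤ n) (m : ℕ) (A : Mat n (ZMod (p ^ (m + 1))))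
    (hA : ¬ IsScal A) :
    Nat.card (sh n p m A) ^ 3 ≤ p ^ (n ^ 2) * Nat.card (commS (sh n p m A)) ^ 2 := by
  have hp : p.Prime := Fact.out
  let h : Subalgebra (ZMod p) (Mat n (ZMod p)) :=
    { sh n p m A with
      algebraMap_mem' := fun r => by
        rw [← ZMod.natCast_zmod_val r, map_natCast]
        exact natCast_mem (sh n p m A) _ }
  obtain ⟨z, hz, hns, hc⟩ := sh_central m A hA
  have key := alg_ineq hn h z hz hns hc
  have e1 : Nat.card (sh n p m A) = p ^ Module.finrank (ZMod p) h := by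
    have := Module.natCard_eq_pow_finrank (K := ZMod p) (V := h)
    rwa [Nat.card_zmod] at this
  have e2 : Nat.card (commA h) = p ^ Module.finrank (ZMod p) (commA h) := by
    have := Module.natCard_eq_pow_finrank (K := ZMod p) (V := commA h)
    rwa [Nat.card_zmod] at this
  have hle : commA h ≤ AddSubgroup.toZModSubmodule p (commS (sh n p m A)) :=
    Submodule.span_le.2 fun x hx => AddSubgroup.subset_closure hx
  have e3 : Nat.card (commA h) ≤ Nat.card (commS (sh n p m A)) :=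
    Nat.card_le_card_of_injective (fun x => (⟨x.1, hle x.2⟩ : commS (sh n p m A)))
      fun x y e => Subtype.ext (Subtype.mk.inj e)
  calc _ = p ^ (3 * Module.finrank (ZMod p) h) := by rw [e1, ← pow_mul, mul_comm]
    _ ≤ p ^ (n ^ 2 + 2 * Module.finrank (ZMod p) (commA h)) := Nat.pow_le_pow_right hp.pos key
    _ = p ^ (n ^ 2) * Nat.card (commA h) ^ 2 := by rw [e2, pow_add, ← pow_mul, mul_comm 2]
    _ ≤ _ := by gcongr

section Aux

open Classical Finset

variable {n p : ℕ} [Fact p.Prime]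

lemma lv3_cc_nonneg {M : Type} [Ring M] (A : M) : 0 ≤ cc A := by unfold cc; positivity

lemma lv3_cc_le_one {M : Type} [Ring M] [Finite M] (A : M) : cc A ≤ 1 := by
  unfold cc
  exact div_le_one_of_le₀
    (by exact_mod_cast Nat.card_le_card_of_injective _ Subtype.val_injective) (by positivity)

lemma lv3_pow_nonneg {M : Type} [Ring M] (A : M) (t : ℝ) : 0 ≤ cc A ^ t :=
  Real.rpow_nonneg (lv3_cc_nonneg A) t

lemma lv3_card_mat : Nat.card (Mat n (ZMod p)) = p ^ (n ^ 2) := by
  rw [Module.natCard_eq_pow_finrank (K := ZMod p), Nat.card_zmod, Module.finrank_matrix]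
  simp [sq]

lemma lv3_pow (S : AddSubgroup (Mat n (ZMod p))) : ∃ a ≤ n ^ 2, Nat.card S = p ^ a := by
  have := S.card_addSubgroup_dvd_card
  rwa [lv3_card_mat, Nat.dvd_prime_pow Fact.out] at this

lemma lv3_sh_le (m : ℕ) (A : Mat n (ZMod (p ^ (m + 1)))) :
    Nat.card (sh n p m A) ≤ p ^ (n ^ 2) := by
  rw [← lv3_card_mat]
  exact Nat.card_le_card_of_injective _ Subtype.val_injective

lemma lv3_scal_red {m : ℕ} {A : Mat n (ZMod (p ^ (m + 1)))} (h : IsScal A) :
    IsScal (redM n p m A) := by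
  obtain ⟨a, rfl⟩ := h
  refine ⟨ZMod.castHom (pow_dvd_pow p (Nat.le_succ m)) (ZMod (p ^ m)) a, ?_⟩
  ext i j
  simp only [redM, RingHom.mapMatrix_apply, map_apply, Matrix.smul_apply, Matrix.one_apply,
    smul_eq_mul]
  split_ifs <;> simp only [mul_one, mul_zero, map_zero]

lemma lv3_step (m : ℕ) (A : Mat n (ZMod (p ^ (m + 1)))) (t : ℝ) : cc A ^ t =
    cc (redM n p m A) ^ t * ((Nat.card (sh n p m A) : ℝ) / (p : ℝ) ^ (n ^ 2)) ^ t := by
  rw [cc_step, mul_div_assoc, Real.mul_rpow (lv3_cc_nonneg _) (by positivity)]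

lemma lv3_ratio_le (m : ℕ) (A : Mat n (ZMod (p ^ (m + 1)))) :
    (Nat.card (sh n p m A) : ℝ) / (p : ℝ) ^ (n ^ 2) ≤ 1 :=
  div_le_one_of_le₀ (by exact_mod_cast lv3_sh_le m A) (by positivity)

lemma lv3_ratio (hn : 4 ≤ n) (m : ℕ) (A : Mat n (ZMod (p ^ (m + 1)))) (hA : ¬ IsScal A) {t : ℝ}
    (ht : 3 / 2 ≤ t) : ((Nat.card (sh n p m A) : ℝ) / (p : ℝ) ^ (n ^ 2)) ^ t ≤
      (Nat.card (commS (sh n p m A)) : ℝ) / (p : ℝ) ^ (n ^ 2) := by
  have hp : (0 : ℝ) < p := by exact_mod_cast (Fact.out : p.Prime).pos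
  have h1 : (Nat.card (sh n p m A) : ℝ) ^ 3 ≤
      (p : ℝ) ^ (n ^ 2) * (Nat.card (commS (sh n p m A)) : ℝ) ^ 2 := by
    exact_mod_cast sh_ineq hn m A hA
  have h0 : 0 ≤ (Nat.card (sh n p m A) : ℝ) / (p : ℝ) ^ (n ^ 2) := by positivity
  refine (Real.rpow_le_rpow_of_exponent_ge' h0 (lv3_ratio_le m A) (by norm_num) ht).trans ?_
  refine (pow_le_pow_iff_left₀ (n := 2) (by positivity) (by positivity) two_ne_zero).1 ?_
  rw [← Real.rpow_natCast, ← Real.rpow_mul h0]
  have : (3 / 2 : ℝ) * (2 : ℕ) = (3 : ℕ) := by norm_num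
  rw [this, Real.rpow_natCast, div_pow, div_pow, div_le_div_iff₀ (by positivity) (by positivity)]
  calc _ ≤ ((p : ℝ) ^ (n ^ 2) * (Nat.card (commS (sh n p m A)) : ℝ) ^ 2) *
      ((p : ℝ) ^ (n ^ 2)) ^ 2 := by gcongr
    _ = _ := by ring

lemma lv3_lift (n : ℕ) (hn : 4 ≤ n) : ∃ C : ℝ, 0 ≤ C ∧ ∀ (p : ℕ) [Fact p.Prime] (m : ℕ)
    (A : Mat n (ZMod (p ^ (m + 1)))), ¬ IsScal A → ∀ t : ℝ, 3 / 2 ≤ t →
    ∑ A' ∈ univ.filter (fun A' => redM n p (m + 1) A' = A), cc A' ^ t ≤ C * cc A ^ t := by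
  obtain ⟨C, hC⟩ := card_drop n
  refine ⟨(n ^ 2 + 1 : ℕ) * C, by positivity, fun p _ m A hA t ht => ?_⟩
  have hp : (0 : ℝ) < p := by exact_mod_cast (Fact.out : p.Prime).pos
  have h0 := lv3_pow_nonneg A t
  calc _ ≤ ∑ A' ∈ univ.filter (fun A' => redM n p (m + 1) A' = A), ∑ e ∈ range (n ^ 2 + 1),
        if p ^ (n ^ 2) ≤ p ^ e * Nat.card (commS (sh n p (m + 1) A')) then
          cc A ^ t / (p : ℝ) ^ e else 0 := by
        refine sum_le_sum fun A' hA' => ?_
        have e := (mem_filter.1 hA').2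
        obtain ⟨c, hc, ec⟩ := lv3_pow (commS (sh n p (m + 1) A'))
        have h1 := lv3_ratio hn (m + 1) A' (fun h => hA (e ▸ lv3_scal_red h)) ht
        refine le_trans ?_ (single_le_sum (f := fun e =>
          if p ^ (n ^ 2) ≤ p ^ e * Nat.card (commS (sh n p (m + 1) A')) then
            cc A ^ t / (p : ℝ) ^ e else 0) (fun e _ => by positivity)
          (a := n ^ 2 - c) (mem_range.2 (by omega)))
        rw [if_pos (by rw [ec, ← pow_add, Nat.sub_add_cancel hc]), lv3_step, e]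
        refine (mul_le_mul_of_nonneg_left h1 h0).trans (le_of_eq ?_)
        rw [ec, pow_sub₀ _ hp.ne' hc]
        push_cast
        field_simp
    _ = ∑ e ∈ range (n ^ 2 + 1), ((univ.filter (fun A' => redM n p (m + 1) A' = A ∧
        p ^ (n ^ 2) ≤ p ^ e * Nat.card (commS (sh n p (m + 1) A')))).card : ℝ) *
          (cc A ^ t / (p : ℝ) ^ e) := by
        rw [sum_comm]
        refine sum_congr rfl fun e _ => ?_
        rw [← sum_filter, filter_filter, sum_const, nsmul_eq_mul]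
    _ ≤ ∑ e ∈ range (n ^ 2 + 1), C * cc A ^ t := by
        refine sum_le_sum fun e _ => ?_
        have h1 : ((univ.filter (fun A' => redM n p (m + 1) A' = A ∧
            p ^ (n ^ 2) ≤ p ^ e * Nat.card (commS (sh n p (m + 1) A')))).card : ℝ) ≤
            C * (p : ℝ) ^ e := by exact_mod_cast hC p m A e
        refine (mul_le_mul_of_nonneg_right h1 (by positivity)).trans (le_of_eq ?_)
        field_simp
    _ = _ := by rw [sum_const, card_range, nsmul_eq_mul, mul_assoc]

lemma lv3_rec (m : ℕ) {C t : ℝ} (hC0 : 0 ≤ C) (hC : ∀ A : Mat n (ZMod (p ^ (m + 1))), ¬ IsScal A →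
    ∑ A' ∈ univ.filter (fun A' => redM n p (m + 1) A' = A), cc A' ^ t ≤ C * cc A ^ t) :
    ∑ A ∈ univ.filter (fun A => ¬ IsScal (redM n p (m + 1) A)), cc A ^ t ≤
      C * ((p : ℝ) ^ m * sumOn {B : Mat n (ZMod p) | ¬ IsScal B} (fun B => cc B ^ t) +
        ∑ A ∈ univ.filter (fun A => ¬ IsScal (redM n p m A)), cc A ^ t) := by
  calc _ = ∑ A ∈ univ.filter (fun A => ¬ IsScal A),
        ∑ A' ∈ univ.filter (fun A' => redM n p (m + 1) A' = A), cc A' ^ t := by
        rw [sum_fiberwise_eq_sum_filter]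
        exact sum_congr (by ext; simp) fun _ _ => rfl
    _ ≤ ∑ A ∈ univ.filter (fun A : Mat n (ZMod (p ^ (m + 1))) => ¬ IsScal A), C * cc A ^ t :=
        sum_le_sum fun A hA => hC A (mem_filter.1 hA).2
    _ ≤ _ := by
        rw [← mul_sum]
        refine mul_le_mul_of_nonneg_left ?_ hC0
        rw [← sum_filter_add_sum_filter_not _ (fun A => IsScal (redM n p m A)), filter_filter,
          filter_filter]
        refine add_le_add (le_trans (le_of_eq ?_) (first_level m t)) ?_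
        · exact sum_congr (by ext; simp) fun _ _ => rfl
        · exact sum_le_sum_of_subset_of_nonneg (monotone_filter_right _ fun A _ h => h.2)
            fun A _ _ => lv3_pow_nonneg A t

omit [Fact p.Prime] in
lemma lv3_zero (A : Mat n (ZMod (p ^ 0))) : IsScal A := by
  have : Subsingleton (ZMod (p ^ 0)) := ZMod.subsingleton_iff.2 (pow_zero p)
  exact ⟨0, Subsingleton.elim _ _⟩

/-- the weight used for a fixed prime -/
def lv3w (n p m : ℕ) (t : ℝ) (A : Mat n (ZMod (p ^ (m + 1)))) : ℝ :=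
  cc A ^ t * (2 * (p : ℝ) ^ (n ^ 2)) ^ Nat.card (sh n p m A)

lemma lv3_one_le : (1 : ℝ) ≤ 2 * (p : ℝ) ^ (n ^ 2) := by
  have : (1 : ℝ) ≤ (p : ℝ) ^ (n ^ 2) :=
    one_le_pow₀ (by exact_mod_cast (Fact.out : p.Prime).one_le)
  linarith

omit [Fact p.Prime] in
lemma lv3w_nonneg (m : ℕ) (t : ℝ) (A : Mat n (ZMod (p ^ (m + 1)))) : 0 ≤ lv3w n p m t A :=
  mul_nonneg (lv3_pow_nonneg A t) (by positivity)

lemma lv3w_le (m : ℕ) {t : ℝ} (ht : 0 ≤ t) (A : Mat n (ZMod (p ^ (m + 1)))) :
    lv3w n p m t A ≤ (2 * (p : ℝ) ^ (n ^ 2)) ^ (p ^ (n ^ 2)) :=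
  (mul_le_of_le_one_left (by positivity)
    (Real.rpow_le_one (lv3_cc_nonneg A) (lv3_cc_le_one A) ht)).trans
    (pow_le_pow_right₀ lv3_one_le (lv3_sh_le m A))

lemma lv3w_lift (hn : 4 ≤ n) (m : ℕ) (A : Mat n (ZMod (p ^ (m + 1)))) (hA : ¬ IsScal A) {t : ℝ}
    (ht : 3 / 2 ≤ t) : ∑ A' ∈ univ.filter (fun A' => redM n p (m + 1) A' = A),
      lv3w n p (m + 1) t A' ≤ 3 / 2 * lv3w n p m t A := by
  have hp : (0 : ℝ) < p := by exact_mod_cast (Fact.out : p.Prime).pos
  have h0 := lv3w_nonneg m t A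
  have h0' := lv3_pow_nonneg A t
  rw [← sum_filter_add_sum_filter_not _ (fun A' => sh n p (m + 1) A' = sh n p m A), filter_filter]
  have a1 : ∑ A' ∈ univ.filter (fun A' => redM n p (m + 1) A' = A ∧
      sh n p (m + 1) A' = sh n p m A), lv3w n p (m + 1) t A' ≤ lv3w n p m t A := by
    have h1 : ((univ.filter (fun A' => redM n p (m + 1) A' = A ∧
        sh n p (m + 1) A' = sh n p m A)).card : ℝ) * (Nat.card (commS (sh n p m A)) : ℝ) ≤
        (p : ℝ) ^ (n ^ 2) := by exact_mod_cast card_stay m A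
    refine (sum_le_card_nsmul _ _
      (lv3w n p m t A * ((Nat.card (commS (sh n p m A)) : ℝ) / (p : ℝ) ^ (n ^ 2))) ?_).trans ?_
    · intro A' hA'
      obtain ⟨e1, e2⟩ := (mem_filter.1 hA').2
      rw [lv3w, lv3_step, e1, e2, mul_right_comm]
      exact mul_le_mul_of_nonneg_left (lv3_ratio hn m A hA ht) h0
    · rw [nsmul_eq_mul, mul_left_comm, ← mul_div_assoc]
      exact mul_le_of_le_one_right h0 (div_le_one_of_le₀ h1 (by positivity))
  have a2 : ∑ A' ∈ (univ.filter (fun A' => redM n p (m + 1) A' = A)).filter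
      (fun A' => ¬ sh n p (m + 1) A' = sh n p m A), lv3w n p (m + 1) t A' ≤
      lv3w n p m t A / 2 := by
    refine (sum_le_card_nsmul _ _ (lv3w n p m t A / (2 * (p : ℝ) ^ (n ^ 2))) ?_).trans ?_
    · intro A' hA'
      obtain ⟨e1, e2⟩ := mem_filter.1 hA'
      have e1 := (mem_filter.1 e1).2
      have h1 : sh n p (m + 1) A' < sh n p m A := lt_of_le_of_ne (e1 ▸ sh_le m A') e2
      have h2 : Nat.card (sh n p (m + 1) A') < Nat.card (sh n p m A) :=
        Set.Finite.card_lt_card (Set.toFinite _) (SetLike.coe_ssubset_coe.2 h1)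
      rw [le_div_iff₀ (by positivity), lv3w, lv3w, lv3_step, e1, mul_assoc, ← pow_succ]
      refine mul_le_mul (mul_le_of_le_one_right h0' (Real.rpow_le_one (by positivity)
        (lv3_ratio_le _ _) (by linarith))) (pow_le_pow_right₀ lv3_one_le h2) (by positivity) h0'
    · have h1 : (((univ.filter (fun A' => redM n p (m + 1) A' = A)).filter
          (fun A' => ¬ sh n p (m + 1) A' = sh n p m A)).card : ℝ) ≤ (p : ℝ) ^ (n ^ 2) := by
        exact_mod_cast (card_filter_le _ _).trans (card_fiber (m + 1) A).le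
      rw [nsmul_eq_mul]
      refine (mul_le_mul_of_nonneg_right h1 (by positivity)).trans (le_of_eq ?_)
      field_simp
  linarith

lemma lv3w_sum (hn : 4 ≤ n) {t : ℝ} (ht : 3 / 2 ≤ t) (m : ℕ) : ∑ A, lv3w n p m t A ≤
    2 * ((p : ℝ) ^ (n ^ 2) * (2 * (p : ℝ) ^ (n ^ 2)) ^ (p ^ (n ^ 2))) * (p : ℝ) ^ (m + 1) := by
  have hp : (2 : ℝ) ≤ p := by exact_mod_cast (Fact.out : p.Prime).two_le
  have fib : ∀ (j : ℕ) (A : Mat n (ZMod (p ^ j))),
      ∑ A' ∈ univ.filter (fun A' => redM n p j A' = A), lv3w n p j t A' ≤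
        (p : ℝ) ^ (n ^ 2) * (2 * (p : ℝ) ^ (n ^ 2)) ^ (p ^ (n ^ 2)) := by
    intro j A
    refine (sum_le_card_nsmul _ _ _ fun A' _ => lv3w_le j (by linarith) A').trans (le_of_eq ?_)
    rw [card_fiber, nsmul_eq_mul]
    push_cast
    rfl
  have hB : 0 ≤ (p : ℝ) ^ (n ^ 2) * (2 * (p : ℝ) ^ (n ^ 2)) ^ (p ^ (n ^ 2)) := by positivity
  generalize (p : ℝ) ^ (n ^ 2) * (2 * (p : ℝ) ^ (n ^ 2)) ^ (p ^ (n ^ 2)) = B at fib hB ⊢
  have sc : ∀ j : ℕ, ∑ A ∈ univ.filter (fun A : Mat n (ZMod (p ^ j)) => IsScal A),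
      ∑ A' ∈ univ.filter (fun A' => redM n p j A' = A), lv3w n p j t A' ≤ (p : ℝ) ^ j * B := by
    intro j
    refine (sum_le_card_nsmul _ _ _ fun A _ => fib j A).trans ?_
    rw [nsmul_eq_mul]
    exact mul_le_mul_of_nonneg_right (by exact_mod_cast card_scal j) hB
  induction m with
  | zero =>
    have := sc 0
    rw [filter_true_of_mem fun A _ => lv3_zero A, sum_fiberwise] at this
    simp only [pow_zero, zero_add, pow_one] at this ⊢
    nlinarith
  | succ m ih =>
    rw [← sum_fiberwise univ (redM n p (m + 1)), ← sum_filter_add_sum_filter_not _ IsScal]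
    have a1 := sc (m + 1)
    have a2 : ∑ A ∈ univ.filter (fun A : Mat n (ZMod (p ^ (m + 1))) => ¬ IsScal A),
        ∑ A' ∈ univ.filter (fun A' => redM n p (m + 1) A' = A), lv3w n p (m + 1) t A' ≤
        3 / 2 * ∑ A, lv3w n p m t A := by
      rw [mul_sum]
      refine (sum_le_sum fun A hA => lv3w_lift hn m A (mem_filter.1 hA).2 ht).trans
        (sum_le_sum_of_subset_of_nonneg (filter_subset _ _) fun A _ _ => ?_)
      exact mul_nonneg (by norm_num) (lv3w_nonneg m t A)
    have h1 : 0 ≤ B * (p : ℝ) ^ (m + 1) := by positivity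
    rw [pow_succ (p : ℝ) (m + 1)]
    nlinarith

end Aux

theorem level_big (n : ℕ) (hn : 4 ≤ n) : ∃ (C : ℝ) (p₀ : ℕ), ∀ (p : ℕ) [Fact p.Prime], p₀ ≤ p →
    ∀ (m : ℕ) (s : ℝ), 1 ≤ s →
    sumOn (NS n _ ((p : ZMod (p ^ (m + 1))) ^ m)) (fun A => cc A ^ (1 + s / 2))
      ≤ C * (p : ℝ) ^ ((m : ℝ) + 3 - n - s) := by
  classical
  obtain ⟨C, hC0, hC⟩ := lv3_lift n hn
  obtain ⟨C₁, hC₁⟩ := first_sum n hn
  refine ⟨2 * C * C₁, max (2 * n) ⌈2 * C⌉₊, fun p _ hp m s hs => ?_⟩
  have hp0 : (0 : ℝ) < p := by exact_mod_cast (Fact.out : p.Prime).pos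
  have hpC : 2 * C ≤ p := Nat.ceil_le.1 ((le_max_right _ _).trans hp)
  have h1 := hC₁ p ((le_max_left _ _).trans hp) s hs
  have ht : 3 / 2 ≤ 1 + s / 2 := by linarith
  have hΦ : 0 ≤ sumOn {B : Mat n (ZMod p) | ¬ IsScal B} (fun B => cc B ^ (1 + s / 2)) :=
    Finset.sum_nonneg fun B _ => lv3_pow_nonneg B _
  have key : ∀ j : ℕ, (p : ℝ) * ∑ A ∈ Finset.univ.filter (fun A => ¬ IsScal (redM n p j A)),
      cc A ^ (1 + s / 2) ≤ 2 * C * ((p : ℝ) ^ j *
        sumOn {B : Mat n (ZMod p) | ¬ IsScal B} (fun B => cc B ^ (1 + s / 2))) := by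
    intro j
    induction j with
    | zero =>
      rw [Finset.filter_false_of_mem fun A _ => not_not.2 (lv3_zero _), Finset.sum_empty, mul_zero]
      positivity
    | succ j ih =>
      have h2 := mul_le_mul_of_nonneg_left (lv3_rec j hC0 fun A hA => hC p j A hA _ ht) hp0.le
      have h3 := mul_le_mul_of_nonneg_left ih hC0
      have h4 := mul_le_mul_of_nonneg_right hpC (mul_nonneg hC0 (mul_nonneg (pow_nonneg hp0.le j) hΦ))
      rw [pow_succ (p : ℝ) j]
      linarith
  have e : sumOn (NS n _ ((p : ZMod (p ^ (m + 1))) ^ m)) (fun A => cc A ^ (1 + s / 2)) =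
      ∑ A ∈ Finset.univ.filter (fun A => ¬ IsScal (redM n p m A)), cc A ^ (1 + s / 2) :=
    Finset.sum_congr (by ext; simp [mem_NS_iff]) fun _ _ => rfl
  rw [e]
  refine le_of_mul_le_mul_left ((key m).trans ?_) hp0
  have e2 : (p : ℝ) * (p : ℝ) ^ ((m : ℝ) + 3 - n - s) = (p : ℝ) ^ m * (p : ℝ) ^ (4 - (n : ℝ) - s) := by
    rw [← Real.rpow_natCast, ← Real.rpow_add hp0, mul_comm, ← Real.rpow_add_one hp0.ne']
    congr 1
    ring
  calc _ ≤ 2 * C * ((p : ℝ) ^ m * (C₁ * (p : ℝ) ^ (4 - (n : ℝ) - s))) := by gcongr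
    _ = _ := by rw [mul_left_comm (p : ℝ), e2]; ring

theorem level_small (n : ℕ) (hn : 4 ≤ n) (p : ℕ) [Fact p.Prime] : ∃ C : ℝ, ∀ (m : ℕ) (s : ℝ),
    1 ≤ s → ∑ A : Mat n (ZMod (p ^ (m + 1))), cc A ^ (1 + s / 2) ≤ C * (p : ℝ) ^ (m + 1) := by
  refine ⟨_, fun m s hs => le_trans (Finset.sum_le_sum fun A _ => ?_)
    (lv3w_sum hn (t := 1 + s / 2) (by linarith) m)⟩
  exact le_mul_of_one_le_right (lv3_pow_nonneg A _) (one_le_pow₀ lv3_one_le)

end Pool.Agent.MP_8299d6_al.Up

end
end
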