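import Mathlib
import Pool.Agent.MP_8299d6_al.Rep
import Pool.Agent.MP_d64882_nt.Zeta

section

/-! Counting matrices over a finite field. -/

open Matrix

noncomputable section

namespace Pool.Agent.MP_8299d6_al

variable {F : Type} [Field F] [Fintype F] {a b : ℕ}

abbrev Ix (a b : ℕ) : Type := Fin a ⊕ Fin b

omit [Field F] in
lemma card_mat (m n : Type) [Fintype m] [Fintype n] :
    Nat.card (Matrix m n F) = Fintype.card F ^ (Fintype.card m * Fintype.card n) := by
  classical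
  rw [Nat.card_eq_fintype_card]
  change Fintype.card (m → n → F) = _
  rw [Fintype.card_fun, Fintype.card_fun, ← pow_mul, mul_comm]

lemma card_SL_le {ι : Type} [Fintype ι] [DecidableEq ι] (i0 : ι) (T : Set (Matrix ι ι F))
    (hT : ∀ M ∈ T, ∀ c : F, M * diagonal (Function.update 1 i0 c) ∈ T) :
    Nat.card {K : SpecialLinearGroup ι F // K.1 ∈ T} * Fintype.card F ≤ 2 * Nat.card T := by
  classical
  let t : {K : SpecialLinearGroup ι F // K.1 ∈ T} × Fˣ → T :=
    fun x => ⟨x.1.1.1 * diagonal (Function.update 1 i0 (x.2 : F)), hT _ x.1.2 _⟩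
  have hd : ∀ c : F, (diagonal (Function.update (1 : ι → F) i0 c)).det = c := fun c => by
    rw [det_diagonal, Finset.prod_update_of_mem (Finset.mem_univ _)]; simp
  have ht : Function.Injective t := by
    rintro ⟨K, c⟩ ⟨K', c'⟩ e
    have e1 : K.1.1 * diagonal (Function.update 1 i0 (c : F)) =
        K'.1.1 * diagonal (Function.update 1 i0 (c' : F)) := congrArg Subtype.val e
    have e2 := congrArg det e1
    rw [det_mul, det_mul, hd, hd, K.1.2, K'.1.2, one_mul, one_mul] at e2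
    have e3 : c = c' := Units.ext e2
    subst e3
    have hu : IsUnit (diagonal (Function.update (1 : ι → F) i0 (c : F))) := by
      rw [isUnit_iff_isUnit_det, hd]; exact c.isUnit
    have e4 := hu.mul_left_injective e1
    exact Prod.ext (Subtype.ext (Subtype.ext e4)) rfl
  have h1 := Nat.card_le_card_of_injective t ht
  rw [Nat.card_prod, Nat.card_units, Nat.card_eq_fintype_card (α := F)] at h1
  have h2 : 2 ≤ Fintype.card F := Fintype.one_lt_card
  calc _ ≤ Nat.card {K : SpecialLinearGroup ι F // K.1 ∈ T} * (2 * (Fintype.card F - 1)) := by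
        gcongr; omega
    _ = 2 * (Nat.card {K : SpecialLinearGroup ι F // K.1 ∈ T} * (Fintype.card F - 1)) := by ring
    _ ≤ _ := by gcongr

lemma card_SL_univ (ha : 0 < a) :
    Nat.card (SpecialLinearGroup (Ix a b) F) * Fintype.card F ≤
      2 * Fintype.card F ^ ((a + b) ^ 2) := by
  have h := card_SL_le (F := F) (Sum.inl ⟨0, ha⟩ : Ix a b) Set.univ (fun _ _ _ => trivial)
  rw [Nat.card_congr (Equiv.subtypeUnivEquiv fun _ => Set.mem_univ _),
    Nat.card_congr (Equiv.Set.univ _), card_mat] at h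
  simpa [sq] using h

/-- block lower triangular matrices of determinant one -/
abbrev Par (a b : ℕ) (F : Type) [Field F] : Type :=
  {K : SpecialLinearGroup (Ix a b) F // K.1 ∈ {M : Matrix (Ix a b) (Ix a b) F | M.toBlocks₁₂ = 0}}

lemma card_Par (ha : 0 < a) :
    Nat.card (Par a b F) * Fintype.card F ≤ 2 * Fintype.card F ^ (a * a + a * b + b * b) := by
  have h := card_SL_le (F := F) (Sum.inl ⟨0, ha⟩ : Ix a b) {M | M.toBlocks₁₂ = 0} (fun M hM c => by
    ext i j
    have : M (Sum.inl i) (Sum.inr j) = 0 := congrFun (congrFun hM i) j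
    simp [toBlocks₁₂, this])
  refine h.trans (Nat.mul_le_mul_left _ ?_)
  let t : {M : Matrix (Ix a b) (Ix a b) F | M.toBlocks₁₂ = 0} →
      Matrix (Fin a) (Fin a) F × Matrix (Fin b) (Fin a) F × Matrix (Fin b) (Fin b) F :=
    fun M => (M.1.toBlocks₁₁, M.1.toBlocks₂₁, M.1.toBlocks₂₂)
  have ht : Function.Injective t := fun M M' e => by
    simp only [t, Prod.mk.injEq] at e
    refine Subtype.ext ?_
    rw [← fromBlocks_toBlocks M.1, ← fromBlocks_toBlocks M'.1, e.1, e.2.1, e.2.2, M.2, M'.2]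
  refine (Nat.card_le_card_of_injective t ht).trans ?_
  rw [Nat.card_prod, Nat.card_prod, card_mat, card_mat, card_mat, ← pow_add, ← pow_add]
  simp only [Fintype.card_fin]
  rw [mul_comm b a, add_assoc]

/-- block unipotent subgroup -/
def Uni (a b : ℕ) (F : Type) [Field F] : Subgroup (SpecialLinearGroup (Ix a b) F) where
  carrier := {K | ∃ B, K.1 = fromBlocks 1 B 0 1}
  one_mem' := ⟨0, by simp⟩
  mul_mem' := by
    rintro K K' ⟨B, hB⟩ ⟨B', hB'⟩
    refine ⟨B' + B, ?_⟩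
    change K.1 * K'.1 = _
    rw [hB, hB', fromBlocks_multiply]; simp
  inv_mem' := by
    rintro K ⟨B, hB⟩
    have : K * ⟨fromBlocks 1 (-B) 0 1, by simp⟩ = 1 := by
      refine Subtype.ext ?_
      change K.1 * fromBlocks 1 (-B) 0 1 = 1
      rw [hB, fromBlocks_multiply]; simp
    exact ⟨-B, by rw [inv_eq_of_mul_eq_one_right this]⟩

lemma index_Uni (ha : 0 < a) :
    (Uni a b F).index * Fintype.card F ^ (b * a) * Fintype.card F ≤
      2 * Fintype.card F ^ ((a + b) ^ 2) := by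
  classical
  refine le_trans ?_ (card_SL_univ ha)
  rw [← (Uni a b F).index_mul_card]
  gcongr
  let t : Matrix (Fin a) (Fin b) F → Uni a b F :=
    fun B => ⟨⟨fromBlocks 1 B 0 1, by simp⟩, B, rfl⟩
  have ht : Function.Injective t := fun B B' e => by
    have : fromBlocks 1 B 0 1 = fromBlocks 1 B' (0 : Matrix (Fin b) (Fin a) F) 1 :=
      congrArg (fun x : Uni a b F => x.1.1) e
    exact (fromBlocks_inj.1 this).2.1
  have := Nat.card_le_card_of_injective t ht
  rw [card_mat] at this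
  simpa [mul_comm] using this

/-- matrices whose upper right block has independent columns -/
def Gen (a b : ℕ) (F : Type) [Field F] : Set (Matrix (Ix a b) (Ix a b) F) :=
  {A | LinearIndependent F fun (k : Fin b) (i : Fin a) => A (Sum.inl i) (Sum.inr k)}

lemma card_Gen (hab : b ≤ a) :
    Fintype.card F ^ ((a + b) ^ 2) ≤ 2 ^ b * Nat.card (Gen a b F) := by
  classical
  set q := Fintype.card F with hq
  let t : {s : Fin b → (Fin a → F) // LinearIndependent F s} × Matrix (Fin a) (Fin a) F ×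
      Matrix (Fin b) (Fin a) F × Matrix (Fin b) (Fin b) F → Gen a b F :=
    fun x => ⟨fromBlocks x.2.1 (Matrix.of fun i k => x.1.1 k i) x.2.2.1 x.2.2.2, x.1.2⟩
  have ht : Function.Injective t := by
    rintro ⟨s, A, B, C⟩ ⟨s', A', B', C'⟩ e
    have e1 := fromBlocks_inj.1 (congrArg Subtype.val e)
    simp only at e1
    obtain ⟨rfl, e2, rfl, rfl⟩ := e1
    have : s = s' := Subtype.ext (funext fun k => funext fun i => congrFun (congrFun e2 i) k)
    rw [this]
  have h1 := Nat.card_le_card_of_injective t ht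
  rw [Nat.card_prod, Nat.card_prod, Nat.card_prod, card_mat, card_mat, card_mat,
    card_linearIndependent (by simpa using hab)] at h1
  simp only [Fintype.card_fin, Module.finrank_fintype_fun_eq_card, ← hq] at h1
  have h2 : 2 ≤ q := Fintype.one_lt_card
  have h3 : (q ^ a) ^ b ≤ 2 ^ b * ∏ i : Fin b, (q ^ a - q ^ (i : ℕ)) := by
    calc (q ^ a) ^ b = ∏ _i : Fin b, q ^ a := by simp
      _ ≤ ∏ i : Fin b, (2 * (q ^ a - q ^ (i : ℕ))) := by
          refine Finset.prod_le_prod' fun i _ => ?_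
          have h4 : q ^ ((i : ℕ) + 1) ≤ q ^ a := Nat.pow_le_pow_right (by omega) (by omega)
          have h5 : q ^ (i : ℕ) * 2 ≤ q ^ ((i : ℕ) + 1) := by rw [pow_succ]; gcongr
          omega
      _ = _ := by rw [Finset.prod_mul_distrib]; simp
  calc q ^ ((a + b) ^ 2) = (q ^ a) ^ b * (q ^ (a * a) * (q ^ (b * a) * q ^ (b * b))) := by
        rw [← pow_mul, ← pow_add, ← pow_add, ← pow_add]; congr 1; ring
    _ ≤ (2 ^ b * ∏ i : Fin b, (q ^ a - q ^ (i : ℕ))) *
        (q ^ (a * a) * (q ^ (b * a) * q ^ (b * b))) := by gcongr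
    _ ≤ _ := by rw [mul_assoc]; gcongr

omit [Fintype F] in
lemma scalar_of_trace {ι : Type} [Fintype ι] [DecidableEq ι] (i0 : ι) (M : Matrix ι ι F)
    (h : ∀ y η : ι → ℤ, η ⬝ᵥ y = 0 →
      (M * vecMulVec (fun i => (y i : F)) (fun i => (η i : F))).trace = 0) :
    ∃ c : F, M = c • (1 : Matrix ι ι F) := by
  have h' : ∀ y η : ι → ℤ, η ⬝ᵥ y = 0 →
      (fun i => (η i : F)) ⬝ᵥ M *ᵥ (fun i => (y i : F)) = 0 := fun y η e => by
    rw [← h y η e, mul_vecMulVec, trace_vecMulVec, dotProduct_comm]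
  have hs : ∀ i : ι, (fun k => ((Pi.single i 1 : ι → ℤ) k : F)) = Pi.single i 1 := fun i => by
    funext k; by_cases hk : k = i
    · subst hk; simp
    · simp [hk]
  have h1 : ∀ i j, i ≠ j → M i j = 0 := fun i j hij => by
    have := h' (Pi.single j 1) (Pi.single i 1) (by simp [hij])
    rw [hs, hs] at this
    simpa using this
  have h2 : ∀ i, M i i = M i0 i0 := fun i => by
    by_cases hi : i = i0
    · rw [hi]
    · have := h' (Pi.single i 1 + Pi.single i0 1) (Pi.single i 1 - Pi.single i0 1)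
        (by simp [hi, Ne.symm hi])
      have e1 : (fun k => ((Pi.single i 1 + Pi.single i0 1 : ι → ℤ) k : F)) =
          Pi.single i 1 + Pi.single i0 1 := by
        rw [← hs, ← hs]; funext k; simp
      have e2 : (fun k => ((Pi.single i 1 - Pi.single i0 1 : ι → ℤ) k : F)) =
          Pi.single i 1 - Pi.single i0 1 := by
        rw [← hs, ← hs]; funext k; simp
      rw [e1, e2] at this
      simp [mulVec_add, h1 i i0 hi, h1 i0 i (Ne.symm hi)] at this
      exact add_neg_eq_zero.1 this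
  refine ⟨M i0 i0, ?_⟩
  ext i j
  by_cases hij : i = j
  · subst hij; simp [h2 i]
  · simp [hij, h1 i j hij]

end Pool.Agent.MP_8299d6_al

end
end

section

/-! The local family: characters of the first congruence subgroup of a neighbouring vertex. -/

open Matrix

noncomputable section

namespace Pool.Agent.MP_8299d6_al

variable {Γ : Type} [Group Γ] {a b : ℕ} {R F : Type} [CommRing R] [Field F]

abbrev Mt (a b : ℕ) (R : Type) : Type := Matrix (Ix a b) (Ix a b) R

structure Good (f : Γ →* Matrix.SpecialLinearGroup (Ix a b) R) (π μ : R) (red : R →+* F)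
    (O : Subring R) : Prop where
  ne : π ≠ 0
  ker : ∀ x, red x = 0 ↔ π ∣ x
  pi_mem : π ∈ O
  surj : ∀ t, ∃ c ∈ O, red c = t
  mu : red μ ≠ 0
  tv : ∀ y η : Ix a b → R, (∀ i, y i ∈ O) → (∀ i, η i ∈ O) → η ⬝ᵥ y = 0 →
    ∃ γ, (f γ).1 = 1 + μ • vecMulVec y η

def dv (a b : ℕ) (x y : R) : Ix a b → R := Sum.elim (fun _ => x) (fun _ => y)
def Dm (a b : ℕ) (x y : R) : Mt a b R := diagonal (dv a b x y)

lemma Dm_mul (x y x' y' : R) : Dm a b x y * Dm a b x' y' = Dm a b (x * x') (y * y') := by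
  unfold Dm
  rw [diagonal_mul_diagonal]
  congr 1
  funext i; cases i <;> rfl

lemma Dm_self (x : R) : Dm a b x x = x • (1 : Mt a b R) := by
  unfold Dm
  rw [smul_one_eq_diagonal]
  congr 1
  funext i; cases i <;> rfl

lemma Dm_map (red : R →+* F) (x y : R) : (Dm a b x y).map red = Dm a b (red x) (red y) := by
  unfold Dm
  rw [diagonal_map (map_zero red)]
  congr 1
  funext i; cases i <;> rfl

lemma D_D' (π : R) : Dm a b 1 π * Dm a b π 1 = π • (1 : Mt a b R) := by
  rw [Dm_mul, one_mul, mul_one, Dm_self]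
lemma D'_D (π : R) : Dm a b π 1 * Dm a b 1 π = π • (1 : Mt a b R) := by
  rw [Dm_mul, one_mul, mul_one, Dm_self]

variable [IsDomain R]

lemma smul_cancel {π : R} (h : π ≠ 0) {X Y : Mt a b R} (e : π • X = π • Y) : X = Y := by
  ext i j
  exact mul_left_cancel₀ h (congrFun (congrFun e i) j)

lemma D_cancel {π : R} (h : π ≠ 0) {X Y : Mt a b R} (e : Dm a b 1 π * X = Dm a b 1 π * Y) :
    X = Y := by
  have := congrArg (fun Z => Dm a b π 1 * Z) e
  simp only [← mul_assoc, D'_D, smul_mul_assoc, one_mul] at this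
  exact smul_cancel h this

lemma det_of_conj {π : R} (h : π ≠ 0) {X Y : Mt a b R} (hX : X.det = 1)
    (e : X * Dm a b 1 π = Dm a b 1 π * Y) : Y.det = 1 := by
  have h1 := congrArg det e
  rw [det_mul, det_mul, hX, one_mul] at h1
  have h2 : (Dm a b 1 π).det ≠ 0 := by
    unfold Dm
    rw [det_diagonal]
    refine Finset.prod_ne_zero_iff.2 fun i _ => ?_
    cases i
    · exact one_ne_zero
    · exact h
  exact (mul_left_cancel₀ h2 (h1.symm.trans (mul_one _).symm))

variable (f : Γ →* Matrix.SpecialLinearGroup (Ix a b) R)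

omit [IsDomain R] in
lemma f_mul (x y : Γ) : (f (x * y)).1 = (f x).1 * (f y).1 := by rw [map_mul]; rfl
omit [IsDomain R] in
lemma f_inv_mul (x : Γ) : (f x⁻¹).1 * (f x).1 = 1 := by
  rw [← f_mul, inv_mul_cancel, map_one]; rfl
omit [IsDomain R] in
lemma f_mul_inv (x : Γ) : (f x).1 * (f x⁻¹).1 = 1 := by
  rw [← f_mul, mul_inv_cancel, map_one]; rfl

lemma conj_inv {π : R} (h : π ≠ 0) {x : Γ} {Y : Mt a b R}
    (e : (f x).1 * Dm a b 1 π = Dm a b 1 π * Y) :
    Y * Y.adjugate = 1 ∧ Y.adjugate * Y = 1 ∧ (f x⁻¹).1 * Dm a b 1 π = Dm a b 1 π * Y.adjugate := by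
  have h1 := det_of_conj h (f x).2 e
  have h2 : Y * Y.adjugate = 1 := by rw [mul_adjugate, h1, one_smul]
  refine ⟨h2, by rw [adjugate_mul, h1, one_smul], ?_⟩
  calc (f x⁻¹).1 * Dm a b 1 π = (f x⁻¹).1 * (Dm a b 1 π * Y) * Y.adjugate := by
        rw [mul_assoc, mul_assoc, h2, mul_one]
    _ = _ := by rw [← e, ← mul_assoc, f_inv_mul, one_mul]

/-- congruence subgroup of level `ϖ` of the vertex `D` -/
def Hk {π : R} (h : π ≠ 0) (ϖ : R) : Subgroup Γ where
  carrier := {γ | ∃ φ : Mt a b R, (f γ).1 * Dm a b 1 π = Dm a b 1 π * (1 + ϖ • φ)}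
  one_mem' := ⟨0, by simp⟩
  mul_mem' := by
    rintro x y ⟨φ, hφ⟩ ⟨φ', hφ'⟩
    refine ⟨φ + φ' + ϖ • (φ * φ'), ?_⟩
    rw [f_mul, mul_assoc, hφ', ← mul_assoc, hφ, mul_assoc]
    congr 1
    simp only [mul_add, add_mul, one_mul, mul_one, smul_add, smul_mul_assoc, mul_smul_comm]
    abel
  inv_mem' := by
    rintro x ⟨φ, hφ⟩
    obtain ⟨h1, -, h3⟩ := conj_inv f h hφ
    refine ⟨-(φ * (1 + ϖ • φ).adjugate), ?_⟩
    rw [h3]
    congr 1
    rw [add_mul, one_mul, smul_mul_assoc] at h1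
    rw [smul_neg, ← sub_eq_add_neg]
    exact eq_sub_of_add_eq h1

open Classical in
def phi (π : R) (red : R →+* F) (γ : Γ) : Mt a b F :=
  if h : ∃ φ : Mt a b R, (f γ).1 * Dm a b 1 π = Dm a b 1 π * (1 + π • φ) then h.choose.map red
  else 0

lemma phi_eq {π : R} (h : π ≠ 0) (red : R →+* F) {γ : Γ} {φ : Mt a b R}
    (e : (f γ).1 * Dm a b 1 π = Dm a b 1 π * (1 + π • φ)) : phi f π red γ = φ.map red := by
  have h1 : ∃ φ : Mt a b R, (f γ).1 * Dm a b 1 π = Dm a b 1 π * (1 + π • φ) := ⟨φ, e⟩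
  rw [phi, dif_pos h1]
  have h2 := D_cancel h (h1.choose_spec.symm.trans e)
  rw [smul_cancel h (add_left_cancel h2)]

def chi (π : R) (red : R →+* F) (ψ : AddChar F ℂ) (A : Mt a b F) (γ : Γ) : ℂ :=
  ψ (A * phi f π red γ).trace

variable {f} {π μ : R} {red : R →+* F} {O : Subring R}

omit [IsDomain R] in
lemma Good.red_pi (hG : Good f π μ red O) : red π = 0 := (hG.ker π).2 dvd_rfl

omit [IsDomain R] in
lemma Good.map_pi (hG : Good f π μ red O) (X : Mt a b R) : (π • X).map red = 0 := by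
  ext i j; simp [hG.red_pi]

lemma Good.phi_mul (hG : Good f π μ red O) {x y : Γ} (hx : x ∈ Hk f hG.ne π)
    (hy : y ∈ Hk f hG.ne π) : phi f π red (x * y) = phi f π red x + phi f π red y := by
  obtain ⟨φ, hφ⟩ := hx
  obtain ⟨φ', hφ'⟩ := hy
  have : (f (x * y)).1 * Dm a b 1 π = Dm a b 1 π * (1 + π • (φ + φ' + π • (φ * φ'))) := by
    rw [f_mul, mul_assoc, hφ', ← mul_assoc, hφ, mul_assoc]
    congr 1
    simp only [mul_add, add_mul, one_mul, mul_one, smul_add, smul_mul_assoc, mul_smul_comm]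
    abel
  rw [phi_eq f hG.ne red this, phi_eq f hG.ne red hφ, phi_eq f hG.ne red hφ',
    Matrix.map_add _ (map_add red), Matrix.map_add _ (map_add red), hG.map_pi, add_zero]

lemma Good.N_le (hG : Good f π μ red O) : Hk f hG.ne (π * π) ≤ Hk f hG.ne π := by
  rintro x ⟨φ, hφ⟩
  exact ⟨π • φ, by rw [hφ, smul_smul]⟩

lemma Good.phi_N (hG : Good f π μ red O) {x : Γ} (hx : x ∈ Hk f hG.ne (π * π)) :
    phi f π red x = 0 := by
  obtain ⟨φ, hφ⟩ := hx
  rw [← smul_smul] at hφ
  rw [phi_eq f hG.ne red hφ, hG.map_pi]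

omit [IsDomain R] in
lemma Good.exists_div (hG : Good f π μ red O) {m n : Type} {X : Matrix m n R}
    (h : X.map red = 0) : ∃ Y : Matrix m n R, X = π • Y := by
  have : ∀ i j, ∃ y, X i j = π * y := fun i j => (hG.ker _).1 (congrFun (congrFun h i) j)
  choose Y hY using this
  exact ⟨Matrix.of Y, by ext i j; exact hY i j⟩

lemma Good.mem_N (hG : Good f π μ red O) {x : Γ} (hx : x ∈ Hk f hG.ne π)
    (h0 : phi f π red x = 0) : x ∈ Hk f hG.ne (π * π) := by
  obtain ⟨φ, hφ⟩ := hx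
  rw [phi_eq f hG.ne red hφ] at h0
  obtain ⟨Y, rfl⟩ := hG.exists_div h0
  exact ⟨Y, by rw [hφ, smul_smul]⟩

lemma Good.isChar (hG : Good f π μ red O) (ψ : AddChar F ℂ) (A : Mt a b F) :
    IsChar (Hk f hG.ne π) (Hk f hG.ne (π * π)) (chi f π red ψ A) where
  le := hG.N_le
  mul x hx y hy := by
    unfold chi
    rw [hG.phi_mul hx hy, mul_add, trace_add, AddChar.map_add_eq_mul]
  one x hx := by
    unfold chi
    rw [hG.phi_N hx, mul_zero, trace_zero, AddChar.map_zero_eq_one]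

omit [IsDomain R] in
lemma sq_conj {γ : Γ} {Z : Mt a b R} (e : (f γ).1 = 1 + (π * π) • Z) :
    (f γ).1 * Dm a b 1 π = Dm a b 1 π * (1 + π • (Dm a b π 1 * Z * Dm a b 1 π)) := by
  rw [e, mul_add, add_mul, one_mul, mul_one, mul_smul_comm, ← mul_assoc, ← mul_assoc, D_D',
    smul_mul_assoc, smul_mul_assoc, smul_mul_assoc, one_mul, smul_smul]

omit [IsDomain R] in
lemma conj_form {γ : Γ} (g : Γ) {c : R} {Z : Mt a b R} (e : (f γ).1 = 1 + c • Z) :
    (f (g * γ * g⁻¹)).1 = 1 + c • ((f g).1 * Z * (f g⁻¹).1) := by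
  rw [f_mul, f_mul, e, mul_add, add_mul, mul_one, f_mul_inv, mul_smul_comm, smul_mul_assoc]

/-- upper right block -/
def eb (A : Mt a b F) : Mt a b F := Dm a b 1 0 * A * Dm a b 0 1

lemma Good.chi_sq (hG : Good f π μ red O) (ψ : AddChar F ℂ) (A : Mt a b F) {γ : Γ} {Z : Mt a b R}
    (e : (f γ).1 = 1 + (π * π) • Z) :
    γ ∈ Hk f hG.ne π ∧ chi f π red ψ A γ = ψ (eb A * Z.map red).trace := by
  refine ⟨⟨_, sq_conj e⟩, ?_⟩
  unfold chi eb
  rw [phi_eq f hG.ne red (sq_conj e), Matrix.map_mul, Matrix.map_mul, Dm_map, Dm_map, hG.red_pi,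
    map_one, ← mul_assoc, trace_mul_comm, ← mul_assoc, ← mul_assoc]

lemma Good.cube_mem (hG : Good f π μ red O) {γ : Γ} {Z : Mt a b R}
    (e : (f γ).1 = 1 + (π * π * π) • Z) (g : Γ) : g⁻¹ * γ * g ∈ Hk f hG.ne (π * π) := by
  have h1 := conj_form g⁻¹ e
  rw [inv_inv, ← smul_smul] at h1
  refine ⟨Dm a b π 1 * ((f g⁻¹).1 * Z * (f g).1) * Dm a b 1 π, ?_⟩
  rw [sq_conj h1, mul_smul_comm, smul_mul_assoc, smul_smul]

lemma eb_apply (A : Mt a b F) (i j : Ix a b) : eb A i j = dv a b 1 0 i * A i j * dv a b 0 1 j := by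
  simp [eb, Dm]

lemma eb_sq (A : Mt a b F) : eb A * eb A = 0 := by
  unfold eb
  have : Dm a b (0 : F) 1 * Dm a b 1 0 = 0 := by rw [Dm_mul, zero_mul, mul_zero, Dm_self, zero_smul]
  calc _ = Dm a b 1 0 * A * (Dm a b 0 1 * Dm a b 1 0) * A * Dm a b 0 1 := by simp only [mul_assoc]
    _ = 0 := by rw [this]; simp

lemma prim_eq {ψ : AddChar F ℂ} (hψ : ψ.IsPrimitive) {x y m : F} (hm : m ≠ 0)
    (h : ∀ t, ψ (t * m * x) = ψ (t * m * y)) : x = y := by
  by_contra hne
  refine hψ (mul_ne_zero hm (sub_ne_zero.2 hne)) ?_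
  ext t
  have h1 : ψ (t * m * x + -(t * m * y)) = 1 := by
    rw [AddChar.map_add_eq_mul, h, ← AddChar.map_add_eq_mul, add_neg_cancel,
      AddChar.map_zero_eq_one]
  rw [AddChar.mulShift_apply, AddChar.one_apply, ← h1]
  congr 1; ring

omit [IsDomain R] in
lemma map_vecMulVec_int (red : R →+* F) (y η : Ix a b → ℤ) :
    (vecMulVec (fun i => (y i : R)) (fun i => (η i : R))).map red =
      vecMulVec (fun i => (y i : F)) (fun i => (η i : F)) := by
  ext i j; simp [vecMulVec_apply]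

omit [IsDomain R] in
lemma dot_int (y η : Ix a b → ℤ) (h : η ⬝ᵥ y = 0) :
    (fun i => (η i : R)) ⬝ᵥ (fun i => (y i : R)) = 0 := by
  have := congrArg (Int.cast : ℤ → R) h
  simpa [dotProduct] using this

omit [IsDomain R] in
lemma map_smul_red (red : R →+* F) (c : R) (X : Mt a b R) : (c • X).map red = red c • X.map red := by
  ext i j; simp

/-- an intertwiner stabilises the vertex -/
lemma Good.claim1 (hG : Good f π μ red O) (ha : 0 < a) {ψ : AddChar F ℂ} (hψ : ψ.IsPrimitive)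
    {A A' : Mt a b F} (hA' : A' ∈ Gen a b F) {g : Γ}
    (hg : ∀ h ∈ Hk f hG.ne π, g * h * g⁻¹ ∈ Hk f hG.ne π →
      chi f π red ψ A h = chi f π red ψ A' (g * h * g⁻¹)) :
    ((f g).1.toBlocks₂₁).map red = 0 := by
  set G := (f g).1.map red with hGdef
  set G' := (f g⁻¹).1.map red with hG'def
  have hGG : G * G' = 1 := by
    rw [hGdef, hG'def, ← Matrix.map_mul, f_mul_inv, Matrix.map_one _ (map_zero _) (map_one _)]
  have hGG' : G' * G = 1 := by
    rw [hGdef, hG'def, ← Matrix.map_mul, f_inv_mul, Matrix.map_one _ (map_zero _) (map_one _)]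
  obtain ⟨c, hc⟩ := scalar_of_trace (Sum.inl ⟨0, ha⟩) (G' * eb A' * G - eb A) fun y η hy => by
    rw [sub_mul, trace_sub, sub_eq_zero]
    refine (prim_eq hψ hG.mu fun t => ?_).symm
    obtain ⟨c, hcO, rfl⟩ := hG.surj t
    obtain ⟨γ, hγ⟩ := hG.tv (fun i => (π * π * c) * (y i : R)) (fun i => (η i : R))
      (fun i => mul_mem (mul_mem (mul_mem hG.pi_mem hG.pi_mem) hcO) (intCast_mem O _))
      (fun i => intCast_mem O _) (by
        have := dot_int (R := R) y η hy
        change (fun i => (η i : R)) ⬝ᵥ ((π * π * c) • fun i => (y i : R)) = 0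
        rw [dotProduct_smul, this, smul_zero])
    have e : (f γ).1 = 1 + (π * π) •
        ((c * μ) • vecMulVec (fun i => (y i : R)) (fun i => (η i : R))) := by
      rw [hγ]
      congr 1
      ext i j
      simp only [vecMulVec_apply, Matrix.smul_apply, smul_eq_mul]; ring
    obtain ⟨h1, h2⟩ := hG.chi_sq ψ A e
    obtain ⟨h3, h4⟩ := hG.chi_sq ψ A' (conj_form g e)
    have h5 := hg γ h1 h3
    rw [h2, h4, Matrix.map_mul, Matrix.map_mul, map_smul_red, map_vecMulVec_int, map_mul,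
      ← hGdef, ← hG'def] at h5
    rw [← smul_eq_mul (red c * red μ), ← smul_eq_mul (red c * red μ), ← trace_smul, ← trace_smul,
      ← mul_smul_comm, ← mul_smul_comm, h5, ← mul_assoc, trace_mul_comm]
    simp only [mul_assoc]
  have h1 : G' * eb A' * G = eb A + c • 1 := by rw [← hc]; abel
  have h2 : (eb A + c • 1) * (eb A + c • 1) = 0 := by
    rw [← h1]
    calc _ = G' * eb A' * (G * G') * eb A' * G := by simp only [mul_assoc]
      _ = G' * (eb A' * eb A') * G := by rw [hGG]; simp only [mul_assoc, one_mul]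
      _ = 0 := by rw [eb_sq]; simp
  have h3 : c = 0 := by
    rw [mul_add, add_mul, add_mul, eb_sq] at h2
    have := congrFun (congrFun h2 (Sum.inl ⟨0, ha⟩)) (Sum.inl ⟨0, ha⟩)
    simpa [eb_apply, dv] using this
  rw [h3, zero_smul, add_zero] at h1
  have h4 : eb A' * G = G * eb A := by
    rw [← h1, ← mul_assoc, ← mul_assoc, hGG, one_mul]
  ext k j
  refine Fintype.linearIndependent_iff.1 hA' (fun k => G (Sum.inr k) (Sum.inl j)) ?_ k
  funext i
  have := congrFun (congrFun h4 (Sum.inl i)) (Sum.inl j)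
  simpa [Matrix.mul_apply, eb_apply, dv, mul_comm] using this

omit [IsDomain R] in
lemma exists_conj {X : Mt a b R} {C : Matrix (Fin b) (Fin a) R} (h : X.toBlocks₂₁ = π • C) :
    X * Dm a b 1 π = Dm a b 1 π * fromBlocks X.toBlocks₁₁ (π • X.toBlocks₁₂) C X.toBlocks₂₂ := by
  ext i j
  have h' : ∀ i j, X (Sum.inr i) (Sum.inl j) = π * C i j := fun i j => congrFun (congrFun h i) j
  rcases i with i | i <;> rcases j with j | j <;>
    simp [Dm, dv, toBlocks₁₁, toBlocks₁₂, toBlocks₂₂, h', mul_comm]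

lemma Good.claim2 (hG : Good f π μ red O) (ha : 0 < a) {ψ : AddChar F ℂ} (hψ : ψ.IsPrimitive)
    {A A' : Mt a b F} (hA' : A' ∈ Gen a b F) {g : Γ}
    (hg : ∀ h ∈ Hk f hG.ne π, g * h * g⁻¹ ∈ Hk f hG.ne π →
      chi f π red ψ A h = chi f π red ψ A' (g * h * g⁻¹)) :
    ∃ (K : Par a b F) (c : F), A = K.1.1.adjugate * A' * K.1.1 - c • 1 := by
  obtain ⟨C, hC⟩ := hG.exists_div (hG.claim1 ha hψ hA' hg)
  have e := exists_conj hC
  set Y := fromBlocks (f g).1.toBlocks₁₁ (π • (f g).1.toBlocks₁₂) C (f g).1.toBlocks₂₂ with hY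
  have hdet := det_of_conj hG.ne (f g).2 e
  obtain ⟨y1, y2, y3⟩ := conj_inv f hG.ne e
  have hdet' : (Y.map red).det = 1 := by
    rw [← RingHom.mapMatrix_apply, ← RingHom.map_det, hdet, map_one]
  have hadj : (Y.map red).adjugate = Y.adjugate.map red := by
    rw [← RingHom.mapMatrix_apply, ← RingHom.mapMatrix_apply, RingHom.map_adjugate]
  have hblk : (Y.map red).toBlocks₁₂ = 0 := by
    ext i j
    simp [hY, toBlocks₁₂, hG.red_pi]
  obtain ⟨c, hc⟩ := scalar_of_trace (Sum.inl ⟨0, ha⟩)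
    ((Y.map red).adjugate * A' * Y.map red - A) fun u ξ hu => by
    rw [sub_mul, trace_sub, sub_eq_zero]
    refine (prim_eq hψ hG.mu fun t => ?_).symm
    obtain ⟨c, hcO, rfl⟩ := hG.surj t
    have hdv : ∀ (x y : R), x ∈ O → y ∈ O → ∀ i, dv a b x y i ∈ O := fun x y hx hy i => by
      cases i
      · exact hx
      · exact hy
    obtain ⟨γ, hγ⟩ := hG.tv (fun i => dv a b 1 π i * (c * (u i : R)))
      (fun i => dv a b π 1 i * (ξ i : R))
      (fun i => mul_mem (hdv _ _ (one_mem _) hG.pi_mem i) (mul_mem hcO (intCast_mem O _)))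
      (fun i => mul_mem (hdv _ _ hG.pi_mem (one_mem _) i) (intCast_mem O _)) (by
        have := dot_int (R := R) u ξ hu
        have h2 : (π * c) * ((fun i => (ξ i : R)) ⬝ᵥ (fun i => (u i : R))) = 0 := by
          rw [this, mul_zero]
        rw [← h2, dotProduct, dotProduct, Finset.mul_sum]
        refine Finset.sum_congr rfl fun i _ => ?_
        cases i <;> simp [dv] <;> ring)
    set φ := (c * μ) • vecMulVec (fun i => (u i : R)) (fun i => (ξ i : R)) with hφ
    have e1 : (f γ).1 * Dm a b 1 π = Dm a b 1 π * (1 + π • φ) := by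
      rw [hγ, add_mul, mul_add, one_mul, mul_one]
      congr 1
      ext i j
      rcases i with i | i <;> rcases j with j | j <;>
        simp [hφ, Dm, dv, vecMulVec_apply] <;> ring
    have e2 : (f (g * γ * g⁻¹)).1 * Dm a b 1 π =
        Dm a b 1 π * (1 + π • (Y * φ * Y.adjugate)) := by
      rw [f_mul, f_mul, mul_assoc, y3, ← mul_assoc, mul_assoc (f g).1, e1, ← mul_assoc, e,
        mul_assoc, mul_assoc, add_mul, one_mul, mul_add, y1, smul_mul_assoc, mul_smul_comm,
        mul_assoc]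
    have h5 := hg γ ⟨_, e1⟩ ⟨_, e2⟩
    unfold chi at h5
    rw [phi_eq f hG.ne red e1, phi_eq f hG.ne red e2, Matrix.map_mul, Matrix.map_mul, hφ,
      map_smul_red, map_vecMulVec_int, map_mul, ← hadj] at h5
    rw [← smul_eq_mul (red c * red μ), ← smul_eq_mul (red c * red μ), ← trace_smul, ← trace_smul,
      ← mul_smul_comm, ← mul_smul_comm, h5, ← mul_assoc, trace_mul_comm]
    simp only [mul_assoc]
  exact ⟨⟨⟨Y.map red, hdet'⟩, hblk⟩, c, by rw [← hc]; simp⟩

end Pool.Agent.MP_8299d6_al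

end
end

section

/-! Index bounds and the local family of irreducible representations. -/

open Matrix

noncomputable section

namespace Pool.Agent.MP_8299d6_al

variable {Γ : Type} [Group Γ] {a b : ℕ} {R F : Type} [CommRing R] [Field F]
  {f : Γ →* Matrix.SpecialLinearGroup (Ix a b) R} {π μ : R} {red : R →+* F} {O : Subring R}

lemma blk21_mul (X Y : Mt a b R) :
    (X * Y).toBlocks₂₁ = X.toBlocks₂₁ * Y.toBlocks₁₁ + X.toBlocks₂₂ * Y.toBlocks₂₁ := by
  conv_lhs => rw [← fromBlocks_toBlocks X, ← fromBlocks_toBlocks Y, fromBlocks_multiply,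
    toBlocks_fromBlocks₂₁]

/-- reduction to the residue field -/
def fb (f : Γ →* Matrix.SpecialLinearGroup (Ix a b) R) (red : R →+* F) :
    Γ →* Matrix.SpecialLinearGroup (Ix a b) F := (Matrix.SpecialLinearGroup.map red).comp f

lemma memU {h : Γ} (hh : fb f red h ∈ Uni a b F) :
    (f h).1.toBlocks₁₁.map red = 1 ∧ (f h).1.toBlocks₂₁.map red = 0 ∧
      (f h).1.toBlocks₂₂.map red = 1 := by
  obtain ⟨B, hB⟩ := hh
  have hB' : (f h).1.map red = fromBlocks 1 B 0 1 := hB
  rw [← fromBlocks_toBlocks (f h).1, fromBlocks_map, fromBlocks_inj] at hB'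
  exact ⟨hB'.1, hB'.2.2.1, hB'.2.2.2⟩

open Classical in
def theta (f : Γ →* Matrix.SpecialLinearGroup (Ix a b) R) (π : R) (red : R →+* F) (h : Γ) :
    Matrix (Fin b) (Fin a) F :=
  if e : ∃ C : Matrix (Fin b) (Fin a) R, (f h).1.toBlocks₂₁ = π • C then e.choose.map red else 0

variable [IsDomain R]

lemma smul_cancel' {m n : Type} (h : π ≠ 0) {X Y : Matrix m n R} (e : π • X = π • Y) : X = Y := by
  ext i j
  exact mul_left_cancel₀ h (congrFun (congrFun e i) j)

lemma theta_eq (h0 : π ≠ 0) {h : Γ} {C : Matrix (Fin b) (Fin a) R}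
    (e : (f h).1.toBlocks₂₁ = π • C) : theta f π red h = C.map red := by
  have h1 : ∃ C : Matrix (Fin b) (Fin a) R, (f h).1.toBlocks₂₁ = π • C := ⟨C, e⟩
  rw [theta, dif_pos h1, smul_cancel' h0 (h1.choose_spec.symm.trans e)]

lemma Good.mem_H (hG : Good f π μ red O) {h h' : Γ} (hh : fb f red h ∈ Uni a b F)
    (hh' : fb f red h' ∈ Uni a b F) (e : theta f π red h = theta f π red h') :
    h⁻¹ * h' ∈ Hk f hG.ne π := by
  have hk : fb f red (h⁻¹ * h') ∈ Uni a b F := by
    rw [map_mul, map_inv]; exact mul_mem (inv_mem hh) hh'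
  set k := h⁻¹ * h' with hkdef
  have hk' : h' = h * k := by rw [hkdef, mul_inv_cancel_left]
  obtain ⟨-, a2, a3⟩ := memU hh
  obtain ⟨-, b2, -⟩ := memU hh'
  obtain ⟨c1, c2, c3⟩ := memU hk
  obtain ⟨C, hC⟩ := hG.exists_div a2
  obtain ⟨C', hC'⟩ := hG.exists_div b2
  obtain ⟨E, hE⟩ := hG.exists_div c2
  rw [theta_eq hG.ne hC, theta_eq hG.ne hC'] at e
  have h1 : C' = C * (f k).1.toBlocks₁₁ + (f h).1.toBlocks₂₂ * E := by
    refine smul_cancel' hG.ne ?_
    rw [← hC', hk', f_mul, blk21_mul, hC, hE, smul_add, Matrix.smul_mul, Matrix.mul_smul]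
  have h2 : E.map red = 0 := by
    have := congrArg (fun X => Matrix.map X red) h1
    simp only [Matrix.map_add _ (map_add red), Matrix.map_mul, c1, a3, Matrix.mul_one,
      Matrix.one_mul, ← e] at this
    exact left_eq_add.1 this
  obtain ⟨E', rfl⟩ := hG.exists_div h2
  obtain ⟨P, hP⟩ := hG.exists_div (X := (f k).1.toBlocks₁₁ - 1) (by
    rw [Matrix.map_sub _ (map_sub red), c1, Matrix.map_one _ (map_zero _) (map_one _), sub_self])
  obtain ⟨Q, hQ⟩ := hG.exists_div (X := (f k).1.toBlocks₂₂ - 1) (by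
    rw [Matrix.map_sub _ (map_sub red), c3, Matrix.map_one _ (map_zero _) (map_one _), sub_self])
  refine ⟨fromBlocks P (f k).1.toBlocks₁₂ E' Q, ?_⟩
  rw [exists_conj hE, fromBlocks_smul, ← fromBlocks_one, fromBlocks_add, ← hP, ← hQ]
  simp

variable [Fintype F]

lemma Good.index_H (hG : Good f π μ red O) (ha : 0 < a) :
    Finite (Γ ⧸ Hk f hG.ne π) ∧
      (Hk f hG.ne π).index * Fintype.card F ≤ 2 * Fintype.card F ^ ((a + b) ^ 2) := by
  classical
  let q : Γ → Matrix.SpecialLinearGroup (Ix a b) F ⧸ Uni a b F :=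
    fun g => QuotientGroup.mk (fb f red g)
  let sec : Γ → Γ := fun g => Function.invFun q (q g)
  have hsec : ∀ g, fb f red ((sec g)⁻¹ * g) ∈ Uni a b F := fun g => by
    rw [map_mul, map_inv]
    exact QuotientGroup.eq.1 (Function.invFun_eq (f := q) ⟨g, rfl⟩)
  obtain ⟨h1, h2⟩ := index_le_of_fun (Hk f hG.ne π)
    (fun g => (q g, theta f π red ((sec g)⁻¹ * g))) fun g g' e => by
      obtain ⟨e1, e2⟩ := Prod.mk.inj e
      have e3 : sec g = sec g' := by simp only [sec, e1]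
      have := hG.mem_H (hsec g) (hsec g') e2
      rw [e3] at this
      simpa [mul_assoc] using this
  refine ⟨h1, le_trans ?_ (index_Uni (b := b) (F := F) ha)⟩
  rw [Nat.card_prod, card_mat] at h2
  simp only [Fintype.card_fin] at h2
  gcongr
  exact h2

lemma Good.finiteIndex_N (hG : Good f π μ red O) (ha : 0 < a) :
    (Hk f hG.ne (π * π)).FiniteIndex := by
  classical
  have h1 := (hG.index_H ha).1
  let H := Hk f hG.ne π
  have hm : ∀ g : Γ, (QuotientGroup.mk g : Γ ⧸ H).out⁻¹ * g ∈ H := fun g =>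
    QuotientGroup.eq.1 (QuotientGroup.out_eq' _)
  obtain ⟨h2, -⟩ := index_le_of_fun (Hk f hG.ne (π * π))
    (fun g => ((QuotientGroup.mk g : Γ ⧸ H),
      phi f π red ((QuotientGroup.mk g : Γ ⧸ H).out⁻¹ * g))) fun g g' e => by
      obtain ⟨e1, e2⟩ := Prod.mk.inj e
      have a1 := hm g
      have a2 := hm g'
      rw [e1] at a1 e2
      have a3 : g⁻¹ * g' ∈ H := QuotientGroup.eq.1 e1
      refine hG.mem_N a3 ?_
      have := hG.phi_mul a1 a3
      rw [mul_assoc, mul_inv_cancel_left, ← e2] at this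
      exact left_eq_add.1 this
  exact Subgroup.finiteIndex_of_finite_quotient

theorem Good.local_main (hG : Good f π μ red O) (hb : 0 < b) (hab : b ≤ a) :
    ∃ (n : Gen a b F → ℕ) (ρ : ∀ A, IrrRep Γ (n A + 1)),
      (∀ A, (n A + 1) * Fintype.card F ≤ 2 * Fintype.card F ^ ((a + b) ^ 2)) ∧
      (∀ A, Set.encard {A' | Nonempty ((ρ A').1.Equiv (ρ A).1)} ≤
        (2 * Fintype.card F ^ (a * a + a * b + b * b) : ℕ)) ∧
      (∀ A γ, (∃ Z : Mt a b R, (f γ).1 = 1 + (π * π * π) • Z) → (ρ A).1 γ = 1) ∧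
      (∀ A, ∃ i j, ∃ c ∈ O, ∀ γ, (f γ).1 = 1 + (μ * c) • single (Sum.inr j) (Sum.inl i) 1 →
        (ρ A).1 γ ≠ 1) := by
  classical
  have ha : 0 < a := by omega
  have hN := hG.finiteIndex_N ha
  let ψ := AddChar.FiniteField.primitiveChar_to_Complex F
  have hψ : ψ.IsPrimitive := AddChar.FiniteField.primitiveChar_to_Complex_isPrimitive F
  choose n hn ρ v hv he using fun A : Gen a b F => exists_irr (hG.isChar ψ A.1)
  refine ⟨n, ρ, fun A => le_trans (Nat.mul_le_mul_right _ (hn A)) (hG.index_H ha).2,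
    fun A => ?_, fun A γ ⟨Z, hZ⟩ => ?_, fun A => ?_⟩
  · let t : Par a b F × F → Mt a b F := fun x => x.1.1.1.adjugate * A.1 * x.1.1.1 - x.2 • 1
    have h1 : Subtype.val '' {A' | Nonempty ((ρ A').1.Equiv (ρ A).1)} ⊆ t '' Set.univ := by
      rintro _ ⟨A', ⟨e⟩, rfl⟩
      obtain ⟨g, hg⟩ := intertwine (χ := chi f π red ψ A'.1) (ρ A).2 (hG.isChar ψ A.1)
        (v := e (v A')) (fun e0 => hv A' (e.toLinearEquiv.map_eq_zero_iff.1 e0)) (hv A)
        (fun h hh => by
          rw [← equiv_apply e, he A' h hh]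
          exact map_smul e.toLinearEquiv _ _) (he A)
      obtain ⟨K, c, hK⟩ := hG.claim2 ha hψ A.2 hg
      exact ⟨(K, c), trivial, hK.symm⟩
    rw [← Subtype.val_injective.encard_image]
    refine (Set.encard_le_encard h1).trans ((Set.encard_image_le _ _).trans ?_)
    rw [Set.encard_univ, ENat.card_eq_coe_natCard, Nat.card_prod, Nat.card_eq_fintype_card (α := F)]
    exact_mod_cast card_Par ha
  · refine fix_of_conj (ρ A).2 (hv A) fun g => ?_
    have h1 := hG.cube_mem hZ g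
    rw [he A _ (hG.N_le h1), (hG.isChar ψ A.1).one _ h1, one_smul]
  · obtain ⟨i, hi⟩ : ∃ i, A.1 (Sum.inl i) (Sum.inr ⟨0, hb⟩) ≠ 0 := by
      by_contra hcon
      push Not at hcon
      exact A.2.ne_zero ⟨0, hb⟩ (funext hcon)
    obtain ⟨t, ht⟩ : ∃ t, ψ (t * red μ * A.1 (Sum.inl i) (Sum.inr ⟨0, hb⟩)) ≠ ψ (t * red μ * 0) := by
      by_contra hcon
      push Not at hcon
      exact hi (prim_eq hψ hG.mu hcon)
    obtain ⟨c, hc, rfl⟩ := hG.surj t
    refine ⟨i, ⟨0, hb⟩, π * π * c, mul_mem (mul_mem hG.pi_mem hG.pi_mem) hc, fun γ hγ h1 => ht ?_⟩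
    have e : (f γ).1 = 1 + (π * π) •
        ((c * μ) • single (Sum.inr ⟨0, hb⟩) (Sum.inl i) 1 : Mt a b R) := by
      rw [hγ, smul_smul]; congr 2; ring
    obtain ⟨h2, h3⟩ := hG.chi_sq ψ A.1 e
    have h4 := he A γ h2
    rw [h1, Module.End.one_apply] at h4
    have h5 : chi f π red ψ A.1 γ = 1 :=
      smul_left_injective ℂ (hv A) (h4.symm.trans (one_smul ℂ _).symm)
    rw [mul_zero, AddChar.map_zero_eq_one, ← h5, h3, map_smul_red, map_mul red, mul_smul_comm,
      trace_smul, smul_eq_mul, Matrix.map_single _ _ _ red, map_one, trace_mul_single]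
    simp [eb_apply, dv]

end Pool.Agent.MP_8299d6_al

end
end

section

/-! The family attached to one prime of a Dedekind domain; primes of degree one. -/

open Matrix

noncomputable section

namespace Pool.Agent.MP_8299d6_al

variable {Γ : Type} [Group Γ] {a b : ℕ} {A k : Type} [CommRing A] [Field k] [Algebra A k]

structure Glob (j : Γ →* Matrix.SpecialLinearGroup (Ix a b) k) (M μ : A) : Prop where
  inj : Function.Injective j
  int : ∀ γ i l, ∃ x : A, algebraMap A k x = algebraMap A k M * (j γ).1 i l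
  tv : ∀ y η : Ix a b → A, η ⬝ᵥ y = 0 →
    ∃ γ, (j γ).1 = 1 + algebraMap A k μ • (vecMulVec y η).map (algebraMap A k)

/-- a homomorphism to `SL` whose values have entries in a subring -/
def toSub (j : Γ →* Matrix.SpecialLinearGroup (Ix a b) k) (R : Subalgebra A k)
    (h : ∀ γ i l, (j γ).1 i l ∈ R) : Γ →* Matrix.SpecialLinearGroup (Ix a b) R where
  toFun γ := ⟨Matrix.of fun i l => ⟨(j γ).1 i l, h γ i l⟩, by
    apply Subtype.val_injective
    have := RingHom.map_det (R.val : R →+* k) (Matrix.of fun i l => (⟨(j γ).1 i l, h γ i l⟩ : R))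
    exact this.trans (j γ).2⟩
  map_one' := by
    refine Subtype.ext (Matrix.ext fun i l => Subtype.ext ?_)
    change (j 1).1 i l = (((1 : Mt a b R) i l : R) : k)
    rw [map_one]
    by_cases e : i = l
    · subst e; simp
    · simp [e]
  map_mul' x y := by
    refine Subtype.ext (Matrix.ext fun i l => Subtype.ext ?_)
    change (j (x * y)).1 i l = ((R.val : R →+* k) (∑ m, _))
    rw [f_mul, Matrix.mul_apply, map_sum]
    rfl

lemma toSub_eq {j : Γ →* Matrix.SpecialLinearGroup (Ix a b) k} {R : Subalgebra A k}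
    {h : ∀ γ i l, (j γ).1 i l ∈ R} {γ : Γ} {X : Mt a b R}
    (e : (j γ).1 = X.map (R.val : R →+* k)) : (toSub j R h γ).1 = X :=
  Matrix.ext fun i l => Subtype.ext (congrFun (congrFun e i) l)

lemma toSub_map (j : Γ →* Matrix.SpecialLinearGroup (Ix a b) k) (R : Subalgebra A k)
    (h : ∀ γ i l, (j γ).1 i l ∈ R) (γ : Γ) :
    (toSub j R h γ).1.map (R.val : R →+* k) = (j γ).1 := rfl

lemma map_one_add {R S : Type} [CommRing R] [CommRing S] (φ : R →+* S) (c : R) (X : Mt a b R) :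
    (1 + c • X).map φ = 1 + φ c • X.map φ := by
  ext i l
  by_cases e : i = l
  · subst e; simp
  · simp [e]

attribute [local instance] Ideal.Quotient.field

theorem prime_family [IsDedekindDomain A] [IsFractionRing A k]
    {j : Γ →* Matrix.SpecialLinearGroup (Ix a b) k} {M μ : A}
    (hj : Glob j M μ) (P : Ideal A) [P.IsMaximal] (hP0 : P ≠ ⊥) [Finite (A ⧸ P)] (hM : M ∉ P)
    (hμ : μ ∉ P) (hb : 0 < b) (hab : b ≤ a) :
    ∃ (S : Type) (_ : Finite S) (n : S → ℕ) (ρ : ∀ s, IrrRep Γ (n s + 1)),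
      Nat.card (A ⧸ P) ^ ((a + b) ^ 2) ≤ 2 ^ b * Nat.card S ∧
      (∀ s, (n s + 1) * Nat.card (A ⧸ P) ≤ 2 * Nat.card (A ⧸ P) ^ ((a + b) ^ 2)) ∧
      (∀ s, Set.encard {s' | Nonempty ((ρ s').1.Equiv (ρ s).1)} ≤
        (2 * Nat.card (A ⧸ P) ^ (a * a + a * b + b * b) : ℕ)) ∧
      (∀ s γ, ∀ x ∈ P ^ 3, ∀ Z : Mt a b A,
        (j γ).1 = 1 + algebraMap A k x • Z.map (algebraMap A k) → (ρ s).1 γ = 1) ∧
      (∀ s, ∃ i l, ∃ c : A, ∀ γ,
        (j γ).1 = 1 + algebraMap A k (μ * c) • single (Sum.inr l) (Sum.inl i) 1 →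
          (ρ s).1 γ ≠ 1) := by
  classical
  have : Fintype (A ⧸ P) := Fintype.ofFinite _
  have hS : P.primeCompl ≤ nonZeroDivisors A := P.primeCompl_le_nonZeroDivisors
  let R : Subalgebra A k := Localization.subalgebra.ofField k P.primeCompl hS
  have : IsLocalization.AtPrime R P := Localization.subalgebra.isLocalization_ofField k _ hS
  have : IsDiscreteValuationRing R :=
    IsLocalization.AtPrime.isDiscreteValuationRing_of_dedekind_domain A hP0 R
  have hM0 : algebraMap A k M ≠ 0 := fun e =>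
    hM (by rw [(IsFractionRing.injective A k) (e.trans (map_zero _).symm)]; exact P.zero_mem)
  have hint : ∀ γ i l, (j γ).1 i l ∈ R := fun γ i l => by
    obtain ⟨x, hx⟩ := hj.int γ i l
    exact ⟨x, M, hM, by rw [hx]; field_simp⟩
  let f := toSub j R hint
  let red : R →+* A ⧸ P := (IsLocalization.AtPrime.equivQuotMaximalIdeal P R).symm.toRingHom.comp
    (Ideal.Quotient.mk _)
  have hred : ∀ x : A, red (algebraMap A R x) = Ideal.Quotient.mk P x := fun x =>
    (IsLocalization.AtPrime.equivQuotMaximalIdeal P R).symm_apply_eq.2 rfl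
  have hker : ∀ x : R, red x = 0 ↔ x ∈ IsLocalRing.maximalIdeal R := fun x => by
    rw [← Ideal.Quotient.eq_zero_iff_mem]
    exact map_eq_zero_iff _ (IsLocalization.AtPrime.equivQuotMaximalIdeal P R).symm.injective
  obtain ⟨ϖ, hϖ⟩ := IsDiscreteValuationRing.exists_irreducible R
  obtain ⟨⟨p0, s0⟩, hp0⟩ := IsLocalization.surj P.primeCompl ϖ
  have hirr : Irreducible (algebraMap A R p0) := by
    rw [← hp0]
    exact (irreducible_mul_isUnit (IsLocalization.map_units R s0)).2 hϖ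
  have hmax := (IsDiscreteValuationRing.irreducible_iff_uniformizer _).1 hirr
  set π := algebraMap A R p0 with hπ
  have hker' : ∀ x : R, red x = 0 ↔ π ∣ x := fun x => by
    rw [hker, hmax, Ideal.mem_span_singleton]
  have hval : ∀ x : A, (R.val : R →+* k) (algebraMap A R x) = algebraMap A k x := fun x => rfl
  have hG : Good f π (algebraMap A R μ) red (algebraMap A R).range := by
    refine ⟨hirr.ne_zero, hker', ⟨p0, rfl⟩, fun t => ?_, ?_, fun y η hy hη h0 => ?_⟩
    · obtain ⟨c, rfl⟩ := Ideal.Quotient.mk_surjective t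
      exact ⟨_, ⟨c, rfl⟩, hred c⟩
    · rw [hred]; exact fun e => hμ (Ideal.Quotient.eq_zero_iff_mem.1 e)
    · choose y' hy' using hy
      choose η' hη' using hη
      obtain ⟨γ, hγ⟩ := hj.tv y' η' (by
        apply IsFractionRing.injective A k
        have := congrArg (R.val : R →+* k) h0
        simp only [dotProduct, map_sum, map_mul, ← hy', ← hη', hval, map_zero] at this ⊢
        exact this)
      refine ⟨γ, toSub_eq ?_⟩
      rw [hγ, map_one_add, hval]
      congr 2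
      ext i l
      simp only [map_apply, vecMulVec_apply, map_mul, ← hy', ← hη', hval]
  obtain ⟨n, ρ, h1, h2, h3, h4⟩ := hG.local_main hb hab
  rw [Nat.card_eq_fintype_card]
  refine ⟨Gen a b (A ⧸ P), inferInstance, n, ρ, card_Gen hab, h1, h2,
    fun s γ x hx Z hZ => h3 s γ ?_, fun s => ?_⟩
  · have e1 : P.map (algebraMap A R) ≤ Ideal.span {π} := by
      rw [Ideal.map_le_iff_le_comap]
      intro z hz
      rw [Ideal.mem_comap, Ideal.mem_span_singleton, ← hker', hred]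
      exact Ideal.Quotient.eq_zero_iff_mem.2 hz
    have e2 : algebraMap A R x ∈ Ideal.span {π} ^ 3 := by
      refine Ideal.pow_right_mono e1 3 ?_
      rw [← Ideal.map_pow]
      exact Ideal.mem_map_of_mem _ hx
    rw [Ideal.span_singleton_pow, Ideal.mem_span_singleton] at e2
    obtain ⟨w, hw⟩ := e2
    refine ⟨w • Z.map (algebraMap A R), toSub_eq ?_⟩
    rw [smul_smul, show π * π * π * w = algebraMap A R x by rw [hw]; ring, map_one_add, hZ, hval,
      Matrix.map_map]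
    rfl
  · obtain ⟨i, l, _, ⟨c, rfl⟩, hc⟩ := h4 s
    refine ⟨i, l, c, fun γ hγ => hc γ (toSub_eq ?_)⟩
    rw [hγ, map_one_add, ← map_mul (algebraMap A R), hval, Matrix.map_single _ _ _ (R.val : R →+* k),
      map_one]

open NumberField Ideal Filter Topology in
lemma not_summable_primes (k : Type) [Field k] [NumberField k] {x : 𝓞 k} (hx : x ≠ 0) :
    ¬ Summable fun P : {P : Ideal (𝓞 k) // (absNorm P).Prime ∧ x ∉ P} => (absNorm P.1 : ℝ)⁻¹ := by
  classical
  intro h
  have h1 : Summable (Set.indicator {P : Ideal (𝓞 k) | (absNorm P).Prime ∧ x ∉ P}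
      fun P => (absNorm P : ℝ)⁻¹) := summable_subtype_iff_indicator.1 h
  have hfin : {P : Ideal (𝓞 k) | x ∈ P}.Finite := by
    refine (finite_setOfPred_absNorm_le (absNorm (span {x}))).subset fun P hP => ?_
    refine Nat.le_of_dvd (Nat.pos_of_ne_zero ?_)
      (absNorm_dvd_absNorm_of_le ((span_singleton_le_iff_mem _).2 hP))
    rw [Ne, absNorm_eq_zero_iff, span_singleton_eq_bot]
    exact hx
  have h2 : Summable (Set.indicator {P : Ideal (𝓞 k) | x ∈ P} fun P => (absNorm P : ℝ)⁻¹) :=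
    summable_subtype_iff_indicator.1 (hfin.summable _)
  set B := ∑' P, (Set.indicator {P : Ideal (𝓞 k) | (absNorm P).Prime ∧ x ∉ P}
      (fun P => (absNorm P : ℝ)⁻¹) P +
    Set.indicator {P : Ideal (𝓞 k) | x ∈ P} (fun P => (absNorm P : ℝ)⁻¹) P) with hB
  have h3 : ∀ s : ℝ, 1 < s → MP_d64882_nt.D k s ≤ B := fun s hs => by
    refine hasSum_le (fun P => ?_) (MP_d64882_nt.hasSum_D k s hs) (h1.add h2).hasSum
    have h0 : (0 : ℝ) ≤ (absNorm P : ℝ)⁻¹ := by positivity
    split_ifs with hp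
    · have h4 : MP_d64882_nt.w k s P ≤ (absNorm P : ℝ)⁻¹ := by
        rw [← Real.rpow_neg_one]
        exact Real.rpow_le_rpow_of_exponent_le (by exact_mod_cast hp.one_le) (by linarith)
      by_cases hxP : x ∈ P
      · simp [Set.indicator, hxP, h4]
      · simp [Set.indicator, hxP, hp, h4]
    · exact add_nonneg (Set.indicator_nonneg (fun _ _ => by positivity) _)
        (Set.indicator_nonneg (fun _ _ => by positivity) _)
  obtain ⟨C, hC⟩ := (MP_d64882_nt.D_asymp k).bound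
  have h5 : Tendsto (fun s : ℝ => Real.log (s - 1)) (𝓝[>] 1) atBot := by
    refine Real.tendsto_log_nhdsGT_zero.comp ?_
    refine tendsto_nhdsWithin_iff.2 ⟨?_, ?_⟩
    · have : Tendsto (fun s : ℝ => s - 1) (𝓝 1) (𝓝 (1 - 1)) := tendsto_id.sub_const 1
      rw [sub_self] at this
      exact this.mono_left nhdsWithin_le_nhds
    · filter_upwards [self_mem_nhdsWithin] with s hs
      exact sub_pos.2 (Set.mem_Ioi.1 hs)
  obtain ⟨s, ⟨hs1, hs2⟩, hs3⟩ := ((hC.and (h5.eventually_lt_atBot (-C - B))).and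
    (self_mem_nhdsWithin (a := (1 : ℝ)) (s := Set.Ioi 1))).exists
  have h6 := h3 s hs3
  rw [Real.norm_eq_abs, norm_one, mul_one, abs_le] at hs1
  linarith [hs1.1]

end Pool.Agent.MP_8299d6_al

end
end

section

/-! Divergence of the representation zeta function. -/

open Matrix NumberField
open scoped ENNReal NNReal

noncomputable section

namespace Pool.Agent.MP_8299d6_al

variable {Γ : Type} [Group Γ] {a b : ℕ} {k : Type} [Field k] [NumberField k]

lemma term_ge {q S : ℕ} (hq : 1 ≤ q) (hb : 0 < b) (hab : b ≤ a)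
    (hS : q ^ ((a + b) ^ 2) ≤ 2 ^ b * S) :
    ((2 : ℝ) ^ b * 2 * 2 ^ (((a * b : ℕ) + 1 : ℝ) / (((a + b : ℕ) : ℝ) ^ 2 - 1)))⁻¹ * (q : ℝ)⁻¹ ≤
      S * (((2 * q ^ (a * a + a * b + b * b) : ℕ) : ℝ)⁻¹ *
        ((2 * q ^ ((a + b) ^ 2 - 1) : ℕ) : ℝ) ^
          (-(((a * b : ℕ) + 1 : ℝ) / (((a + b : ℕ) : ℝ) ^ 2 - 1)))) := by
  set s : ℝ := ((a * b : ℕ) + 1 : ℝ) / (((a + b : ℕ) : ℝ) ^ 2 - 1) with hs
  have h2 : 2 ≤ a + b := by omega
  have h4 : 4 ≤ (a + b) ^ 2 := by nlinarith
  have hD : ((((a + b) ^ 2 - 1 : ℕ)) : ℝ) = ((a + b : ℕ) : ℝ) ^ 2 - 1 := by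
    rw [Nat.cast_sub (by omega)]; push_cast; ring
  have hD0 : (((a + b : ℕ) : ℝ) ^ 2 - 1) ≠ 0 := by
    rw [← hD]; exact Nat.cast_ne_zero.2 (by omega)
  have hq0 : (0 : ℝ) < q := by exact_mod_cast hq
  have e1 : ((2 * q ^ ((a + b) ^ 2 - 1) : ℕ) : ℝ) ^ (-s) = ((2 : ℝ) ^ s * q ^ (a * b + 1))⁻¹ := by
    rw [Real.rpow_neg (by positivity), Nat.cast_mul, Nat.cast_pow,
      Real.mul_rpow (by positivity) (by positivity), ← Real.rpow_natCast (q : ℝ),
      ← Real.rpow_mul hq0.le, hD, hs, mul_div_cancel₀ _ hD0, ← Real.rpow_natCast (q : ℝ)]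
    push_cast; rfl
  have hS' : (q : ℝ) ^ ((a + b) ^ 2) ≤ 2 ^ b * S := by exact_mod_cast hS
  have e2 : (q : ℝ) ^ ((a + b) ^ 2) * q = q ^ (a * a + a * b + b * b) * q ^ (a * b + 1) := by
    rw [← pow_succ, ← pow_add]; congr 1; ring
  have h2s : (0 : ℝ) < 2 ^ s := by positivity
  rw [e1]
  push_cast
  rw [← mul_inv, ← mul_inv, ← div_eq_mul_inv, inv_eq_one_div, div_le_div_iff₀ (by positivity)
    (by positivity)]
  calc _ = 2 * 2 ^ s * ((q : ℝ) ^ ((a + b) ^ 2) * q) := by rw [e2]; ring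
    _ ≤ 2 * 2 ^ s * ((2 ^ b * S) * q) := by gcongr
    _ = _ := by ring

theorem zeta_top {j : Γ →* Matrix.SpecialLinearGroup (Ix a b) k} {M μ : 𝓞 k} (hj : Glob j M μ)
    (hM : M ≠ 0) (hμ : μ ≠ 0) (hb : 0 < b) (hab : b ≤ a) :
    repZeta Γ (((a * b : ℕ) + 1 : ℝ) / (((a + b : ℕ) : ℝ) ^ 2 - 1)) = ⊤ := by
  classical
  set s : ℝ := ((a * b : ℕ) + 1 : ℝ) / (((a + b : ℕ) : ℝ) ^ 2 - 1) with hs
  have hs0 : 0 ≤ s := by
    refine div_nonneg (by positivity) ?_
    have : (2 : ℝ) ≤ ((a + b : ℕ) : ℝ) := by exact_mod_cast (by omega : 2 ≤ a + b)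
    nlinarith
  let T := {P : Ideal (𝓞 k) // (Ideal.absNorm P).Prime ∧ M * μ ∉ P}
  have hne : ∀ P : T, P.1 ≠ ⊥ := fun P e => by
    have := P.2.1
    rw [e, Ideal.absNorm_bot] at this
    exact Nat.not_prime_zero this
  have hmax : ∀ P : T, P.1.IsMaximal := fun P =>
    Ring.DimensionLEOne.maximalOfPrime (hne P) (Ideal.isPrime_of_irreducible_absNorm P.2.1)
  have hfam := fun P : T =>
    haveI := hmax P
    haveI : Finite (𝓞 k ⧸ P.1) := Ideal.finiteQuotientOfFreeOfNeBot _ (hne P)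
    prime_family hj P.1 (hne P) (fun h => P.2.2 (P.1.mul_mem_right _ h))
      (fun h => P.2.2 (P.1.mul_mem_left _ h)) hb hab
  choose S hS n ρ h1 h2 h3 h4 h5 using hfam
  let q : T → ℕ := fun P => Ideal.absNorm P.1
  have hq : ∀ P, 1 ≤ q P := fun P => P.2.1.one_le
  have hsep : ∀ x y : Σ P, S P, Nonempty ((ρ x.1 x.2).1.Equiv (ρ y.1 y.2).1) → x.1 = y.1 := by
    rintro ⟨P, x⟩ ⟨P', y⟩ ⟨e⟩
    by_contra hPP
    have hPP' : P.1 ≠ P'.1 := fun h => hPP (Subtype.ext h)
    have hco : IsCoprime (P.1 ^ 3) (P'.1 ^ 3) :=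
      (Ideal.isCoprime_iff_sup_eq.2 ((hmax P).coprime_of_ne (hmax P') hPP')).pow
    obtain ⟨i, l, c, hc⟩ := h5 P x
    have hc' : c ∈ P.1 ^ 3 ⊔ P'.1 ^ 3 := by rw [Ideal.isCoprime_iff_sup_eq.1 hco]; trivial
    obtain ⟨u, hu, w, hw, rfl⟩ := Submodule.mem_sup.1 hc'
    set E : Mt a b k := single (Sum.inr l) (Sum.inl i) 1 with hE
    have hEE : E * E = 0 := single_mul_single_of_ne _ _ _ _ (by simp) _
    have key : ∀ z : 𝓞 k, ∃ γ, (j γ).1 = 1 + algebraMap (𝓞 k) k (μ * z) • E := fun z => by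
      obtain ⟨γ, hγ⟩ := hj.tv (Pi.single (Sum.inr l) z) (Pi.single (Sum.inl i) 1) (by simp)
      refine ⟨γ, ?_⟩
      rw [hγ, map_mul, ← smul_smul]
      congr 2
      ext i' l'
      by_cases h1 : i' = Sum.inr l <;> by_cases h2 : l' = Sum.inl i <;>
        simp [hE, vecMulVec_apply, h1, h2, eq_comm]
    have key2 : ∀ z : 𝓞 k, algebraMap (𝓞 k) k (μ * z) • E = algebraMap (𝓞 k) k z •
        (μ • single (Sum.inr l) (Sum.inl i) 1 : Mt a b (𝓞 k)).map (algebraMap (𝓞 k) k) :=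
      fun z => by
        rw [map_smul_red, Matrix.map_single _ _ _ (algebraMap (𝓞 k) k), map_one, smul_smul,
          ← map_mul, mul_comm]
    obtain ⟨γ1, hγ1⟩ := key u
    obtain ⟨γ2, hγ2⟩ := key w
    refine hc (γ1 * γ2) ?_ ?_
    · rw [f_mul, hγ1, hγ2, mul_add μ, map_add, add_smul]
      simp only [mul_add, add_mul, one_mul, mul_one, smul_mul_assoc, mul_smul_comm, hEE, smul_zero,
        add_zero, add_assoc]
    · have a1 := h4 P x γ1 u hu _ (by rw [hγ1, key2])
      have a2 := h4 P' y γ2 w hw _ (by rw [hγ2, key2])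
      have a3 : (ρ P x).1 γ2 = 1 := by
        refine LinearMap.ext fun v => ?_
        apply e.toLinearEquiv.injective
        have := equiv_apply e γ2 v
        rw [a2] at this
        exact this
      rw [map_mul, a1, a3, one_mul]
  have hmain := repZeta_ge (G := Γ) (J := Σ P, S P) (fun x => n x.1 x.2)
    (fun x => 2 * q x.1 ^ ((a + b) ^ 2 - 1)) (fun x => 2 * q x.1 ^ (a * a + a * b + b * b))
    (fun x => ρ x.1 x.2) (fun x => by
      have h := h2 x.1 x.2
      have h4 : 1 ≤ (a + b) ^ 2 := Nat.one_le_pow _ _ (by omega)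
      have e : q x.1 ^ ((a + b) ^ 2) = q x.1 ^ ((a + b) ^ 2 - 1) * q x.1 := by
        rw [← pow_succ]; congr 1; omega
      change (n x.1 x.2 + 1) * q x.1 ≤ 2 * q x.1 ^ ((a + b) ^ 2) at h
      rw [e, ← mul_assoc] at h
      exact Nat.le_of_mul_le_mul_right h (hq _))
    (fun x => by have := hq x.1; positivity) (fun x y h => by simp only [hsep x y h])
    (fun x => by
      obtain ⟨P, x⟩ := x
      refine le_trans ?_ (h3 P x)
      refine le_trans (Set.encard_le_encard ?_) (Set.encard_image_le (Sigma.mk P) _)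
      rintro ⟨P', y⟩ hy
      obtain rfl : P' = P := hsep _ _ hy
      exact ⟨y, hy, rfl⟩) hs0
  rw [eq_top_iff]
  refine le_trans ?_ hmain
  rw [ENNReal.tsum_sigma']
  set C : ℝ := ((2 : ℝ) ^ b * 2 * 2 ^ s)⁻¹ with hC
  have hC0 : 0 < C := by positivity
  have hdiv : ∑' P : T, ENNReal.ofReal (C * (q P : ℝ)⁻¹) = ⊤ := by
    by_contra hcon
    have := ENNReal.tsum_coe_ne_top_iff_summable_coe.1 hcon
    refine not_summable_primes k (mul_ne_zero hM hμ) ?_
    refine (summable_mul_left_iff hC0.ne').1 (this.congr fun P => ?_)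
    exact Real.coe_toNNReal _ (by positivity)
  rw [← hdiv]
  refine ENNReal.tsum_le_tsum fun P => ?_
  have := hS P
  simp only [ENNReal.tsum_const]
  refine (ENNReal.ofReal_le_ofReal (term_ge (hq P) hb hab (h1 P))).trans (le_of_eq ?_)
  have hq' := hq P
  rw [ENNReal.ofReal_mul (by positivity), ENNReal.ofReal_mul (by positivity),
    ENNReal.ofReal_inv_of_pos (by positivity), ← ENNReal.ofReal_rpow_of_pos (by positivity),
    ENNReal.ofReal_natCast, ENNReal.ofReal_natCast, ENNReal.ofReal_natCast,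
    ENat.card_eq_coe_natCard]
  rfl

lemma one_add_pow_sq_zero {R : Type} [Ring R] {N : R} (h : N * N = 0) (m : ℕ) :
    (1 + N) ^ m = 1 + m • N := by
  induction m with
  | zero => simp
  | succ m ih =>
    rw [pow_succ, ih, mul_add, mul_one, add_mul, smul_mul_assoc, h, succ_nsmul]
    simp [add_assoc]

/-- change of the index type -/
def rx {ι κ R : Type} [Fintype ι] [DecidableEq ι] [Fintype κ] [DecidableEq κ] [CommRing R]
    (e : κ ≃ ι) : Matrix.SpecialLinearGroup ι R →* Matrix.SpecialLinearGroup κ R where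
  toFun g := ⟨g.1.submatrix e e, by rw [det_submatrix_equiv_self]; exact g.2⟩
  map_one' := Subtype.ext (submatrix_one_equiv e)
  map_mul' x y := Subtype.ext (submatrix_mul_equiv x.1 y.1 e e e).symm

theorem exists_glob {d : ℕ} (e : Ix a b ≃ Fin d) (Γ : Subgroup (Matrix.SpecialLinearGroup (Fin d) k))
    (hΓ : Γ.Commensurable (Matrix.SpecialLinearGroup.map (algebraMap (𝓞 k) k)).range) :
    ∃ M μ : 𝓞 k, M ≠ 0 ∧ μ ≠ 0 ∧ Glob ((rx e).comp Γ.subtype) M μ := by
  classical
  set Λ := (Matrix.SpecialLinearGroup.map (n := Fin d) (algebraMap (𝓞 k) k)).range with hΛ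
  have hfi : (Λ.subgroupOf Γ).FiniteIndex := ⟨hΓ.2⟩
  obtain ⟨M, hM⟩ := IsLocalization.exist_integer_multiples_of_finite (nonZeroDivisors (𝓞 k))
    (fun x : (Γ ⧸ Λ.subgroupOf Γ) × Fin d × Fin d => (x.1.out.1.1 x.2.1 x.2.2 : k))
  refine ⟨M, ((Γ.relIndex Λ).factorial : ℕ), nonZeroDivisors.coe_ne_zero M,
    Nat.cast_ne_zero.2 (Nat.factorial_ne_zero _), fun x y h => ?_, fun γ i l => ?_,
    fun y η h0 => ?_⟩
  · refine Subtype.ext (Subtype.ext (Matrix.ext fun i l => ?_))
    have := congrFun (congrFun (congrArg Subtype.val h) (e.symm i)) (e.symm l)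
    simpa [rx] using this
  · obtain ⟨h, hh⟩ := QuotientGroup.mk_out_eq_mul (Λ.subgroupOf Γ) γ
    obtain ⟨u, hu⟩ : (h⁻¹.1.1 : Matrix.SpecialLinearGroup (Fin d) k) ∈ Λ := h⁻¹.2
    have e1 : γ = (QuotientGroup.mk γ : Γ ⧸ Λ.subgroupOf Γ).out * h⁻¹.1 := by
      rw [hh]; simp
    have e2 : γ.1.1 = (QuotientGroup.mk γ : Γ ⧸ Λ.subgroupOf Γ).out.1.1 *
        u.1.map (algebraMap (𝓞 k) k) := by
      conv_lhs => rw [e1]
      change _ * (h⁻¹.1.1).1 = _
      rw [← hu]; rfl
    choose z hz using fun m => hM (QuotientGroup.mk γ, e i, m)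
    refine ⟨∑ m, z m * u.1 m (e l), ?_⟩
    change _ = _ * γ.1.1 (e i) (e l)
    rw [e2, Matrix.mul_apply, map_sum, Finset.mul_sum]
    refine Finset.sum_congr rfl fun m _ => ?_
    rw [map_mul, hz, Algebra.smul_def, mul_assoc]
    rfl
  · have hdot : (η ∘ e.symm) ⬝ᵥ (y ∘ e.symm) = 0 := by
      rw [← h0]; exact Equiv.sum_comp e.symm fun i => η i * y i
    let u : Matrix.SpecialLinearGroup (Fin d) (𝓞 k) :=
      ⟨1 + vecMulVec (y ∘ e.symm) (η ∘ e.symm), by
        rw [vecMulVec_eq Unit, det_one_add_replicateCol_mul_replicateRow, hdot, add_zero]⟩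
    have h1 := Subgroup.pow_mem_of_relIndex_ne_zero_of_dvd hΓ.1
      (a := Matrix.SpecialLinearGroup.map (algebraMap (𝓞 k) k) u) ⟨u, rfl⟩
      (n := (Γ.relIndex Λ).factorial) fun m hm hm' => Nat.dvd_factorial hm hm'
    rw [← map_pow] at h1
    refine ⟨⟨_, h1.1⟩, ?_⟩
    change ((u ^ (Γ.relIndex Λ).factorial).1.map (algebraMap (𝓞 k) k)).submatrix e e = _
    rw [Matrix.SpecialLinearGroup.coe_pow]
    change (((1 + vecMulVec (y ∘ e.symm) (η ∘ e.symm)) ^ _).map _).submatrix e e = _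
    rw [one_add_pow_sq_zero (by rw [vecMulVec_mul_vecMulVec, hdot, zero_smul, vecMulVec_zero]),
      ← Nat.cast_smul_eq_nsmul (𝓞 k)]
    ext i l
    by_cases hil : i = l
    · subst hil; simp [vecMulVec_apply]
    · simp [vecMulVec_apply, hil]

theorem main (k : Type) [Field k] [NumberField k] (d : ℕ) (hd : 2 ≤ d)
    (Γ : Subgroup (Matrix.SpecialLinearGroup (Fin d) k))
    (hΓ : Γ.Commensurable (Matrix.SpecialLinearGroup.map (algebraMap (𝓞 k) k)).range) :
    repZeta Γ (((d ^ 2 / 4 : ℕ) + 1 : ℝ) / ((d : ℝ) ^ 2 - 1)) = ⊤ := by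
  have h1 : (d - d / 2) + d / 2 = d := by omega
  obtain ⟨M, μ, hM, hμ, hG⟩ := exists_glob (a := d - d / 2) (b := d / 2)
    (finSumFinEquiv.trans (finCongr h1)) Γ hΓ
  have := zeta_top hG hM hμ (by omega) (by omega)
  have h2 : (d - d / 2) * (d / 2) = d ^ 2 / 4 := by
    obtain ⟨m, rfl | rfl⟩ := Nat.even_or_odd' d
    · rw [show 2 * m / 2 = m by omega, show 2 * m - m = m by omega,
        show (2 * m) ^ 2 = 4 * (m * m) by ring]; omega
    · rw [show (2 * m + 1) / 2 = m by omega, show 2 * m + 1 - m = m + 1 by omega,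
        show (2 * m + 1) ^ 2 = 4 * ((m + 1) * m) + 1 by ring]; omega
  rwa [h1, h2] at this

end Pool.Agent.MP_8299d6_al

end
end
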