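import Pool.Agent.Mg.F810665.Gfacc92
import Pool.Agent.Mg.F810665.Gfae9d0

section

namespace Pool.Agent.MP_810665_al

open Representation Module Equiv Equiv.Perm

lemma pow_le_choose (a w : ℕ) : a ^ w ≤ (a * w).choose w := by
  induction w with
  | zero => simp
  | succ w ih =>
    rw [mul_add, mul_one, Nat.add_choose_eq, pow_succ]
    refine le_trans ?_ (Finset.single_le_sum
      (f := fun ij : ℕ × ℕ => (a * w).choose ij.1 * a.choose ij.2) (fun _ _ => Nat.zero_le _)
      (a := (w, 1)) (by simp))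
    simpa using Nat.mul_le_mul_right a ih

lemma choose_mono_half {r i j : ℕ} (hij : i ≤ j) (hj : j ≤ r / 2) : r.choose i ≤ r.choose j := by
  induction j, hij using Nat.le_induction with
  | base => exact le_rfl
  | succ j _ ih => exact (ih (by omega)).trans (Nat.choose_le_succ_of_lt_half_left (by omega))

lemma sq_le_two_pow {t : ℕ} (ht : 6 ≤ t) : (t + 1) ^ 2 ≤ 2 ^ t := by
  induction t, ht using Nat.le_induction with
  | base => norm_num
  | succ t ht ih =>
    rw [pow_succ 2 t]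
    nlinarith

lemma le_two_pow_half {r : ℕ} (hr : 12 ≤ r) : r ≤ 2 ^ (r / 2) := by
  have h1 := sq_le_two_pow (t := r / 2) (by omega)
  have h2 : r ≤ 2 * (r / 2) + 1 := by omega
  nlinarith

lemma exists_pairs (n : ℕ) (c : ℕ → ℕ) : ∀ (d : ℕ) (S : Finset ℕ), S.card ≤ d →
    (∀ a ∈ S, a ≤ n ∧ c a ≤ n) → ∃ e : Fin d → Fin (n + 1) × Fin (n + 1),
      ∑ i, ((e i).1 : ℕ) • ({((e i).2 : ℕ)} : Multiset ℕ) = ∑ a ∈ S, c a • {a} := by
  intro d
  induction d with
  | zero =>
    intro S hS _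
    obtain rfl : S = ∅ := by simpa using hS
    exact ⟨fun i => i.elim0, by simp⟩
  | succ d ih =>
    intro S hS h
    rcases S.eq_empty_or_nonempty with rfl | ⟨a, ha⟩
    · exact ⟨fun _ => (0, 0), by simp⟩
    · obtain ⟨e, he⟩ := ih (S.erase a) (by rw [Finset.card_erase_of_mem ha]; omega)
        (fun b hb => h b (Finset.mem_of_mem_erase hb))
      refine ⟨Fin.cons (⟨c a, Nat.lt_succ_of_le (h a ha).2⟩, ⟨a, Nat.lt_succ_of_le (h a ha).1⟩) e,
        ?_⟩
      rw [Fin.sum_univ_succ, ← Finset.add_sum_erase _ _ ha, ← he]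
      rfl

lemma card_partition_le {n d : ℕ} (hd : n < (d + 1) ^ 2) :
    Fintype.card n.Partition ≤ ((n + 1) ^ 2) ^ (2 * d) := by
  have key : ∀ p : n.Partition, ∃ e : Fin (2 * d) → Fin (n + 1) × Fin (n + 1),
      ∑ i, ((e i).1 : ℕ) • ({((e i).2 : ℕ)} : Multiset ℕ) = p.parts := by
    intro p
    have hsum : ∑ a ∈ p.parts.toFinset, p.parts.count a * a = n := by
      refine Eq.trans ?_ p.parts_sum
      rw [Finset.sum_multiset_count]
      rfl
    rw [← Multiset.toFinset_sum_count_nsmul_eq p.parts]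
    refine exists_pairs n _ _ _ ?_ (fun a ha => ?_)
    · have h1 : p.parts.toFinset ⊆ Finset.Icc 1 d ∪ p.parts.toFinset.filter (d < ·) := by
        intro a ha
        have := p.parts_pos (Multiset.mem_toFinset.1 ha)
        simp only [Finset.mem_union, Finset.mem_Icc, Finset.mem_filter, ha, true_and]
        omega
      have h2 : (p.parts.toFinset.filter (d < ·)).card * (d + 1) ≤ n := by
        refine le_trans ?_ hsum.le
        rw [← smul_eq_mul, ← Finset.sum_const]
        refine le_trans (Finset.sum_le_sum (fun a ha => ?_))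
          (Finset.sum_le_sum_of_subset (Finset.filter_subset _ _))
        rw [Finset.mem_filter, Multiset.mem_toFinset] at ha
        have := Multiset.one_le_count_iff_mem.2 ha.1
        nlinarith [ha.2]
      have h3 := (Finset.card_le_card h1).trans (Finset.card_union_le _ _)
      have h4 : (p.parts.toFinset.filter (d < ·)).card < d + 1 := by nlinarith
      simp only [Nat.card_Icc] at h3
      omega
    · have h1 := Finset.single_le_sum (f := fun a => p.parts.count a * a)
        (fun _ _ => Nat.zero_le _) ha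
      have h2 := p.parts_pos (Multiset.mem_toFinset.1 ha)
      have h3 := Multiset.one_le_count_iff_mem.2 (Multiset.mem_toFinset.1 ha)
      rw [hsum] at h1
      constructor <;> nlinarith
  choose e he using key
  have := Fintype.card_le_of_injective e (fun p q h => by
    ext1
    rw [← he p, ← he q, h])
  simpa [sq] using this

variable {α : Type} [Fintype α] [DecidableEq α]

lemma card_irr_le (s : Finset (alternatingGroup α → ℂ)) (hs : ↑s ⊆ IrrChar (alternatingGroup α)) :
    s.card ≤ Fintype.card (Fintype.card α).Partition * 2 := by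
  classical
  let q : alternatingGroup α → (Fintype.card α).Partition := fun g => (g : Perm α).partition
  let r := Function.invFun q
  have hr : ∀ g, IsConj (r (q g) : Perm α) g := fun g =>
    partition_eq_of_isConj.2 (Function.invFun_eq (f := q) ⟨g, rfl⟩)
  have := card_le_of_factor s hs (fun g => (q g, decide (IsConj (r (q g)) g))) (by
    intro χ hχ g h hgh
    simp only [Prod.mk.injEq, decide_eq_decide] at hgh
    obtain ⟨h1, h2⟩ := hgh
    have hc : IsConj g h := by
      by_cases h3 : IsConj (r (q g)) g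
      · exact h3.symm.trans (h1 ▸ h2.1 h3)
      have h4 := mt h2.2 h3
      obtain ⟨σ, hσ⟩ := isConj_iff.1 (hr g)
      obtain ⟨τ, hτ⟩ := isConj_iff.1 (hr h)
      have hσ' : sign σ = -1 := (Int.units_eq_one_or _).resolve_left (fun h =>
        h3 (isConj_iff.2 ⟨⟨σ, mem_alternatingGroup.2 h⟩, Subtype.ext hσ⟩))
      have hτ' : sign τ = -1 := (Int.units_eq_one_or _).resolve_left (fun h =>
        h4 (isConj_iff.2 ⟨⟨τ, mem_alternatingGroup.2 h⟩, Subtype.ext hτ⟩))
      refine isConj_iff.2 ⟨⟨τ * σ⁻¹, by simp [mem_alternatingGroup, hσ', hτ']⟩, Subtype.ext ?_⟩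
      change τ * σ⁻¹ * g * (τ * σ⁻¹)⁻¹ = h
      rw [← hσ, ← hτ, h1]
      group
    obtain ⟨c, rfl⟩ := isConj_iff.1 hc
    exact (irr_conj (hs hχ) g c).symm)
  simpa using this

section
variable {V : Type} [AddCommGroup V] [Module ℂ V] [FiniteDimensional ℂ V]
  {ρ : Representation ℂ (alternatingGroup α) V}

lemma dim_lower {w r : ℕ} (h : HasW ρ w) (hr : r * 4 + 2 ≤ Fintype.card α) :
    r.choose w ≤ finrank ℂ V ∨ 2 ^ (r / 2) ≤ finrank ℂ V := by
  obtain ⟨w', h1, h2⟩ := exists_max_weight (ρ := ρ) (by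
    obtain ⟨_, _, v, hv, _⟩ := h
    exact ⟨v, hv⟩)
  have h3 : w ≤ w' := by
    by_contra h3
    exact h2 (h.mono (by omega))
  by_cases h4 : w' ≤ r / 2
  · exact Or.inl ((choose_mono_half h3 h4).trans (choose_le_finrank h1 h2 hr))
  · exact Or.inr ((h1.mono (by omega)).two_pow_le (by omega))

lemma trivial_of_small (hc : 50 ≤ Fintype.card α) (h : finrank ℂ V * 4 + 6 ≤ Fintype.card α)
    (g : alternatingGroup α) (v : V) : ρ g v = v := by
  refine trivial_of_not_hasW (by omega) (fun h1 => ?_) g v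
  have h2 := le_two_pow_half (r := (Fintype.card α - 2) / 4) (by omega)
  rcases dim_lower h1 (r := (Fintype.card α - 2) / 4) (by omega) with h3 | h3
  · rw [Nat.choose_one_right] at h3
    omega
  · omega

lemma big_of_weight_two (hc : 50 ≤ Fintype.card α) (h : HasW ρ 2) :
    (Fintype.card α - 1) ^ 2 ≤ 64 * finrank ℂ V := by
  obtain ⟨r, hr, hr'⟩ : ∃ r, r * 4 + 2 ≤ Fintype.card α ∧ Fintype.card α - 1 ≤ 4 * (r + 1) :=
    ⟨(Fintype.card α - 2) / 4, by omega, by omega⟩
  refine (Nat.pow_le_pow_left hr' 2).trans ?_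
  have h0 : 12 ≤ r := by omega
  rcases dim_lower h hr with h3 | h3
  · obtain ⟨t, rfl⟩ : ∃ t, r = t + 1 := ⟨r - 1, by omega⟩
    have h5 := Nat.add_one_mul_choose_eq t 1
    simp only [Nat.choose_one_right, Nat.reduceAdd] at h5
    nlinarith
  · have h1 := sq_le_two_pow (t := r / 2) (by omega)
    have h2 : 4 * (r + 1) ≤ 8 * (r / 2 + 1) := by omega
    have h4 := Nat.pow_le_pow_left h2 2
    nlinarith

lemma pow_le_dim {w m r : ℕ} (h : HasW ρ w) (hr : r * 4 + 2 ≤ Fintype.card α) (hm : m * m ≤ r)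
    (hm' : 12 ≤ m) (hw : w ≤ m) : m ^ w ≤ finrank ℂ V := by
  rcases dim_lower h hr with h3 | h3
  · exact ((pow_le_choose m w).trans
      (Nat.choose_le_choose w ((Nat.mul_le_mul_left m hw).trans hm))).trans h3
  · refine le_trans ?_ h3
    calc m ^ w ≤ m ^ m := Nat.pow_le_pow_right (by omega) hw
      _ ≤ (2 ^ (m / 2)) ^ m := Nat.pow_le_pow_left (le_two_pow_half hm') m
      _ ≤ 2 ^ (r / 2) := by
        rw [← pow_mul]
        refine Nat.pow_le_pow_right (by omega) ?_
        rw [Nat.le_div_iff_mul_le (by omega)]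
        have : m / 2 * 2 ≤ m := Nat.div_mul_le_self m 2
        nlinarith

end

lemma irrCount_le (hc : 2600 ≤ Fintype.card α) {N : ℕ} (hN : 1 ≤ N) :
    irrCount (alternatingGroup α) N ≤ N ^ 25 := by
  classical
  obtain ⟨r, hr, hr'⟩ : ∃ r, r * 4 + 2 ≤ Fintype.card α ∧ Fintype.card α ≤ r * 4 + 5 :=
    ⟨(Fintype.card α - 2) / 4, by omega, by omega⟩
  obtain ⟨m, hm, hm'⟩ : ∃ m, m * m ≤ r ∧ r < (m + 1) * (m + 1) :=
    ⟨r.sqrt, Nat.sqrt_le r, Nat.lt_succ_sqrt r⟩
  have h25 : 25 ≤ m := by nlinarith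
  have hcube : Fintype.card α + 1 ≤ m ^ 3 := by nlinarith [Nat.mul_le_mul_right (m * m) h25]
  have hfin : {χ ∈ IrrChar (alternatingGroup α) | χ 1 = N}.Finite :=
    irrChar_finite.subset (Set.sep_subset _ _)
  rw [irrCount, Set.ncard_eq_toFinset_card _ hfin]
  by_cases hbig : m ^ m ≤ N
  · refine (card_irr_le _ (by simp)).trans ?_
    have h1 := card_partition_le (n := Fintype.card α) (d := 2 * m + 2) (by nlinarith)
    calc _ ≤ ((m ^ 3) ^ 2) ^ (2 * (2 * m + 2)) * m :=
          Nat.mul_le_mul (h1.trans (by gcongr)) (by omega)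
      _ = m ^ (24 * m + 25) := by ring
      _ ≤ m ^ (m * 25) := Nat.pow_le_pow_right (by omega) (by omega)
      _ ≤ N ^ 25 := by
        rw [pow_mul]
        exact Nat.pow_le_pow_left hbig 25
  · have hW : Nat.log m N < m := Nat.log_lt_of_lt_pow (by omega) (by omega)
    have hW1 : m ^ Nat.log m N ≤ N := Nat.pow_log_le_self m (by omega)
    have hW2 : N < m ^ (Nat.log m N + 1) := Nat.lt_pow_succ_log_self (by omega) N
    generalize Nat.log m N = W at hW hW1 hW2
    have hW3 : W * 4 + 6 ≤ Fintype.card α := by nlinarith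
    obtain ⟨B, hB⟩ := exists_blocks (α := α) W (by omega)
    refine (card_le_of_fixed hfin.toFinset
      (fun (g : alternatingGroup α) (x : Fin W × Fin 4) => (g : Perm α) (B x.1 x.2))
      (fun χ hχ => ?_)).trans ?_
    · rw [Set.Finite.mem_toFinset] at hχ
      obtain ⟨⟨V, _, _, _, ρ, hρ, rfl⟩, h1⟩ := hχ
      rw [char_one, Nat.cast_inj] at h1
      obtain ⟨w, h2, h3⟩ := exists_max_weight (ρ := ρ) ((irreducible_iff ρ).1 hρ).1
      have h4 : w ≤ W := by
        by_contra h4
        have := pow_le_dim (h2.mono (show W + 1 ≤ w by omega)) hr hm (by omega) hW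
        omega
      obtain ⟨v, hv, h5⟩ := exists_fixed h2 h3 h4 hB hW3
      refine ⟨V, _, _, inferInstance, ρ, hρ, rfl, v, hv, fun g h hgh => ?_⟩
      have := h5 (h⁻¹ * g) (fun i a => by
        have := congrFun hgh (i, a)
        simp only at this
        simp [this])
      conv_rhs => rw [← this, ← Module.End.mul_apply, ← map_mul, mul_inv_cancel_left]
    · simp only [Fintype.card_pi, Finset.prod_const, Finset.card_univ, Fintype.card_prod,
        Fintype.card_fin]
      calc _ ≤ (m ^ 3) ^ (W * 4) := Nat.pow_le_pow_left (by omega) _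
        _ = (m ^ W) ^ 12 := by ring
        _ ≤ N ^ 12 := Nat.pow_le_pow_left hW1 12
        _ ≤ N ^ 25 := Nat.pow_le_pow_right hN (by omega)

lemma irr_cases (hc : 50 ≤ Fintype.card α) {χ : alternatingGroup α → ℂ}
    (hχ : χ ∈ IrrChar (alternatingGroup α)) {N : ℕ} (hN : χ 1 = N) :
    (χ = (fun _ => 1) ∧ N = 1) ∨
      (χ = (stdSub α).toRepresentation.character ∧ N + 1 = Fintype.card α) ∨
      (Fintype.card α - 1) ^ 2 ≤ 64 * N := by
  obtain ⟨V, _, _, _, ρ, hρ, rfl⟩ := hχ
  by_cases h : HasW ρ 2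
  · rw [char_one, Nat.cast_inj] at hN
    exact Or.inr (Or.inr (hN ▸ big_of_weight_two hc h))
  rcases weight_le_one (by omega) hρ h with h1 | h1
  · refine Or.inl ⟨h1, ?_⟩
    rw [h1] at hN
    exact_mod_cast (show (N : ℂ) = 1 from hN.symm)
  · refine Or.inr (Or.inl ⟨h1, ?_⟩)
    rw [h1, char_one, Nat.cast_inj] at hN
    rw [← hN]
    exact std_finrank (by omega)

/-- The properties of the degree counts of alternating groups that are used. -/
structure Good (j : ℕ) (Z : ArithmeticFunction ℤ) : Prop where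
  one : Z 1 = 1
  self : Z j = 1
  nonneg : ∀ n, 0 ≤ Z n
  supp : ∀ n, Z n ≠ 0 → n = 1 ∨ n = j ∨ (j < n ∧ j ^ 4 ≤ n ^ 3)
  le : ∀ n, Z n ≤ n ^ 25

lemma good_alt {j : ℕ} (hj : 4096 ≤ j) : Good j (zetaAF (alternatingGroup (Fin (j + 1)))) := by
  have hc : 50 ≤ Fintype.card (Fin (j + 1)) := by simp; omega
  refine ⟨?_, ?_, fun n => by simp [zetaAF_apply], fun n hn => ?_, fun n => ?_⟩
  · rw [zetaAF_apply, irrCount, Nat.cast_eq_one, Set.ncard_eq_one]
    refine ⟨fun _ => 1, Set.eq_singleton_iff_unique_mem.2 ⟨⟨one_mem_irrChar _, by simp⟩, ?_⟩⟩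
    rintro χ ⟨h1, h2⟩
    rcases irr_cases hc h1 h2 with h | h | h
    · exact h.1
    · simp at h
      omega
    · simp at h
      nlinarith
  · rw [zetaAF_apply, irrCount, Nat.cast_eq_one, Set.ncard_eq_one]
    refine ⟨(stdSub (Fin (j + 1))).toRepresentation.character,
      Set.eq_singleton_iff_unique_mem.2 ⟨⟨⟨_, _, _, inferInstance, _,
        std_irreducible (by omega), rfl⟩, ?_⟩, ?_⟩⟩
    · rw [char_one, Nat.cast_inj]
      simpa using std_finrank (α := Fin (j + 1)) (by omega)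
    rintro χ ⟨h1, h2⟩
    rcases irr_cases hc h1 h2 with h | h | h
    · omega
    · exact h.1
    · simp at h
      nlinarith
  · rw [zetaAF_apply, irrCount, Nat.cast_ne_zero] at hn
    obtain ⟨χ, h1, h2⟩ := Set.nonempty_of_ncard_ne_zero hn
    rcases irr_cases hc h1 h2 with h | h | h
    · exact Or.inl h.2
    · exact Or.inr (Or.inl (by simpa using h.2))
    · simp only [Fintype.card_fin, add_tsub_cancel_right] at h
      have h3 : 4096 ≤ n := by nlinarith
      refine Or.inr (Or.inr ⟨by nlinarith, ?_⟩)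
      calc j ^ 4 = (j ^ 2) ^ 2 := by ring
        _ ≤ (64 * n) ^ 2 := Nat.pow_le_pow_left h 2
        _ = 4096 * n ^ 2 := by ring
        _ ≤ n * n ^ 2 := Nat.mul_le_mul_right _ h3
        _ = n ^ 3 := by ring
  · rcases Nat.eq_zero_or_pos n with rfl | hn
    · simp
    · rw [zetaAF_apply]
      exact_mod_cast irrCount_le (by simp; omega) hn

end Pool.Agent.MP_810665_al

end

section

namespace Pool.Agent.MP_810665_al

open ArithmeticFunction

/-- The truncated power function. -/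
def DD : ArithmeticFunction ℤ := ⟨fun n => if 4096 ≤ n then (n : ℤ) ^ 114 else 0, by simp⟩

lemma DD_apply (n : ℕ) : DD n = if 4096 ≤ n then (n : ℤ) ^ 114 else 0 := rfl

lemma af_sub_apply (f g : ArithmeticFunction ℤ) (n : ℕ) : (f - g) n = f n - g n := by
  rw [sub_eq_add_neg, ArithmeticFunction.add_apply, ArithmeticFunction.neg_apply, sub_eq_add_neg]

lemma af_mul_nonneg {f g : ArithmeticFunction ℤ} (hf : ∀ n, 0 ≤ f n) (hg : ∀ n, 0 ≤ g n) (n : ℕ) :
    0 ≤ (f * g) n := by
  rw [mul_apply]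
  exact Finset.sum_nonneg (fun x _ => mul_nonneg (hf _) (hg _))

lemma af_one_nonneg (n : ℕ) : 0 ≤ (1 : ArithmeticFunction ℤ) n := by
  rw [one_apply]
  split_ifs <;> simp

lemma af_pow_nonneg {f : ArithmeticFunction ℤ} (hf : ∀ n, 0 ≤ f n) (i : ℕ) :
    ∀ n, 0 ≤ (f ^ i) n := by
  induction i with
  | zero => simpa using af_one_nonneg
  | succ i ih =>
    rw [pow_succ]
    exact af_mul_nonneg ih hf

lemma step_pow {N : ℕ} (hN : 2 ≤ N) {Z u : ArithmeticFunction ℤ} (hZ : Good N Z)
    (hu : ∀ n < N, u n = 0) (i : ℕ) (h1 : (i : ℤ) ≤ u N) (h2 : ∀ n, N < n → i * Z n ≤ u n) :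
    (∀ n < N, (1 - (1 - u) * Z ^ i) n = 0) ∧ (1 - (1 - u) * Z ^ i) N = u N - i ∧
      ∀ n, N < n → u n - i * Z n ≤ (1 - (1 - u) * Z ^ i) n := by
  induction i with
  | zero => simpa using hu
  | succ i ih =>
    push_cast at h1 h2 ⊢
    have h2' : ∀ n, N < n → i * Z n ≤ u n := fun n hn => by
      have := h2 n hn
      have := hZ.nonneg n
      linarith
    obtain ⟨i1, i2, i3⟩ := ih (by omega) h2'
    have e : 1 - (1 - u) * Z ^ (i + 1) = (1 - (1 - u) * Z ^ i) - (Z - 1)
        + (1 - (1 - u) * Z ^ i) * (Z - 1) := by ring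
    rw [e]
    generalize 1 - (1 - u) * Z ^ i = w at i1 i2 i3
    have t1 : ∀ n < N, (Z - 1) n = 0 := by
      intro n hn
      rw [af_sub_apply, one_apply]
      split_ifs with h
      · rw [h, hZ.one, sub_self]
      · by_contra h3
        have := hZ.supp n (by simpa using h3)
        omega
    have t2 : ∀ n, N ≤ n → (Z - 1) n = Z n := by
      intro n hn
      rw [af_sub_apply, one_apply_ne (by omega), sub_zero]
    have t3 : ∀ n, 0 ≤ (Z - 1) n := by
      intro n
      rcases lt_or_ge n N with h | h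
      · rw [t1 n h]
      · rw [t2 n h]
        exact hZ.nonneg n
    have w0 : ∀ n, 0 ≤ w n := by
      intro n
      rcases lt_trichotomy n N with h | rfl | h
      · rw [i1 n h]
      · omega
      · have := i3 n h
        have := h2' n h
        linarith
    have p0 : ∀ n ≤ N, (w * (Z - 1)) n = 0 := by
      intro n hn
      rw [mul_apply]
      refine Finset.sum_eq_zero (fun x hx => ?_)
      obtain ⟨hx, hn0⟩ := Nat.mem_divisorsAntidiagonal.1 hx
      by_cases h : x.1 < N
      · rw [i1 _ h, zero_mul]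
      · rw [t1 x.2 (by nlinarith), mul_zero]
    refine ⟨fun n hn => ?_, ?_, fun n hn => ?_⟩
    · rw [ArithmeticFunction.add_apply, af_sub_apply, i1 n hn, t1 n hn, p0 n hn.le]
      simp
    · rw [ArithmeticFunction.add_apply, af_sub_apply, i2, t2 N le_rfl, p0 N le_rfl, hZ.self]
      ring
    · rw [ArithmeticFunction.add_apply, af_sub_apply, t2 n hn.le]
      have := af_mul_nonneg w0 t3 n
      have := i3 n hn
      linarith

lemma DD_mul_le {P : ArithmeticFunction ℤ} {n : ℕ}
    (h : ∀ m < n, P m ≤ m ^ 116) : (DD * P) n ≤ n ^ 116 := by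
  rcases Nat.eq_zero_or_pos n with rfl | hn
  · simp
  have key : ((DD * P) n : ℝ) ≤ ∑ a ∈ Finset.Ioc 1 n, (n : ℝ) ^ 116 * ((a : ℝ) ^ 2)⁻¹ := by
    rw [mul_apply, Nat.sum_divisorsAntidiagonal (fun a b => DD a * P b)]
    push_cast
    rw [← Finset.sum_filter_of_ne (p := fun a => 4096 ≤ a) (fun a _ ha => by
      by_contra h
      simp [DD_apply, h] at ha)]
    refine le_trans (Finset.sum_le_sum (fun a ha => ?_)) (Finset.sum_le_sum_of_subset_of_nonneg
      (fun a ha => ?_) (fun _ _ _ => by positivity))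
    · rw [Finset.mem_filter] at ha
      obtain ⟨b, rfl⟩ := Nat.dvd_of_mem_divisors ha.1
      have ha0 : 0 < a := by omega
      have hb0 : 0 < b := Nat.pos_of_mul_pos_left hn
      rw [Nat.mul_div_cancel_left _ ha0, DD_apply, if_pos ha.2]
      have h1 : (P b : ℝ) ≤ b ^ 116 := by exact_mod_cast h b (by nlinarith [ha.2])
      push_cast
      calc (a : ℝ) ^ 114 * P b ≤ a ^ 114 * b ^ 116 := by gcongr
        _ = (a * b) ^ 116 * ((a : ℝ) ^ 2)⁻¹ := by
          field_simp
    · rw [Finset.mem_filter] at ha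
      have := Nat.divisor_le ha.1
      rw [Finset.mem_Ioc]
      omega
  rw [← Finset.mul_sum] at key
  have h1 := sum_Ioc_inv_sq_le_sub (α := ℝ) (k := 1) (n := n) one_ne_zero hn
  have h2 : ((DD * P) n : ℝ) ≤ (n : ℝ) ^ 116 := by
    refine key.trans (mul_le_of_le_one_right (by positivity) (h1.trans ?_))
    simp
  exact_mod_cast h2

lemma le_of_sub_nonneg {P : ArithmeticFunction ℤ}
    (hu : ∀ m, 0 ≤ (1 - (1 - DD) * P) m) (n : ℕ) : P n ≤ n ^ 116 := by
  induction n using Nat.strong_induction_on with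
  | _ n ih =>
    have h1 := DD_mul_le ih
    have h2 := hu n
    rw [sub_mul, one_mul, af_sub_apply, af_sub_apply] at h2
    by_cases hn : n = 1
    · subst hn
      simp [DD_apply] at h2 ⊢
      omega
    · rw [one_apply_ne hn] at h2
      omega

variable (Z : ℕ → ArithmeticFunction ℤ)

/-- The recursively defined finite products. -/
def PP : ℕ → ArithmeticFunction ℤ
  | 0 => 1
  | N + 1 => PP N * Z N ^ ((1 - (1 - DD) * PP N) N).toNat

lemma PP_eq (M : ℕ) :
    PP Z M = ∏ j ∈ Finset.range M, Z j ^ ((1 - (1 - DD) * PP Z j) j).toNat := by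
  induction M with
  | zero => rfl
  | succ M ih => rw [Finset.prod_range_succ, ← ih, PP]

lemma PP_small (M : ℕ) (hM : M ≤ 4096) : PP Z M = 1 := by
  induction M with
  | zero => rfl
  | succ M ih =>
    rw [PP, ih (by omega)]
    simp [DD_apply, show ¬ 4096 ≤ M by omega]

variable {Z}

lemma PP_inv (hZ : ∀ j, 4096 ≤ j → Good j (Z j)) {N : ℕ} (hN : 4096 ≤ N) :
    (∀ n < N, (1 - (1 - DD) * PP Z N) n = 0) ∧
    (∀ n, N ≤ n → (n : ℤ) ^ 114 - N * n ^ 112 ≤ (1 - (1 - DD) * PP Z N) n) ∧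
    (∀ n, 0 ≤ PP Z N n) ∧ (∀ n, PP Z N n ≤ n ^ 116) ∧
    1 ≤ (1 - (1 - DD) * PP Z N) N ∧ (1 - (1 - DD) * PP Z N) N ≤ N ^ 116 := by
  have aux : ∀ N : ℕ, 4096 ≤ N → ∀ n : ℕ, N ≤ n → (n : ℤ) ^ 112 ≤ n ^ 114 - N * n ^ 112 := by
    intro N hN n hn
    have h1 : (N : ℤ) + 1 ≤ n ^ 2 := by
      have : N + 1 ≤ n ^ 2 := by nlinarith
      exact_mod_cast this
    have h2 : (0 : ℤ) ≤ (n : ℤ) ^ 112 := by positivity
    have h3 : (n : ℤ) ^ 114 = n ^ 2 * n ^ 112 := by ring
    nlinarith
  have fin : ∀ N : ℕ, 4096 ≤ N → ∀ P : ArithmeticFunction ℤ, (∀ n < N, (1 - (1 - DD) * P) n = 0) →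
      (∀ n, N ≤ n → (n : ℤ) ^ 114 - N * n ^ 112 ≤ (1 - (1 - DD) * P) n) → (∀ n, 0 ≤ P n) →
      (∀ n, P n ≤ n ^ 116) ∧ 1 ≤ (1 - (1 - DD) * P) N ∧ (1 - (1 - DD) * P) N ≤ N ^ 116 := by
    intro N hN P h1 h2 h3
    have h4 := le_of_sub_nonneg (P := P) (fun n => by
      rcases lt_or_ge n N with h | h
      · rw [h1 n h]
      · exact le_trans (by positivity) ((aux N hN n h).trans (h2 n h)))
    refine ⟨h4, le_trans ?_ ((aux N hN N le_rfl).trans (h2 N le_rfl)), ?_⟩
    · exact one_le_pow₀ (by omega)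
    · have h5 := DD_mul_le (n := N) (fun m _ => h4 m)
      have h6 := h3 N
      rw [sub_mul, one_mul, af_sub_apply, af_sub_apply, one_apply_ne (by omega)]
      omega
  induction N, hN using Nat.le_induction with
  | base =>
    have h1 : ∀ n < 4096, (1 - (1 - DD) * PP Z 4096) n = 0 := by
      intro n hn
      simp [PP_small Z 4096 le_rfl, DD_apply, hn]
    have h2 : ∀ n : ℕ, 4096 ≤ n →
        (n : ℤ) ^ 114 - (4096 : ℕ) * n ^ 112 ≤ (1 - (1 - DD) * PP Z 4096) n := by
      intro n hn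
      simp [PP_small Z 4096 le_rfl, DD_apply, hn]
    have h3 : ∀ n, 0 ≤ PP Z 4096 n := by
      rw [PP_small Z 4096 le_rfl]
      exact af_one_nonneg
    exact ⟨h1, h2, h3, fin _ le_rfl _ h1 h2 h3⟩
  | succ N hN ih =>
    obtain ⟨i1, i2, i3, -, i5, i6⟩ := ih
    have hG := hZ N hN
    have e : 1 - (1 - DD) * PP Z (N + 1) = 1 - (1 - (1 - (1 - DD) * PP Z N))
        * Z N ^ ((1 - (1 - DD) * PP Z N) N).toNat := by
      rw [PP]
      ring
    have h3 : ∀ n, 0 ≤ PP Z (N + 1) n := by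
      rw [PP]
      exact af_mul_nonneg i3 (af_pow_nonneg hG.nonneg _)
    generalize 1 - (1 - DD) * PP Z N = u at *
    have hf : ((u N).toNat : ℤ) = u N := Int.toNat_of_nonneg (by omega)
    have hb : ∀ n, N < n → ((u N).toNat : ℤ) * Z N n ≤ n ^ 112 := by
      intro n hn
      by_cases h0 : Z N n = 0
      · rw [h0, mul_zero]
        positivity
      have h4 : N ^ 4 ≤ n ^ 3 := by
        have := hG.supp n h0
        omega
      have h5 : (N : ℤ) ^ 116 ≤ n ^ 87 := by
        have := Nat.pow_le_pow_left h4 29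
        rw [← pow_mul, ← pow_mul] at this
        exact_mod_cast this
      rw [hf, show (n : ℤ) ^ 112 = n ^ 87 * n ^ 25 by ring]
      exact mul_le_mul (i6.trans h5) (hG.le n) (hG.nonneg n) (by positivity)
    obtain ⟨s1, s2, s3⟩ := step_pow (by omega) hG i1 (u N).toNat hf.le
      (fun n hn => (hb n hn).trans ((aux N hN n hn.le).trans (i2 n hn.le)))
    rw [← e] at s1 s2 s3
    have h1 : ∀ n < N + 1, (1 - (1 - DD) * PP Z (N + 1)) n = 0 := by
      intro n hn
      rcases (Nat.lt_succ_iff.1 hn).lt_or_eq with h | rfl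
      · exact s1 n h
      · rw [s2, hf, sub_self]
    have h2 : ∀ n, N + 1 ≤ n →
        (n : ℤ) ^ 114 - (N + 1 : ℕ) * n ^ 112 ≤ (1 - (1 - DD) * PP Z (N + 1)) n := by
      intro n hn
      have := s3 n hn
      have := hb n hn
      have := i2 n (by omega)
      push_cast
      linarith
    exact ⟨h1, h2, h3, fin _ (by omega) _ h1 h2 h3⟩

theorem exists_mult (hZ : ∀ j, 4096 ≤ j → Good j (Z j)) : ∃ f : ℕ → ℕ,
    (∀ j < 4096, f j = 0) ∧ (∀ j, 4096 ≤ j → 1 ≤ f j ∧ f j ≤ j ^ 116) ∧ ∀ M, 4096 ≤ M →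
      (∀ n < M, ((1 - DD) * ∏ j ∈ Finset.range M, Z j ^ f j) n = (1 : ArithmeticFunction ℤ) n) ∧
      ∀ n, (∏ j ∈ Finset.range M, Z j ^ f j) n ≤ n ^ 116 := by
  refine ⟨fun j => ((1 - (1 - DD) * PP Z j) j).toNat, fun j hj => ?_, fun j hj => ?_,
    fun M hM => ?_⟩
  · simp [PP_small Z j hj.le, DD_apply, show ¬ 4096 ≤ j by omega]
  · obtain ⟨-, -, -, -, h1, h2⟩ := PP_inv hZ hj
    beta_reduce
    refine ⟨by omega, ?_⟩
    rw [Int.toNat_le]
    exact_mod_cast h2
  · obtain ⟨h1, -, -, h2, -⟩ := PP_inv hZ hM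
    rw [← PP_eq]
    refine ⟨fun n hn => ?_, h2⟩
    have := h1 n hn
    rw [af_sub_apply] at this
    omega

end Pool.Agent.MP_810665_al

end

section

namespace Pool.Agent.MP_810665_al

open Complex Filter Topology

lemma meromorphic_zeta : Meromorphic riemannZeta := by
  intro s
  by_cases hs : s = 1
  swap
  · exact (analyticOn_riemannZeta s hs).meromorphicAt
  subst hs
  have h1 : MeromorphicAt
      (fun s : ℂ => (completedRiemannZeta₀ s - 1 / s - 1 / (1 - s)) * (Gammaℝ s)⁻¹) 1 := by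
    have a1 := (differentiable_completedZeta₀.analyticAt 1).meromorphicAt
    have a2 := (differentiable_Gammaℝ_inv.analyticAt 1).meromorphicAt
    fun_prop
  refine h1.congr ?_
  have : ∀ᶠ s in 𝓝[≠] (1 : ℂ), s ≠ 0 :=
    eventually_nhdsWithin_of_eventually_nhds (eventually_ne_nhds one_ne_zero)
  filter_upwards [this] with s hs
  rw [riemannZeta_def_of_ne_zero hs, completedRiemannZeta_eq,
    div_eq_mul_inv _ (Gammaℝ s)]

/-- The denominator of the continuation. -/
noncomputable def den (s : ℂ) : ℂ :=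
  1 - riemannZeta (s - 114) + ∑ n ∈ Finset.Ico (1 : ℕ) 4096, (n : ℂ) ^ (114 - s)

lemma analytic_sum (s : ℂ) :
    AnalyticAt ℂ (fun s : ℂ => ∑ n ∈ Finset.Ico (1 : ℕ) 4096, (n : ℂ) ^ (114 - s)) s := by
  refine Differentiable.analyticAt (Differentiable.fun_sum (fun n hn => ?_)) s
  refine Differentiable.const_cpow (by fun_prop) (Or.inl ?_)
  have := (Finset.mem_Ico.1 hn).1
  exact_mod_cast (show n ≠ 0 by omega)

lemma meromorphic_den : Meromorphic den := by
  intro s
  have h1 : MeromorphicAt (fun s => riemannZeta (s - 114)) s :=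
    (meromorphic_zeta (s - 114)).comp_analyticAt (g := fun s => s - 114) (by fun_prop)
  exact ((MeromorphicAt.const 1 s).sub h1).add (analytic_sum s).meromorphicAt

lemma analytic_den : AnalyticAt ℂ den (-2) := by
  have h1 : AnalyticAt ℂ (fun s => riemannZeta (s - 114)) (-2) :=
    AnalyticAt.comp (f := fun s : ℂ => s - 114)
      (analyticOn_riemannZeta _ (by norm_num)) (by fun_prop)
  exact (analyticAt_const.sub h1).add (analytic_sum _)

lemma den_ne : den (-2) ≠ 0 := by
  have h1 := riemannZeta_neg_two_mul_nat_add_one 57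
  have h2 : den (-2) = ((1 + ∑ n ∈ Finset.Ico (1 : ℕ) 4096, n ^ 116 : ℕ) : ℂ) := by
    rw [den, show (-2 - 114 : ℂ) = -2 * ((57 : ℕ) + 1) by norm_num, h1,
      show (114 - -2 : ℂ) = (116 : ℕ) by norm_num]
    simp only [cpow_natCast, sub_zero, Nat.cast_add, Nat.cast_one, Nat.cast_sum, Nat.cast_pow]
  rw [h2, Nat.cast_ne_zero]
  omega

lemma hasSum_den {s : ℂ} (hs : 115 < s.re) :
    LSeriesHasSum (fun n => (((1 - DD : ArithmeticFunction ℤ) n : ℤ) : ℂ)) s (den s) := by
  have h1 : LSeriesHasSum 1 (s - 114) (riemannZeta (s - 114)) :=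
    LSeriesHasSum_one (by simp; linarith)
  have h2 : HasSum (fun n : ℕ => if n = 1 then (1 : ℂ) else 0) 1 := hasSum_ite_eq 1 1
  have h3 : HasSum
      (fun n : ℕ => if n ∈ Finset.Ico (1 : ℕ) 4096 then (n : ℂ) ^ (114 - s) else 0)
      (∑ n ∈ Finset.Ico (1 : ℕ) 4096, (n : ℂ) ^ (114 - s)) := by
    have := hasSum_sum_of_ne_finset_zero (L := .unconditional ℕ)
      (s := Finset.Ico (1 : ℕ) 4096)
      (f := fun n : ℕ => if n ∈ Finset.Ico (1 : ℕ) 4096 then (n : ℂ) ^ (114 - s) else 0)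
      (fun n hn => if_neg hn)
    rwa [Finset.sum_congr rfl (fun n hn => if_pos hn)] at this
  have h4 := (h2.sub h1).add h3
  unfold LSeriesHasSum den
  refine h4.congr_fun (fun n => ?_)
  rcases eq_or_ne n 0 with rfl | hn
  · simp
  have hn' : (n : ℂ) ≠ 0 := by exact_mod_cast hn
  have e1 : (n : ℂ) ^ (114 - s) = 1 / n ^ (s - 114) := by
    rw [one_div, ← cpow_neg, neg_sub]
  have e2 : (n : ℂ) ^ (114 : ℕ) / n ^ s = 1 / n ^ (s - 114) := by
    rw [← e1, cpow_sub _ _ hn', ← cpow_natCast]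
    rfl
  rw [LSeries.term_of_ne_zero hn, LSeries.term_of_ne_zero hn, af_sub_apply, DD_apply,
    ArithmeticFunction.one_apply, e1, Pi.one_apply]
  simp only [Finset.mem_Ico]
  split_ifs with a1 a2 a3 a4 a5 a6 a7
  · omega
  · omega
  · simp [a1]
  · omega
  · omega
  · push_cast
    rw [← e2]
    ring
  · simp
  · omega

theorem analytic_part (a : ArithmeticFunction ℤ) (r : ℕ → ℕ) (hr : ∀ n, a n = r n)
    (hb : ∀ n, a n ≤ n ^ 116) (h : (1 - DD) * a = 1) :
    ∃ α : ℝ, (∀ s : ℂ, α < s.re → LSeriesSummable (fun n => (r n : ℂ)) s) ∧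
      ∃ F : ℂ → ℂ, Meromorphic F ∧ (∀ s : ℂ, α < s.re → F s = LSeries (fun n => (r n : ℂ)) s) ∧
        AnalyticAt ℂ F (-2) ∧ F (-2) ≠ 0 := by
  have hsum : ∀ s : ℂ, 117 < s.re → LSeriesSummable (fun n => (r n : ℂ)) s := by
    intro s hs
    refine LSeriesSummable_of_le_const_mul_rpow (x := 117) hs ⟨1, fun n _ => ?_⟩
    have h1 := hb n
    rw [hr] at h1
    rw [one_mul, show (117 - 1 : ℝ) = (116 : ℕ) by norm_num, Real.rpow_natCast, norm_natCast]
    exact_mod_cast h1
  refine ⟨117, hsum, den⁻¹, meromorphic_den.inv, fun s hs => ?_, analytic_den.inv den_ne,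
    inv_ne_zero den_ne⟩
  have h1 := (hasSum_den (s := s) (by linarith)).convolution (hsum s hs).LSeriesHasSum
  have h2 : LSeries.convolution (fun n => (((1 - DD : ArithmeticFunction ℤ) n : ℤ) : ℂ))
      (fun n => (r n : ℂ)) = LSeries.delta := by
    rw [LSeries.convolution_def]
    ext n
    have := congrArg (fun f : ArithmeticFunction ℤ => ((f n : ℤ) : ℂ)) h
    simp only [ArithmeticFunction.mul_apply, hr, ArithmeticFunction.one_apply] at this
    push_cast at this
    rw [this, LSeries.delta]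
  rw [h2] at h1
  have h3 := h1.LSeries_eq
  rw [LSeries_delta, Pi.one_apply] at h3
  exact (eq_inv_of_mul_eq_one_right h3.symm).symm

end Pool.Agent.MP_810665_al

end
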