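import Pool.Agent.MP_810665_al.Defs
import Pool.Agent.Mg.F810665.Gfae9d0
import Pool.Agent.Mg.F810665.G91e3f0

section

namespace Pool.Agent.MP_810665_al

open Representation Module Filter Topology

variable {I : Type} [DecidableEq I] {H : I → Type} [∀ i, Group (H i)]
  [∀ i, TopologicalSpace (H i)]

/-- A closed subgroup containing the factors outside `s` contains the whole tail. -/
lemma tail_mem (K : Subgroup (∀ i, H i)) (hK : IsClosed (K : Set (∀ i, H i))) (s : Finset I)
    (h : ∀ i ∉ s, ∀ x : H i, Pi.mulSingle i x ∈ K) (g : ∀ i, H i) (hg : ∀ i ∈ s, g i = 1) :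
    g ∈ K := by
  have h1 : ∀ t : Finset I, (fun i => if i ∈ t then g i else 1) ∈ K := by
    intro t
    induction t using Finset.induction_on with
    | empty => exact K.one_mem
    | insert a t ha ih =>
      have h2 : Pi.mulSingle a (g a) ∈ K := by
        by_cases has : a ∈ s
        · simp [hg a has, K.one_mem]
        · exact h a has _
      convert K.mul_mem h2 ih using 1
      ext i
      by_cases hi : i = a
      · subst hi
        simp [ha]
      · simp [hi]
  refine hK.mem_of_tendsto (b := atTop) (f := fun (t : Finset I) i => if i ∈ t then g i else 1)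
    ?_ (Eventually.of_forall h1)
  rw [tendsto_pi_nhds]
  intro i
  refine tendsto_const_nhds.congr' ?_
  filter_upwards [eventually_ge_atTop {i}] with t ht
  rw [if_pos (ht (Finset.mem_singleton_self i))]

variable (H) in
/-- Restriction to finitely many coordinates. -/
def res (s : Finset I) : (∀ i, H i) →* ∀ i : s, H i :=
  MonoidHom.pi (fun i => Pi.evalMonoidHom H i)

variable (H) in
/-- Extension by the identity. -/
def ext (s : Finset I) : (∀ i : s, H i) →* ∀ i, H i where
  toFun x i := if h : i ∈ s then x ⟨i, h⟩ else 1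
  map_one' := by
    ext i
    simp
  map_mul' x y := by
    ext i
    by_cases h : i ∈ s <;> simp [h]

omit [∀ i, TopologicalSpace (H i)] in
lemma res_ext (s : Finset I) (x : ∀ i : s, H i) : res H s (ext H s x) = x := by
  ext i
  simp [res, ext]

lemma factor {n : ℕ} (s : Finset I) (ρ : IrrRep (∀ i, H i) n)
    (h : ∀ i ∉ s, ∀ (x : H i) v, ρ.1 (Pi.mulSingle i x) v = v) (g : ∀ i, H i) :
    ρ.1 (ext H s (res H s g)) = ρ.1 g := by
  have h1 : g⁻¹ * ext H s (res H s g) ∈ MonoidHom.ker ρ.1 := by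
    refine tail_mem _ ?_ s (fun i hi x => LinearMap.ext (h i hi x)) _ (fun i hi => ?_)
    · have : (MonoidHom.ker ρ.1 : Set (∀ i, H i)) = ⋂ v, {g | ρ.1 g v = v} := by
        ext g
        simp [LinearMap.ext_iff]
      rw [this]
      exact isClosed_iInter (fun v => isClosed_eq (ρ.2.2 v) continuous_const)
    · simp [res, ext, hi]
  rw [← mul_inv_cancel_left g (ext H s (res H s g)), map_mul, MonoidHom.mem_ker.1 h1, mul_one]

variable [∀ i, DiscreteTopology (H i)] [∀ i, Finite (H i)]

lemma card_irrClass {n : ℕ} (s : Finset I)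
    (h : ∀ i ∉ s, ∀ (ρ : Representation ℂ (H i) (Fin n → ℂ)) x v, ρ x v = v) :
    Finite (IrrClass (∀ i, H i) n) ∧
      Nat.card (IrrClass (∀ i, H i) n) = irrCount (∀ i : s, H i) n := by
  have := Fintype.ofFinite (∀ i : s, H i)
  have hs : Function.Surjective (res H s) := fun x => ⟨_, res_ext s x⟩
  have hf : ∀ (ρ : IrrRep (∀ i, H i) n) g, ρ.1 (ext H s (res H s g)) = ρ.1 g := fun ρ =>
    factor s ρ (fun i hi x v => h i hi (ρ.1.comp (MonoidHom.mulSingle H i)) x v)
  have hirr : ∀ ρ : IrrRep (∀ i, H i) n,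
      Representation.IsIrreducible (ρ.1.comp (ext H s) : Representation ℂ _ _) := by
    intro ρ
    rw [← irreducible_comp_iff (res H s) hs]
    convert ρ.2.1 using 1
    ext1 g
    exact hf ρ g
  let Φ : IrrClass (∀ i, H i) n → {χ ∈ IrrChar (∀ i : s, H i) | χ 1 = n} :=
    Quot.lift (fun ρ => ⟨Representation.character (ρ.1.comp (ext H s)),
      ⟨_, _, _, inferInstance, _, hirr ρ, rfl⟩, by simp⟩) (by
        rintro ρ σ ⟨e⟩
        ext x
        exact congrFun (char_iso e) (ext H s x))
  have hΦ : Function.Bijective Φ := by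
    constructor
    · rintro ⟨ρ⟩ ⟨σ⟩ hρσ
      obtain ⟨e⟩ := equiv_of_char_eq (hirr ρ) (hirr σ) (congrArg Subtype.val hρσ)
      refine Quot.sound ⟨Representation.Equiv.mk e.toLinearEquiv (fun g => ?_)⟩
      rw [← hf ρ g, ← hf σ g]
      exact e.isIntertwining' (res H s g)
    · rintro ⟨_, ⟨V, _, _, _, τ, hτ, rfl⟩, h1⟩
      rw [char_one, Nat.cast_inj] at h1
      let e : V ≃ₗ[ℂ] (Fin n → ℂ) := LinearEquiv.ofFinrankEq _ _ (by simpa using h1)
      let τ' : Representation ℂ (∀ i : s, H i) (Fin n → ℂ) :=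
        (e.conjRingEquiv : Module.End ℂ V →* Module.End ℂ (Fin n → ℂ)).comp τ
      have he : ∀ g v, e (τ g v) = τ' g (e v) := fun g v => by simp [τ']
      refine ⟨Quot.mk _ ⟨τ'.comp (res H s), (irreducible_comp_iff _ hs _).2
        (irreducible_of_equiv e he hτ), fun v => ?_⟩, Subtype.ext ?_⟩
      · exact (continuous_of_discreteTopology (f := fun x => τ' x v)).comp
          (continuous_pi (fun i => continuous_apply _))
      · have h2 := char_iso (Representation.Equiv.mk (ρ := τ) (σ := τ') e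
          (fun g => LinearMap.ext (he g)))
        ext x
        change τ'.character (res H s (ext H s x)) = _
        rw [res_ext, ← h2]
  have hfin : Finite {χ ∈ IrrChar (∀ i : s, H i) | χ 1 = n} :=
    irrChar_finite.subset (Set.sep_subset _ _)
  exact ⟨Finite.of_injective Φ hΦ.1, by
    rw [Nat.card_eq_of_bijective Φ hΦ, irrCount, Nat.card_coe_set_eq]⟩

omit [∀ i, DiscreteTopology (H i)] in
lemma fab [∀ i, IsTopologicalGroup (H i)] (h : ∀ i, commutator (H i) = ⊤)
    (U : Subgroup (∀ i, H i)) (hU : IsOpen (U : Set (∀ i, H i))) :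
    Finite (TopologicalAbelianization U) := by
  obtain ⟨s, u, hu, hsu⟩ := isOpen_pi_iff.1 hU 1 U.one_mem'
  have h1 : ∀ g : ∀ i, H i, (∀ i ∈ s, g i = 1) → g ∈ U := fun g hg =>
    hsu (fun i hi => by rw [hg i hi]; exact (hu i hi).2)
  have h2 : ∀ g : ∀ i, H i, (∀ i ∈ s, g i = 1) →
      g ∈ (commutator U).topologicalClosure.map U.subtype := by
    refine tail_mem _ ?_ s (fun i hi x => ?_)
    · exact (IsClosed.isClosedEmbedding_subtypeVal (U.isClosed_of_isOpen hU)).isClosedMap _
        (Subgroup.isClosed_topologicalClosure (commutator U))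
    · let φ : H i →* U := (MonoidHom.mulSingle H i).codRestrict U
        (fun x => h1 _ (fun j hj => Pi.mulSingle_eq_of_ne (ne_of_mem_of_not_mem hj hi) x))
      refine ⟨φ x, Subgroup.le_topologicalClosure _ ?_, rfl⟩
      have h3 : φ x ∈ (commutator (H i)).map φ := ⟨x, by simp [h i], rfl⟩
      rw [map_commutator_eq] at h3
      exact Subgroup.commutator_mono le_top le_top h3
  have h3 : ((res H s).comp U.subtype).ker
      ≤ (commutator U).topologicalClosure := by
    intro g hg
    obtain ⟨k, hk, hkg⟩ := h2 g.1 (fun i hi => congrFun hg ⟨i, hi⟩)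
    rwa [← Subtype.ext hkg]
  have := Subgroup.finiteIndex_of_le h3
  infer_instance

omit [∀ i, DiscreteTopology (H i)] [∀ i, Finite (H i)] in
/-- A subgroup that surjects onto each simple factor and separates the factors is dense. -/
lemma dense_of_separate [∀ i, IsTopologicalGroup (H i)] [∀ i, IsSimpleGroup (H i)]
    (h : ∀ i, commutator (H i) = ⊤) (K : Subgroup (∀ i, H i))
    (h1 : ∀ i, K.map (Pi.evalMonoidHom H i) = ⊤)
    (h2 : ∀ i j, i ≠ j → ∃ k ∈ K, k i ≠ 1 ∧ k j = 1) : K.topologicalClosure = ⊤ := by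
  have h3 : ∀ i j, i ≠ j →
      (K ⊓ (Pi.evalMonoidHom H j).ker).map (Pi.evalMonoidHom H i) = ⊤ := by
    intro i j hij
    have hn : ((K ⊓ (Pi.evalMonoidHom H j).ker).map (Pi.evalMonoidHom H i)).Normal := by
      constructor
      rintro _ ⟨k, ⟨hk, hk'⟩, rfl⟩ x
      obtain ⟨g, hg, rfl⟩ : x ∈ K.map (Pi.evalMonoidHom H i) := by simp [h1 i]
      exact ⟨g * k * g⁻¹, ⟨K.mul_mem (K.mul_mem hg hk) (K.inv_mem hg),
        (MonoidHom.normal_ker _).conj_mem k hk' g⟩, by simp⟩
    refine hn.eq_bot_or_eq_top.resolve_left (fun h0 => ?_)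
    obtain ⟨k, hk, hki, hkj⟩ := h2 i j hij
    exact hki (Subgroup.mem_bot.1 (h0 ▸ Subgroup.mem_map_of_mem (Pi.evalMonoidHom H i)
      (show k ∈ K ⊓ (Pi.evalMonoidHom H j).ker from ⟨hk, hkj⟩)))
  have h4 : ∀ i (t : Finset I), i ∉ t →
      (K ⊓ ⨅ j ∈ t, (Pi.evalMonoidHom H j).ker).map (Pi.evalMonoidHom H i) = ⊤ := by
    intro i t
    induction t using Finset.induction_on with
    | empty => simpa using h1 i
    | insert a t ha ih =>
      intro hi
      rw [Finset.mem_insert, not_or] at hi
      have h5 := h i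
      rw [commutator_def] at h5
      rw [eq_top_iff, ← h5]
      conv_lhs =>
        congr
        · rw [← h3 i a hi.1]
        · rw [← ih hi.2]
      rw [← Subgroup.map_commutator]
      refine Subgroup.map_mono (Subgroup.commutator_le.2 (fun x hx y hy => ?_))
      simp only [Subgroup.mem_inf, Subgroup.mem_iInf, MonoidHom.mem_ker, Finset.mem_insert,
        forall_eq_or_imp, commutatorElement_def, map_mul, map_inv] at hx hy ⊢
      refine ⟨K.mul_mem (K.mul_mem (K.mul_mem hx.1 hy.1) (K.inv_mem hx.1)) (K.inv_mem hy.1),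
        by simp [hx.2], fun j hj => by simp [hy.2 j hj]⟩
  rw [eq_top_iff]
  intro g _
  refine tail_mem _ K.isClosed_topologicalClosure ∅ (fun i _ x => ?_) g (by simp)
  have h5 : ∀ t : Finset I, ∃ k ∈ K, ∀ j ∈ t, k j = Pi.mulSingle (M := H) i x j := by
    intro t
    obtain ⟨k, hk, rfl⟩ : x ∈ (K ⊓ ⨅ j ∈ t.erase i, (Pi.evalMonoidHom H j).ker).map
        (Pi.evalMonoidHom H i) := by
      rw [h4 i (t.erase i) (by simp)]
      trivial
    simp only [Subgroup.coe_inf, Set.mem_inter_iff, SetLike.mem_coe, Subgroup.mem_iInf,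
      MonoidHom.mem_ker] at hk
    refine ⟨k, hk.1, fun j hj => ?_⟩
    by_cases hji : j = i
    · subst hji
      simp
    · rw [Pi.mulSingle_eq_of_ne hji]
      exact hk.2 j (Finset.mem_erase.2 ⟨hji, hj⟩)
  choose k hk hk' using h5
  refine mem_closure_of_tendsto (b := atTop) (f := k) ?_ (Eventually.of_forall hk)
  rw [tendsto_pi_nhds]
  intro j
  refine tendsto_const_nhds.congr' ?_
  filter_upwards [eventually_ge_atTop {j}] with t ht
  exact (hk' t j (ht (Finset.mem_singleton_self j))).symm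

lemma exists_equiv_of_ker {K S T : Type} [Group K] [Group S] [Group T] [IsSimpleGroup S]
    [Nontrivial T] {p : K →* S} {q : K →* T} (hp : Function.Surjective p)
    (hq : Function.Surjective q) (h : p.ker ≤ q.ker) :
    ∃ φ : S →* T, Function.Bijective φ ∧ ∀ k, φ (p k) = q k := by
  let φ := MonoidHom.liftOfSurjective p hp ⟨q, h⟩
  have hφ : ∀ k, φ (p k) = q k := fun k => MonoidHom.liftOfRightInverse_comp_apply ..
  refine ⟨φ, ⟨?_, fun y => ?_⟩, hφ⟩
  · rw [← MonoidHom.ker_eq_bot_iff]
    refine φ.normal_ker.eq_bot_or_eq_top.resolve_right (fun h0 => ?_)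
    obtain ⟨y, hy⟩ := exists_ne (1 : T)
    obtain ⟨k, rfl⟩ := hq y
    exact hy ((hφ k).symm.trans (MonoidHom.mem_ker.1 (h0 ▸ Subgroup.mem_top (p k))))
  · obtain ⟨k, rfl⟩ := hq y
    exact ⟨p k, hφ k⟩

end Pool.Agent.MP_810665_al

end

section

namespace Pool.Agent.MP_810665_al

open Representation Module Equiv Equiv.Perm

lemma exists_gens (j : ℕ) : ∃ γ : Fin 4 → alternatingGroup (Fin (j + 1)),
    Subgroup.closure (Set.range γ) = ⊤ := by
  classical
  rcases j with _ | j
  · refine ⟨1, eq_top_iff.2 (fun x _ => ?_)⟩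
    rw [show x = 1 from Subtype.ext (Equiv.ext (fun i => Fin.ext (by omega)))]
    exact Subgroup.one_mem _
  have h1 := closure_cycle_adjacent_swap (isCycle_finRotate (n := j)) support_finRotate 0
  obtain ⟨T, hT, hT'⟩ := (alternatingGroup (Fin (j + 2))).exists_finset_card_le_mul
    (S := {finRotate (j + 2), swap 0 (finRotate (j + 2) 0)}) (by simpa using h1)
  rw [alternatingGroup.index_eq_two] at hT
  have h2 : T.card ≤ 4 := hT.trans (Nat.mul_le_mul_left 2 Finset.card_le_two)
  obtain ⟨e⟩ : Nonempty (T ↪ Fin 4) := Function.Embedding.nonempty_of_card_le (by simpa using h2)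
  refine ⟨Function.extend e Subtype.val 1, ?_⟩
  rw [eq_top_iff, ← hT']
  exact Subgroup.closure_mono (fun x hx => ⟨e ⟨x, hx⟩, e.injective.extend_apply _ _ _⟩)

lemma pow_le_card {j : ℕ} (hj : 4096 ≤ j) :
    j ^ 116 ≤ Fintype.card (alternatingGroup (Fin (j + 1))) := by
  have : Nontrivial (Fin (j + 1)) := Fin.nontrivial_iff_two_le.2 (by omega)
  have h1 := two_mul_card_alternatingGroup (α := Fin (j + 1))
  rw [Fintype.card_perm, Fintype.card_fin] at h1
  obtain ⟨t, ht, ht'⟩ : ∃ t, t * t ≤ j + 1 ∧ j + 1 < (t + 1) * (t + 1) :=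
    ⟨(j + 1).sqrt, Nat.sqrt_le _, Nat.lt_succ_sqrt _⟩
  have h64 : 64 ≤ t := by nlinarith
  have h3 : j * j ≤ t ^ 5 := by
    have : j ≤ 2 * (t * t) := by nlinarith
    calc j * j ≤ (2 * (t * t)) * (2 * (t * t)) := Nat.mul_le_mul this this
      _ = 4 * t ^ 4 := by ring
      _ ≤ t * t ^ 4 := Nat.mul_le_mul_right _ (by omega)
      _ = t ^ 5 := by ring
  have h5 := Nat.factorial_le (show t + 291 ≤ j + 1 by nlinarith)
  have h2 : t ^ 291 ≤ (j + 1).factorial :=
    (Nat.pow_le_pow_left (Nat.le_succ t) 291).trans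
      ((Nat.le_mul_of_pos_left _ (Nat.factorial_pos t)).trans
        (Nat.factorial_mul_pow_le_factorial.trans h5))
  have h4 : 2 * j ^ 116 ≤ t ^ 291 :=
    calc 2 * j ^ 116 = 2 * (j * j) ^ 58 := by ring
      _ ≤ t * (t ^ 5) ^ 58 := Nat.mul_le_mul (le_trans (by norm_num) h64)
        (Nat.pow_le_pow_left h3 _)
      _ = t ^ 291 := by ring
  exact Nat.le_of_mul_le_mul_left ((h4.trans h2).trans h1.ge) two_pos

theorem exists_group : ∃ G : ProfiniteGrp.{0}, Infinite G ∧
    (∃ S : Finset G, (Subgroup.closure (S : Set G)).topologicalClosure = ⊤) ∧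
    (∀ U : Subgroup G, IsOpen (U : Set G) → Finite (TopologicalAbelianization U)) ∧
    (∀ n, Finite (IrrClass G n)) ∧
    ∃ a : ArithmeticFunction ℤ, (∀ n, a n = Nat.card (IrrClass G n)) ∧
      (∀ n, a n ≤ n ^ 116) ∧ (1 - DD) * a = 1 := by
  classical
  obtain ⟨f, hf0, hf1, hf⟩ := exists_mult
    (Z := fun j => zetaAF (alternatingGroup (Fin (j + 1)))) (fun j hj => good_alt hj)
  let I : Type := Σ j, Fin (f j)
  let H : I → Type := fun i => alternatingGroup (Fin (i.1 + 1))
  let _ : ∀ i, TopologicalSpace (H i) := fun _ => ⊥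
  have : ∀ i, DiscreteTopology (H i) := fun _ => ⟨rfl⟩
  have : ∀ i, IsTopologicalGroup (H i) := fun _ =>
    { continuous_mul := continuous_of_discreteTopology
      continuous_inv := continuous_of_discreteTopology }
  have hI : ∀ i : I, 4096 ≤ i.1 := by
    rintro ⟨j, a⟩
    by_contra h
    have := hf0 j (by simpa using h)
    have := a.2
    omega
  have h5 : ∀ i : I, 5 ≤ Nat.card (Fin (i.1 + 1)) := fun i => by
    have := hI i
    simp only [Nat.card_eq_fintype_card, Fintype.card_fin]
    omega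
  have : ∀ i, IsSimpleGroup (H i) := fun i => alternatingGroup.isSimpleGroup (h5 i)
  have hperf : ∀ i, commutator (H i) = ⊤ := fun i => commutator_alternatingGroup_eq_top (h5 i)
  have hcount : ∀ n M, 4 * n + 5 ≤ M → Finite (IrrClass (∀ i, H i) n) ∧
      (Nat.card (IrrClass (∀ i, H i) n) : ℤ) =
        (∏ j ∈ Finset.range M, zetaAF (alternatingGroup (Fin (j + 1))) ^ f j) n := by
    intro n M hM
    obtain ⟨h1, h2⟩ := card_irrClass (H := H) (n := n)
      ((Finset.range M).sigma (fun _ => Finset.univ)) (fun i hi ρ => by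
        have := hI i
        have : M ≤ i.1 := not_lt.1 (fun h =>
          hi (Finset.mem_sigma.2 ⟨Finset.mem_range.2 h, Finset.mem_univ _⟩))
        exact trivial_of_small (by simp; omega) (by simp; omega))
    refine ⟨h1, ?_⟩
    rw [h2, ← zetaAF_apply, zetaAF_pi, Finset.prod_coe_sort _ (fun i : I => zetaAF (H i)),
      Finset.prod_sigma]
    refine congrArg (fun z : ArithmeticFunction ℤ => z n) (Finset.prod_congr rfl (fun j _ => ?_))
    exact (Finset.prod_const (zetaAF (alternatingGroup (Fin (j + 1))))).trans (by simp)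
  refine ⟨ProfiniteGrp.of (∀ i, H i), ?_, ?_, fab hperf, fun n => (hcount n _ le_rfl).1,
    ⟨fun n => Nat.card (IrrClass (∀ i, H i) n), by simpa using (hcount 0 _ le_rfl).2⟩,
    fun n => rfl, fun n => ?_, ?_⟩
  · have : Infinite I := Infinite.of_injective
      (fun j : ℕ => (⟨j + 4096, ⟨0, (hf1 _ (by omega)).1⟩⟩ : I))
      (fun j k h => by simpa using congrArg Sigma.fst h)
    exact Pi.infinite_of_left
  · choose γ hγ using exists_gens
    have hc : ∀ j, Nonempty (Fin (f j) ↪ alternatingGroup (Fin (j + 1))) := by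
      intro j
      refine Function.Embedding.nonempty_of_card_le ?_
      rw [Fintype.card_fin]
      by_cases hj : 4096 ≤ j
      · exact (hf1 j hj).2.trans (pow_le_card hj)
      · rw [hf0 j (by omega)]
        exact Nat.zero_le _
    let c := fun j => (hc j).some
    let g : Option (Fin 4) → ∀ i, H i := fun o i => o.elim (c i.1 i.2) (γ i.1)
    let K := Subgroup.closure (Set.range g)
    have hg : ∀ o, g o ∈ K := fun o => Subgroup.subset_closure ⟨o, rfl⟩
    have h1 : ∀ i, K.map (Pi.evalMonoidHom H i) = ⊤ := by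
      intro i
      rw [eq_top_iff, ← hγ i.1, Subgroup.closure_le]
      rintro _ ⟨a, rfl⟩
      exact ⟨g (some a), hg _, rfl⟩
    have h2 : ∀ i, Function.Surjective ((Pi.evalMonoidHom H i).comp K.subtype) := by
      intro i x
      obtain ⟨k, hk, rfl⟩ : x ∈ K.map (Pi.evalMonoidHom H i) := by simp [h1 i]
      exact ⟨⟨k, hk⟩, rfl⟩
    refine ⟨Finset.univ.image g, ?_⟩
    rw [Finset.coe_image, Finset.coe_univ, Set.image_univ]
    refine dense_of_separate hperf K h1 (fun i i' hne => ?_)
    by_contra hcon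
    push Not at hcon
    obtain ⟨φ, hφ, hφ'⟩ := exists_equiv_of_ker (h2 i') (h2 i) (fun k hk => by
      by_contra h
      exact hcon k.1 k.2 h hk)
    have h3 := hI i
    have h4 := hI i'
    obtain ⟨j, a⟩ := i
    obtain ⟨j', a'⟩ := i'
    simp only at h3 h4
    obtain rfl : j = j' := by
      have h6 := Nat.card_eq_of_bijective φ hφ
      have : Nontrivial (Fin (j + 1)) := Fin.nontrivial_iff_two_le.2 (by omega)
      have : Nontrivial (Fin (j' + 1)) := Fin.nontrivial_iff_two_le.2 (by omega)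
      have h7 := two_mul_nat_card_alternatingGroup (α := Fin (j + 1))
      have h8 := two_mul_nat_card_alternatingGroup (α := Fin (j' + 1))
      rw [Nat.card_perm, Nat.card_eq_fintype_card (α := Fin _), Fintype.card_fin] at h7 h8
      have h9 : (j + 1).factorial = (j' + 1).factorial := by
        rw [← h7, ← h8]
        exact congrArg _ h6.symm
      have := (Nat.factorial_inj (by omega)).1 h9
      omega
    have h6 : φ = MonoidHom.id _ := MonoidHom.eq_of_eqOn_dense (hγ j) (by
      rintro _ ⟨b, rfl⟩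
      exact hφ' ⟨g (some b), hg _⟩)
    have h7 := hφ' ⟨g none, hg _⟩
    rw [h6] at h7
    exact hne (congrArg _ ((c j).injective h7).symm)
  · exact (hcount n (4 * n + 4096) (by omega)).2.trans_le ((hf _ (by omega)).2 n)
  · ext n
    rw [← (hf (4 * n + 4096) (by omega)).1 n (by omega), ArithmeticFunction.mul_apply,
      ArithmeticFunction.mul_apply]
    refine Finset.sum_congr rfl (fun x hx => ?_)
    have := Nat.divisor_le (Nat.snd_mem_divisors_of_mem_antidiagonal hx)
    rw [← (hcount x.2 _ (by omega)).2]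
    rfl

end Pool.Agent.MP_810665_al

end
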