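import Pool.Agent.Mg.F810665.G3babc3

section

open Matrix
open Classical

noncomputable section

namespace Pool.Agent.MP_8299d6_al.Up

open Pool.Agent.MP_810665_al (IrrChar)

variable {M : Type} [Ring M] [Fintype M] {τ : AddChar M ℂ} {J J' : NonUnitalSubring M}
  {L : M → M} {H : Subgroup Mˣ} {V : Type} [AddCommGroup V] [Module ℂ V]

/-- the elements of `H` in `1 + J` -/
def rt1U (J : NonUnitalSubring M) (H : Subgroup Mˣ) : Finset H :=
  Finset.univ.filter fun u => u.1 ∈ UU J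

def rt1J (J : NonUnitalSubring M) : Finset M := Finset.univ.filter (· ∈ J)

def rt1C (τ : AddChar M ℂ) (J : NonUnitalSubring M) (K : Subgroup Mˣ) (A : M) : Finset M :=
  Finset.univ.filter (· ∈ cls τ J K A)

/-- Fourier transform of a class -/
def rt1F (τ : AddChar M ℂ) (J : NonUnitalSubring M) (K : Subgroup Mˣ) (A y : M) : ℂ :=
  ∑ B ∈ rt1C τ J K A, τ (-(B * y))

lemma rt1_memU {u : H} : u ∈ rt1U J H ↔ (u.1 : M) - 1 ∈ J := by
  simp only [rt1U, Finset.mem_filter, Finset.mem_univ, true_and, mem_UU]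

lemma rt1_memJ {y : M} : y ∈ rt1J J ↔ y ∈ J := by
  simp only [rt1J, Finset.mem_filter, Finset.mem_univ, true_and]

lemma rt1_memC {K : Subgroup Mˣ} {A B : M} : B ∈ rt1C τ J K A ↔ B ∈ cls τ J K A := by
  simp only [rt1C, Finset.mem_filter, Finset.mem_univ, true_and]

lemma rt1_cardC (K : Subgroup Mˣ) (A : M) : (cls τ J K A).ncard = (rt1C τ J K A).card := by
  rw [← Set.ncard_coe_finset]
  congr 1
  ext B
  rw [Finset.mem_coe, rt1_memC]

lemma rt1_card_ne (K : Subgroup Mˣ) (A : M) : ((cls τ J K A).ncard : ℂ) ≠ 0 := by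
  rw [rt1_cardC]
  exact_mod_cast (Finset.card_pos.2 ⟨A, rt1_memC.2 (self_mem_cls J K A)⟩).ne'

lemma rt1_N : (Nat.card M : ℂ) ≠ 0 := by exact_mod_cast (Nat.card_pos (α := M)).ne'

lemma rt1_EE (ρ : Representation ℂ H V) (A : M) : EE τ J J' L H ρ A = (Nat.card M : ℂ)⁻¹ •
    ∑ u ∈ rt1U J H, rt1F τ J (UU J') A (L ((u.1 : M) - 1)) • ρ u := by
  unfold EE rt1U rt1F rt1C
  congr 1
  rw [Finset.sum_comm, Finset.sum_filter]
  refine Finset.sum_congr rfl fun u _ => ?_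
  by_cases hu : u.1 ∈ UU J
  · simp only [hu, and_true, if_true]
    rw [Finset.sum_smul, Finset.sum_filter]
  · simp only [hu, and_false, if_false, Finset.sum_const_zero]

lemma rt1_fc (χ : H → ℂ) (A : M) :
    fc τ J L H χ A = ∑ u ∈ rt1U J H, χ u * τ (-(A * L ((u.1 : M) - 1))) := by
  unfold fc rt1U
  rw [Finset.sum_filter]

lemma rt1_tau (A : M) : ∑ y ∈ rt1J J, τ (A * y) =
    if A ∈ perp τ J.toAddSubgroup then (Nat.card J.toAddSubgroup : ℂ) else 0 := by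
  rw [← sum_tau]
  exact Finset.sum_subtype (p := fun y => y ∈ J.toAddSubgroup) _ (fun _ => rt1_memJ)
    fun y => τ (A * y)

omit [Fintype M] in
lemma rt1_cj_inv (g : Mˣ) (A : M) : cj g (cj g⁻¹ A) = A := by
  rw [← cj_mul, mul_inv_cancel, cj_one]

omit [Fintype M] in
lemma rt1_cj_neg (g : Mˣ) (A : M) : cj g (-A) = -cj g A := by
  simp only [cj, mul_neg, neg_mul]

omit [Fintype M] in
lemma rt1_cj_unit (g u : Mˣ) : ((g * u * g⁻¹ : Mˣ) : M) - 1 = cj g ((u : M) - 1) := by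
  simp only [cj, Units.val_mul, mul_sub, sub_mul, mul_one, Units.mul_inv]

omit [Fintype M] in
lemma rt1_tau_cj (h : Frob τ) (g : Mˣ) (B y : M) : τ (-(cj g B * cj g y)) = τ (-(B * y)) := by
  rw [cj_mul_cj, ← rt1_cj_neg, h.tau_cj]

omit [Fintype M] in
lemma rt1_coset {K : Subgroup Mˣ} {A B B' : M} (hB : B ∈ cls τ J K A)
    (hp : B' - B ∈ perp τ J.toAddSubgroup) : B' ∈ cls τ J K A := by
  obtain ⟨g, hg, h1⟩ := hB
  refine ⟨g, hg, ?_⟩
  have := add_mem hp h1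
  rwa [sub_add_sub_cancel] at this

omit [Fintype M] in
lemma rt1_neg {K : Subgroup Mˣ} {A B : M} (hB : B ∈ cls τ J K A) : -B ∈ cls τ J K (-A) := by
  obtain ⟨g, hg, h1⟩ := hB
  refine ⟨g, hg, ?_⟩
  have := neg_mem h1
  rwa [rt1_cj_neg, neg_sub_neg, ← neg_sub]

lemma Sit.rt1_norm (h : Sit τ J J' L H) : Norm (UU J') J := fun g hg => h.norm g (h.sub hg)

lemma Sit.rt1_cls (h : Sit τ J J' L H) {A B : M} (hB : B ∈ cls τ J (UU J') A) :
    cls τ J (UU J') B = cls τ J (UU J') A := h.frob.cls_eq h.rt1_norm hB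

lemma Sit.rt1_symm (h : Sit τ J J' L H) {A B : M} (hB : B ∈ cls τ J (UU J') A) :
    A ∈ cls τ J (UU J') B := by
  rw [h.rt1_cls hB]
  exact self_mem_cls _ _ _

lemma Sit.rt1_C (h : Sit τ J J' L H) {A B : M} (hB : B ∈ cls τ J (UU J') A) :
    rt1C τ J (UU J') B = rt1C τ J (UU J') A := by
  unfold rt1C
  rw [h.rt1_cls hB]

lemma Sit.rt1_bij0 (h : Sit τ J J' L H) :
    Set.BijOn (fun u : H => (u.1 : M) - 1) (rt1U J H) J := by
  refine ⟨fun u hu => rt1_memU.1 hu, fun u _ v _ e => ?_, fun x hx => ?_⟩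
  · exact Subtype.ext (Units.ext (sub_left_injective e))
  · obtain ⟨u, hu⟩ := h.om.unit x hx
    have h1 : (u : M) - 1 = x := by rw [hu, add_sub_cancel_left]
    have h2 : u ∈ H := h.sub (mem_UU.2 (h.le (h1 ▸ hx)))
    exact ⟨⟨u, h2⟩, rt1_memU.2 (h1 ▸ hx), h1⟩

lemma Sit.rt1_bij (h : Sit τ J J' L H) :
    Set.BijOn (fun u : H => L ((u.1 : M) - 1)) (rt1U J H) J :=
  h.om.bij.comp h.rt1_bij0

lemma Sit.rt1_re (h : Sit τ J J' L H) {N : Type} [AddCommMonoid N] (f : M → N) :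
    ∑ u ∈ rt1U J H, f (L ((u.1 : M) - 1)) = ∑ y ∈ rt1J J, f y := by
  refine Finset.sum_nbij (fun u : H => L ((u.1 : M) - 1))
    (fun u hu => rt1_memJ.2 (h.rt1_bij.mapsTo hu)) h.rt1_bij.injOn (fun y hy => ?_)
    fun _ _ => rfl
  exact h.rt1_bij.surjOn (rt1_memJ.1 hy)

lemma Sit.rt1_L (h : Sit τ J J' L H) (g : H) {u : H} (hu : u ∈ rt1U J H) :
    g * u * g⁻¹ ∈ rt1U J H ∧
      L (((g * u * g⁻¹ : H).1 : M) - 1) = cj g.1 (L ((u.1 : M) - 1)) := by
  have h1 : (((g * u * g⁻¹ : H).1 : Mˣ) : M) - 1 = cj g.1 ((u.1 : M) - 1) := rt1_cj_unit g.1 u.1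
  have h2 := h.norm g.1 g.2 _ (rt1_memU.1 hu)
  refine ⟨rt1_memU.2 (h1 ▸ h2), ?_⟩
  rw [h1]
  exact h.om.conj _ _ (rt1_memU.1 hu) h2

/-- conjugation permutes the elements of `1 + J` -/
lemma Sit.rt1_conj (h : Sit τ J J' L H) (g : H) {N : Type} [AddCommMonoid N] (f : H → N) :
    ∑ u ∈ rt1U J H, f (g * u * g⁻¹) = ∑ u ∈ rt1U J H, f u := by
  refine Finset.sum_nbij' (fun u => g * u * g⁻¹) (fun u => g⁻¹ * u * g⁻¹⁻¹)
    (fun u hu => (h.rt1_L g hu).1) (fun u hu => (h.rt1_L g⁻¹ hu).1) (fun u _ => ?_)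
    (fun u _ => ?_) fun _ _ => rfl
  · group
  · group

lemma Sit.rt1_F (h : Sit τ J J' L H) {g : Mˣ} (hg : g ∈ H) (A y : M) :
    rt1F τ J (UU J') (cj g A) (cj g y) = rt1F τ J (UU J') A y := by
  unfold rt1F
  symm
  refine Finset.sum_nbij' (cj g) (cj g⁻¹) (fun B hB => ?_) (fun B hB => ?_) (fun B _ => ?_)
    (fun B _ => rt1_cj_inv g B) fun B _ => (rt1_tau_cj h.frob g B y).symm
  · exact rt1_memC.2 ((h.cj_cls hg).2 (rt1_memC.1 hB))
  · refine rt1_memC.2 ((h.cj_cls hg).1 ?_)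
    rw [rt1_cj_inv]
    exact rt1_memC.1 hB
  · rw [← cj_mul, inv_mul_cancel, cj_one]

lemma Sit.rt1_F' (h : Sit τ J J' L H) {g : Mˣ} (hg : g ∈ UU J') (A y : M) :
    rt1F τ J (UU J') A (cj g y) = rt1F τ J (UU J') A y := by
  rw [← h.rt1_F (h.sub hg) A y]
  have h1 : cj g A ∈ cls τ J (UU J') A := ⟨g, hg, by rw [sub_self]; exact zero_mem _⟩
  unfold rt1F
  rw [h.rt1_C h1]

lemma Sit.rt1_cnt (h : Sit τ J J' L H) (A B : M) :
    ∑ A' ∈ rt1C τ J (UU J') A, ∑ y ∈ rt1J J, τ ((B - A') * y) =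
      if B ∈ cls τ J (UU J') A then (Nat.card M : ℂ) else 0 := by
  simp only [rt1_tau]
  split_ifs with hB
  · rw [Finset.sum_subset (Finset.subset_univ _) fun A' _ hA' => if_neg fun hp =>
      hA' (rt1_memC.2 (rt1_coset hB (by rw [← neg_sub]; exact neg_mem hp)))]
    rw [← h.frob.card_perp J.toAddSubgroup]
    refine (Equiv.sum_comp (Equiv.subLeft B) fun P =>
      if P ∈ perp τ J.toAddSubgroup then (Nat.card J.toAddSubgroup : ℂ) else 0).trans ?_
    rw [← Finset.sum_filter, Finset.sum_const, nsmul_eq_mul, mul_comm, Nat.cast_mul]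
    congr 2
    rw [Nat.card_eq_fintype_card, Fintype.card_subtype]
  · exact Finset.sum_eq_zero fun A' hA' => if_neg fun hp => hB (rt1_coset (rt1_memC.1 hA') hp)

lemma Sit.rt1_conv (h : Sit τ J J' L H) (A B z : M) :
    ∑ y ∈ rt1J J, rt1F τ J (UU J') A y * rt1F τ J (UU J') B (z - y) =
      if B ∈ cls τ J (UU J') A then (Nat.card M : ℂ) * rt1F τ J (UU J') A z else 0 := by
  have h1 : ∑ y ∈ rt1J J, rt1F τ J (UU J') A y * rt1F τ J (UU J') B (z - y) =
      ∑ B' ∈ rt1C τ J (UU J') B, τ (-(B' * z)) *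
        ∑ A' ∈ rt1C τ J (UU J') A, ∑ y ∈ rt1J J, τ ((B' - A') * y) := by
    unfold rt1F
    simp only [Finset.mul_sum, Finset.sum_mul]
    rw [Finset.sum_comm]
    refine Finset.sum_congr rfl fun B' _ => ?_
    rw [Finset.sum_comm]
    refine Finset.sum_congr rfl fun A' _ => Finset.sum_congr rfl fun y _ => ?_
    rw [← AddChar.map_add_eq_mul, ← AddChar.map_add_eq_mul]
    congr 1
    noncomm_ring
  rw [h1]
  simp only [h.rt1_cnt]
  split_ifs with hB
  · unfold rt1F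
    rw [h.rt1_C hB, Finset.mul_sum]
    refine Finset.sum_congr rfl fun B' hB' => ?_
    rw [if_pos (rt1_memC.1 hB'), mul_comm]
  · refine Finset.sum_eq_zero fun B' hB' => ?_
    rw [if_neg, mul_zero]
    intro hc
    apply hB
    rw [← h.rt1_cls hc]
    exact h.rt1_symm (rt1_memC.1 hB')

theorem Sit.E_mul (h : Sit τ J J' L H) (ρ : Representation ℂ H V) (A B : M) :
    EE τ J J' L H ρ A * EE τ J J' L H ρ B =
      if B ∈ cls τ J (UU J') A then EE τ J J' L H ρ A else 0 := by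
  obtain ⟨g, k, hk, hinj⟩ := h.om.kv
  obtain ⟨w, hw⟩ : ∃ w : M → H, ∀ u ∈ rt1U J H, w (L ((u.1 : M) - 1)) = u :=
    ⟨_, fun u hu => h.rt1_bij.injOn.leftInvOn_invFunOn hu⟩
  have hΦ : Set.BijOn (fun z : M × M => (cj (g z.1 z.2) (L z.1), cj (k z.1 z.2) (L z.2)))
      ((J : Set M) ×ˢ (J : Set M)) ((J : Set M) ×ˢ (J : Set M)) := by
    refine ((Set.toFinite _).injOn_iff_bijOn_of_mapsTo fun z hz => ?_).1 hinj
    obtain ⟨a1, a2, -⟩ := hk z.1 hz.1 z.2 hz.2
    exact ⟨h.rt1_norm _ a1 _ (h.om.bij.mapsTo hz.1), h.rt1_norm _ a2 _ (h.om.bij.mapsTo hz.2)⟩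
  have hΨ := hΦ.comp (h.rt1_bij0.prodMap h.rt1_bij0)
  have h1 : ∑ u ∈ rt1U J H, ∑ v ∈ rt1U J H, (rt1F τ J (UU J') A (L ((u.1 : M) - 1)) *
      rt1F τ J (UU J') B (L ((v.1 : M) - 1))) • ρ (u * v) =
      ∑ y ∈ rt1J J, ∑ y' ∈ rt1J J,
        (rt1F τ J (UU J') A y * rt1F τ J (UU J') B y') • ρ (w (y + y')) := by
    rw [← Finset.sum_product', ← Finset.sum_product']
    refine Finset.sum_nbij _ (fun p hp => ?_) (by rw [Finset.coe_product]; exact hΨ.injOn)
      (fun q hq => ?_) fun p hp => ?_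
    · have := hΨ.mapsTo (Finset.mem_product.1 hp)
      exact Finset.mem_product.2 ⟨rt1_memJ.2 this.1, rt1_memJ.2 this.2⟩
    · rw [Finset.coe_product]
      have := Finset.mem_product.1 hq
      exact hΨ.surjOn ⟨rt1_memJ.1 this.1, rt1_memJ.1 this.2⟩
    · obtain ⟨p1, p2⟩ := Finset.mem_product.1 hp
      obtain ⟨a1, a2, a3⟩ := hk _ (rt1_memU.1 p1) _ (rt1_memU.1 p2)
      have a4 : (((p.1 * p.2 : H).1 : Mˣ) : M) - 1 = ((p.1.1 : M) - 1) + ((p.2.1 : M) - 1) +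
          ((p.1.1 : M) - 1) * ((p.2.1 : M) - 1) := by
        rw [Subgroup.coe_mul, Units.val_mul]
        noncomm_ring
      have a5 : p.1 * p.2 ∈ rt1U J H := by
        rw [rt1_memU, a4]
        exact add_mem (add_mem (rt1_memU.1 p1) (rt1_memU.1 p2))
          (mul_mem (rt1_memU.1 p1) (rt1_memU.1 p2))
      have a6 := hw _ a5
      rw [a4, a3] at a6
      simp only [Function.comp]
      rw [h.rt1_F' a1, h.rt1_F' a2, a6]
  have h2 : ∀ y ∈ rt1J J, ∑ y' ∈ rt1J J,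
      (rt1F τ J (UU J') A y * rt1F τ J (UU J') B y') • ρ (w (y + y')) =
      ∑ z ∈ rt1J J, (rt1F τ J (UU J') A y * rt1F τ J (UU J') B (z - y)) • ρ (w z) := by
    intro y hy
    refine Finset.sum_nbij' (fun y' => y + y') (fun z => z - y) (fun a ha => ?_) (fun a ha => ?_)
      (fun a _ => add_sub_cancel_left y a) (fun a _ => add_sub_cancel y a) fun a _ => ?_
    · exact rt1_memJ.2 (add_mem (rt1_memJ.1 hy) (rt1_memJ.1 ha))
    · exact rt1_memJ.2 (sub_mem (rt1_memJ.1 ha) (rt1_memJ.1 hy))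
    · rw [add_sub_cancel_left]
  have h3 : ∑ u ∈ rt1U J H, rt1F τ J (UU J') A (L ((u.1 : M) - 1)) • ρ u =
      ∑ z ∈ rt1J J, rt1F τ J (UU J') A z • ρ (w z) := by
    rw [← h.rt1_re fun z => rt1F τ J (UU J') A z • ρ (w z)]
    exact Finset.sum_congr rfl fun u hu => by rw [hw u hu]
  rw [rt1_EE, rt1_EE, smul_mul_smul_comm, Finset.sum_mul_sum]
  simp only [smul_mul_smul_comm, ← map_mul]
  rw [h1, Finset.sum_congr rfl h2, Finset.sum_comm]
  simp only [← Finset.sum_smul, h.rt1_conv]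
  split_ifs with hB
  · simp only [mul_smul]
    rw [← Finset.smul_sum, inv_smul_smul₀ rt1_N, h3]
  · simp only [zero_smul, Finset.sum_const_zero, smul_zero]

theorem Sit.E_congr (h : Sit τ J J' L H) (ρ : Representation ℂ H V) {A B : M}
    (hB : B ∈ cls τ J (UU J') A) : EE τ J J' L H ρ B = EE τ J J' L H ρ A := by
  unfold EE
  rw [h.rt1_cls hB]

theorem Sit.E_conj (h : Sit τ J J' L H) (ρ : Representation ℂ H V) (g : H) (A : M) :
    ρ g * EE τ J J' L H ρ A = EE τ J J' L H ρ (cj g.1 A) * ρ g := by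
  rw [rt1_EE, rt1_EE, mul_smul_comm, smul_mul_assoc, Finset.mul_sum, Finset.sum_mul,
    ← h.rt1_conj g fun u => (rt1F τ J (UU J') (cj g.1 A) (L ((u.1 : M) - 1)) • ρ u) * ρ g]
  congr 1
  refine Finset.sum_congr rfl fun u hu => ?_
  rw [(h.rt1_L g hu).2, h.rt1_F g.2, mul_smul_comm, smul_mul_assoc, ← map_mul, ← map_mul,
    inv_mul_cancel_right]

lemma Sit.rt1_comb (h : Sit τ J J' L H) (ρ : Representation ℂ H V) (φ : M → ℂ)
    (hφ : ∀ A B, B ∈ cls τ J (UU J') A → φ B = φ A) :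
    ∑ A : M, (φ A * ((cls τ J (UU J') A).ncard : ℂ)⁻¹) • EE τ J J' L H ρ A =
      (Nat.card M : ℂ)⁻¹ •
        ∑ u ∈ rt1U J H, (∑ B : M, φ B * τ (-(B * L ((u.1 : M) - 1)))) • ρ u := by
  have h1 : ∀ y : M, ∑ A : M, (φ A * ((cls τ J (UU J') A).ncard : ℂ)⁻¹) * rt1F τ J (UU J') A y =
      ∑ B : M, φ B * τ (-(B * y)) := by
    intro y
    unfold rt1F
    simp only [Finset.mul_sum]
    rw [Finset.sum_comm' (t' := Finset.univ) (s' := fun B => rt1C τ J (UU J') B) fun A B => by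
      simp only [Finset.mem_univ, true_and, and_true, rt1_memC]
      exact ⟨h.rt1_symm, h.rt1_symm⟩]
    refine Finset.sum_congr rfl fun B _ => ?_
    rw [Finset.sum_congr rfl fun A hA => by
      rw [hφ B A (rt1_memC.1 hA), h.rt1_cls (rt1_memC.1 hA)]]
    rw [Finset.sum_const, nsmul_eq_mul, ← rt1_cardC]
    have := rt1_card_ne (τ := τ) (J := J) (UU J') B
    field_simp
  simp only [rt1_EE, ← h1, Finset.sum_smul, Finset.smul_sum]
  rw [Finset.sum_comm]
  refine Finset.sum_congr rfl fun u _ => Finset.sum_congr rfl fun A _ => ?_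
  rw [smul_comm, mul_smul (φ A * _)]

lemma Sit.rt1_all (h : Sit τ J J' L H) {u v : H} (hu : u ∈ rt1U J H) (hv : v ∈ rt1U J H) :
    ∑ A : M, τ (A * (L ((u.1 : M) - 1) - L ((v.1 : M) - 1))) =
      if v = u then (Nat.card M : ℂ) else 0 := by
  rw [h.frob.sum_all]
  refine if_congr ⟨fun e => h.rt1_bij.injOn hv hu (sub_eq_zero.1 e).symm, fun e => ?_⟩ rfl rfl
  rw [e, sub_self]

lemma rt1_one : (1 : H) ∈ rt1U J H := by
  rw [rt1_memU, Subgroup.coe_one, Units.val_one, sub_self]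
  exact zero_mem _

theorem Sit.E_sum (h : Sit τ J J' L H) (ρ : Representation ℂ H V) :
    ∑ A : M, (((cls τ J (UU J') A).ncard : ℂ))⁻¹ • EE τ J J' L H ρ A = 1 := by
  have h1 := h.rt1_comb ρ (fun _ => 1) fun _ _ _ => rfl
  simp only [one_mul] at h1
  rw [h1]
  have h2 : ∀ u ∈ rt1U J H, (∑ B : M, τ (-(B * L ((u.1 : M) - 1)))) • ρ u =
      if u = 1 then (Nat.card M : ℂ) • ρ u else 0 := by
    intro u hu
    have h3 := h.rt1_all rt1_one hu
    rw [Subgroup.coe_one, Units.val_one, sub_self, h.om.zero, zero_sub] at h3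
    simp only [mul_neg] at h3
    rw [h3, ite_smul, zero_smul]
  rw [Finset.sum_congr rfl h2, Finset.sum_ite_eq', if_pos rt1_one, inv_smul_smul₀ rt1_N, map_one]

lemma Sit.rt1_fc_inv (h : Sit τ J J' L H) {K : Subgroup Mˣ} (hK : K ≤ H) {χ : H → ℂ}
    (hχ : ∀ g u : H, g.1 ∈ K → χ (g * u * g⁻¹) = χ u) {A B : M} (hB : B ∈ cls τ J K A) :
    fc τ J L H χ B = fc τ J L H χ A := by
  obtain ⟨g, hg, hp⟩ := hB
  rw [rt1_fc, rt1_fc, ← h.rt1_conj ⟨g, hK hg⟩ fun u => χ u * τ (-(B * L ((u.1 : M) - 1)))]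
  refine Finset.sum_congr rfl fun u hu => ?_
  rw [(h.rt1_L ⟨g, hK hg⟩ hu).2, hχ _ _ hg, ← rt1_tau_cj h.frob g A]
  congr 1
  have h1 : cj g (L ((u.1 : M) - 1)) ∈ J := h.norm g (hK hg) _ (h.rt1_bij.mapsTo hu)
  have h2 := hp _ (neg_mem h1)
  rw [← mul_one (τ (-(cj g A * _))), ← h2, ← AddChar.map_add_eq_mul]
  congr 1
  noncomm_ring

theorem Sit.trace_E (h : Sit τ J J' L H) [FiniteDimensional ℂ V] (ρ : Representation ℂ H V)
    (A : M) : (Nat.card M : ℂ) * LinearMap.trace ℂ V (EE τ J J' L H ρ A) =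
      ((cls τ J (UU J') A).ncard : ℂ) * fc τ J L H ρ.character A := by
  rw [rt1_EE, map_smul, smul_eq_mul, mul_inv_cancel_left₀ rt1_N, map_sum, rt1_cardC,
    ← nsmul_eq_mul, ← Finset.sum_const, ← Finset.sum_congr rfl fun B hB =>
      h.rt1_fc_inv h.sub (fun g u _ => ρ.char_conj u g) (rt1_memC.1 hB)]
  simp only [rt1_fc]
  rw [Finset.sum_comm]
  refine Finset.sum_congr rfl fun u _ => ?_
  rw [map_smul, smul_eq_mul, ← Finset.mul_sum, mul_comm]
  rfl

lemma Sit.rt1_idem (h : Sit τ J J' L H) (ρ : Representation ℂ H V) (A : M) :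
    IsIdempotentElem (EE τ J J' L H ρ A) := by
  have := h.E_mul ρ A A
  rwa [if_pos (self_mem_cls _ _ _)] at this

theorem Sit.E_ne_zero (h : Sit τ J J' L H) [FiniteDimensional ℂ V] (ρ : Representation ℂ H V)
    (A : M) : EE τ J J' L H ρ A ≠ 0 ↔ A ∈ Sup τ J L H ρ.character := by
  have h1 := h.trace_E ρ A
  refine not_congr ?_
  rw [← LinearMap.IsIdempotentElem.trace_eq_zero_iff (h.rt1_idem ρ A)]
  constructor
  · intro e
    rw [e, mul_zero] at h1
    exact (mul_eq_zero.1 h1.symm).resolve_left (rt1_card_ne _ _)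
  · intro e
    rw [e, mul_zero] at h1
    exact (mul_eq_zero.1 h1).resolve_left rt1_N

theorem Sit.E_eq_one (h : Sit τ J J' L H) [FiniteDimensional ℂ V] (ρ : Representation ℂ H V)
    {A : M} (hA : Sup τ J L H ρ.character ⊆ cls τ J (UU J') A) : EE τ J J' L H ρ A = 1 := by
  rw [← mul_one (EE τ J J' L H ρ A), ← h.E_sum ρ, Finset.mul_sum]
  refine Finset.sum_congr rfl fun B _ => ?_
  rw [mul_smul_comm]
  congr 1
  by_cases hB : EE τ J J' L H ρ B = 0
  · rw [hB, mul_zero]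
  · have h1 := hA ((h.E_ne_zero ρ B).1 hB)
    rw [h.E_mul, if_pos h1, h.E_congr ρ h1]

lemma Sit.rt1_inv (h : Sit τ J J' L H) (χ : H → ℂ) {u : H} (hu : u ∈ rt1U J H) :
    (Nat.card M : ℂ) * χ u = ∑ A : M, fc τ J L H χ A * τ (A * L ((u.1 : M) - 1)) := by
  simp only [rt1_fc, Finset.sum_mul]
  rw [Finset.sum_comm]
  have h1 : ∀ v ∈ rt1U J H,
      ∑ A : M, χ v * τ (-(A * L ((v.1 : M) - 1))) * τ (A * L ((u.1 : M) - 1)) =
        if v = u then (Nat.card M : ℂ) * χ v else 0 := by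
    intro v hv
    rw [← zero_mul (χ v), ← ite_mul, ← h.rt1_all hu hv, Finset.sum_mul]
    refine Finset.sum_congr rfl fun A _ => ?_
    rw [mul_assoc, ← AddChar.map_add_eq_mul, mul_comm, mul_sub, neg_add_eq_sub]
  rw [Finset.sum_congr rfl h1, Finset.sum_ite_eq', if_pos hu]

/-- invariant functions act on a block by a scalar -/
theorem Sit.center (h : Sit τ J J' L H) (β : H → ℂ)
    (hβ : ∀ g u : H, g.1 ∈ UU J' → β (g * u * g⁻¹) = β u) (A : M) :
    ∃ c : ℂ, ∀ {V : Type} [AddCommGroup V] [Module ℂ V] (ρ : Representation ℂ H V),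
      (∑ u : H, if u.1 ∈ UU J then β u • ρ u else 0) * EE τ J J' L H ρ A
        = c • EE τ J J' L H ρ A := by
  refine ⟨∑ B : M, if A ∈ cls τ J (UU J') B then
    fc τ J L H β (-B) * ((cls τ J (UU J') B).ncard : ℂ)⁻¹ else 0, fun ρ => ?_⟩
  have h1 := h.rt1_comb ρ (fun B => fc τ J L H β (-B))
    fun _ _ hB => h.rt1_fc_inv h.sub hβ (rt1_neg hB)
  have h2 : ∀ u ∈ rt1U J H, (∑ B : M, fc τ J L H β (-B) * τ (-(B * L ((u.1 : M) - 1)))) • ρ u =
      (Nat.card M : ℂ) • β u • ρ u := by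
    intro u hu
    rw [← mul_smul, h.rt1_inv β hu, ← Equiv.sum_comp (Equiv.neg M)
      fun A => fc τ J L H β A * τ (A * L ((u.1 : M) - 1))]
    simp only [Equiv.neg_apply, neg_mul]
  rw [Finset.sum_congr rfl h2, ← Finset.smul_sum, inv_smul_smul₀ rt1_N] at h1
  rw [← Finset.sum_filter]
  refine (congrArg (· * EE τ J J' L H ρ A) h1.symm).trans ?_
  simp only [Finset.sum_mul, Finset.sum_smul]
  refine Finset.sum_congr rfl fun B _ => ?_
  rw [smul_mul_assoc, h.E_mul]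
  split_ifs with hB
  · rw [h.E_congr ρ hB]
  · rw [smul_zero, zero_smul]

/-- Fourier inversion -/
theorem Sit.inversion (h : Sit τ J J' L H) (χ : H → ℂ) (u : H) (hu : u.1 ∈ UU J) :
    (Nat.card M : ℂ) * χ u = ∑ A : M, fc τ J L H χ A * τ (A * L ((u.1 : M) - 1)) :=
  h.rt1_inv χ (rt1_memU.2 hu)

theorem Sit.sup_nonempty (h : Sit τ J J' L H) {χ : H → ℂ} (hχ : χ ∈ Irr H) :
    (Sup τ J L H χ).Nonempty := by
  obtain ⟨d, hd, h1⟩ := Pool.Agent.MP_810665_al.irr_one (mem_Irr.1 hχ)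
  by_contra hn
  have h2 := h.rt1_inv χ rt1_one
  rw [Finset.sum_eq_zero fun A _ => by
    rw [show fc τ J L H χ A = 0 from by_contra fun e => hn ⟨A, e⟩, zero_mul], h1] at h2
  exact mul_ne_zero rt1_N (by exact_mod_cast hd.ne') h2

theorem Sit.sup_stable (h : Sit τ J J' L H) {χ : H → ℂ} (hχ : χ ∈ Irr H) {A : M}
    (hA : A ∈ Sup τ J L H χ) : cls τ J H A ⊆ Sup τ J L H χ := by
  intro B hB
  show fc τ J L H χ B ≠ 0
  rw [h.rt1_fc_inv le_rfl
    (fun g u _ => Pool.Agent.MP_810665_al.irr_conj (mem_Irr.1 hχ) u g) hB]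
  exact hA

open ComplexOrder in
lemma Sit.rt1_nonneg (h : Sit τ J J' L H) {χ : H → ℂ} (hχ : χ ∈ Irr H) (A : M) :
    0 ≤ fc τ J L H χ A := by
  obtain ⟨V, _, _, _, ρ, -, rfl⟩ := mem_Irr.1 hχ
  have h1 := h.trace_E ρ A
  rw [(LinearMap.IsIdempotentElem.isProj_range _ (h.rt1_idem ρ A)).trace] at h1
  rw [← inv_mul_cancel_left₀ (rt1_card_ne (τ := τ) (J := J) (UU J') A)
    (fc τ J L H ρ.character A), ← h1]
  exact mul_nonneg (inv_nonneg.2 (Nat.cast_nonneg _))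
    (mul_nonneg (Nat.cast_nonneg _) (Nat.cast_nonneg _))

open ComplexOrder in
theorem Sit.sup_mono (h : Sit τ J J' L H) {J₀ J₀' : NonUnitalSubring M} (h₀ : Sit τ J₀ J₀' L H)
    (hle : J₀ ≤ J) {χ : H → ℂ} (hχ : χ ∈ Irr H) : Sup τ J L H χ ⊆ Sup τ J₀ L H χ := by
  intro A hA e
  have h1 : (Nat.card M : ℂ) * fc τ J₀ L H χ A = ∑ B : M, fc τ J L H χ B *
      if B - A ∈ perp τ J₀.toAddSubgroup then (Nat.card J₀.toAddSubgroup : ℂ) else 0 := by
    have h2 : ∀ B : M, (if B - A ∈ perp τ J₀.toAddSubgroup then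
        (Nat.card J₀.toAddSubgroup : ℂ) else 0) =
        ∑ u ∈ rt1U J₀ H, τ ((B - A) * L ((u.1 : M) - 1)) := fun B => by
      rw [h₀.rt1_re fun y => τ ((B - A) * y), rt1_tau]
    simp only [h2, Finset.mul_sum]
    rw [Finset.sum_comm, rt1_fc, Finset.mul_sum]
    refine Finset.sum_congr rfl fun u hu => ?_
    rw [← mul_assoc, h.rt1_inv χ (rt1_memU.2 (hle (rt1_memU.1 hu))), Finset.sum_mul]
    refine Finset.sum_congr rfl fun B _ => ?_
    rw [mul_assoc, ← AddChar.map_add_eq_mul, sub_mul, sub_eq_add_neg (B * _)]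
  rw [e, mul_zero] at h1
  have h3 := (Finset.sum_eq_zero_iff_of_nonneg fun B _ => mul_nonneg (h.rt1_nonneg hχ B) (by
    split_ifs
    · exact Nat.cast_nonneg _
    · exact le_rfl)).1 h1.symm A (Finset.mem_univ A)
  rw [sub_self, if_pos (zero_mem _)] at h3
  refine mul_ne_zero hA ?_ h3
  exact_mod_cast (Nat.card_pos (α := J₀.toAddSubgroup)).ne'

end Pool.Agent.MP_8299d6_al.Up

end
end

section

open Matrix

noncomputable section

namespace Pool.Agent.MP_8299d6_al.Up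

open Pool.Agent.MP_810665_al (IrrChar)

section abstract
open Pool.Agent.MP_810665_al

variable {G S V : Type} [Group G] [Fintype G] [Group S] [Finite S] [AddCommGroup V] [Module ℂ V]
  [FiniteDimensional ℂ V]

/-- the induced class function -/
def rt2_ind (ι : S →* G) (ψ : S → ℂ) (g : G) : ℂ :=
  (Nat.card S : ℂ)⁻¹ * ∑ t : G, Function.extend ι ψ 0 (t⁻¹ * g * t)

omit [Finite S] in
lemma rt2_ind_one (ι : S →* G) (hι : Function.Injective ι) (ψ : S → ℂ) :
    ‖rt2_ind ι ψ 1‖ = (Nat.card G : ℝ) / Nat.card S * ‖ψ 1‖ := by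
  have h1 : Function.extend ι ψ 0 (1 : G) = ψ 1 := by
    rw [← map_one ι, hι.extend_apply]
  simp only [rt2_ind, mul_one, inv_mul_cancel, h1, Finset.sum_const, Finset.card_univ,
    nsmul_eq_mul, norm_mul, norm_inv, Complex.norm_natCast, Nat.card_eq_fintype_card (α := G)]
  ring

lemma rt2_avg (ι : S →* G) (hι : Function.Injective ι) {ρ : Representation ℂ G V}
    (hρ : ρ.IsIrreducible) {E : Module.End ℂ V} (hE : E ≠ 0) (hEE : E * E = E)
    (h1 : ∀ s, ρ (ι s) * E = E * ρ (ι s)) (h2 : ∀ g ∉ Set.range ι, E * ρ g * E = 0) :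
    ∑ t : G, ρ t * E * ρ t⁻¹ = (Nat.card S : ℂ) • (1 : Module.End ℂ V) := by
  obtain ⟨c, hc⟩ := schur hρ (∑ t : G, ρ t * E * ρ t⁻¹) (fun g v => by
    rw [← Module.End.mul_apply, ← Module.End.mul_apply, Finset.sum_mul, Finset.mul_sum]
    congr 1
    refine (Fintype.sum_equiv (Equiv.mulLeft g) _ _ (fun t => ?_)).symm
    simp only [Equiv.coe_mulLeft, _root_.mul_inv_rev, map_mul, mul_assoc]
    rw [← map_mul ρ g⁻¹ g, inv_mul_cancel, map_one, mul_one])
  have h3 : ∑ t : G, ρ t * E * ρ t⁻¹ = c • (1 : Module.End ℂ V) := LinearMap.ext hc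
  have := Fintype.ofFinite S
  have h4 : ∑ _s : S, E = ∑ t : G, E * (ρ t * E * ρ t⁻¹) := by
    refine Fintype.sum_of_injective ι hι _ _ (fun g hg => ?_) (fun s => ?_)
    · rw [← mul_assoc, ← mul_assoc, h2 g hg, zero_mul]
    · rw [h1, mul_assoc E, ← map_mul, mul_inv_cancel, map_one, mul_one, hEE]
  rw [← Finset.mul_sum, h3, mul_smul_comm, mul_one, Finset.sum_const, Finset.card_univ,
    ← Nat.cast_smul_eq_nsmul ℂ, ← Nat.card_eq_fintype_card] at h4
  rw [h3, smul_left_injective ℂ hE h4]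

lemma rt2_cliff (ι : S →* G) (hι : Function.Injective ι) {ρ : Representation ℂ G V}
    (hρ : ρ.IsIrreducible) {E : Module.End ℂ V} (hE : E ≠ 0) (hEE : E * E = E)
    (h1 : ∀ s, ρ (ι s) * E = E * ρ (ι s)) (h2 : ∀ g ∉ Set.range ι, E * ρ g * E = 0) :
    ∃ σ : Representation ℂ S (LinearMap.range E), σ.IsIrreducible ∧
      (∀ s w, (σ s w : V) = ρ (ι s) w) ∧ ρ.character = rt2_ind ι σ.character := by
  have hfix : ∀ w : LinearMap.range E, E w = w := by
    rintro ⟨_, v, rfl⟩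
    exact LinearMap.congr_fun hEE v
  have hc : ∀ s v, ρ (ι s) (E v) = E (ρ (ι s) v) := fun s v => LinearMap.congr_fun (h1 s) v
  let W : Subrepresentation (ρ.comp ι : Representation ℂ S V) := ⟨LinearMap.range E, by
    rintro s _ ⟨v, rfl⟩
    exact ⟨_, (hc s v).symm⟩⟩
  let σ : Representation ℂ S (LinearMap.range E) := W.toRepresentation
  have hσ : ∀ s w, (σ s w : V) = ρ (ι s) w := fun _ _ => rfl
  refine ⟨σ, (irreducible_iff _).2 ⟨?_, fun T hT => ?_⟩, hσ, ?_⟩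
  · obtain ⟨v, hv⟩ : ∃ v, E v ≠ 0 := by
      by_contra hn
      push Not at hn
      exact hE (LinearMap.ext hn)
    exact ⟨⟨E v, v, rfl⟩, fun h => hv (congrArg Subtype.val h)⟩
  · let U : Submodule ℂ V := ⨅ g : G, T.comap (E.rangeRestrict ∘ₗ ρ g)
    have mU : ∀ v, v ∈ U ↔ ∀ g, E.rangeRestrict (ρ g v) ∈ T := fun v => by
      simp only [U, Submodule.mem_iInf, Submodule.mem_comap, LinearMap.comp_apply]
    rcases ((irreducible_iff ρ).1 hρ).2 U (fun g v hv => (mU _).2 fun g' => by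
      rw [← Module.End.mul_apply, ← map_mul]
      exact (mU v).1 hv _) with h | h
    · left
      rw [eq_bot_iff]
      intro w hw
      have : w.1 ∈ U := (mU _).2 fun g => by
        by_cases hg : g ∈ Set.range ι
        · obtain ⟨s, rfl⟩ := hg
          have e : E.rangeRestrict (ρ (ι s) w) = σ s w := by
            apply Subtype.ext
            rw [hσ]
            show E (ρ (ι s) w) = _
            rw [← hc, hfix]
          rw [e]
          exact hT s w hw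
        · have e : E.rangeRestrict (ρ g w) = 0 := by
            apply Subtype.ext
            show E (ρ g w) = 0
            rw [← hfix w]
            exact LinearMap.congr_fun (h2 g hg) w
          rw [e]
          exact T.zero_mem
      rw [h] at this
      simpa using this
    · right
      rw [eq_top_iff]
      intro w _
      have := (mU w.1).1 (h ▸ Submodule.mem_top) 1
      have e : E.rangeRestrict (ρ 1 w) = w := by
        apply Subtype.ext
        show E (ρ 1 w) = w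
        rw [map_one, Module.End.one_apply, hfix]
      rwa [e] at this
  · have tr : ∀ g, Function.extend ι σ.character 0 g = LinearMap.trace ℂ V (ρ g * E) := by
      intro g
      by_cases hg : g ∈ Set.range ι
      · obtain ⟨s, rfl⟩ := hg
        rw [hι.extend_apply, ← LinearMap.trace_restrict_eq_of_forall_mem (LinearMap.range E)
          (ρ (ι s) * E) (fun x => ⟨_, (hc s x).symm⟩), Representation.character]
        congr 1
        ext w
        rw [hσ]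
        show _ = ρ (ι s) (E w)
        rw [hfix]
      · rw [Function.extend_apply' _ _ _ hg, ← hEE, ← mul_assoc, LinearMap.trace_mul_comm,
          ← mul_assoc, h2 g hg, map_zero, Pi.zero_apply]
    funext g
    have hS : (Nat.card S : ℂ) ≠ 0 := by exact_mod_cast (Nat.card_pos (α := S)).ne'
    have h3 := congrArg (fun X => LinearMap.trace ℂ V (ρ g * X)) (rt2_avg ι hι hρ hE hEE h1 h2)
    simp only [Finset.mul_sum, map_sum, mul_smul_comm, mul_one, map_smul, smul_eq_mul] at h3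
    rw [rt2_ind, eq_inv_mul_iff_mul_eq₀ hS, Representation.character, ← h3]
    refine Finset.sum_congr rfl fun t _ => ?_
    rw [tr, ← mul_assoc, LinearMap.trace_mul_comm, map_mul ρ, map_mul ρ]
    simp only [mul_assoc]

end abstract

open Classical in
lemma rt2_part {X : Type} [Fintype X] (c : X → Set X) (h0 : ∀ A, A ∈ c A)
    (h1 : ∀ A B, B ∈ c A → c B = c A) (A₀ : X) :
    ∑ A : X, (if A ∈ c A₀ then ((c A).ncard : ℝ)⁻¹ else 0) = 1 := by
  have hp : 0 < (c A₀).ncard := (Set.ncard_pos (Set.toFinite _)).2 ⟨_, h0 A₀⟩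
  have e : ∀ A : X, (if A ∈ c A₀ then ((c A).ncard : ℝ)⁻¹ else 0) =
      if A ∈ c A₀ then ((c A₀).ncard : ℝ)⁻¹ else 0 := fun A => by
    split_ifs with h
    · rw [h1 _ _ h]
    · rfl
  have e2 : (Finset.univ.filter (· ∈ c A₀)).card = (c A₀).ncard := by
    rw [← Set.ncard_coe_finset]
    simp
  simp_rw [e]
  rw [← Finset.sum_filter, Finset.sum_const, e2, nsmul_eq_mul, mul_inv_cancel₀]
  exact_mod_cast hp.ne'

variable {M : Type} [Ring M] [Fintype M] {τ : AddChar M ℂ} {J J' : NonUnitalSubring M}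
  {L : M → M} {H : Subgroup Mˣ}

lemma rt2_norm (h : Sit τ J J' L H) : Norm (UU J') J := fun g hg => h.norm g (h.sub hg)

lemma rt2_symm (h : Sit τ J J' L H) {A B : M} (hB : B ∈ cls τ J (UU J') A) :
    A ∈ cls τ J (UU J') B := by
  rw [h.frob.cls_eq (rt2_norm h) hB]
  exact self_mem_cls _ _ _

lemma rt2_sit (h : Sit τ J J' L H) (A : M) {H₁ : Subgroup Mˣ}
    (h1 : ∀ g, g ∈ H₁ ↔ g ∈ H ∧ cj g A ∈ cls τ J (UU J') A) : Sit τ J J' L H₁ := by
  obtain ⟨H₂, h2, h3⟩ := h.exists_stab A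
  rwa [show H₁ = H₂ from Subgroup.ext fun g => (h1 g).trans (h2 g).symm]

lemma rt2_EE {H₁ : Subgroup Mˣ} (h : Sit τ J J' L H₁) (hle : H₁ ≤ H) {V : Type} [AddCommGroup V]
    [Module ℂ V] (ρ : Representation ℂ H V) {W : Submodule ℂ V} (σ : Representation ℂ H₁ W)
    (hσ : ∀ s w, (σ s w : V) = ρ (Subgroup.inclusion hle s) w) (B : M) (w : W) :
    (EE τ J J' L H₁ σ B w : V) = EE τ J J' L H ρ B w := by
  classical
  simp only [EE, LinearMap.smul_apply, LinearMap.sum_apply, Submodule.coe_smul, Submodule.coe_sum]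
  congr 1
  refine Finset.sum_congr rfl fun B' _ => ?_
  refine Fintype.sum_of_injective _ (Subgroup.inclusion_injective hle) _ _ (fun u hu => ?_)
    (fun u => ?_)
  · rw [if_neg, LinearMap.zero_apply]
    exact fun hc => hu ⟨⟨u.1, h.sub (h.le hc.2)⟩, rfl⟩
  · simp only [Subgroup.coe_inclusion]
    split_ifs
    · simp only [LinearMap.smul_apply, Submodule.coe_smul, hσ]
    · simp

lemma rt2_key (h : Sit τ J J' L H) (A : M) {H₁ : Subgroup Mˣ}
    (h1 : ∀ g, g ∈ H₁ ↔ g ∈ H ∧ cj g A ∈ cls τ J (UU J') A) [Fintype H] {χ : H → ℂ}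
    (hχ : χ ∈ Irr H) (hA : A ∈ Sup τ J L H χ) : ∃ ψ ∈ Irr H₁,
      Sup τ J L H₁ ψ ⊆ cls τ J (UU J') A ∧
        rt2_ind (Subgroup.inclusion fun g hg => ((h1 g).1 hg).1) ψ = χ := by
  obtain ⟨V, _, _, _, ρ, hρ, rfl⟩ := mem_Irr.1 hχ
  have hle : H₁ ≤ H := fun g hg => ((h1 g).1 hg).1
  have hEE : EE τ J J' L H ρ A * EE τ J J' L H ρ A = EE τ J J' L H ρ A := by
    rw [h.E_mul, if_pos (self_mem_cls _ _ _)]
  obtain ⟨σ, hσ, hσ', hc⟩ := rt2_cliff (Subgroup.inclusion hle) (Subgroup.inclusion_injective hle)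
    hρ ((h.E_ne_zero ρ A).2 hA) hEE
    (fun s => by
      rw [h.E_conj, h.E_congr ρ (A := A)]
      exact ((h1 s.1).1 s.2).2)
    (fun g hg => by
      rw [mul_assoc, h.E_conj, ← mul_assoc, h.E_mul, if_neg, zero_mul]
      exact fun hc => hg ⟨⟨g.1, (h1 g.1).2 ⟨g.2, hc⟩⟩, rfl⟩)
  refine ⟨σ.character, mem_Irr.2 ⟨_, _, _, inferInstance, σ, hσ, rfl⟩, fun B hB => ?_, hc.symm⟩
  have hs := rt2_sit h A h1
  by_contra hn
  refine (hs.E_ne_zero σ B).2 hB (LinearMap.ext ?_)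
  rintro ⟨_, v, rfl⟩
  apply Subtype.ext
  rw [rt2_EE hs hle ρ σ hσ']
  show (EE τ J J' L H ρ B * EE τ J J' L H ρ A) v = 0
  rw [h.E_mul, if_neg fun hc => hn (rt2_symm h hc), LinearMap.zero_apply]

/-- Clifford reduction to the stabiliser of a class -/
theorem Sit.clifford (h : Sit τ J J' L H) (A : M) {H₁ : Subgroup Mˣ}
    (h1 : ∀ g, g ∈ H₁ ↔ g ∈ H ∧ cj g A ∈ cls τ J (UU J') A) {s : ℝ} (hs : 0 ≤ s) :
    Zs H (fun χ => A ∈ Sup τ J L H χ) s ≤ ((Nat.card H : ℝ) / Nat.card H₁) ^ (-s) *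
      Zs H₁ (fun χ => Sup τ J L H₁ χ ⊆ cls τ J (UU J') A) s := by
  classical
  have _ := hs
  have hle : H₁ ≤ H := fun g hg => ((h1 g).1 hg).1
  unfold Zs
  refine le_trans (Finset.sum_le_sum_of_subset_of_nonneg
    (t := ((Irr H₁).filter fun χ => Sup τ J L H₁ χ ⊆ cls τ J (UU J') A).image
      (rt2_ind (Subgroup.inclusion hle))) (fun χ hχ => ?_) (fun _ _ _ => by positivity)) ?_
  · rw [Finset.mem_filter] at hχ
    obtain ⟨ψ, a1, a2, a3⟩ := rt2_key h A h1 hχ.1 hχ.2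
    exact Finset.mem_image.2 ⟨ψ, Finset.mem_filter.2 ⟨a1, a2⟩, a3⟩
  · refine (Finset.sum_image_le_of_nonneg fun _ _ => by positivity).trans (le_of_eq ?_)
    rw [Finset.mul_sum]
    refine Finset.sum_congr rfl fun ψ _ => ?_
    rw [rt2_ind_one _ (Subgroup.inclusion_injective hle),
      Real.mul_rpow (by positivity) (norm_nonneg _)]

/-- summation of the Clifford reduction over an invariant set -/
theorem Sit.step (h : Sit τ J J' L H) (T : Set M) (hT : ∀ A ∈ T, cls τ J (UU J') A ⊆ T)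
    (f : M → ℝ) (hf : ∀ A, 0 ≤ f A) {s : ℝ} (hs : 0 ≤ s)
    (hb : ∀ A ∈ T, ∀ H₁ : Subgroup Mˣ, (∀ g, g ∈ H₁ ↔ g ∈ H ∧ cj g A ∈ cls τ J (UU J') A) →
      Zs H₁ (fun χ => Sup τ J L H₁ χ ⊆ cls τ J (UU J') A) s ≤
        (Nat.card H₁ : ℝ) ^ (-1 - s) * sumOn (cls τ J (UU J') A) f) :
    Zs H (fun χ => Sup τ J L H χ ⊆ T) s ≤ (Nat.card H : ℝ) ^ (-1 - s) * sumOn T f := by
  classical
  have hH : (0 : ℝ) < Nat.card H := by exact_mod_cast Nat.card_pos
  have s1 : Zs H (fun χ => Sup τ J L H χ ⊆ T) s ≤ ∑ A : M, if A ∈ T then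
      ((cls τ J H A).ncard : ℝ)⁻¹ * Zs H (fun χ => A ∈ Sup τ J L H χ) s else 0 := by
    have e : ∀ A : M, (if A ∈ T then
        ((cls τ J H A).ncard : ℝ)⁻¹ * Zs H (fun χ => A ∈ Sup τ J L H χ) s else 0) =
        ∑ χ ∈ Irr H, (if A ∈ T ∧ A ∈ Sup τ J L H χ then ((cls τ J H A).ncard : ℝ)⁻¹ else 0) *
          ‖χ 1‖ ^ (-s) := fun A => by
      by_cases hA : A ∈ T
      · simp only [hA, if_true, true_and, Zs, Finset.sum_filter, Finset.mul_sum, mul_ite, ite_mul,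
          mul_zero, zero_mul]
      · simp [hA]
    simp_rw [e]
    rw [Finset.sum_comm, Zs, Finset.sum_filter]
    refine Finset.sum_le_sum fun χ hχ => ?_
    rw [← Finset.sum_mul]
    split_ifs with hc
    · refine le_mul_of_one_le_left (by positivity) ?_
      obtain ⟨A₀, hA₀⟩ := h.sup_nonempty hχ
      rw [← rt2_part (cls τ J H) (self_mem_cls J H) (fun _ _ => h.frob.cls_eq h.norm) A₀]
      refine Finset.sum_le_sum fun A _ => ?_
      by_cases hA : A ∈ cls τ J H A₀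
      · have := h.sup_stable hχ hA₀ hA
        rw [if_pos hA, if_pos ⟨hc this, this⟩]
      · rw [if_neg hA]
        positivity
    · positivity
  have s2 : ∀ A ∈ T, ((cls τ J H A).ncard : ℝ)⁻¹ * Zs H (fun χ => A ∈ Sup τ J L H χ) s ≤
      (Nat.card H : ℝ) ^ (-1 - s) *
        (((cls τ J (UU J') A).ncard : ℝ)⁻¹ * sumOn (cls τ J (UU J') A) f) := fun A hA => by
    obtain ⟨H₁, h1, -⟩ := h.exists_stab A
    have hH1 : (0 : ℝ) < Nat.card H₁ := by exact_mod_cast Nat.card_pos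
    have c1 : ((cls τ J H A).ncard : ℝ) * Nat.card H₁ = Nat.card H * (cls τ J (UU J') A).ncard := by
      exact_mod_cast h.frob.card_cls h.sub h.norm (fun g hg u hu => by
        have := h.norm' g hg _ (mem_UU.1 hu)
        rw [mem_UU]
        convert this using 1
        simp [cj, mul_sub, sub_mul]) A h1
    have c2 : (0 : ℝ) < (cls τ J (UU J') A).ncard := by
      exact_mod_cast (Set.ncard_pos (Set.toFinite _)).2 ⟨_, self_mem_cls _ _ A⟩
    have c3 : ((cls τ J H A).ncard : ℝ) = Nat.card H * (cls τ J (UU J') A).ncard / Nat.card H₁ :=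
      eq_div_of_mul_eq hH1.ne' c1
    refine le_trans (mul_le_mul_of_nonneg_left ((h.clifford A h1 hs).trans
      (mul_le_mul_of_nonneg_left (hb A hA H₁ h1) (by positivity))) (by positivity)) (le_of_eq ?_)
    have p1 : 0 < (Nat.card H₁ : ℝ) ^ (-s) := Real.rpow_pos_of_pos hH1 _
    rw [c3, Real.div_rpow hH.le hH1.le, sub_eq_add_neg, Real.rpow_add hH, Real.rpow_add hH1,
      Real.rpow_neg_one, Real.rpow_neg_one]
    field_simp
  have s3 : (∑ A : M, if A ∈ T then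
      ((cls τ J (UU J') A).ncard : ℝ)⁻¹ * sumOn (cls τ J (UU J') A) f else 0) ≤ sumOn T f := by
    have e : ∀ A : M, (if A ∈ T then
        ((cls τ J (UU J') A).ncard : ℝ)⁻¹ * sumOn (cls τ J (UU J') A) f else 0) =
        ∑ B : M, (if A ∈ T ∧ B ∈ cls τ J (UU J') A then ((cls τ J (UU J') A).ncard : ℝ)⁻¹ else 0) *
          f B := fun A => by
      by_cases hA : A ∈ T
      · simp only [hA, if_true, true_and, sumOn, Finset.sum_filter, Finset.mul_sum, mul_ite,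
          ite_mul, mul_zero, zero_mul]
      · simp [hA]
    simp_rw [e]
    rw [Finset.sum_comm, sumOn, Finset.sum_filter]
    refine Finset.sum_le_sum fun B _ => ?_
    rw [← Finset.sum_mul]
    split_ifs with hc
    · refine mul_le_of_le_one_left (hf B) ?_
      rw [← rt2_part (cls τ J (UU J')) (self_mem_cls J _)
        (fun _ _ => h.frob.cls_eq (rt2_norm h)) B]
      refine Finset.sum_le_sum fun A _ => ?_
      by_cases hA : A ∈ T ∧ B ∈ cls τ J (UU J') A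
      · rw [if_pos hA, if_pos (rt2_symm h hA.2)]
      · rw [if_neg hA]
        positivity
    · rw [Finset.sum_eq_zero, zero_mul]
      exact fun A _ => if_neg fun hA => hc (hT A hA.1 hA.2)
  refine s1.trans (le_trans ?_ (mul_le_mul_of_nonneg_left s3 (by positivity)))
  rw [Finset.mul_sum]
  refine Finset.sum_le_sum fun A _ => ?_
  split_ifs with hA
  · exact s2 A hA
  · rw [mul_zero]

end Pool.Agent.MP_8299d6_al.Up

end
end

section

open Matrix
open Classical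

noncomputable section

namespace Pool.Agent.MP_8299d6_al.Up

open Pool.Agent.MP_810665_al (IrrChar)

variable {M : Type} [Ring M] [Fintype M] {τ : AddChar M ℂ} {J J' : NonUnitalSubring M}
  {L : M → M} {H : Subgroup Mˣ}

lemma rt3_UU_mono (h : J ≤ J') : UU J ≤ UU J' := fun _ hu => h hu

lemma Sit.rt3_normK (h : Sit τ J J' L H) : Norm (UU J') J := fun g hg => h.norm g (h.sub hg)

lemma Sit.rt3_conj_mem (h : Sit τ J J' L H) {g u : Mˣ} (hg : g ∈ H) (hu : u ∈ UU J) :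
    g * u * g⁻¹ ∈ UU J := by
  have h1 := h.norm g hg _ hu
  have e : cj g ((u : M) - 1) = ((g * u * g⁻¹ : Mˣ) : M) - 1 := by
    simp [cj, mul_sub, sub_mul]
  rw [e] at h1
  exact h1

lemma Sit.rt3_normal (h : Sit τ J J' L H) : ((UU J).subgroupOf H).Normal :=
  ⟨fun _ hu g => h.rt3_conj_mem g.2 hu⟩

lemma Sit.rt3_card (h : Sit τ J J' L H) : Nat.card ((UU J).subgroupOf H) = Nat.card J := by
  rw [← card_UU h.om.unit]
  exact Nat.card_congr (Subgroup.subgroupOfEquivOfLe ((rt3_UU_mono h.le).trans h.sub)).toEquiv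

lemma rt3_ncard_ne (K : Subgroup Mˣ) (A : M) : ((cls τ J K A).ncard : ℂ) ≠ 0 := by
  have : 0 < (cls τ J K A).ncard := (Set.ncard_pos (Set.toFinite _)).2 ⟨A, self_mem_cls J K A⟩
  exact_mod_cast this.ne'

lemma rt3_cardM : (Nat.card M : ℂ) ≠ 0 := by
  exact_mod_cast (Nat.card_pos (α := M)).ne'

omit [Ring M] in
lemma rt3_sum_const (S : Set M) (c : ℂ) :
    ∑ B : M, (if B ∈ S then c else 0) = (S.ncard : ℂ) * c := by
  rw [← Finset.sum_filter, Finset.sum_const, nsmul_eq_mul, Set.ncard_eq_toFinset_card' S]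
  congr 3
  ext B
  simp

lemma Sit.rt3_fc_const (h : Sit τ J J' L H) {χ : H → ℂ} (hχ : χ ∈ Irr H) {A B : M}
    (hB : B ∈ cls τ J (UU J') A) : fc τ J L H χ B = fc τ J L H χ A := by
  obtain ⟨V, _, _, _, ρ, hρ, rfl⟩ := mem_Irr.1 hχ
  have h1 := h.trace_E ρ A
  have h2 := h.trace_E ρ B
  rw [h.E_congr ρ hB, h.frob.cls_eq h.rt3_normK hB, h1] at h2
  exact (mul_left_cancel₀ (rt3_ncard_ne _ A) h2).symm

lemma Sit.rt3_deg (h : Sit τ J J' L H) {χ : H → ℂ} (hχ : χ ∈ Irr H) {A : M}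
    (hA : Sup τ J L H χ ⊆ cls τ J (UU J') A) :
    (Nat.card M : ℂ) * χ 1 = ((cls τ J (UU J') A).ncard : ℂ) * fc τ J L H χ A := by
  obtain ⟨V, _, _, _, ρ, hρ, rfl⟩ := mem_Irr.1 hχ
  have h1 := h.trace_E ρ A
  rw [h.E_eq_one ρ hA] at h1
  rw [← h1, Representation.char_one, LinearMap.trace_one]

/-- the common shape of the restrictions -/
def rt3Phi (τ : AddChar M ℂ) (J J' : NonUnitalSubring M) (L : M → M) (H : Subgroup Mˣ) (A : M)
    (u : H) : ℂ :=
  ∑ B : M, if B ∈ cls τ J (UU J') A then τ (B * L ((u.1 : M) - 1)) else 0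

lemma Sit.rt3_shape (h : Sit τ J J' L H) {χ : H → ℂ} (hχ : χ ∈ Irr H) {A : M}
    (hA : Sup τ J L H χ ⊆ cls τ J (UU J') A) (u : H) (hu : u.1 ∈ UU J) :
    χ u = χ 1 / ((cls τ J (UU J') A).ncard : ℂ) * rt3Phi τ J J' L H A u := by
  have h1 := h.inversion χ u hu
  have h2 : ∑ B : M, fc τ J L H χ B * τ (B * L ((u.1 : M) - 1)) =
      fc τ J L H χ A * rt3Phi τ J J' L H A u := by
    rw [rt3Phi, Finset.mul_sum]
    refine Finset.sum_congr rfl fun B _ => ?_
    split_ifs with hB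
    · rw [h.rt3_fc_const hχ hB]
    · have : fc τ J L H χ B = 0 := by
        by_contra hne
        exact hB (hA hne)
      simp [this]
  have h3 := h.rt3_deg hχ hA
  have h4 := rt3_ncard_ne (τ := τ) (J := J) (UU J') A
  have h5 := rt3_cardM (M := M)
  rw [h2] at h1
  apply mul_left_cancel₀ h5
  rw [h1]
  field_simp
  linear_combination (-rt3Phi τ J J' L H A u) * h3

lemma Sit.rt3_norm_ge (h : Sit τ J J' L H) {χ : H → ℂ} (hχ : χ ∈ Irr H) :
    (Nat.card J : ℝ) ≤ ∑ u : H, if u.1 ∈ UU J then ‖χ u‖ ^ 2 else 0 := by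
  have := rt3_res_ge hχ ((UU J).subgroupOf H)
  rw [h.rt3_card] at this
  simpa only [Subgroup.mem_subgroupOf] using this

theorem Sit.dim_ge (h : Sit τ J J' L H) {χ : H → ℂ} (hχ : χ ∈ Irr H) {A : M}
    (hA : Sup τ J L H χ ⊆ cls τ J (UU J') A) :
    ((cls τ J (UU J') A).ncard : ℝ) ≤ Nat.card (perp τ J.toAddSubgroup) * ‖χ 1‖ ^ 2 := by
  set S : ℝ := ∑ u : H, if u.1 ∈ UU J then ‖χ u‖ ^ 2 else 0 with hS
  have h4 := rt3_ncard_ne (τ := τ) (J := J) (UU J') A
  have hconj : ∀ B : M, (starRingEnd ℂ) (fc τ J L H χ B) =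
      ∑ u : H, if u.1 ∈ UU J then (starRingEnd ℂ) (χ u) * τ (B * L ((u.1 : M) - 1)) else 0 := by
    intro B
    rw [fc, map_sum]
    refine Finset.sum_congr rfl fun u _ => ?_
    split_ifs
    · rw [map_mul, AddChar.map_neg_eq_conj, Complex.conj_conj]
    · simp
  have h1 : (S : ℂ) = χ 1 * (starRingEnd ℂ) (fc τ J L H χ A) := by
    have e1 : (S : ℂ) = ∑ u : H, ∑ B : M, χ 1 / ((cls τ J (UU J') A).ncard : ℂ) *
        (if B ∈ cls τ J (UU J') A then
          (if u.1 ∈ UU J then (starRingEnd ℂ) (χ u) * τ (B * L ((u.1 : M) - 1)) else 0)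
        else 0) := by
      rw [hS, Complex.ofReal_sum]
      refine Finset.sum_congr rfl fun u _ => ?_
      split_ifs with hu
      · have e : ((‖χ u‖ ^ 2 : ℝ) : ℂ) = (starRingEnd ℂ) (χ u) * χ u := by
          rw [Complex.conj_mul']; push_cast; ring
        rw [e]
        nth_rewrite 2 [h.rt3_shape hχ hA u hu]
        rw [rt3Phi, Finset.mul_sum, Finset.mul_sum]
        refine Finset.sum_congr rfl fun B _ => ?_
        split_ifs
        · ring
        · simp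
      · simp
    rw [e1, Finset.sum_comm]
    have e2 : ∀ B : M, ∑ u : H, χ 1 / ((cls τ J (UU J') A).ncard : ℂ) *
        (if B ∈ cls τ J (UU J') A then
          (if u.1 ∈ UU J then (starRingEnd ℂ) (χ u) * τ (B * L ((u.1 : M) - 1)) else 0)
        else 0) = if B ∈ cls τ J (UU J') A then
          χ 1 / ((cls τ J (UU J') A).ncard : ℂ) * (starRingEnd ℂ) (fc τ J L H χ A) else 0 := by
      intro B
      split_ifs with hB
      · rw [← Finset.mul_sum, ← hconj B, h.rt3_fc_const hχ hB]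
      · simp
    simp only [e2]
    rw [rt3_sum_const]
    field_simp
  have h2 := congrArg (starRingEnd ℂ) (h.rt3_deg hχ hA)
  simp only [map_mul, map_natCast] at h2
  have h3 : (((cls τ J (UU J') A).ncard * S : ℝ) : ℂ) = ((Nat.card M * ‖χ 1‖ ^ 2 : ℝ) : ℂ) := by
    have e : ((‖χ 1‖ ^ 2 : ℝ) : ℂ) = (starRingEnd ℂ) (χ 1) * χ 1 := by
      rw [Complex.conj_mul']; push_cast; ring
    rw [Complex.ofReal_mul, Complex.ofReal_mul, e, h1]
    push_cast
    linear_combination (-χ 1) * h2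
  have h5 : ((cls τ J (UU J') A).ncard : ℝ) * S = Nat.card M * ‖χ 1‖ ^ 2 := by exact_mod_cast h3
  have h6 : (Nat.card J : ℝ) * Nat.card (perp τ J.toAddSubgroup) = Nat.card M := by
    exact_mod_cast h.frob.card_perp J.toAddSubgroup
  have h7 : (Nat.card J : ℝ) ≤ S := h.rt3_norm_ge hχ
  have h8 : (0 : ℝ) < Nat.card J := by exact_mod_cast Nat.card_pos (α := J)
  refine le_of_mul_le_mul_left ?_ h8
  calc (Nat.card J : ℝ) * (cls τ J (UU J') A).ncard ≤ S * (cls τ J (UU J') A).ncard := by gcongr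
    _ = Nat.card M * ‖χ 1‖ ^ 2 := by rw [← h5]; ring
    _ = _ := by rw [← h6]; ring

theorem Sit.count_crude (h : Sit τ J J' L H) (A : M) :
    ((Irr H).filter (fun χ => Sup τ J L H χ ⊆ cls τ J (UU J') A)).card * Nat.card J
      ≤ Nat.card H := by
  set s := (Irr H).filter (fun χ => Sup τ J L H χ ⊆ cls τ J (UU J') A) with hs
  have h1 := rt3_bessel s (Finset.filter_subset _ _) (fun u => u.1 ∈ UU J)
    (rt3Phi τ J J' L H A) (fun χ => χ 1 / ((cls τ J (UU J') A).ncard : ℂ))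
    (fun χ hχ u hu => h.rt3_shape (Finset.mem_filter.1 hχ).1 (Finset.mem_filter.1 hχ).2 u hu)
  have h2 : (s.card : ℝ) * Nat.card J ≤
      ∑ χ ∈ s, ∑ u : H, (if u.1 ∈ UU J then ‖χ u‖ ^ 2 else 0) := by
    rw [← nsmul_eq_mul]
    exact Finset.card_nsmul_le_sum _ _ _ fun χ hχ => h.rt3_norm_ge (Finset.mem_filter.1 hχ).1
  exact_mod_cast h2.trans h1

/-- the coefficients of the idempotent -/
def rt3e (τ : AddChar M ℂ) (J J' : NonUnitalSubring M) (L : M → M) (H : Subgroup Mˣ) (A : M)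
    (u : H) : ℂ :=
  (Nat.card M : ℂ)⁻¹ * ∑ B : M, if B ∈ cls τ J (UU J') A ∧ u.1 ∈ UU J then
    τ (-(B * L ((u.1 : M) - 1))) else 0

lemma rt3_E_eq {V : Type} [AddCommGroup V] [Module ℂ V] (ρ : Representation ℂ H V) (A : M) :
    EE τ J J' L H ρ A = rt3op ρ (rt3e τ J J' L H A) := by
  rw [EE, Finset.sum_comm, Finset.smul_sum, rt3op]
  refine Finset.sum_congr rfl fun u _ => ?_
  rw [rt3e, mul_smul, Finset.sum_smul]
  congr 1
  refine Finset.sum_congr rfl fun B _ => ?_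
  split_ifs <;> simp

lemma rt3e_zero (A : M) {u : H} (hu : u.1 ∉ UU J) : rt3e τ J J' L H A u = 0 := by
  simp [rt3e, hu]

lemma Sit.rt3_fix (h : Sit τ J J' L H) {χ : H → ℂ} (hχ : χ ∈ Irr H) {A : M}
    (hA : Sup τ J L H χ ⊆ cls τ J (UU J') A) (z : H) :
    ∑ u, rt3e τ J J' L H A u * χ (u * z) = χ z := by
  obtain ⟨V, _, _, _, ρ, hρ, rfl⟩ := mem_Irr.1 hχ
  rw [← rt3op_trace, ← rt3_E_eq, h.E_eq_one ρ hA, one_mul]
  rfl

section cosets

variable {Q : Type} [Group Q] (q : H →* Q)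

/-- restriction to a coset -/
def rt3a (χ : H → ℂ) (t : Q) (y : H) : ℂ := if q y = t then χ y⁻¹ else 0

lemma Sit.rt3_aE (h : Sit τ J J' L H) (hq : ∀ u : H, q u = 1 ↔ u.1 ∈ UU J) {χ : H → ℂ}
    (hχ : χ ∈ Irr H) {A : M} (hA : Sup τ J L H χ ⊆ cls τ J (UU J') A) (t : Q) :
    rt3cv (rt3a q χ t) (rt3e τ J J' L H A) = rt3a q χ t := by
  funext z
  rw [rt3cv_eq]
  have e : ∀ w : H, rt3a q χ t (z * w⁻¹) * rt3e τ J J' L H A w =
      if q z = t then rt3e τ J J' L H A w * χ (w * z⁻¹) else 0 := by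
    intro w
    by_cases hw : w.1 ∈ UU J
    · simp only [rt3a, map_mul, map_inv, (hq w).2 hw, inv_one, mul_one, _root_.mul_inv_rev,
        inv_inv]
      split_ifs
      · ring
      · simp
    · simp [rt3e_zero A hw]
  simp only [e]
  unfold rt3a
  split_ifs
  · exact h.rt3_fix hχ hA _
  · simp

lemma Sit.rt3_Ea (h : Sit τ J J' L H) (hq : ∀ u : H, q u = 1 ↔ u.1 ∈ UU J) {χ : H → ℂ}
    (hχ : χ ∈ Irr H) {A : M} (hA : Sup τ J L H χ ⊆ cls τ J (UU J') A) (t : Q) :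
    rt3cv (rt3e τ J J' L H A) (rt3a q χ t) = rt3a q χ t := by
  funext z
  rw [rt3cv]
  have e : ∀ w : H, rt3e τ J J' L H A w * rt3a q χ t (w⁻¹ * z) =
      if q z = t then rt3e τ J J' L H A w * χ (w * z⁻¹) else 0 := by
    intro w
    by_cases hw : w.1 ∈ UU J
    · simp only [rt3a, map_mul, map_inv, (hq w).2 hw, inv_one, one_mul, _root_.mul_inv_rev,
        inv_inv]
      split_ifs
      · rw [rt3_comm hχ]
      · simp
    · simp [rt3e_zero A hw]
  simp only [e]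
  unfold rt3a
  split_ifs
  · exact h.rt3_fix hχ hA _
  · simp

lemma Sit.rt3_prod (h : Sit τ J J L H) (hq : ∀ u : H, q u = 1 ↔ u.1 ∈ UU J) {χ ψ : H → ℂ}
    (hχ : χ ∈ Irr H) (hψ : ψ ∈ Irr H) {A : M} (hA : Sup τ J L H χ ⊆ cls τ J (UU J) A)
    {t t' : Q} (ht : t * t' = 1) :
    ∃ c : ℂ, rt3op (rt3reg H) (rt3a q ψ t) * rt3op (rt3reg H) (rt3a q χ t') =
      c • EE τ J J L H (rt3reg H) A := by
  have hinv : ∀ {φ : H → ℂ}, φ ∈ Irr H → ∀ (s : Q) (g y : H), g.1 ∈ UU J →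
      rt3a q φ s (g * y * g⁻¹) = rt3a q φ s y := by
    intro φ hφ s g y hg
    have e : (g * y * g⁻¹)⁻¹ = g * y⁻¹ * g⁻¹ := by group
    simp only [rt3a, map_mul, map_inv, (hq g).2 hg, one_mul, inv_one, mul_one, e,
      Pool.Agent.MP_810665_al.irr_conj (mem_Irr.1 hφ)]
  obtain ⟨c, hc⟩ := h.center (rt3cv (rt3a q ψ t) (rt3a q χ t')) (fun g u hg => by
    unfold rt3cv
    refine (Fintype.sum_equiv (MulAut.conj g).toEquiv _ _ fun y => ?_).symm
    have e : (g * y * g⁻¹)⁻¹ * (g * u * g⁻¹) = g * (y⁻¹ * u) * g⁻¹ := by group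
    simp only [MulEquiv.toEquiv_eq_coe, EquivLike.coe_coe, MulAut.conj_apply, e,
      hinv hψ _ g _ hg, hinv hχ _ g _ hg]) A
  refine ⟨c, ?_⟩
  rw [← hc (rt3reg H)]
  have e : (∑ u : H, if u.1 ∈ UU J then rt3cv (rt3a q ψ t) (rt3a q χ t') u • rt3reg H u else 0) =
      rt3op (rt3reg H) (rt3cv (rt3a q ψ t) (rt3a q χ t')) := by
    refine Finset.sum_congr rfl fun u _ => ?_
    split_ifs with hu
    · rfl
    · have : rt3cv (rt3a q ψ t) (rt3a q χ t') u = 0 := by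
        refine Finset.sum_eq_zero fun y _ => ?_
        unfold rt3a
        split_ifs with h1 h2
        · exfalso
          apply hu
          rw [← hq, ← ht, ← h1, ← h2, ← map_mul, mul_inv_cancel_left]
        · simp
        · simp
        · simp
      rw [this, zero_smul]
  rw [e, ← rt3op_mul, mul_assoc, rt3_E_eq, rt3op_mul (rt3reg H) (rt3a q χ t'),
    h.rt3_aE q hq hχ hA]

lemma Sit.rt3_prop (h : Sit τ J J L H) (hq : ∀ u : H, q u = 1 ↔ u.1 ∈ UU J) {χ ψ : H → ℂ}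
    (hχ : χ ∈ Irr H) (hψ : ψ ∈ Irr H) {A : M} (hA : Sup τ J L H χ ⊆ cls τ J (UU J) A)
    (hB : Sup τ J L H ψ ⊆ cls τ J (UU J) A) {x : H} (hx : χ x ≠ 0) :
    ∃ lam : ℂ, ∀ y, q y = q x → ψ y = lam * χ y := by
  obtain ⟨c, hc⟩ := h.rt3_prod q hq hχ hψ hA (t := (q x)⁻¹) (t' := q x) (inv_mul_cancel _)
  obtain ⟨d, hd⟩ := h.rt3_prod q hq hχ hχ hA (t := q x) (t' := (q x)⁻¹) (mul_inv_cancel _)
  have hd0 : d ≠ 0 := by
    rintro rfl
    rw [zero_smul, rt3op_mul] at hd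
    have h0 : rt3cv (rt3a q χ (q x)) (rt3a q χ (q x)⁻¹) = fun _ => 0 :=
      rt3op_inj (by rw [hd]; simp [rt3op])
    have h1 := congrFun h0 1
    have e : ∀ y : H, rt3a q χ (q x) y * rt3a q χ (q x)⁻¹ (y⁻¹ * 1) =
        ((if q y = q x then ‖χ y‖ ^ 2 else 0 : ℝ) : ℂ) := by
      intro y
      simp only [rt3a, mul_one, map_inv, _root_.inv_inj, inv_inv]
      split_ifs
      · rw [rt3_inv hχ, Complex.conj_mul']; push_cast; ring
      · simp
    simp only [rt3cv, e] at h1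
    rw [← Complex.ofReal_sum, Complex.ofReal_eq_zero,
      Finset.sum_eq_zero_iff_of_nonneg (fun y _ => by split_ifs <;> positivity)] at h1
    have h2 := h1 x (Finset.mem_univ x)
    rw [if_pos rfl] at h2
    exact hx (by simpa using h2)
  have key : rt3op (rt3reg H) (fun y => d * rt3a q ψ (q x)⁻¹ y) =
      rt3op (rt3reg H) (fun y => c * rt3a q χ (q x)⁻¹ y) := by
    rw [← rt3op_smul, ← rt3op_smul]
    have e1 : rt3op (rt3reg H) (rt3a q ψ (q x)⁻¹) * EE τ J J L H (rt3reg H) A =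
        rt3op (rt3reg H) (rt3a q ψ (q x)⁻¹) := by
      rw [rt3_E_eq, rt3op_mul, h.rt3_aE q hq hψ hB]
    have e2 : EE τ J J L H (rt3reg H) A * rt3op (rt3reg H) (rt3a q χ (q x)⁻¹) =
        rt3op (rt3reg H) (rt3a q χ (q x)⁻¹) := by
      rw [rt3_E_eq, rt3op_mul, h.rt3_Ea q hq hχ hA]
    calc d • rt3op (rt3reg H) (rt3a q ψ (q x)⁻¹)
        = rt3op (rt3reg H) (rt3a q ψ (q x)⁻¹) * (d • EE τ J J L H (rt3reg H) A) := by
          rw [mul_smul_comm, e1]
      _ = (c • EE τ J J L H (rt3reg H) A) * rt3op (rt3reg H) (rt3a q χ (q x)⁻¹) := by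
          rw [← hd, ← hc, mul_assoc]
      _ = _ := by rw [smul_mul_assoc, e2]
  refine ⟨c / d, fun y hy => ?_⟩
  have h1 := congrFun (rt3op_inj key) y⁻¹
  simp only [rt3a, map_inv, hy, if_true, inv_inv] at h1
  field_simp
  linear_combination h1

end cosets

/-- Gallagher's bound -/
theorem Sit.count (h : Sit τ J J L H) (A : M) (k : ℕ) (c : H → Fin k)
    (hc : ∀ x y : H, c x = c y → ∃ g u : H, u.1 ∈ UU J ∧ y = g * x * g⁻¹ * u) :
    ((Irr H).filter (fun χ => Sup τ J L H χ ⊆ cls τ J (UU J) A)).card ≤ k := by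
  set s := (Irr H).filter (fun χ => Sup τ J L H χ ⊆ cls τ J (UU J) A) with hs
  have := h.rt3_normal
  let q := QuotientGroup.mk' ((UU J).subgroupOf H)
  have hq : ∀ u : H, q u = 1 ↔ u.1 ∈ UU J := fun u => by
    simp only [q, QuotientGroup.mk'_apply, QuotientGroup.eq_one_iff, Subgroup.mem_subgroupOf]
  have key : ∀ i : Fin k, ∃ w : H → ℂ, ∀ ψ ∈ s, ∃ lam : ℂ, ∀ y, c y = i → ψ y = lam * w y := by
    intro i
    by_cases hi : ∃ χ ∈ s, ∃ x, c x = i ∧ χ x ≠ 0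
    · obtain ⟨χ, hχ, x, hx, hx0⟩ := hi
      refine ⟨χ, fun ψ hψ => ?_⟩
      obtain ⟨hχ1, hχ2⟩ := Finset.mem_filter.1 hχ
      obtain ⟨hψ1, hψ2⟩ := Finset.mem_filter.1 hψ
      obtain ⟨lam, hl⟩ := h.rt3_prop q hq hχ1 hψ1 hχ2 hψ2 hx0
      refine ⟨lam, fun y hy => ?_⟩
      obtain ⟨g, u, hu, rfl⟩ := hc x y (hx.trans hy.symm)
      have e : g * x * g⁻¹ * u = g * (x * (g⁻¹ * u * g)) * g⁻¹ := by group
      rw [e, Pool.Agent.MP_810665_al.irr_conj (mem_Irr.1 hχ1),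
        Pool.Agent.MP_810665_al.irr_conj (mem_Irr.1 hψ1)]
      apply hl
      simp only [map_mul, map_inv, (hq u).2 hu, mul_one, inv_mul_cancel]
    · push Not at hi
      exact ⟨0, fun ψ hψ => ⟨0, fun y hy => by simp [hi ψ hψ y hy]⟩⟩
  choose w hw using key
  choose! lam hlam using hw
  have := rt3_card_le s (Finset.filter_subset _ _) c (fun y => w (c y) y)
    (fun χ i => lam i χ) (fun χ hχ g => hlam (c g) χ hχ g rfl)
  simpa using this

theorem Sit.scalar (h : Sit τ J J' L H) {χ : H → ℂ} (hχ : χ ∈ Irr H) {A : M}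
    (hA : A ∈ Sup τ J L H χ) (hinv : ∀ g ∈ H, cj g A - A ∈ perp τ J.toAddSubgroup)
    (g u : H) (hu : u.1 ∈ UU J) : InKer χ (g * u * g⁻¹ * u⁻¹) := by
  obtain ⟨V, _, _, _, ρ, hρ, rfl⟩ := mem_Irr.1 hχ
  have hcomm : ∀ x : H, ρ x * EE τ J J' L H ρ A = EE τ J J' L H ρ A * ρ x := by
    intro x
    rw [h.E_conj ρ x A, h.E_congr ρ (A := A) (B := cj x.1 A)
      ⟨1, one_mem _, by rw [cj_one]; exact hinv x.1 x.2⟩]
  obtain ⟨c, hc⟩ := Pool.Agent.MP_810665_al.schur hρ (EE τ J J' L H ρ A) (fun x v => by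
    rw [← Module.End.mul_apply, ← hcomm, Module.End.mul_apply])
  have hE : EE τ J J' L H ρ A = c • 1 := LinearMap.ext hc
  have hne : EE τ J J' L H ρ A ≠ 0 := (h.E_ne_zero ρ A).2 hA
  have hc0 : c ≠ 0 := by
    rintro rfl
    exact hne (by rw [hE, zero_smul])
  -- the character `κ`
  have hL : ∀ x ∈ J, L x ∈ J := fun x hx => h.om.bij.mapsTo hx
  have hperp : ∀ B x, B - A ∈ perp τ J.toAddSubgroup → x ∈ J → τ (B * x) = τ (A * x) := by
    intro B x hB hx
    have h1 : τ ((B - A) * x) = 1 := hB x hx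
    have e : B * x = (B - A) * x + A * x := by noncomm_ring
    rw [e, AddChar.map_add_eq_mul, h1, one_mul]
  have hcj : ∀ (k : Mˣ) x, k ∈ H → x ∈ J → τ (A * cj k x) = τ (A * x) := by
    intro k x hk hx
    rw [← h.frob.tau_cj k⁻¹, ← cj_mul_cj, ← cj_mul, inv_mul_cancel, cj_one]
    exact hperp _ _ (hinv _ (inv_mem hk)) hx
  have hmul : ∀ v : H, v.1 ∈ UU J → τ (A * L (((u * v : H).1 : M) - 1)) =
      τ (A * L ((u.1 : M) - 1)) * τ (A * L ((v.1 : M) - 1)) := by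
    intro v hv
    obtain ⟨g', h', hk, -⟩ := h.om.kv
    obtain ⟨k1, k2, k3⟩ := hk _ hu _ hv
    have e : (((u * v : H).1 : Mˣ) : M) - 1 = ((u.1 : M) - 1) + ((v.1 : M) - 1) +
        ((u.1 : M) - 1) * ((v.1 : M) - 1) := by
      simp only [Subgroup.coe_mul, Units.val_mul]
      noncomm_ring
    rw [e, k3, mul_add, AddChar.map_add_eq_mul, hcj _ _ (h.sub k1) (hL _ hu),
      hcj _ _ (h.sub k2) (hL _ hv)]
  have he : ∀ v : H, v.1 ∈ UU J → rt3e τ J J' L H A v = (Nat.card M : ℂ)⁻¹ *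
      (((cls τ J (UU J') A).ncard : ℂ) * (τ (A * L ((v.1 : M) - 1)))⁻¹) := by
    intro v hv
    rw [rt3e, ← rt3_sum_const]
    congr 1
    refine Finset.sum_congr rfl fun B _ => ?_
    simp only [hv, and_true]
    split_ifs with hB
    · obtain ⟨k, hk, hB⟩ := hB
      have h1 : B - A ∈ perp τ J.toAddSubgroup := by
        have := add_mem hB (hinv k (h.sub hk))
        rwa [sub_add_sub_cancel] at this
      rw [AddChar.map_neg_eq_inv, hperp B _ h1 (hL _ hv)]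
    · rfl
  have hτ : ∀ x : M, τ x ≠ 0 := fun x => (AddChar.val_isUnit τ x).ne_zero
  have hρu : ρ u * EE τ J J' L H ρ A = τ (A * L ((u.1 : M) - 1)) • EE τ J J' L H ρ A := by
    rw [rt3_E_eq, rt3op_smul, rt3op, rt3op, Finset.mul_sum]
    refine Fintype.sum_equiv (Equiv.mulLeft u) _ _ fun v => ?_
    rw [mul_smul_comm, ← map_mul, Equiv.coe_mulLeft]
    congr 1
    by_cases hv : v.1 ∈ UU J
    · rw [he v hv, he (u * v) (mul_mem hu hv), hmul v hv]
      have := hτ (A * L ((u.1 : M) - 1))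
      have := hτ (A * L ((v.1 : M) - 1))
      field_simp
    · rw [rt3e_zero A hv, rt3e_zero A (u := u * v) (fun hh => hv (by
        have := mul_mem (inv_mem hu) hh
        simpa using this)), mul_zero]
  rw [hE, mul_smul_comm, mul_one, smul_comm] at hρu
  have hsc : ρ u = τ (A * L ((u.1 : M) - 1)) • 1 := smul_right_injective _ hc0 hρu
  rw [inKer_iff hρ]
  have e : ρ g * ρ u = ρ u * ρ g := by rw [hsc]; simp
  rw [map_mul, map_mul, map_mul, e, mul_assoc (ρ u), ← map_mul, mul_inv_cancel, map_one, mul_one,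
    ← map_mul, mul_inv_cancel, map_one]

end Pool.Agent.MP_8299d6_al.Up

end
end

section

open Matrix

noncomputable section

namespace Pool.Agent.MP_8299d6_al.Up

open Pool.Agent.MP_810665_al (IrrChar)

variable {M : Type} [Ring M] [Fintype M] {τ : AddChar M ℂ}

omit [Fintype M] in
lemma base_mulr {O : Subring M} {I : AddSubgroup M}
    (hI : ∀ x ∈ O, ∀ y ∈ I, x * y ∈ I ∧ y * x ∈ I) {a y : M} (ha : a ∈ perp τ I) (hy : y ∈ O) :
    a * y ∈ perp τ I := fun x hx => by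
  rw [mul_assoc]; exact ha _ (hI y hy x hx).1

omit [Fintype M] in
lemma base_mull (hτ : Frob τ) {O : Subring M} {I : AddSubgroup M}
    (hI : ∀ x ∈ O, ∀ y ∈ I, x * y ∈ I ∧ y * x ∈ I) {a y : M} (ha : a ∈ perp τ I) (hy : y ∈ O) :
    y * a ∈ perp τ I := fun x hx => by
  rw [mul_assoc, hτ.comm, mul_assoc]; exact ha _ (hI y hy x hx).2

lemma base_inv {O : Subring M} {g : Mˣ} (hg : (g : M) ∈ O) : ((g⁻¹ : Mˣ) : M) ∈ O := by
  have e : g⁻¹ = g ^ (orderOf g - 1) := by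
    rw [inv_eq_iff_mul_eq_one, ← pow_succ', Nat.sub_add_cancel (orderOf_pos g), pow_orderOf_eq_one]
  rw [e, Units.val_pow_eq_pow_val]
  exact pow_mem hg _

lemma base_cj (hτ : Frob τ) {O : Subring M} {I : AddSubgroup M}
    (hI : ∀ x ∈ O, ∀ y ∈ I, x * y ∈ I ∧ y * x ∈ I) {a : M} {g : Mˣ} (ha : a ∈ perp τ I)
    (hg : (g : M) ∈ O) : cj g a ∈ perp τ I :=
  base_mulr hI (base_mull hτ hI ha hg) (base_inv hg)

lemma base_iff {O : Subring M} {I : AddSubgroup M}
    (hI : ∀ x ∈ O, ∀ y ∈ I, x * y ∈ I ∧ y * x ∈ I) (A : M) {g : Mˣ} (hg : (g : M) ∈ O) :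
    cj g A - A ∈ perp τ I ↔ A * g - g * A ∈ perp τ I := by
  constructor
  · intro h
    have h1 := neg_mem (base_mulr hI h hg)
    have e : -((cj g A - A) * g) = A * g - g * A := by
      simp only [cj, sub_mul, mul_assoc, Units.inv_mul, mul_one, neg_sub]
    rwa [e] at h1
  · intro h
    have h1 := neg_mem (base_mulr hI h (base_inv hg))
    have e : -((A * g - g * A) * ((g⁻¹ : Mˣ) : M)) = cj g A - A := by
      simp only [cj, sub_mul, mul_assoc, Units.mul_inv, mul_one, neg_sub]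
    rwa [e] at h1

lemma base_UO {O : Subring M} {J : NonUnitalSubring M} (hJO : ∀ y ∈ J, y ∈ O) {u : Mˣ}
    (hu : u ∈ UU J) : (u : M) ∈ O := by
  have := add_mem (hJO _ (mem_UU.1 hu)) O.one_mem
  rwa [sub_add_cancel] at this

/-- a unit of `O` congruent to `y` modulo `J` is a product of an element of `1 + J` and `y` -/
lemma base_split {O : Subring M} {J : NonUnitalSubring M}
    (hid : ∀ x ∈ O, ∀ y ∈ J, x * y ∈ J ∧ y * x ∈ J) (hu : ∀ x ∈ J, IsUnit (1 + x)) {g : Mˣ}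
    (hg : (g : M) ∈ O) {y : M} (hy : (g : M) - y ∈ J) :
    ∃ u ∈ UU J, ∃ g' : Mˣ, (g' : M) = y ∧ g = u * g' := by
  have h1 : -(((g : M) - y) * ((g⁻¹ : Mˣ) : M)) ∈ J := neg_mem (hid _ (base_inv hg) _ hy).2
  obtain ⟨v, hv⟩ := hu _ h1
  have hvU : v ∈ UU J := by
    rw [mem_UU, hv, add_sub_cancel_left]; exact h1
  refine ⟨v⁻¹, inv_mem hvU, v * g, ?_, by group⟩
  rw [Units.val_mul, hv, add_mul, neg_mul, mul_assoc, Units.inv_mul]
  simp

omit [Fintype M] in
lemma base_cj_inv (g : Mˣ) (A : M) : cj g⁻¹ (cj g A) = A := by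
  rw [← cj_mul, inv_mul_cancel, cj_one]

/-- the stabiliser of a class is the unit group of a subring -/
theorem stab_subring (hτ : Frob τ) (O : Subring M) (J : NonUnitalSubring M)
    (hJO : ∀ y ∈ J, y ∈ O) (hid : ∀ x ∈ O, ∀ y ∈ J, x * y ∈ J ∧ y * x ∈ J)
    (hu : ∀ x ∈ J, IsUnit (1 + x)) (A : M) :
    ∃ O₁ : Subring M, (∀ x, x ∈ O₁ ↔ ∃ y ∈ O, A * y - y * A ∈ perp τ J.toAddSubgroup ∧ x - y ∈ J) ∧
      ∀ g : Mˣ, (g : M) ∈ O₁ ↔ (g : M) ∈ O ∧ cj g A ∈ cls τ J (UU J) A := by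
  have hI : ∀ x ∈ O, ∀ y ∈ J.toAddSubgroup, x * y ∈ J.toAddSubgroup ∧ y * x ∈ J.toAddSubgroup :=
    hid
  let O₁ : Subring M :=
    { carrier := {x | ∃ y ∈ O, A * y - y * A ∈ perp τ J.toAddSubgroup ∧ x - y ∈ J}
      mul_mem' := by
        rintro a b ⟨y, hy, hy1, hy2⟩ ⟨w, hw, hw1, hw2⟩
        refine ⟨y * w, mul_mem hy hw, ?_, ?_⟩
        · have e : A * (y * w) - y * w * A = (A * y - y * A) * w + y * (A * w - w * A) := by
            noncomm_ring
          rw [e]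
          exact add_mem (base_mulr hI hy1 hw) (base_mull hτ hI hw1 hy)
        · have e : a * b - y * w = (a - y) * (b - w) + (a - y) * w + y * (b - w) := by
            noncomm_ring
          rw [e]
          exact add_mem (add_mem (mul_mem hy2 hw2) (hid _ hw _ hy2).2) (hid _ hy _ hw2).1
      one_mem' := ⟨1, O.one_mem, by simp, by simp⟩
      add_mem' := by
        rintro a b ⟨y, hy, hy1, hy2⟩ ⟨w, hw, hw1, hw2⟩
        refine ⟨y + w, add_mem hy hw, ?_, ?_⟩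
        · have e : A * (y + w) - (y + w) * A = (A * y - y * A) + (A * w - w * A) := by
            noncomm_ring
          rw [e]; exact add_mem hy1 hw1
        · have e : a + b - (y + w) = (a - y) + (b - w) := by abel
          rw [e]; exact add_mem hy2 hw2
      zero_mem' := ⟨0, O.zero_mem, by simp, by simp⟩
      neg_mem' := by
        rintro a ⟨y, hy, hy1, hy2⟩
        refine ⟨-y, neg_mem hy, ?_, ?_⟩
        · have e : A * -y - -y * A = -(A * y - y * A) := by noncomm_ring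
          rw [e]; exact neg_mem hy1
        · have e : -a - -y = -(a - y) := by abel
          rw [e]; exact neg_mem hy2 }
  refine ⟨O₁, fun x => Iff.rfl, fun g => ⟨?_, ?_⟩⟩
  · rintro ⟨y, hy, hy1, hy2⟩
    have hg : (g : M) ∈ O := by
      have := add_mem (hJO _ hy2) hy
      rwa [sub_add_cancel] at this
    obtain ⟨u, huU, g', hg', e⟩ := base_split hid hu hg hy2
    refine ⟨hg, u, huU, ?_⟩
    rw [e, cj_mul, ← cj_sub]
    refine base_cj hτ hI ?_ (base_UO hJO huU)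
    rw [base_iff hI A (hg' ▸ hy), hg']; exact hy1
  · rintro ⟨hg, u, huU, h⟩
    have hy : ((u⁻¹ * g : Mˣ) : M) ∈ O := by
      rw [Units.val_mul]; exact mul_mem (base_UO hJO (inv_mem huU)) hg
    refine ⟨((u⁻¹ * g : Mˣ) : M), hy, ?_, ?_⟩
    · rw [← base_iff hI A hy]
      have := base_cj hτ hI h (base_UO hJO (inv_mem huU))
      rwa [cj_sub, base_cj_inv, ← cj_mul] at this
    · have e : (g : M) - ((u⁻¹ * g : Mˣ) : M) = ((u : M) - 1) * ((u⁻¹ * g : Mˣ) : M) := by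
        rw [sub_mul, one_mul, ← Units.val_mul, mul_inv_cancel_left]
      rw [e]; exact (hid _ hy _ (mem_UU.1 huU)).2

/-- the image of the orbit modulo the annihilator of `J` -/
def baseOm (τ : AddChar M ℂ) (J : NonUnitalSubring M) (A : M) :
    Set (M ⧸ perp τ J.toAddSubgroup) := {w | ∃ u ∈ UU J, w = (cj u A : M)}

/-- the orbit thickened by a subgroup -/
def baseT (J : NonUnitalSubring M) (A : M) (Q : AddSubgroup M) : Set M :=
  {B | ∃ u ∈ UU J, B - cj u A ∈ Q}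

lemma base_lower (J : NonUnitalSubring M) (A : M) {Q : AddSubgroup M}
    (hQ : Q ≤ perp τ J.toAddSubgroup) :
    Nat.card (baseOm τ J A) * Nat.card Q ≤ (baseT J A Q).ncard := by
  have hex : ∀ w : baseOm τ J A, ∃ u ∈ UU J, w.1 = (cj u A : M) := fun w => w.2
  choose u hu1 hu2 using hex
  let f : baseOm τ J A × Q → baseT J A Q := fun p =>
    ⟨cj (u p.1) A + p.2, u p.1, hu1 p.1, by simp⟩
  have hf : Function.Injective f := by
    rintro ⟨w, b⟩ ⟨w', b'⟩ h
    have h1 : cj (u w) A + b = cj (u w') A + b' := congrArg Subtype.val h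
    have h2 : w = w' := by
      apply Subtype.ext
      rw [hu2 w, hu2 w', QuotientAddGroup.eq]
      have e : -cj (u w) A + cj (u w') A = b - b' := by
        rw [eq_sub_iff_add_eq, add_assoc, ← h1]; abel
      rw [e]; exact hQ (sub_mem b.2 b'.2)
    subst h2
    have h3 : b = b' := Subtype.ext (add_left_cancel h1)
    rw [h3]
  have := Nat.card_le_card_of_injective f hf
  rwa [Nat.card_prod, Nat.card_coe_set_eq (baseT J A Q)] at this

omit [Fintype M] in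
lemma base_ring (O : Subring M) : ∀ x ∈ O, ∀ y ∈ O.toAddSubgroup,
    x * y ∈ O.toAddSubgroup ∧ y * x ∈ O.toAddSubgroup :=
  fun _ hx _ hy => ⟨O.mul_mem hx hy, O.mul_mem hy hx⟩

lemma base_refine (hτ : Frob τ) {O : Subring M} {J : NonUnitalSubring M}
    (hJO : ∀ y ∈ J, y ∈ O) (hid : ∀ x ∈ O, ∀ y ∈ J, x * y ∈ J ∧ y * x ∈ J) {A : M}
    (hA : ∀ y ∈ O, ∃ y' ∈ O, y - y' ∈ J ∧ A * y' - y' * A ∈ perp τ O.toAddSubgroup)
    {u v : Mˣ} (hu : u ∈ UU J) (hv : v ∈ UU J)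
    (h : cj u A - cj v A ∈ perp τ J.toAddSubgroup) : cj u A - cj v A ∈ perp τ O.toAddSubgroup := by
  have hI : ∀ x ∈ O, ∀ y ∈ J.toAddSubgroup, x * y ∈ J.toAddSubgroup ∧ y * x ∈ J.toAddSubgroup :=
    hid
  have hw : v⁻¹ * u ∈ UU J := mul_mem (inv_mem hv) hu
  have hwO := base_UO hJO hw
  have h1 := base_cj hτ hI h (base_UO hJO (inv_mem hv))
  rw [cj_sub, base_cj_inv, ← cj_mul, base_iff hI A hwO] at h1
  have h2 : cj (v⁻¹ * u) A - A ∈ perp τ O.toAddSubgroup := by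
    rw [base_iff (base_ring O) A hwO]
    obtain ⟨x, hx, e⟩ : ∃ x ∈ J, ((v⁻¹ * u : Mˣ) : M) = x + 1 :=
      ⟨_, mem_UU.1 hw, (sub_add_cancel _ _).symm⟩
    rw [e] at h1 ⊢
    intro y hy
    obtain ⟨y', hy', hj, hc⟩ := hA y hy
    have e1 : (A * (x + 1) - (x + 1) * A) * y =
        (A * (x + 1) - (x + 1) * A) * (y - y') + (A * x * y' + -(x * (A * y'))) := by
      noncomm_ring
    have e2 : τ (A * x * y') * τ (-(x * (A * y'))) = 1 := by
      have a1 : τ (A * x * y') = τ (y' * A * x) := by rw [hτ.comm, mul_assoc]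
      have a2 : τ (-(x * (A * y'))) = τ (-(A * y' * x)) := by
        rw [← neg_mul, hτ.comm, mul_neg]
      rw [a1, a2, ← AddChar.map_add_eq_mul]
      have := hc (-x) (neg_mem (hJO x hx))
      rw [← this]; congr 1; noncomm_ring
    rw [e1, AddChar.map_add_eq_mul, AddChar.map_add_eq_mul, h1 _ hj, e2, one_mul]
  have h3 := base_cj hτ (base_ring O) h2 (base_UO hJO hv)
  rwa [cj_sub, ← cj_mul, mul_inv_cancel_left] at h3

lemma base_fix (hτ : Frob τ) {O : Subring M} {B : M} (hB : B ∈ perp τ (commS O)) {g : Mˣ}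
    (hg : (g : M) ∈ O) : cj g B - B ∈ perp τ O.toAddSubgroup := by
  rw [base_iff (base_ring O) B hg]
  intro x hx
  have h1 := hB ((g : M) * x - x * g) (AddSubgroup.subset_closure ⟨g, hg, x, hx, rfl⟩)
  have e1 : (B * g - g * B) * x = B * (g * x) + -((g : M) * (B * x)) := by noncomm_ring
  have e2 : B * ((g : M) * x - x * g) = B * (g * x) + -(B * x * g) := by noncomm_ring
  have a2 : τ (-((g : M) * (B * x))) = τ (-(B * x * g)) := by
    rw [← neg_mul, hτ.comm, mul_neg]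
  rw [e2, AddChar.map_add_eq_mul] at h1
  rw [e1, AddChar.map_add_eq_mul, a2, h1]

lemma base_orb (hτ : Frob τ) {O : Subring M} {J : NonUnitalSubring M} {H : Subgroup Mˣ}
    (hH : ∀ g : Mˣ, g ∈ H ↔ (g : M) ∈ O) (hu : ∀ x ∈ J, IsUnit (1 + x))
    (hJO : ∀ y ∈ J, y ∈ O) (hid : ∀ x ∈ O, ∀ y ∈ J, x * y ∈ J ∧ y * x ∈ J) {A : M}
    (hA : ∀ y ∈ O, ∃ y' ∈ O, y - y' ∈ J ∧ A * y' - y' * A ∈ perp τ O.toAddSubgroup)
    {A' : M} (hA' : A' ∈ baseT J A (perp τ (commS O))) :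
    (orb A').ncard ≤ Nat.card (Mˣ ⧸ H) *
      (Nat.card (baseOm τ J A) * Nat.card (perp τ O.toAddSubgroup)) := by
  obtain ⟨u₀, hu₀, hB⟩ := hA'
  have hex : ∀ w : baseOm τ J A, ∃ u ∈ UU J, w.1 = (cj u A : M) := fun w => w.2
  choose u hu1 hu2 using hex
  let f : (Mˣ ⧸ H) × baseOm τ J A × perp τ O.toAddSubgroup → M := fun p =>
    cj p.1.out (cj (u p.2.1) A + (A' - cj u₀ A) + p.2.2)
  have hsub : orb A' ⊆ Set.range f := by
    rintro X ⟨g, rfl⟩
    obtain ⟨h, hh⟩ := QuotientGroup.mk_out_eq_mul H g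
    have hhO : ((h⁻¹ : H) : Mˣ).1 ∈ O := (hH _).1 (h⁻¹).2
    have hgO : ((((h⁻¹ : H) : Mˣ) * u₀ : Mˣ) : M) ∈ O := by
      rw [Units.val_mul]; exact mul_mem hhO (base_UO hJO hu₀)
    obtain ⟨y', hy', hj, hc⟩ := hA _ hgO
    obtain ⟨v, hv, g', hg', e⟩ := base_split hid hu hgO hj
    let w : baseOm τ J A := ⟨(cj v A : M), v, hv, rfl⟩
    have r1 : cj v A - cj (u w) A ∈ perp τ O.toAddSubgroup := by
      refine base_refine hτ hJO hid hA hv (hu1 w) ?_
      have := hu2 w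
      rw [QuotientAddGroup.eq] at this
      have h2 := neg_mem this
      rwa [neg_add_rev, neg_neg, add_comm, ← sub_eq_add_neg] at h2
    have r2 : cj (v * g') A - cj v A ∈ perp τ O.toAddSubgroup := by
      rw [cj_mul, ← cj_sub]
      refine base_cj hτ (base_ring O) ?_ (base_UO hJO hv)
      rw [base_iff (base_ring O) A (hg' ▸ hy'), hg']; exact hc
    have r3 := base_fix hτ hB hhO
    refine ⟨((g : Mˣ ⧸ H), w, ⟨_, add_mem (add_mem r1 r2) r3⟩), ?_⟩
    have e2 : cj (u w) A + (A' - cj u₀ A) + (cj v A - cj (u w) A + (cj (v * g') A - cj v A) +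
        (cj ((h⁻¹ : H) : Mˣ) (A' - cj u₀ A) - (A' - cj u₀ A))) = cj ((h⁻¹ : H) : Mˣ) A' := by
      rw [← e, cj_sub, cj_mul]; abel
    show cj (g : Mˣ ⧸ H).out (cj (u w) A + (A' - cj u₀ A) + (cj v A - cj (u w) A +
      (cj (v * g') A - cj v A) +
        (cj ((h⁻¹ : H) : Mˣ) (A' - cj u₀ A) - (A' - cj u₀ A)))) = cj g A'
    rw [e2, hh, ← cj_mul]
    simp
  have h1 := Set.ncard_le_ncard hsub (Set.toFinite _)
  have h2 := Finite.card_range_le f
  rw [Nat.card_prod, Nat.card_prod, Nat.card_coe_set_eq] at h2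
  exact h1.trans h2

lemma base_num {k D z h G w p t s : ℝ} (hk : k ≤ D * z) (hk0 : 0 ≤ k) (hD : 0 ≤ D) (hh : 0 < h)
    (hG : 0 < G) (hw : 0 < w) (hp : 0 < p) (hp2 : p * h ≤ 2 * G) (ht : w * (z * p) ≤ t)
    (hs : 0 ≤ s) (hs2 : s ≤ 2) :
    k * w ^ (-s / 2) ≤ h ^ (-1 - s) * (t * (2 * D * G ^ (1 + s) * (G / h * (w * p)) ^ (-1 - s / 2))) := by
  have hr : 0 < G / h := div_pos hG hh
  have e1 : h ^ (-1 - s) * G ^ (1 + s) = (G / h) ^ (1 + s) := by
    rw [Real.div_rpow hG.le hh.le, show -1 - s = -(1 + s) by ring, Real.rpow_neg hh.le]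
    field_simp
  have e2 : (G / h * (w * p)) ^ (-1 - s / 2) =
      (G / h) ^ (-1 - s / 2) * ((w⁻¹ * w ^ (-s / 2)) * (p⁻¹ * p ^ (-s / 2))) := by
    rw [Real.mul_rpow hr.le (mul_pos hw hp).le, Real.mul_rpow hw.le hp.le,
      show -1 - s / 2 = -1 + -s / 2 by ring, Real.rpow_add hw, Real.rpow_add hp,
      Real.rpow_neg_one, Real.rpow_neg_one]
  have e3 : (G / h) ^ (1 + s) * (G / h) ^ (-1 - s / 2) = (G / h) ^ (s / 2) := by
    rw [← Real.rpow_add hr]; congr 1; ring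
  have hp3 : p ≤ 2 * (G / h) := by
    rw [← mul_div_assoc, le_div_iff₀ hh]; exact hp2
  have e4 : 1 ≤ 2 * ((G / h) ^ (s / 2) * p ^ (-s / 2)) := by
    have a1 : p ^ (s / 2) ≤ (2 * (G / h)) ^ (s / 2) :=
      Real.rpow_le_rpow hp.le hp3 (by linarith)
    rw [Real.mul_rpow (by norm_num) hr.le] at a1
    have a2 : (2 : ℝ) ^ (s / 2) ≤ 2 ^ (1 : ℝ) :=
      Real.rpow_le_rpow_of_exponent_le (by norm_num) (by linarith)
    rw [Real.rpow_one] at a2
    have a3 : 0 < p ^ (s / 2) := Real.rpow_pos_of_pos hp _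
    have a4 : 0 < (G / h) ^ (s / 2) := Real.rpow_pos_of_pos hr _
    rw [show -s / 2 = -(s / 2) by ring, Real.rpow_neg hp.le, ← div_eq_mul_inv, ← mul_div_assoc,
      le_div_iff₀ a3]
    nlinarith
  have hW : 0 < w ^ (-s / 2) := Real.rpow_pos_of_pos hw _
  have hX : 0 ≤ 2 * D * G ^ (1 + s) * (G / h * (w * p)) ^ (-1 - s / 2) := by positivity
  have hY : 0 < h ^ (-1 - s) := Real.rpow_pos_of_pos hh _
  calc k * w ^ (-s / 2) ≤ D * z * w ^ (-s / 2) := mul_le_mul_of_nonneg_right hk hW.le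
    _ ≤ D * z * w ^ (-s / 2) * (2 * ((G / h) ^ (s / 2) * p ^ (-s / 2))) :=
        le_mul_of_one_le_right (mul_nonneg (hk0.trans hk) hW.le) e4
    _ = h ^ (-1 - s) * (w * (z * p) *
          (2 * D * G ^ (1 + s) * (G / h * (w * p)) ^ (-1 - s / 2))) := by
        rw [e2, ← e3, ← e1]; field_simp
    _ ≤ _ := mul_le_mul_of_nonneg_left (mul_le_mul_of_nonneg_right ht hX) hY.le

/-- the invariant case -/
theorem base_case (O : Subring M) (J : NonUnitalSubring M) {L : M → M} {H : Subgroup Mˣ}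
    (hH : ∀ g : Mˣ, g ∈ H ↔ (g : M) ∈ O) (h : Sit τ J J L H)
    (hJO : ∀ y ∈ J, y ∈ O) (hid : ∀ x ∈ O, ∀ y ∈ J, x * y ∈ J ∧ y * x ∈ J) (A : M)
    (hA : ∀ y ∈ O, ∃ y' ∈ O, y - y' ∈ J ∧ A * y' - y' * A ∈ perp τ O.toAddSubgroup)
    (k z : ℕ) (D : ℝ) (hk : (k : ℝ) ≤ D * z)
    (hz : z * Nat.card (J.toAddSubgroup ⊔ commS O : AddSubgroup M) ≤ Nat.card O)
    (c : H → Fin k) (hc : ∀ x y : H, c x = c y → ∃ g u : H, u.1 ∈ UU J ∧ y = g * x * g⁻¹ * u)
    (hM : Nat.card M ≤ 2 * Nat.card Mˣ) {s : ℝ} (hs : 0 ≤ s) (hs2 : s ≤ 2) :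
    Zs H (fun χ => Sup τ J L H χ ⊆ cls τ J (UU J) A) s ≤ (Nat.card H : ℝ) ^ (-1 - s) *
      sumOn (cls τ J (UU J) A)
        (fun B => 2 * D * (Nat.card Mˣ : ℝ) ^ (1 + s) * ((orb B).ncard : ℝ) ^ (-1 - s / 2)) := by
  classical
  have hτ := h.frob
  set S : AddSubgroup M := J.toAddSubgroup ⊔ commS O with hS
  set w : ℕ := Nat.card (baseOm τ J A) with hw
  set p : ℕ := Nat.card (perp τ O.toAddSubgroup) with hp
  have hw0 : 0 < w := by
    have : Nonempty (baseOm τ J A) := ⟨⟨_, 1, one_mem _, rfl⟩⟩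
    exact Nat.card_pos
  have hp0 : 0 < p := Nat.card_pos
  have hk1 : 1 ≤ k := (c 1).pos
  have hD : 0 ≤ D := by
    by_contra hn
    have : D * z ≤ 0 := mul_nonpos_of_nonpos_of_nonneg (not_le.1 hn).le (Nat.cast_nonneg _)
    have h1 : (1 : ℝ) ≤ k := by exact_mod_cast hk1
    linarith
  have hH0 : 0 < Nat.card H := Nat.card_pos
  have hG0 : 0 < Nat.card Mˣ := Nat.card_pos
  -- the left side
  have hL : Zs H (fun χ => Sup τ J L H χ ⊆ cls τ J (UU J) A) s ≤ k * (w : ℝ) ^ (-s / 2) := by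
    unfold Zs
    refine (Finset.sum_le_card_nsmul _ _ ((w : ℝ) ^ (-s / 2)) ?_).trans ?_
    · intro χ hχ
      obtain ⟨h1, h2⟩ := Finset.mem_filter.1 hχ
      have a1 := h.dim_ge h1 h2
      have a2 : w * Nat.card (perp τ J.toAddSubgroup) ≤ (cls τ J (UU J) A).ncard :=
        base_lower (τ := τ) J A le_rfl
      have a3 : (0 : ℝ) < Nat.card (perp τ J.toAddSubgroup) := by exact_mod_cast Nat.card_pos
      have a4 : (w : ℝ) * Nat.card (perp τ J.toAddSubgroup) ≤ (cls τ J (UU J) A).ncard := by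
        exact_mod_cast a2
      have a5 : (w : ℝ) ≤ ‖χ 1‖ ^ 2 := by
        have := a4.trans a1
        rw [mul_comm] at this
        exact le_of_mul_le_mul_left this a3
      have a6 := Real.rpow_le_rpow_of_nonpos (z := -s / 2) (by exact_mod_cast hw0) a5
        (by linarith)
      refine le_trans (le_of_eq ?_) a6
      rw [← Real.rpow_natCast, ← Real.rpow_mul (norm_nonneg _)]
      congr 1; push_cast; ring
    · rw [nsmul_eq_mul]
      refine mul_le_mul_of_nonneg_right ?_ (Real.rpow_nonneg (Nat.cast_nonneg _) _)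
      have := h.count A k c hc
      exact_mod_cast (by convert this)
  refine hL.trans ?_
  -- sizes
  have hSJ : perp τ S ≤ perp τ J.toAddSubgroup := perp_anti le_sup_left
  have hSC : perp τ S ≤ perp τ (commS O) := perp_anti le_sup_right
  have c1 := hτ.card_perp S
  have c2 : Nat.card O * p = Nat.card M := hτ.card_perp O.toAddSubgroup
  have hzp : z * p ≤ Nat.card (perp τ S) := by
    have hS0 : 0 < Nat.card S := Nat.card_pos
    refine le_of_mul_le_mul_left ?_ hS0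
    calc Nat.card S * (z * p) = z * Nat.card S * p := by ring
      _ ≤ Nat.card O * p := Nat.mul_le_mul_right _ hz
      _ = _ := by rw [c2, c1]
  have hT : w * (z * p) ≤ (baseT J A (perp τ S)).ncard :=
    (Nat.mul_le_mul_left _ hzp).trans (base_lower J A hSJ)
  have hHO : Nat.card H ≤ Nat.card O :=
    Nat.card_le_card_of_injective (fun g : H => (⟨g.1.1, (hH _).1 g.2⟩ : O)) (fun a b e =>
      Subtype.ext (Units.ext (congrArg Subtype.val e)))
  have hp2 : p * Nat.card H ≤ 2 * Nat.card Mˣ := by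
    calc p * Nat.card H ≤ p * Nat.card O := Nat.mul_le_mul_left _ hHO
      _ = Nat.card M := by rw [mul_comm, c2]
      _ ≤ _ := hM
  have hq : (Nat.card (Mˣ ⧸ H) : ℝ) = (Nat.card Mˣ : ℝ) / Nat.card H := by
    rw [Subgroup.card_eq_card_quotient_mul_card_subgroup H, Nat.cast_mul,
      mul_div_cancel_right₀ _ (by exact_mod_cast hH0.ne')]
  refine (base_num (t := (baseT J A (perp τ S)).ncard) (h := Nat.card H) (G := Nat.card Mˣ)
    (p := p) hk (Nat.cast_nonneg _) hD (by exact_mod_cast hH0) (by exact_mod_cast hG0)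
    (by exact_mod_cast hw0) (by exact_mod_cast hp0) (by exact_mod_cast hp2)
    (by exact_mod_cast hT) hs hs2).trans ?_
  refine mul_le_mul_of_nonneg_left ?_ (Real.rpow_nonneg (Nat.cast_nonneg _) _)
  unfold sumOn
  have hsub : Finset.univ.filter (· ∈ baseT J A (perp τ S)) ⊆
      Finset.univ.filter (· ∈ cls τ J (UU J) A) := by
    intro B hB
    obtain ⟨u, hu, hB'⟩ := (Finset.mem_filter.1 hB).2
    exact Finset.mem_filter.2 ⟨Finset.mem_univ _, u, hu, hSJ hB'⟩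
  refine le_trans ?_ (Finset.sum_le_sum_of_subset_of_nonneg (by convert hsub)
    (fun B _ _ => by positivity))
  have hcard : (baseT J A (perp τ S)).ncard =
      (Finset.univ.filter (· ∈ baseT J A (perp τ S))).card := by
    rw [← Set.ncard_coe_finset]; congr 1; ext B; simp
  rw [hcard, ← nsmul_eq_mul]
  refine Finset.card_nsmul_le_sum _ _ _ (fun B hB => ?_)
  obtain ⟨u, hu, hB'⟩ := (Finset.mem_filter.1 hB).2
  have o1 := base_orb hτ hH h.om.unit hJO hid hA (A' := B) ⟨u, hu, hSC hB'⟩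
  have o2 : 0 < (orb B).ncard :=
    (Set.ncard_pos (Set.toFinite _)).2 ⟨B, 1, (cj_one B).symm⟩
  refine mul_le_mul_of_nonneg_left ?_ (by positivity)
  refine Real.rpow_le_rpow_of_nonpos (by exact_mod_cast o2) ?_ (by linarith)
  rw [← hq]
  exact_mod_cast o1

end Pool.Agent.MP_8299d6_al.Up

end
end

section

open Matrix

noncomputable section

namespace Pool.Agent.MP_8299d6_al.Up

open Pool.Agent.MP_810665_al (IrrChar)

section gen
variable {M : Type} [Ring M] [Fintype M] {τ : AddChar M ℂ}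

lemma chain_sit (hτ : Frob τ) {O : Subring M} {J : NonUnitalSubring M} {L : M → M}
    {H : Subgroup Mˣ} (hH : ∀ g : Mˣ, g ∈ H ↔ (g : M) ∈ O) (hL : OM J J L)
    (hJO : ∀ y ∈ J, y ∈ O) (hid : ∀ x ∈ O, ∀ y ∈ J, x * y ∈ J ∧ y * x ∈ J) : Sit τ J J L H := by
  have hN : Norm H J := fun g hg x hx =>
    (hid _ ((hH _).1 (H.inv_mem hg)) _ (hid _ ((hH g).1 hg) x hx).1).2
  refine ⟨hτ, hL, le_rfl, fun u hu => (hH u).2 ?_, hN, hN⟩
  have := O.add_mem (hJO _ hu) O.one_mem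
  rwa [sub_add_cancel] at this

/-- the character with values in the units, written additively -/
def chainT (τ : AddChar M ℂ) : M →+ Additive ℂˣ :=
  AddMonoidHom.mk' (fun x => Additive.ofMul (τ.toMonoidHom.toHomUnits (Multiplicative.ofAdd x)))
    (fun x y => by rw [ofAdd_add, map_mul, ofMul_mul])

omit [Fintype M] in
lemma chainT_val (x : M) : ((Additive.toMul (chainT τ x) : ℂˣ) : ℂ) = τ x := rfl

omit [Fintype M] in
lemma chainT_eq_zero {x : M} : chainT τ x = 0 ↔ τ x = 1 := by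
  rw [← chainT_val, Units.val_eq_one]
  rfl

omit [Fintype M] in
lemma chainT_comm (hτ : Frob τ) (x y : M) : chainT τ (x * y) = chainT τ (y * x) := by
  apply Additive.toMul.injective
  ext
  rw [chainT_val, chainT_val, hτ.comm]

omit [Fintype M] in
lemma chain_van (hτ : Frob τ) {J : AddSubgroup M} {B y d : M} (hy : B * y - y * B ∈ perp τ J)
    (hd : d ∈ J) : chainT τ (B * (y * d - d * y)) = 0 := by
  have h := chainT_eq_zero.2 (hy d hd)
  rw [sub_mul, map_sub] at h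
  rw [mul_sub, map_sub, ← mul_assoc, ← mul_assoc B d y, chainT_comm hτ (B * d) y, ← mul_assoc]
  exact h

/-- correction of `B` to an element fixed by the stabiliser -/
lemma chain_central (hτ : Frob τ) {O : Subring M} {J : NonUnitalSubring M} {Q : Type} [Ring Q]
    (π : M →+* Q) (J' : AddSubgroup Q) (hJ : ∀ x, x ∈ J ↔ π x ∈ J')
    (hid' : ∀ x ∈ O.map π, ∀ y ∈ J', x * y ∈ J' ∧ y * x ∈ J')
    (hid : ∀ x ∈ O, ∀ y ∈ J, x * y ∈ J ∧ y * x ∈ J) (hJO : ∀ y ∈ J, y ∈ O)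
    (hcoc : ∀ (β : O.map π →+ O.map π →+ Additive ℂˣ),
      (∀ x y : O.map π, x.1 ∈ J' → β x y = 0 ∧ β y x = 0) →
      (∀ x y z, β (x * y) z = β x (y * z) + β y (z * x)) →
      ∃ μ : O.map π →+ Additive ℂˣ, (∀ x : O.map π, x.1 ∈ J' → μ x = 0) ∧
        ∀ x y, β x y = μ (x * y - y * x)) (B : M)
    (hB : ∀ x ∈ O, ∃ y ∈ O, B * y - y * B ∈ perp τ J.toAddSubgroup ∧ x - y ∈ J) :
    ∃ A ∈ cls τ J (UU J) B, ∀ y ∈ O, ∃ y' ∈ O, y - y' ∈ J ∧
      A * y' - y' * A ∈ perp τ O.toAddSubgroup := by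
  let Λ : M → Prop := fun y => y ∈ O ∧ B * y - y * B ∈ perp τ J.toAddSubgroup
  have Λadd : ∀ {x y}, Λ x → Λ y → Λ (x + y) := fun {x y} hx hy => ⟨O.add_mem hx.1 hy.1, by
    have := add_mem hx.2 hy.2
    rwa [show B * x - x * B + (B * y - y * B) = B * (x + y) - (x + y) * B by noncomm_ring] at this⟩
  have Λmul : ∀ {x y}, Λ x → Λ y → Λ (x * y) := fun {x y} hx hy => ⟨O.mul_mem hx.1 hy.1, by
    intro d hd
    have h1 := hx.2 (y * d) (hid y hy.1 d hd).1
    have h2 := hy.2 (d * x) (hid x hx.1 d hd).2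
    rw [← mul_assoc _ d x, hτ.comm] at h2
    rw [show (B * (x * y) - x * y * B) * d = (B * x - x * B) * (y * d) + x * ((B * y - y * B) * d)
      by noncomm_ring, AddChar.map_add_eq_mul, h1, h2, one_mul]⟩
  let γ : M → M → Additive ℂˣ := fun x y => chainT τ (B * (x * y - y * x))
  have γl : ∀ x x' y, γ (x + x') y = γ x y + γ x' y := fun x x' y => by
    simp only [γ, ← map_add]; congr 1; noncomm_ring
  have γr : ∀ x y y', γ x (y + y') = γ x y + γ x y' := fun x y y' => by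
    simp only [γ, ← map_add]; congr 1; noncomm_ring
  have γv : ∀ {y d}, Λ y → d ∈ J → γ y d = 0 ∧ γ d y = 0 := fun {y d} hy hd => by
    have h := chain_van hτ hy.2 hd
    refine ⟨h, ?_⟩
    simp only [γ]
    rw [← neg_sub, mul_neg, map_neg, h, neg_zero]
  have γr' : ∀ {x y y'}, Λ x → y - y' ∈ J → γ x y = γ x y' := fun {x y y'} hx h => by
    rw [show y = y' + (y - y') by abel, γr, (γv hx h).1, add_zero]
  have γl' : ∀ {x x' y}, Λ y → x - x' ∈ J → γ x y = γ x' y := fun {x x' y} hy h => by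
    rw [show x = x' + (x - x') by abel, γl, (γv hy h).2, add_zero]
  have hl : ∀ x : O.map π, ∃ y, Λ y ∧ π y - x.1 ∈ J' := by
    rintro ⟨_, x, hx, rfl⟩
    obtain ⟨y, hy, h1, h2⟩ := hB x hx
    refine ⟨y, ⟨hy, h1⟩, ?_⟩
    have := neg_mem ((hJ _).1 h2)
    rwa [map_sub, neg_sub] at this
  choose l hlΛ hl using hl
  have ladd : ∀ x y, l (x + y) - (l x + l y) ∈ J := fun x y => (hJ _).2 (by
    have := sub_mem (hl (x + y)) (add_mem (hl x) (hl y))
    rw [map_sub, map_add]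
    convert this using 1
    push_cast
    abel)
  have lmul : ∀ x y, l (x * y) - l x * l y ∈ J := fun x y => (hJ _).2 (by
    have h1 := (hid' _ y.2 _ (hl x)).2
    have h2 := (hid' _ ⟨_, (hlΛ x).1, rfl⟩ _ (hl y)).1
    have := sub_mem (hl (x * y)) (add_mem h1 h2)
    rw [map_sub, map_mul]
    convert this using 1
    push_cast
    noncomm_ring)
  let β : O.map π →+ O.map π →+ Additive ℂˣ := AddMonoidHom.mk'
    (fun x => AddMonoidHom.mk' (fun y => γ (l x) (l y))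
      (fun y y' => by rw [γr' (hlΛ x) (ladd y y'), γr]))
    (fun x x' => by
      ext y
      simp only [AddMonoidHom.mk'_apply, AddMonoidHom.add_apply]
      rw [γl' (hlΛ y) (ladd x x'), γl])
  have hβ : ∀ x y, β x y = γ (l x) (l y) := fun _ _ => rfl
  obtain ⟨μ, hμ0, hμ⟩ := hcoc β (fun x y hx => by
      have : l x ∈ J := (hJ _).2 (by simpa using add_mem (hl x) hx)
      exact ⟨(γv (hlΛ y) this).2, (γv (hlΛ y) this).1⟩) (fun x y z => by
      rw [hβ, hβ, hβ, γl' (hlΛ z) (lmul x y), γr' (hlΛ x) (lmul y z), γr' (hlΛ y) (lmul z x)]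
      simp only [γ, ← map_add]
      congr 1
      noncomm_ring)
  let pr : O.toAddSubgroup → O.map π := fun x => ⟨π x, x, x.2, rfl⟩
  let φ : AddChar O.toAddSubgroup ℂ :=
    { toFun := fun x => ((Additive.toMul (μ (pr x)) : ℂˣ) : ℂ)
      map_zero_eq_one' := by
        have : pr 0 = 0 := Subtype.ext (by simp [pr])
        simp [this]
      map_add_eq_mul' := fun x y => by
        have : pr (x + y) = pr x + pr y := Subtype.ext (by simp [pr])
        simp [this] }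
  obtain ⟨B', hB'⟩ := hτ.exists_rep _ φ
  have hB'T : ∀ x : O.toAddSubgroup, chainT τ (B' * x) = μ (pr x) := fun x => by
    apply Additive.toMul.injective
    ext
    rw [chainT_val, ← hB']
    rfl
  have hB'J : B' ∈ perp τ J.toAddSubgroup := fun d hd => by
    rw [← chainT_eq_zero, hB'T ⟨d, hJO d hd⟩]
    exact hμ0 _ ((hJ d).1 hd)
  refine ⟨B - B', ⟨1, one_mem _, by simpa [cj_one] using neg_mem hB'J⟩, fun y hy => ?_⟩
  obtain ⟨y', hy', h1, h2⟩ := hB y hy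
  refine ⟨y', hy', h2, fun x hx => ?_⟩
  have hx' : x ∈ O := hx
  have e1 : chainT τ (((B - B') * y' - y' * (B - B')) * x)
      = γ y' x - chainT τ (B' * (y' * x - x * y')) := by
    simp only [γ]
    rw [← map_sub, ← sub_mul, sub_mul, map_sub, mul_assoc y', chainT_comm hτ y', ← map_sub]
    congr 1
    noncomm_ring
  have e2 := hB'T ⟨y' * x - x * y', O.sub_mem (O.mul_mem hy' hx') (O.mul_mem hx' hy')⟩
  have e3 : pr ⟨y' * x - x * y', O.sub_mem (O.mul_mem hy' hx') (O.mul_mem hx' hy')⟩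
      = pr ⟨y', hy'⟩ * pr ⟨x, hx'⟩ - pr ⟨x, hx'⟩ * pr ⟨y', hy'⟩ := Subtype.ext (by simp [pr])
  have d1 : l (pr ⟨y', hy'⟩) - y' ∈ J := (hJ _).2 (by rw [map_sub]; exact hl _)
  have d2 : l (pr ⟨x, hx'⟩) - x ∈ J := (hJ _).2 (by rw [map_sub]; exact hl _)
  rw [← chainT_eq_zero, e1, e2, e3, ← hμ, hβ, γl' (hlΛ _) d1, γr' ⟨hy', h1⟩ d2, sub_self]

omit [Fintype M] in
lemma chain_card_comap {Q : Type} [Ring Q] (π : M →+* Q) (hπ : Function.Surjective π)
    (S : AddSubgroup Q) :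
    Nat.card (S.comap π.toAddMonoidHom) * Nat.card Q = Nat.card S * Nat.card M := by
  rw [← AddSubgroup.card_mul_index S, ← AddSubgroup.card_mul_index (S.comap π.toAddMonoidHom),
    AddSubgroup.index_comap_of_surjective _ hπ]
  ring

lemma chain_z {Q : Type} [Ring Q] (π : M →+* Q) (hπ : Function.Surjective π) {O : Subring M}
    (hO : ∀ x, π x = 0 → x ∈ O) {J : NonUnitalSubring M} {J' : AddSubgroup Q}
    (hJ : ∀ x, x ∈ J ↔ π x ∈ J') {z : ℕ}
    (hz : z * Nat.card (J' ⊔ commS (O.map π) : AddSubgroup Q) ≤ Nat.card (O.map π)) :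
    z * Nat.card (J.toAddSubgroup ⊔ commS O : AddSubgroup M) ≤ Nat.card O := by
  have : Finite Q := Finite.of_surjective π hπ
  have h1 : (J.toAddSubgroup ⊔ commS O : AddSubgroup M) ≤
      (J' ⊔ commS (O.map π)).comap π.toAddMonoidHom := by
    refine sup_le (fun x hx => AddSubgroup.mem_sup_left ((hJ x).1 hx)) ?_
    rw [commS, AddSubgroup.closure_le]
    rintro _ ⟨x, hx, y, hy, rfl⟩
    refine AddSubgroup.mem_sup_right (AddSubgroup.subset_closure
      ⟨π x, ⟨x, hx, rfl⟩, π y, ⟨y, hy, rfl⟩, by simp⟩)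
  have h2 : (O.map π).toAddSubgroup.comap π.toAddMonoidHom = O.toAddSubgroup := by
    ext x
    constructor
    · rintro ⟨y, hy, hxy⟩
      have := O.add_mem (hO (x - y) (by
        rw [map_sub, sub_eq_zero]; exact hxy.symm)) hy
      rwa [sub_add_cancel] at this
    · exact fun hx => ⟨x, hx, rfl⟩
  have e1 := chain_card_comap π hπ (J' ⊔ commS (O.map π))
  have e2 := chain_card_comap π hπ (O.map π).toAddSubgroup
  rw [h2] at e2
  have e3 : Nat.card (O.map π).toAddSubgroup = Nat.card (O.map π) := rfl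
  have e4 : Nat.card O.toAddSubgroup = Nat.card O := rfl
  refine Nat.le_of_mul_le_mul_right ?_ (Nat.card_pos (α := Q))
  calc _ ≤ z * Nat.card ((J' ⊔ commS (O.map π)).comap π.toAddMonoidHom) * Nat.card Q := by
        gcongr
        exact AddSubgroup.card_le_of_le h1
    _ = z * Nat.card (J' ⊔ commS (O.map π) : AddSubgroup Q) * Nat.card M := by
        rw [mul_assoc, e1, mul_assoc]
    _ ≤ Nat.card (O.map π) * Nat.card M := by gcongr
    _ = _ := by rw [← e3, ← e2, e4]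

lemma chain_stable {J I : NonUnitalSubring M} {L : M → M} {H : Subgroup Mˣ}
    (hI : Sit τ I I L H) (hJ : Sit τ J J L H) (hle : I ≤ J) {χ : H → ℂ} (hχ : χ ∈ Irr H) {A : M}
    (hA : Sup τ I L H χ ⊆ cls τ I (UU I) A) :
    ∀ B ∈ cls τ I (UU I) A, cls τ J (UU J) B ⊆ cls τ I (UU I) A := by
  obtain ⟨A₀, hA₀⟩ := hI.sup_nonempty hχ
  have hNI : Norm (UU I) I := fun g hg => hI.norm g (hI.sub hg)
  intro B hB
  rw [← hI.frob.cls_eq hNI (hA hA₀)] at hB
  obtain ⟨g, hg, hB⟩ := hB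
  have h1 : cls τ I H B = cls τ I H A₀ := hI.frob.cls_eq hI.norm ⟨g, hI.sub hg, hB⟩
  rintro B' ⟨u, hu, hB'⟩
  refine hA (hI.sup_stable hχ hA₀ ?_)
  rw [← h1]
  exact ⟨u, hJ.sub hu, perp_anti (J := I.toAddSubgroup) (J' := J.toAddSubgroup) hle hB'⟩

end gen

lemma chain_mem_pI {n : ℕ} {R : Type} [CommRing R] {a : R} {x : Mat n R} :
    x ∈ pI n R a ↔ ∃ w : Mat n R, x = a • w := by
  constructor
  · intro h
    choose w hw using h
    exact ⟨Matrix.of w, by ext i j; simpa using hw i j⟩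
  · rintro ⟨w, rfl⟩ i j
    exact Dvd.intro _ rfl

lemma chain_pI_ideal {n : ℕ} {R : Type} [CommRing R] {a : R} (x : Mat n R) {y : Mat n R}
    (hy : y ∈ pI n R a) : x * y ∈ pI n R a ∧ y * x ∈ pI n R a := by
  obtain ⟨w, rfl⟩ := chain_mem_pI.1 hy
  exact ⟨chain_mem_pI.2 ⟨x * w, by simp⟩, chain_mem_pI.2 ⟨w * x, by simp⟩⟩

lemma chain_scal {n : ℕ} (hn : 0 < n) {R : Type} [CommRing R] {q : R} (m : ℕ) {A : Mat n R}
    (h : ∀ x : Mat n R, ∃ y, A * y - y * A ∈ pI n R (q ^ m) ∧ x - y ∈ pI n R q) :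
    ∃ c : R, A - c • (1 : Mat n R) ∈ pI n R (q ^ m) := by
  have h1 : ∀ (k : ℕ) (x : Mat n R), ∃ y, A * y - y * A ∈ pI n R (q ^ m) ∧
      x - y ∈ pI n R (q ^ k) := by
    intro k
    induction k with
    | zero => exact fun x => ⟨0, by simp, fun i j => by simp⟩
    | succ k ih =>
      intro x
      obtain ⟨y, hy, hx⟩ := ih x
      obtain ⟨w, hw⟩ := chain_mem_pI.1 hx
      obtain ⟨y', hy', hw'⟩ := h w
      obtain ⟨w', hw'⟩ := chain_mem_pI.1 hw'
      obtain ⟨v, hv⟩ := chain_mem_pI.1 hy'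
      refine ⟨y + q ^ k • y', ?_, chain_mem_pI.2 ⟨w', ?_⟩⟩
      · have : A * (y + q ^ k • y') - (y + q ^ k • y') * A
            = A * y - y * A + q ^ k • (A * y' - y' * A) := by
          simp only [mul_add, add_mul, Matrix.mul_smul, Matrix.smul_mul, smul_sub]
          abel
        rw [this, hv, smul_comm]
        exact add_mem hy (chain_mem_pI.2 ⟨_, rfl⟩)
      · rw [← sub_sub, hw, ← smul_sub, hw', smul_smul, pow_succ]
  have h2 : ∀ x : Mat n R, A * x - x * A ∈ pI n R (q ^ m) := fun x => by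
    obtain ⟨y, hy, hx⟩ := h1 m x
    have := add_mem hy (sub_mem (chain_pI_ideal A hx).1 (chain_pI_ideal A hx).2)
    convert this using 1
    noncomm_ring
  refine ⟨A ⟨0, hn⟩ ⟨0, hn⟩, fun k i => ?_⟩
  have := h2 (single i ⟨0, hn⟩ 1) k ⟨0, hn⟩
  by_cases hk : k = i
  · subst hk
    simpa using this
  · rw [Matrix.sub_apply, mul_single_apply_same, single_mul_apply_of_ne _ _ _ _ _ hk] at this
    simpa [one_apply_ne hk] using this

theorem chain (n : ℕ) (hn : 2 ≤ n) : ∃ C : ℝ, ∀ (p : ℕ) [Fact p.Prime], 2 * n ≤ p → ∀ (m : ℕ)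
    (L : Mat n (ZMod (p ^ (m + 1))) → Mat n (ZMod (p ^ (m + 1)))),
    (∀ J : NonUnitalSubring (Mat n (ZMod (p ^ (m + 1)))), pI n _ (p : ZMod (p ^ (m + 1))) ≤ J →
        NilTo n (J : Set (Mat n (ZMod (p ^ (m + 1))))) (pI n _ (p : ZMod (p ^ (m + 1)))) →
        OM J J L) →
    ∀ s : ℝ, 0 ≤ s → s ≤ 2 →
    Zs (⊤ : Subgroup (GLn n (ZMod (p ^ (m + 1)))))
      (fun χ => Sup (tau n (p ^ (m + 1))) (pI n _ (p : ZMod (p ^ (m + 1)))) L ⊤ χ
        ⊆ NS n _ ((p : ZMod (p ^ (m + 1))) ^ m)) s ≤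
      C * (p : ℝ) ^ (n - 2) * sumOn (NS n _ ((p : ZMod (p ^ (m + 1))) ^ m))
        (fun A => ((orb A).ncard : ℝ) ^ (-1 - s / 2)) := by
  classical
  obtain ⟨C, hC⟩ := ss n hn
  refine ⟨2 * C, fun p _ hp m L hL s hs hs2 => ?_⟩
  have hτ := frob_tau n (p ^ (m + 1))
  set τ := tau n (p ^ (m + 1))
  set P := pI n _ (p : ZMod (p ^ (m + 1))) with hP
  set π := redP n p m
  have hπP : ∀ x, π x = 0 ↔ x ∈ P := redP_eq_zero
  let f : Mat n (ZMod (p ^ (m + 1))) → ℝ := fun B => 2 * ((C : ℝ) * (p : ℝ) ^ (n - 2)) *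
    (Nat.card (Mat n (ZMod (p ^ (m + 1))))ˣ : ℝ) ^ (1 + s) * ((orb B).ncard : ℝ) ^ (-1 - s / 2)
  have hf : ∀ B, 0 ≤ f B := fun B => by positivity
  have key : ∀ (N : ℕ) (O : Subring (Mat n (ZMod (p ^ (m + 1))))), Nat.card O = N → O ≠ ⊤ →
      ∀ H : Subgroup (Mat n (ZMod (p ^ (m + 1))))ˣ,
      (∀ g, g ∈ H ↔ (g : Mat n (ZMod (p ^ (m + 1)))) ∈ O) →
      ∀ I : NonUnitalSubring (Mat n (ZMod (p ^ (m + 1)))), P ≤ I → (∀ y ∈ I, y ∈ O) →
      (∀ x ∈ O, ∀ y ∈ I, x * y ∈ I ∧ y * x ∈ I) →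
      NilTo n (I : Set (Mat n (ZMod (p ^ (m + 1))))) P → ∀ A,
      Zs H (fun χ => Sup τ I L H χ ⊆ cls τ I (UU I) A) s ≤
        (Nat.card H : ℝ) ^ (-1 - s) * sumOn (cls τ I (UU I) A) f := by
    intro N
    induction N using Nat.strong_induction_on with
    | _ N ih =>
    intro O hN hO H hH I hPI hIO hIid hInil A
    have hker : ∀ x, π x = 0 → x ∈ O := fun x hx => hIO x (hPI ((hπP x).1 hx))
    have hmem : ∀ x, π x ∈ O.map π → x ∈ O := by
      rintro x ⟨y, hy, hxy⟩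
      have := O.add_mem (hker (x - y) (by rw [map_sub, sub_eq_zero]; exact hxy.symm)) hy
      rwa [sub_add_cancel] at this
    obtain ⟨J', hJ'h, hJ'id, hJ'nil, hmax, hcoc, k, z, hk, hz, c, hc⟩ :=
      hC p (by omega) (by omega) (O.map π) (fun h => hO (eq_top_iff.2 (fun x _ =>
        hmem x (h ▸ Subring.mem_top _))))
    let J : NonUnitalSubring (Mat n (ZMod (p ^ (m + 1)))) :=
      { carrier := {x | π x ∈ J'}
        zero_mem' := by simp
        add_mem' := fun hx hy => by simpa using add_mem hx hy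
        neg_mem' := fun hx => by simpa using hx
        mul_mem' := fun {x y} hx hy => by simpa using (hJ'id _ (hJ'h _ hx) _ hy).1 }
    have hJ : ∀ x, x ∈ J ↔ π x ∈ J' := fun _ => Iff.rfl
    have hJO : ∀ y ∈ J, y ∈ O := fun y hy => hmem y (hJ'h _ hy)
    have hJid : ∀ x ∈ O, ∀ y ∈ J, x * y ∈ J ∧ y * x ∈ J := fun x hx y hy => by
      simpa [hJ] using hJ'id _ ⟨x, hx, rfl⟩ _ hy
    have hPJ : P ≤ J := fun x hx => by rw [hJ, (hπP x).2 hx]; exact zero_mem _
    have hJnil : NilTo n (J : Set (Mat n (ZMod (p ^ (m + 1))))) P := fun x hx => by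
      have := hJ'nil (fun i => π (x i)) hx
      refine (hπP _).1 ?_
      rw [map_list_prod, List.map_ofFn]
      exact this
    have hIJ : I ≤ J := by
      have := hmax (I.toAddSubgroup.map π.toAddMonoidHom) (by
        rintro _ ⟨y, hy, rfl⟩
        exact ⟨y, hIO y hy, rfl⟩) (by
        rintro _ ⟨x, hx, rfl⟩ _ ⟨y, hy, rfl⟩
        exact ⟨⟨x * y, (hIid x hx y hy).1, by simp⟩, ⟨y * x, (hIid x hx y hy).2, by simp⟩⟩) (by
        intro x hx
        choose y hy hyx using hx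
        have := (hπP _).2 (hInil y hy)
        rw [map_list_prod, List.map_ofFn] at this
        have e : π ∘ y = x := funext hyx
        rw [e] at this
        exact this)
      exact fun y hy => this ⟨y, hy, rfl⟩
    have SI := chain_sit hτ hH (hL I hPI hInil) hIO hIid
    have SJ := chain_sit hτ hH (hL J hPJ hJnil) hJO hJid
    by_cases hne : ∃ χ ∈ Irr H, Sup τ I L H χ ⊆ cls τ I (UU I) A
    swap
    · have : Zs H (fun χ => Sup τ I L H χ ⊆ cls τ I (UU I) A) s = 0 :=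
        Finset.sum_eq_zero (fun χ hχ => absurd ⟨χ, Finset.mem_filter.1 hχ⟩ hne)
      rw [this]
      exact mul_nonneg (by positivity) (Finset.sum_nonneg (fun B _ => hf B))
    obtain ⟨χ₀, hχ₀, hA⟩ := hne
    refine (Zs_mono (fun χ hχ h => (SJ.sup_mono SI hIJ hχ).trans h) s).trans
      (SJ.step _ (chain_stable SI SJ hIJ hχ₀ hA) f hf hs (fun B _ H₁ hH₁ => ?_))
    obtain ⟨O₁, hO₁, hO₁'⟩ := stab_subring hτ O J hJO hJid SJ.om.unit B
    have hH₁' : ∀ g, g ∈ H₁ ↔ (g : Mat n (ZMod (p ^ (m + 1)))) ∈ O₁ := fun g => by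
      rw [hH₁, hO₁', hH]
    have hle : O₁ ≤ O := fun x hx => by
      obtain ⟨y, hy, _, h⟩ := (hO₁ x).1 hx
      have := O.add_mem (hJO _ h) hy
      rwa [sub_add_cancel] at this
    by_cases heq : O₁ = O
    · subst heq
      obtain ⟨A', hA', hA''⟩ := chain_central hτ π J' hJ hJ'id hJid hJO (hcoc _) B
        (fun x hx => (hO₁ x).1 hx)
      have S₁ := chain_sit hτ hH₁' (hL J hPJ hJnil) hJO hJid
      rw [← hτ.cls_eq (fun g hg => S₁.norm g (S₁.sub hg)) hA']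
      refine base_case O₁ J hH₁' S₁ hJO hJid A' hA'' k z _ (by exact_mod_cast hk)
        (chain_z π (redP_surj n p m) hker hJ hz) (fun g => c (π g.1)) (fun x y hxy => ?_)
        (card_mat_big hp m) hs hs2
      obtain ⟨_, ⟨g, hg, rfl⟩, hu, hg'⟩ := hc _ ⟨_, (hH₁' _).1 x.2, rfl⟩ _
        ⟨_, (hH₁' _).1 y.2, rfl⟩ hxy
      obtain ⟨g, rfl⟩ := isUnit_of_redP hu
      let g' : H₁ := ⟨g, (hH₁' g).2 hg⟩
      refine ⟨g', (g' * x * g'⁻¹)⁻¹ * y, ?_, by group⟩
      have h1 : (g : Mat n (ZMod (p ^ (m + 1)))) * x.1 - y.1 * g ∈ J := by simpa [hJ] using hg'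
      have h2 := (hJid _ ((hH₁' _).1 (g' * x * g'⁻¹)⁻¹.2) _
        (hJid _ ((hH₁' _).1 g'⁻¹.2) _ (neg_mem h1)).2).1
      rw [mem_UU]
      convert h2 using 1
      simp [g', mul_sub, sub_mul, mul_assoc]
    · refine ih (Nat.card O₁) ?_ O₁ rfl (fun h => hO (eq_top_iff.2 (h ▸ hle))) H₁ hH₁' J hPJ
        (fun y hy => (hO₁ y).2 ⟨0, O.zero_mem, by simp, by simpa using hy⟩)
        (fun x hx => hJid x (hle hx)) hJnil B
      rw [← hN]
      exact Set.Finite.card_lt_card (Set.toFinite _)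
        (SetLike.coe_ssubset_coe.2 (lt_of_le_of_ne hle heq))
  have hPnil : NilTo n (P : Set (Mat n (ZMod (p ^ (m + 1))))) P := fun x hx => by
    obtain ⟨k, rfl⟩ : ∃ k, n = k + 1 := ⟨n - 1, by omega⟩
    rw [List.ofFn_succ, List.prod_cons]
    exact (chain_pI_ideal _ (hx 0)).2
  have hPid : ∀ x ∈ (⊤ : Subring (Mat n (ZMod (p ^ (m + 1))))), ∀ y ∈ P, x * y ∈ P ∧ y * x ∈ P :=
    fun x _ y hy => chain_pI_ideal x hy
  have S := chain_sit hτ (O := ⊤) (H := ⊤) (by simp) (hL P le_rfl hPnil) (by simp) hPid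
  refine (S.step _ ?_ f hf hs (fun B hB H₁ hH₁ => ?_)).trans (le_of_eq ?_)
  · rintro A hA B ⟨g, _, hB⟩ ⟨c, hc⟩
    rw [perp_pI] at hB
    refine hA ⟨c, ?_⟩
    have h1 : cj g A - c • 1 ∈ pI n _ ((p : ZMod (p ^ (m + 1))) ^ m) := by
      have := sub_mem hc hB
      convert this using 1
      abel
    have h2 := (chain_pI_ideal (g : Mat n _) (chain_pI_ideal ((g⁻¹ : _ˣ) : Mat n _) h1).1).2
    convert h2 using 1
    simp [cj, mul_sub, sub_mul, mul_assoc]
  · obtain ⟨O₁, hO₁, hO₁'⟩ := stab_subring hτ ⊤ P (by simp) hPid S.om.unit B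
    refine key _ O₁ rfl (fun h => hB (chain_scal (by omega) m (fun x => ?_))) H₁
      (fun g => by rw [hH₁, hO₁']; simp) P le_rfl
      (fun y hy => (hO₁ y).2 ⟨0, trivial, by simp, by simpa using hy⟩)
      (fun x _ => hPid x trivial) hPnil B
    obtain ⟨y, _, h1, h2⟩ := (hO₁ x).1 (h ▸ Subring.mem_top x)
    rw [perp_pI] at h1
    exact ⟨y, h1, h2⟩
  · have h0 : (0 : ℝ) < Nat.card (Mat n (ZMod (p ^ (m + 1))))ˣ := by exact_mod_cast Nat.card_pos
    have h1 : (Nat.card (Mat n (ZMod (p ^ (m + 1))))ˣ : ℝ) ^ (-1 - s) *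
        (Nat.card (Mat n (ZMod (p ^ (m + 1))))ˣ : ℝ) ^ (1 + s) = 1 := by
      rw [← Real.rpow_add h0, show -1 - s + (1 + s) = 0 by ring, Real.rpow_zero]
    rw [Subgroup.card_top]
    unfold sumOn
    rw [Finset.mul_sum, Finset.mul_sum]
    refine Finset.sum_congr rfl (fun A _ => ?_)
    simp only [f]
    linear_combination (2 * (C : ℝ) * (p : ℝ) ^ (n - 2) * ((orb A).ncard : ℝ) ^ (-1 - s / 2)) * h1

end Pool.Agent.MP_8299d6_al.Up

end
end
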