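import Pool.Agent.Mg.F810665.Gfae9d0

section

namespace Pool.Agent.MP_810665_al

open Representation Module Equiv Equiv.Perm

variable {α : Type} [Fintype α] [DecidableEq α]

/-- The double transposition attached to four points. -/
def dt (β : Fin 4 → α) : alternatingGroup α :=
  if h : β 0 ≠ β 1 ∧ β 2 ≠ β 3 then
    ⟨swap (β 0) (β 1) * swap (β 2) (β 3), by
      simp [mem_alternatingGroup, sign_swap h.1, sign_swap h.2]⟩
  else 1

lemma coe_dt {β : Fin 4 → α} (h : Function.Injective β) :
    (dt β : Perm α) = swap (β 0) (β 1) * swap (β 2) (β 3) := by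
  rw [dt, dif_pos ⟨h.ne (by decide), h.ne (by decide)⟩]

lemma dt_conj (g : alternatingGroup α) (β : Fin 4 → α) :
    g * dt β * g⁻¹ = dt (fun i => (g : Perm α) (β i)) := by
  unfold dt
  by_cases h : β 0 ≠ β 1 ∧ β 2 ≠ β 3
  · rw [dif_pos h, dif_pos (by simpa using h)]
    ext1
    simp only [Subgroup.coe_mul, InvMemClass.coe_inv, swap_apply_apply]
    group
  · rw [dif_neg h, dif_neg (by simpa using h)]
    simp

lemma dt_fix {β : Fin 4 → α} {x : α} (hx : ∀ i, x ≠ β i) : (dt β : Perm α) x = x := by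
  unfold dt
  split_ifs
  · simp [swap_apply_of_ne_of_ne (hx 0) (hx 1), swap_apply_of_ne_of_ne (hx 2) (hx 3)]
  · rfl

lemma dt_comm {g : alternatingGroup α} {β : Fin 4 → α} (h : ∀ i, (g : Perm α) (β i) = β i) :
    g * dt β = dt β * g := by
  have := dt_conj g β
  simp_rw [h] at this
  exact mul_inv_eq_iff_eq_mul.1 this

lemma dt_sq {β : Fin 4 → α} (h : Function.Injective β) : dt β * dt β = 1 := by
  ext x
  have h01 : β 0 ≠ β 1 := h.ne (by decide)
  have h02 : β 0 ≠ β 2 := h.ne (by decide)
  have h03 : β 0 ≠ β 3 := h.ne (by decide)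
  have h12 : β 1 ≠ β 2 := h.ne (by decide)
  have h13 : β 1 ≠ β 3 := h.ne (by decide)
  have h23 : β 2 ≠ β 3 := h.ne (by decide)
  simp only [Subgroup.coe_mul, coe_dt h, Perm.mul_apply, OneMemClass.coe_one, Perm.one_apply,
    swap_apply_def]
  grind

/-- Two rearrangements of four points. -/
def rot1 : Fin 4 → Fin 4 := ![0, 2, 3, 1]
def rot2 : Fin 4 → Fin 4 := ![0, 3, 1, 2]

lemma rot1_inj : Function.Injective rot1 := by decide
lemma rot2_inj : Function.Injective rot2 := by decide

lemma dt_klein {β : Fin 4 → α} (h : Function.Injective β) :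
    dt β * dt (β ∘ rot1) = dt (β ∘ rot2) ∧ dt (β ∘ rot1) * dt β = dt (β ∘ rot2) := by
  have h01 : β 0 ≠ β 1 := h.ne (by decide)
  have h02 : β 0 ≠ β 2 := h.ne (by decide)
  have h03 : β 0 ≠ β 3 := h.ne (by decide)
  have h12 : β 1 ≠ β 2 := h.ne (by decide)
  have h13 : β 1 ≠ β 3 := h.ne (by decide)
  have h23 : β 2 ≠ β 3 := h.ne (by decide)
  have e1 : (dt (β ∘ rot1) : Perm α) = swap (β 0) (β 2) * swap (β 3) (β 1) :=
    coe_dt (h.comp rot1_inj)
  have e2 : (dt (β ∘ rot2) : Perm α) = swap (β 0) (β 3) * swap (β 1) (β 2) :=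
    coe_dt (h.comp rot2_inj)
  constructor <;> ext x <;>
    simp only [Subgroup.coe_mul, coe_dt h, e1, e2, Perm.mul_apply, swap_apply_def] <;> grind

lemma exists_not_mem_two {ι : Type} [Fintype ι] (f : ι → α)
    (hc : Fintype.card ι + 2 ≤ Fintype.card α) :
    ∃ x y : α, x ≠ y ∧ (∀ i, f i ≠ x) ∧ ∀ i, f i ≠ y := by
  have h1 : 1 < (Finset.univ.image f)ᶜ.card := by
    rw [Finset.card_compl]
    have := Finset.card_image_le (s := Finset.univ) (f := f)
    rw [Finset.card_univ] at this
    omega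
  obtain ⟨x, hx, y, hy, hxy⟩ := Finset.one_lt_card.1 h1
  simp only [Finset.mem_compl, Finset.mem_image, Finset.mem_univ, true_and, not_exists] at hx hy
  exact ⟨x, y, hxy, hx, hy⟩

lemma exists_alt {ι : Type} [Fintype ι] {f f' : ι → α} (hf : Function.Injective f)
    (hf' : Function.Injective f') (hc : Fintype.card ι + 2 ≤ Fintype.card α) :
    ∃ g : alternatingGroup α, ∀ i, (g : Perm α) (f i) = f' i := by
  obtain ⟨σ, hσ⟩ := Equiv.Perm.exists_extending_pair f f' hf hf'
  rcases Int.units_eq_one_or (sign σ) with h | h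
  · exact ⟨⟨σ, h⟩, hσ⟩
  · obtain ⟨x, y, hxy, hx, hy⟩ := exists_not_mem_two f hc
    refine ⟨⟨σ * swap x y, by simp [mem_alternatingGroup, h, sign_swap hxy]⟩, fun i => ?_⟩
    simp [swap_apply_of_ne_of_ne (hx i) (hy i), hσ]

variable {V : Type} [AddCommGroup V] [Module ℂ V] (ρ : Representation ℂ (alternatingGroup α) V)

/-- A vector fixed by all double transpositions off `T` is fixed by the stabiliser of `T`. -/
lemma fixed_of_dt (T : Finset α) (hT : T.card + 6 ≤ Fintype.card α) (v : V)
    (hv : ∀ β : Fin 4 → α, Function.Injective β → (∀ i, β i ∉ T) → ρ (dt β) v = v)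
    (g : alternatingGroup α) (hg : ∀ t ∈ T, (g : Perm α) t = t) : ρ g v = v := by
  have hcard : Fintype.card {x : α // x ∉ T} = Fintype.card α - T.card := by
    simp [Fintype.card_subtype_compl]
  have hsimple : IsSimpleGroup (alternatingGroup {x : α // x ∉ T}) :=
    alternatingGroup.isSimpleGroup (by rw [Nat.card_eq_fintype_card]; omega)
  obtain ⟨φ, hφ0⟩ : ∃ φ : alternatingGroup {x : α // x ∉ T} →* alternatingGroup α,
      ∀ h, (φ h).1 = ofSubtype h.1 :=
    ⟨((ofSubtype (p := fun x => x ∉ T)).comp (alternatingGroup _).subtype).codRestrict _ (by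
      intro h
      rw [mem_alternatingGroup, MonoidHom.comp_apply, sign_ofSubtype]
      exact h.2), fun _ => rfl⟩
  have hφ : ∀ β : Fin 4 → {x : α // x ∉ T}, Function.Injective β →
      φ (dt β) = dt (fun i => (β i : α)) := by
    intro β hβ
    ext1
    rw [coe_dt (β := fun i => (β i : α)) (Subtype.val_injective.comp hβ), hφ0,
      coe_dt hβ, map_mul, ofSubtype_swap_eq, ofSubtype_swap_eq]
  let N : Subgroup (alternatingGroup {x : α // x ∉ T}) :=
    { carrier := {h | ρ (φ h) v = v}
      mul_mem' := fun {a b} ha hb => by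
        simp only [Set.mem_ofPred_eq, map_mul, Module.End.mul_apply] at *
        rw [hb, ha]
      one_mem' := by simp
      inv_mem' := fun {a} ha => by
        simp only [Set.mem_ofPred_eq] at *
        conv_lhs => rw [← ha, ← Module.End.mul_apply, ← map_mul, ← map_mul]
        simp }
  obtain ⟨β₀⟩ : Nonempty (Fin 4 ↪ {x : α // x ∉ T}) :=
    Function.Embedding.nonempty_of_card_le (by rw [hcard, Fintype.card_fin]; omega)
  have hle : Subgroup.normalClosure {dt β₀} ≤ N := by
    refine (Subgroup.closure_le _).2 (fun x hx => ?_)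
    obtain ⟨a, ha, hc⟩ := Group.mem_conjugatesOfSet_iff.1 hx
    obtain rfl : a = dt β₀ := ha
    obtain ⟨c, rfl⟩ := isConj_iff.1 hc
    change ρ (φ (c * dt β₀ * c⁻¹)) v = v
    have hinj : Function.Injective (fun i => c.1 (β₀ i)) :=
      c.1.injective.comp β₀.injective
    rw [dt_conj, hφ _ hinj]
    exact hv _ (Subtype.val_injective.comp hinj) (fun i => (c.1 (β₀ i)).2)
  have htop : Subgroup.normalClosure {dt β₀} = ⊤ := by
    refine (hsimple.eq_bot_or_eq_top_of_normal _ inferInstance).resolve_left (fun h => ?_)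
    have h1 : dt β₀ ∈ Subgroup.normalClosure {dt β₀} := Subgroup.subset_normalClosure rfl
    rw [h, Subgroup.mem_bot] at h1
    have h2 := congrArg (fun g : alternatingGroup _ => (g : Perm _) (β₀ 0)) h1
    simp only [coe_dt β₀.injective, Perm.mul_apply, OneMemClass.coe_one, Perm.one_apply] at h2
    rw [swap_apply_of_ne_of_ne (β₀.injective.ne (by decide)) (β₀.injective.ne (by decide)),
      swap_apply_left] at h2
    exact absurd (β₀.injective h2) (by decide)
  have h1 : ∀ x, (g : Perm α) x ∉ T ↔ x ∉ T := by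
    intro x
    refine not_congr ⟨fun h => ?_, fun h => by rwa [hg x h]⟩
    rwa [← (g : Perm α).injective (hg _ h)]
  have h2 : ∀ x, (g : Perm α) x ≠ x → x ∉ T := fun x hx hxT => hx (hg x hxT)
  let h : alternatingGroup {x : α // x ∉ T} := ⟨subtypePerm (g : Perm α) h1, by
    rw [mem_alternatingGroup, sign_subtypePerm _ h1 h2]
    exact g.2⟩
  have h3 : φ h = g := Subtype.ext ((hφ0 h).trans (ofSubtype_subtypePerm h1 h2))
  have h4 : h ∈ N := hle (htop ▸ Subgroup.mem_top h)
  rw [← h3]
  exact h4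

/-- A family of disjoint blocks of four points. -/
def Blocks {ι : Type} (B : ι → Fin 4 → α) : Prop := Function.Injective (Function.uncurry B)

omit [Fintype α] [DecidableEq α] in
lemma Blocks.inj {ι : Type} {B : ι → Fin 4 → α} (h : Blocks B) (i : ι) :
    Function.Injective (B i) := fun a b hab =>
  (Prod.ext_iff.1 (h (a₁ := (i, a)) (a₂ := (i, b)) hab)).2

omit [Fintype α] [DecidableEq α] in
lemma Blocks.ne {ι : Type} {B : ι → Fin 4 → α} (h : Blocks B) {i j : ι} (hij : i ≠ j)
    (a b : Fin 4) : B i a ≠ B j b := fun hab =>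
  hij (Prod.ext_iff.1 (h (a₁ := (i, a)) (a₂ := (j, b)) hab)).1

omit [Fintype α] [DecidableEq α] in
lemma Blocks.comp {ι κ : Type} {B : ι → Fin 4 → α} (h : Blocks B) {e : κ → ι}
    (he : Function.Injective e) : Blocks (fun k => B (e k)) := by
  rintro ⟨i, a⟩ ⟨j, b⟩ hab
  have := h (a₁ := (e i, a)) (a₂ := (e j, b)) hab
  simp only [Prod.mk.injEq] at this ⊢
  exact ⟨he this.1, this.2⟩

omit [Fintype α] [DecidableEq α] in
lemma Blocks.update {ι : Type} [DecidableEq ι] {B : ι → Fin 4 → α} (h : Blocks B) (j : ι)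
    {r : Fin 4 → Fin 4} (hr : Function.Injective r) : Blocks (Function.update B j (B j ∘ r)) := by
  have key : ∀ i a, Function.update B j (B j ∘ r) i a = B i (if i = j then r a else a) := by
    intro i a
    by_cases hi : i = j
    · subst hi
      simp
    · simp [hi]
  rintro ⟨i, a⟩ ⟨k, b⟩ hab
  simp only [Function.uncurry_apply_pair, key] at hab
  have := h (a₁ := (i, if i = j then r a else a)) (a₂ := (k, if k = j then r b else b)) hab
  simp only [Prod.mk.injEq] at this ⊢
  obtain ⟨rfl, h2⟩ := this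
  refine ⟨rfl, ?_⟩
  split_ifs at h2
  · exact hr h2
  · exact h2

omit [DecidableEq α] in
lemma exists_blocks (r : ℕ) (h : r * 4 ≤ Fintype.card α) : ∃ B : Fin r → Fin 4 → α, Blocks B := by
  obtain ⟨e⟩ : Nonempty (Fin r × Fin 4 ↪ α) :=
    Function.Embedding.nonempty_of_card_le (by simpa using h)
  exact ⟨Function.curry e, e.injective⟩

/-- A joint eigenvector of the double transpositions of a family of blocks. -/
def Pattern {ι : Type} (B : ι → Fin 4 → α) (ε : ι → ℂ) : Prop :=
  ∃ v : V, v ≠ 0 ∧ ∀ i, ρ (dt (B i)) v = ε i • v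

omit [Fintype α] [DecidableEq α] in
lemma rho_ne_zero {G : Type} [Group G] (ρ : Representation ℂ G V) (g : G) {v : V} (hv : v ≠ 0) :
    ρ g v ≠ 0 := fun h => hv (by
  have := congrArg (ρ g⁻¹) h
  simpa using this)

variable {ρ}

lemma Pattern.transport {ι : Type} [Fintype ι] {B B' : ι → Fin 4 → α} {ε : ι → ℂ}
    (h : Pattern ρ B ε) (hB : Blocks B) (hB' : Blocks B')
    (hc : Fintype.card ι * 4 + 2 ≤ Fintype.card α) : Pattern ρ B' ε := by
  obtain ⟨g, hg⟩ := exists_alt hB hB' (by simpa using hc)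
  obtain ⟨v, hv, hε⟩ := h
  refine ⟨ρ g v, rho_ne_zero ρ g hv, fun i => ?_⟩
  have h1 : B' i = fun a => (g : Perm α) (B i a) := funext (fun a => (hg (i, a)).symm)
  rw [h1, ← dt_conj, map_mul, map_mul]
  simp [hε]

lemma Pattern.flip {ι : Type} [Fintype ι] [DecidableEq ι] {B : ι → Fin 4 → α} {ε : ι → ℂ}
    (h : Pattern ρ B ε) (hB : Blocks B) (hc : Fintype.card ι * 4 + 2 ≤ Fintype.card α) {j : ι}
    (hj : ε j = -1) : Pattern ρ B (Function.update ε j 1) := by
  obtain ⟨v, hv, hε⟩ := h
  by_cases h1 : v + ρ (dt (B j ∘ rot1)) v = 0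
  · refine Pattern.transport ⟨v, hv, fun i => ?_⟩ (hB.update j rot2_inj) hB hc
    by_cases hi : i = j
    · subst hi
      simp only [Function.update_self, one_smul]
      rw [← (dt_klein (hB.inj i)).2, map_mul, Module.End.mul_apply, hε, hj, map_smul,
        eq_neg_of_add_eq_zero_right h1]
      simp
    · simp [hi, hε]
  · refine Pattern.transport ⟨_, h1, fun i => ?_⟩ (hB.update j rot1_inj) hB hc
    by_cases hi : i = j
    · subst hi
      simp only [Function.update_self, one_smul, map_add]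
      rw [← Module.End.mul_apply, ← map_mul, dt_sq ((hB.inj i).comp rot1_inj), add_comm]
      simp
    · simp only [ne_eq, hi, not_false_eq_true, Function.update_of_ne, map_add, smul_add]
      rw [← Module.End.mul_apply, ← map_mul, dt_comm (g := dt (B i)) (β := B j ∘ rot1)
        (fun a => dt_fix (fun b => hB.ne (Ne.symm hi) _ _)), map_mul, Module.End.mul_apply, hε,
        map_smul]

/-- The sign pattern of a subset. -/
noncomputable def sgn {ι : Type} [DecidableEq ι] (S : Finset ι) : ι → ℂ :=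
  fun i => if i ∈ S then -1 else 1

lemma Pattern.all_subsets {ι : Type} [Fintype ι] [DecidableEq ι] {B : ι → Fin 4 → α}
    (h : Pattern ρ B (fun _ => -1)) (hB : Blocks B)
    (hc : Fintype.card ι * 4 + 2 ≤ Fintype.card α) (S : Finset ι) : Pattern ρ B (sgn Sᶜ) := by
  induction S using Finset.induction_on with
  | empty =>
    convert h using 1
    funext i
    simp [sgn]
  | insert j S hj ih =>
    convert ih.flip hB hc (j := j) (by simp [sgn, hj]) using 1
    funext i
    by_cases hi : i = j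
    · subst hi
      simp [sgn]
    · simp [sgn, hi]

lemma card_le_finrank [FiniteDimensional ℂ V] {r : ℕ} {B : Fin r → Fin 4 → α}
    (F : Finset (Finset (Fin r))) (h : ∀ S ∈ F, Pattern ρ B (sgn S)) : F.card ≤ finrank ℂ V := by
  choose! v hv hε using h
  let T : Module.End ℂ V := ∑ i : Fin r, (2 ^ (i : ℕ) : ℂ) • ρ (dt (B i))
  let μ : F → ℂ := fun S => ∑ i : Fin r, (2 ^ (i : ℕ) : ℂ) * sgn S.1 i
  have hμ : Function.Injective μ := by
    intro S S' hS
    have h1 : ∀ S : F, μ S = ∑ i : Fin r, (2 ^ (i : ℕ) : ℂ)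
        - 2 * ((∑ i ∈ S.1.map Fin.valEmbedding, 2 ^ i : ℕ) : ℂ) := by
      intro S
      rw [Finset.sum_map]
      push_cast
      rw [← Finset.sum_ite_mem_eq S.1, Finset.mul_sum, ← Finset.sum_sub_distrib]
      refine Finset.sum_congr rfl (fun i _ => ?_)
      simp only [sgn, Fin.valEmbedding_apply]
      split_ifs <;> ring
    rw [h1, h1, sub_right_inj, mul_right_inj' two_ne_zero, Nat.cast_inj] at hS
    exact Subtype.ext (Finset.map_injective _ (Finset.geomSum_injective le_rfl hS))
  have hli := Module.End.eigenvectors_linearIndependent' T μ hμ (fun S => v S.1) (fun S =>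
    ⟨by
      rw [Module.End.mem_eigenspace_iff]
      simp only [T, μ, LinearMap.sum_apply, LinearMap.smul_apply, hε S.1 S.2, smul_smul,
        Finset.sum_smul], hv S.1 S.2⟩)
  simpa using hli.fintype_card_le_finrank

variable (ρ) in
/-- Some `w` disjoint double transpositions have a common eigenvector for `-1`. -/
def HasW (w : ℕ) : Prop := ∃ B : Fin w → Fin 4 → α, Blocks B ∧ Pattern ρ B (fun _ => -1)

lemma HasW.mono {w w' : ℕ} (h : HasW ρ w) (hw : w' ≤ w) : HasW ρ w' := by
  obtain ⟨B, hB, v, hv, hε⟩ := h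
  exact ⟨fun i => B (Fin.castLE hw i), hB.comp (Fin.castLE_injective hw), v, hv, fun i => hε _⟩

lemma HasW.le {w : ℕ} (h : HasW ρ w) : w * 4 ≤ Fintype.card α := by
  obtain ⟨B, hB, _⟩ := h
  simpa using Fintype.card_le_of_injective _ hB

lemma HasW.two_pow_le [FiniteDimensional ℂ V] {w : ℕ} (h : HasW ρ w)
    (hc : w * 4 + 2 ≤ Fintype.card α) : 2 ^ w ≤ finrank ℂ V := by
  obtain ⟨B, hB, h⟩ := h
  have := card_le_finrank (ρ := ρ) (B := B) Finset.univ (fun S _ => by
    simpa using h.all_subsets hB (by simpa using hc) Sᶜ)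
  simpa using this

lemma fixed_of_max {w : ℕ} (hw : ¬ HasW ρ (w + 1)) {B : Fin w → Fin 4 → α} (hB : Blocks B)
    {v : V} (hv : ∀ i, ρ (dt (B i)) v = (-1 : ℂ) • v) {β : Fin 4 → α}
    (hβ : Function.Injective β) (hd : ∀ i a b, B i a ≠ β b) : ρ (dt β) v = v := by
  by_contra hne
  refine hw ⟨Fin.cons β B, ?_, v - ρ (dt β) v, sub_ne_zero.2 (Ne.symm hne), fun i => ?_⟩
  · rintro ⟨i, a⟩ ⟨j, b⟩ hab
    simp only [Function.uncurry_apply_pair] at hab
    induction i using Fin.cases <;> induction j using Fin.cases <;>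
      simp only [Fin.cons_zero, Fin.cons_succ] at hab
    · rw [hβ hab]
    · exact absurd hab.symm (hd _ _ _)
    · exact absurd hab (hd _ _ _)
    · have := hB (a₁ := (_, a)) (a₂ := (_, b)) hab
      simp only [Prod.mk.injEq] at this
      rw [this.1, this.2]
  · induction i using Fin.cases
    · simp only [Fin.cons_zero, map_sub]
      rw [← Module.End.mul_apply, ← map_mul, dt_sq hβ]
      simp
    · simp only [Fin.cons_succ, map_sub]
      rw [← Module.End.mul_apply, ← map_mul, dt_comm (fun a => dt_fix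
        (fun b => (hd _ _ _).symm)), map_mul, Module.End.mul_apply, hv, map_smul, smul_sub]

lemma choose_le_finrank [FiniteDimensional ℂ V] {w r : ℕ} (h : HasW ρ w) (hw : ¬ HasW ρ (w + 1))
    (hr : r * 4 + 2 ≤ Fintype.card α) : r.choose w ≤ finrank ℂ V := by
  obtain ⟨B₀, hB₀⟩ := exists_blocks (α := α) r (by omega)
  obtain ⟨B, hB, h⟩ := h
  have := card_le_finrank (ρ := ρ) (B := B₀) (Finset.powersetCard w Finset.univ) (fun S hS => by
    have hSw : S.card = w := (Finset.mem_powersetCard.1 hS).2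
    have hwr : w ≤ r := by simpa [hSw] using S.card_le_univ
    have hB' := hB₀.comp (S.orderEmbOfFin hSw).injective
    obtain ⟨v, hv, hε⟩ := h.transport hB hB' (by simp only [Fintype.card_fin]; omega)
    refine ⟨v, hv, fun i => ?_⟩
    by_cases hi : i ∈ S
    · have : i ∈ Set.range (S.orderEmbOfFin hSw) := by simpa using hi
      obtain ⟨k, rfl⟩ := this
      simpa [sgn] using hε k
    · simp only [sgn, hi, if_false, one_smul]
      refine fixed_of_max hw hB' hε (hB₀.inj i) (fun k a b => hB₀.ne ?_ _ _)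
      rintro rfl
      exact hi (S.orderEmbOfFin_mem hSw k))
  simpa using this

lemma exists_max_weight (hV : ∃ v : V, v ≠ 0) : ∃ w, HasW ρ w ∧ ¬ HasW ρ (w + 1) := by
  classical
  have h0 : HasW ρ 0 := by
    obtain ⟨v, hv⟩ := hV
    exact ⟨fun i => i.elim0, fun a => a.1.elim0, v, hv, fun i => i.elim0⟩
  have hex : ∃ w, ¬ HasW ρ (w + 1) := ⟨Fintype.card α, fun h => by
    have := h.le
    omega⟩
  refine ⟨Nat.find hex, ?_, Nat.find_spec hex⟩
  rcases Nat.eq_zero_or_pos (Nat.find hex) with h | h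
  · rwa [h]
  · have := Nat.find_min hex (m := Nat.find hex - 1) (by omega)
    rw [not_not, Nat.sub_add_cancel h] at this
    exact this

lemma trivial_of_not_hasW (hc : 6 ≤ Fintype.card α) (h : ¬ HasW ρ 1) (g : alternatingGroup α)
    (v : V) : ρ g v = v :=
  fixed_of_dt ρ ∅ (by simpa using hc) v (fun β hβ _ =>
    fixed_of_max (w := 0) h (B := fun i => i.elim0) (fun a => a.1.elim0) (fun i => i.elim0) hβ
      (fun i => i.elim0)) g (by simp)

/-- A vector of maximal weight is fixed by the stabiliser of the blocks. -/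
lemma exists_fixed {w W : ℕ} (h : HasW ρ w) (hw : ¬ HasW ρ (w + 1)) (hwW : w ≤ W)
    {B₀ : Fin W → Fin 4 → α} (hB₀ : Blocks B₀) (hc : W * 4 + 6 ≤ Fintype.card α) :
    ∃ v : V, v ≠ 0 ∧ ∀ g : alternatingGroup α, (∀ i a, (g : Perm α) (B₀ i a) = B₀ i a) →
      ρ g v = v := by
  obtain ⟨B, hB, h⟩ := h
  have hB' := hB₀.comp (Fin.castLE_injective hwW)
  obtain ⟨v, hv, hε⟩ := h.transport hB hB' (by simp only [Fintype.card_fin]; omega)
  refine ⟨v, hv, fun g hg => fixed_of_dt ρ (Finset.univ.image (Function.uncurry B₀)) ?_ v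
    (fun β hβ hd => fixed_of_max hw hB' hε hβ (fun i a b hab => hd b ?_)) g ?_⟩
  · have := Finset.card_image_le (s := Finset.univ) (f := Function.uncurry B₀)
    simp only [Finset.card_univ, Fintype.card_prod, Fintype.card_fin] at this
    omega
  · exact Finset.mem_image.2 ⟨(_, a), Finset.mem_univ _, hab⟩
  · intro t ht
    obtain ⟨⟨i, a⟩, _, rfl⟩ := Finset.mem_image.1 ht
    exact hg i a

end Pool.Agent.MP_810665_al

end

section

namespace Pool.Agent.MP_810665_al

open Representation Module Equiv Equiv.Perm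

variable {α : Type} [Fintype α] [DecidableEq α]
variable {V : Type} [AddCommGroup V] [Module ℂ V]

omit [Fintype α] in
lemma lin_zero (A : Finset α) (hm : 4 ≤ A.card) (F : α → α → V)
    (h1 : ∀ b ∈ A, ∑ a ∈ A.erase b, F a b = 0) (h2 : ∀ a ∈ A, ∑ b ∈ A.erase a, F a b = 0)
    (h3 : ∀ a ∈ A, ∀ a' ∈ A, ∀ b ∈ A, ∀ b' ∈ A, a ≠ a' → a ≠ b → a ≠ b' → a' ≠ b → a' ≠ b' →
      b ≠ b' → F a b - F a' b - F a b' + F a' b' = 0) :
    ∀ a ∈ A, ∀ b ∈ A, a ≠ b → F a b = 0 := by
  obtain ⟨k, hk⟩ : ∃ k, A.card = k + 4 := ⟨A.card - 4, by omega⟩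
  have stepA : ∀ a ∈ A, ∀ b ∈ A, ∀ b' ∈ A, a ≠ b → a ≠ b' → b ≠ b' →
      ((k : ℂ) + 2) • (F a b - F a b') = F b b' - F b' b := by
    intro a ha b hb b' hb' hab hab' hbb'
    have hb'1 : b' ∈ A.erase b := Finset.mem_erase.2 ⟨hbb'.symm, hb'⟩
    have ha1 : a ∈ (A.erase b).erase b' := by simp [hab, hab', ha]
    have e0 : (A.erase b').erase b = (A.erase b).erase b' := Finset.erase_right_comm
    have e1 := h1 b hb
    have e2 := h1 b' hb'
    rw [← Finset.add_sum_erase _ _ hb'1, ← Finset.add_sum_erase _ _ ha1] at e1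
    rw [← Finset.add_sum_erase _ _ (Finset.mem_erase.2 ⟨hbb', hb⟩), e0,
      ← Finset.add_sum_erase _ _ ha1] at e2
    have e3 : ∑ a' ∈ ((A.erase b).erase b').erase a, (F a b - F a' b - F a b' + F a' b') = 0 :=
      Finset.sum_eq_zero (fun a' ha' => by
        simp only [Finset.mem_erase] at ha'
        exact h3 a ha a' ha'.2.2.2 b hb b' hb' ha'.1.symm hab hab' ha'.2.2.1 ha'.2.1 hbb')
    have hc : (((A.erase b).erase b').erase a).card = k + 1 := by
      rw [Finset.card_erase_of_mem ha1, Finset.card_erase_of_mem hb'1,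
        Finset.card_erase_of_mem hb]
      omega
    simp only [Finset.sum_add_distrib, Finset.sum_sub_distrib, Finset.sum_const, hc,
      ← Nat.cast_smul_eq_nsmul ℂ] at e3
    push_cast at e3
    linear_combination (norm := module) e3 + e1 - e2
  have stepB : ∀ a ∈ A, ∀ b ∈ A, a ≠ b →
      (((k : ℂ) + 2) * (k + 3)) • F a b = F a b - F b a := by
    intro a ha b hb hab
    have hb1 : b ∈ A.erase a := Finset.mem_erase.2 ⟨hab.symm, hb⟩
    have ha1 : a ∈ A.erase b := Finset.mem_erase.2 ⟨hab, ha⟩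
    have e0 : (A.erase b).erase a = (A.erase a).erase b := Finset.erase_right_comm
    have e1 := h2 a ha
    have e2 := h2 b hb
    have e3 := h1 b hb
    rw [← Finset.add_sum_erase _ _ hb1] at e1
    rw [← Finset.add_sum_erase _ _ ha1, e0] at e2 e3
    have e4 : ∑ b' ∈ (A.erase a).erase b, ((k : ℂ) + 2) • (F a b - F a b')
        = ∑ b' ∈ (A.erase a).erase b, (F b b' - F b' b) :=
      Finset.sum_congr rfl (fun b' hb' => by
        simp only [Finset.mem_erase] at hb'
        exact stepA a ha b hb b' hb'.2.2 hab hb'.2.1.symm hb'.1.symm)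
    have hc : ((A.erase a).erase b).card = k + 2 := by
      rw [Finset.card_erase_of_mem hb1, Finset.card_erase_of_mem ha]
      omega
    simp only [← Finset.smul_sum, Finset.sum_sub_distrib, Finset.sum_const, hc,
      ← Nat.cast_smul_eq_nsmul ℂ] at e4
    push_cast at e4
    linear_combination (norm := module) e4 + ((k : ℂ) + 2) • e1 + e2 - e3
  intro a ha b hb hab
  have e1 := stepB a ha b hb hab
  have e2 := stepB b hb a ha hab.symm
  have hne : ((k : ℂ) + 2) * (k + 3) ≠ 0 := by
    have : ((k + 2) * (k + 3) : ℕ) ≠ 0 := by positivity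
    exact_mod_cast this
  have hne' : ((k : ℂ) + 1) * (k + 4) ≠ 0 := by
    have : ((k + 1) * (k + 4) : ℕ) ≠ 0 := by positivity
    exact_mod_cast this
  have e3 : F a b + F b a = 0 := by
    refine (smul_eq_zero.1 (show (((k : ℂ) + 2) * (k + 3)) • (F a b + F b a) = 0 from ?_)
      ).resolve_left hne
    linear_combination (norm := module) e1 + e2
  refine (smul_eq_zero.1 (show (((k : ℂ) + 1) * (k + 4)) • F a b = 0 from ?_)).resolve_left hne'
  linear_combination (norm := module) e1 - e3

variable (ρ : Representation ℂ (alternatingGroup α) V)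

/-- `v` is fixed by the pointwise stabiliser of `T`. -/
def FixT (T : Finset α) (v : V) : Prop :=
  ∀ g : alternatingGroup α, (∀ t ∈ T, (g : Perm α) t = t) → ρ g v = v

variable {ρ}

lemma level_down (hw : ¬ HasW ρ 2) (R : Finset α) (hc : R.card + 8 ≤ Fintype.card α) {a b : α}
    (ha : a ∉ R) (hb : b ∉ R) (hab : a ≠ b)
    (hlow : ∀ c ∉ R, ∀ v, FixT ρ (insert c R) v → v = 0) {v : V}
    (hv : FixT ρ (insert a (insert b R)) v) : v = 0 := by
  classical
  have hinj : ∀ a' ∉ R, ∀ b' ∉ R, a' ≠ b' → Function.Injective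
      (Sum.elim Subtype.val (fun t : Bool => if t then a' else b') : R ⊕ Bool → α) := by
    intro a' ha' b' hb' hab'
    rintro (⟨x, hx⟩ | x) (⟨y, hy⟩ | y) h
    · simpa using h
    · cases y <;> simp at h <;> subst h <;> contradiction
    · cases x <;> simp at h <;> subst h <;> contradiction
    · cases x <;> cases y <;> simp_all
  have hex : ∀ a' b', a' ∉ R → b' ∉ R → a' ≠ b' → ∃ g : alternatingGroup α,
      (∀ t ∈ R, (g : Perm α) t = t) ∧ (g : Perm α) a = a' ∧ (g : Perm α) b = b' := by
    intro a' b' ha' hb' hab'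
    obtain ⟨g, hg⟩ := exists_alt (hinj a ha b hb hab) (hinj a' ha' b' hb' hab') (by simp; omega)
    exact ⟨g, fun t ht => hg (Sum.inl ⟨t, ht⟩), hg (Sum.inr true), hg (Sum.inr false)⟩
  choose! γ hγ using hex
  let F : α → α → V := fun a' b' => ρ (γ a' b') v
  have hmem : ∀ g : alternatingGroup α, (∀ t ∈ R, (g : Perm α) t = t) → ∀ x,
      (g : Perm α) x ∉ R ↔ x ∉ R := by
    intro g hg x
    refine not_congr ⟨fun h => ?_, fun h => by rwa [hg x h]⟩
    rwa [← (g : Perm α).injective (hg _ h)]
  have hF : ∀ g : alternatingGroup α, (∀ t ∈ R, (g : Perm α) t = t) →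
      ρ g v = F ((g : Perm α) a) ((g : Perm α) b) := by
    intro g hg
    obtain ⟨h1, h2, h3⟩ := hγ _ _ ((hmem g hg a).2 ha) ((hmem g hg b).2 hb)
      ((g : Perm α).injective.ne hab)
    have := hv (g⁻¹ * γ ((g : Perm α) a) ((g : Perm α) b)) (by
      intro t ht
      simp only [Subgroup.coe_mul, InvMemClass.coe_inv, Perm.mul_apply, Perm.inv_eq_iff_eq]
      rcases Finset.mem_insert.1 ht with rfl | ht
      · exact h2
      rcases Finset.mem_insert.1 ht with rfl | ht
      · exact h3
      · rw [h1 t ht, hg t ht])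
    conv_lhs => rw [← this, ← Module.End.mul_apply, ← map_mul, mul_inv_cancel_left]
  have hE : ∀ g : alternatingGroup α, (∀ t ∈ R, (g : Perm α) t = t) → ∀ a' ∉ R, ∀ b' ∉ R,
      a' ≠ b' → ρ g (F a' b') = F ((g : Perm α) a') ((g : Perm α) b') := by
    intro g hg a' ha' b' hb' hab'
    obtain ⟨h1, h2, h3⟩ := hγ a' b' ha' hb' hab'
    have := hF (g * γ a' b') (fun t ht => by simp [h1 t ht, hg t ht])
    simp only [map_mul, Module.End.mul_apply, Subgroup.coe_mul, Perm.mul_apply, h2, h3] at this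
    exact this
  have hperm : ∀ c ∉ R, ∀ g : alternatingGroup α, (∀ t ∈ insert c R, (g : Perm α) t = t) →
      ∀ x, x ∈ Rᶜ.erase c ↔ (g : Perm α) x ∈ Rᶜ.erase c := by
    intro c _ g hg x
    have h1 := hmem g (fun t ht => hg t (Finset.mem_insert_of_mem ht)) x
    have h2 := hg c (Finset.mem_insert_self _ _)
    simp only [Finset.mem_erase, Finset.mem_compl, h1]
    refine and_congr_left (fun _ => not_congr ⟨fun h => by rw [h, h2], fun h => ?_⟩)
    exact (g : Perm α).injective (h.trans h2.symm)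
  have hz := lin_zero Rᶜ (by rw [Finset.card_compl]; omega) F (fun c hc => ?_) (fun c hc => ?_)
    (fun a₁ h₁ a₂ h₂ b₁ h₃ b₂ h₄ n1 n2 n3 n4 n5 n6 => ?_) a (by simpa) b (by simpa) hab
  · have := hF 1 (fun _ _ => rfl)
    simpa [hz] using this
  · rw [Finset.mem_compl] at hc
    refine hlow c hc _ (fun g hg => ?_)
    rw [map_sum]
    refine Finset.sum_equiv (g : Perm α) (hperm c hc g hg) (fun x hx => ?_)
    simp only [Finset.mem_erase, Finset.mem_compl] at hx
    rw [hE g (fun t ht => hg t (Finset.mem_insert_of_mem ht)) x hx.2 c hc hx.1,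
      hg c (Finset.mem_insert_self _ _)]
  · rw [Finset.mem_compl] at hc
    refine hlow c hc _ (fun g hg => ?_)
    rw [map_sum]
    refine Finset.sum_equiv (g : Perm α) (hperm c hc g hg) (fun x hx => ?_)
    simp only [Finset.mem_erase, Finset.mem_compl] at hx
    rw [hE g (fun t ht => hg t (Finset.mem_insert_of_mem ht)) c hc x hx.2 hx.1.symm,
      hg c (Finset.mem_insert_self _ _)]
  · rw [Finset.mem_compl] at h₁ h₂ h₃ h₄
    obtain ⟨f, hf⟩ := Function.Embedding.exists_of_card_le_finset (α := Fin 4)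
      (s := (insert a₁ (insert a₂ (insert b₁ (insert b₂ R))))ᶜ) (by
        rw [Finset.card_compl, Fintype.card_fin]
        have := Finset.card_insert_le a₁ (insert a₂ (insert b₁ (insert b₂ R)))
        have := Finset.card_insert_le a₂ (insert b₁ (insert b₂ R))
        have := Finset.card_insert_le b₁ (insert b₂ R)
        have := Finset.card_insert_le b₂ R
        omega)
    have hf' : ∀ i, f i ≠ a₁ ∧ f i ≠ a₂ ∧ f i ≠ b₁ ∧ f i ≠ b₂ ∧ f i ∉ R := fun i => by
      have := hf ⟨i, rfl⟩
      simp only [Finset.coe_compl, Finset.coe_insert, Set.mem_compl_iff, Set.mem_insert_iff,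
        Finset.mem_coe, not_or] at this
      exact this
    have f01 : f 0 ≠ f 1 := f.injective.ne (by decide)
    have f02 : f 0 ≠ f 2 := f.injective.ne (by decide)
    have f03 : f 0 ≠ f 3 := f.injective.ne (by decide)
    have f12 : f 1 ≠ f 2 := f.injective.ne (by decide)
    have f13 : f 1 ≠ f 3 := f.injective.ne (by decide)
    have f23 : f 2 ≠ f 3 := f.injective.ne (by decide)
    have g0 := hf' 0
    have g1 := hf' 1
    have g2 := hf' 2
    have g3 := hf' 3
    have hβ : Function.Injective ![a₁, a₂, f 0, f 1] := by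
      intro i j
      fin_cases i <;> fin_cases j <;> simp <;> grind
    have hβ' : Function.Injective ![b₁, b₂, f 2, f 3] := by
      intro i j
      fin_cases i <;> fin_cases j <;> simp <;> grind
    have hd : ∀ i j, ![a₁, a₂, f 0, f 1] i ≠ ![b₁, b₂, f 2, f 3] j := by
      intro i j
      fin_cases i <;> fin_cases j <;> simp <;> grind
    have hR : ∀ t ∈ R, (dt ![a₁, a₂, f 0, f 1] : Perm α) t = t := fun t ht => dt_fix (by
      intro i
      fin_cases i <;> simp <;> grind)
    have hR' : ∀ t ∈ R, (dt ![b₁, b₂, f 2, f 3] : Perm α) t = t := fun t ht => dt_fix (by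
      intro i
      fin_cases i <;> simp <;> grind)
    have u1 : (dt ![a₁, a₂, f 0, f 1] : Perm α) a₁ = a₂ := by
      simp [coe_dt hβ, swap_apply_of_ne_of_ne g0.1.symm g1.1.symm]
    have u2 : (dt ![a₁, a₂, f 0, f 1] : Perm α) b₁ = b₁ := dt_fix (fun i => (hd i 0).symm)
    have u3 : (dt ![b₁, b₂, f 2, f 3] : Perm α) b₁ = b₂ := by
      simp [coe_dt hβ', swap_apply_of_ne_of_ne g2.2.2.1.symm g3.2.2.1.symm]
    have u4 : (dt ![b₁, b₂, f 2, f 3] : Perm α) a₁ = a₁ := dt_fix (fun i => hd 0 i)
    have u5 : (dt ![b₁, b₂, f 2, f 3] : Perm α) a₂ = a₂ := dt_fix (fun i => hd 1 i)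
    have key := fixed_of_max (w := 1) hw (B := fun _ => ![a₁, a₂, f 0, f 1])
      (v := F a₁ b₁ - ρ (dt ![a₁, a₂, f 0, f 1]) (F a₁ b₁)) (by
        rintro ⟨i, x⟩ ⟨j, y⟩ h
        have : x = y := hβ h
        rw [Subsingleton.elim i j, this]) (by
        intro _
        generalize F a₁ b₁ = z
        rw [map_sub, ← Module.End.mul_apply, ← map_mul, dt_sq hβ]
        simp) hβ' (fun _ => hd)
    rw [hE _ hR a₁ h₁ b₁ h₃ n2, u1, u2, map_sub, hE _ hR' a₁ h₁ b₁ h₃ n2,
      hE _ hR' a₂ h₂ b₁ h₃ n4, u3, u4, u5] at key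
    linear_combination (norm := module) -key

lemma level_one (hw : ¬ HasW ρ 2) (hc : 12 ≤ Fintype.card α) : ∀ j, j ≤ 3 → ∀ T : Finset α,
    T.card = j + 1 → (∃ v, v ≠ 0 ∧ FixT ρ T v) → ∃ c v, v ≠ 0 ∧ FixT ρ {c} v := by
  intro j
  induction j with
  | zero =>
    rintro _ T hT ⟨v, hv, h⟩
    obtain ⟨c, rfl⟩ := Finset.card_eq_one.1 hT
    exact ⟨c, v, hv, h⟩
  | succ j ih =>
    rintro hj T hT ⟨v, hv, h⟩
    obtain ⟨a, T', ha, rfl, hT'⟩ := Finset.card_eq_succ.1 hT
    obtain ⟨b, R, hb, rfl, hR⟩ := Finset.card_eq_succ.1 hT'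
    simp only [Finset.mem_insert, not_or] at ha
    by_cases hlow : ∀ c ∉ R, ∀ v, FixT ρ (insert c R) v → v = 0
    · exact absurd (level_down hw R (by omega) ha.2 hb ha.1 hlow h) hv
    · push Not at hlow
      obtain ⟨c, hc', w, hw', hw0⟩ := hlow
      exact ih (by omega) (insert c R) (by rw [Finset.card_insert_of_notMem hc', hR])
        ⟨w, hw0, hw'⟩

lemma fix_transport (hc : 3 ≤ Fintype.card α) {c : α} {v : V} (hv : v ≠ 0) (h : FixT ρ {c} v)
    (c' : α) : ∃ v, v ≠ 0 ∧ FixT ρ {c'} v := by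
  obtain ⟨g, hg⟩ := exists_alt (ι := Unit) (f := fun _ => c) (f' := fun _ => c')
    (Function.injective_of_subsingleton _) (Function.injective_of_subsingleton _) (by simpa)
  refine ⟨ρ g v, rho_ne_zero ρ g hv, fun k hk => ?_⟩
  have := h (g⁻¹ * k * g) (by simp [hg (), hk c', Equiv.symm_apply_eq])
  conv_rhs => rw [← this, ← Module.End.mul_apply, ← map_mul]
  rw [← Module.End.mul_apply, ← map_mul]
  congr 2
  group

lemma exists_fix_of_weight_one (h1 : HasW ρ 1) (hw : ¬ HasW ρ 2) (hc : 12 ≤ Fintype.card α)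
    (c : α) : ∃ v, v ≠ 0 ∧ FixT ρ {c} v := by
  obtain ⟨B₀, hB₀⟩ := exists_blocks (α := α) 1 (by omega)
  obtain ⟨v, hv, h⟩ := exists_fixed h1 hw le_rfl hB₀ (by omega)
  obtain ⟨c', v', hv', h'⟩ := level_one hw hc 3 le_rfl (Finset.univ.image (B₀ 0))
    (by rw [Finset.card_image_of_injective _ (hB₀.inj 0)]; simp) ⟨v, hv, fun g hg => h g (by
      intro i a
      rw [Subsingleton.elim i 0]
      exact hg _ (Finset.mem_image_of_mem _ (Finset.mem_univ a)))⟩
  exact fix_transport (by omega) hv' h' c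

variable (ρ) in
/-- Sum over the stabiliser of a point. -/
noncomputable def avg (c : α) : V →ₗ[ℂ] V :=
  ∑ k ∈ Finset.univ.filter (fun k : alternatingGroup α => (k : Perm α) c = c), ρ k

lemma avg_left (c : α) (w : V) : FixT ρ {c} (avg ρ c w) := by
  intro g hg
  have hg' : (g : Perm α) c = c := hg c (by simp)
  simp only [avg, LinearMap.sum_apply, map_sum]
  refine Finset.sum_equiv (Equiv.mulLeft g) (fun k => ?_) (fun k _ => by simp)
  simp only [Finset.mem_filter, Finset.mem_univ, true_and, Equiv.coe_mulLeft, Subgroup.coe_mul,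
    Perm.mul_apply]
  exact ⟨fun h => by rw [h, hg'], fun h => (g : Perm α).injective (h.trans hg'.symm)⟩

lemma avg_right (c : α) (w : V) (g : alternatingGroup α) (hg : (g : Perm α) c = c) :
    avg ρ c (ρ g w) = avg ρ c w := by
  simp only [avg, LinearMap.sum_apply]
  refine Finset.sum_equiv (Equiv.mulRight g) (fun k => ?_) (fun k _ => by simp)
  simp [hg]

lemma stab_card_ne (c : α) :
    ((Finset.univ.filter (fun k : alternatingGroup α => (k : Perm α) c = c)).card : ℂ) ≠ 0 := by
  have : 0 < (Finset.univ.filter (fun k : alternatingGroup α => (k : Perm α) c = c)).card :=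
    Finset.card_pos.2 ⟨1, by simp⟩
  exact_mod_cast this.ne'

lemma exists_stab (hc : 4 ≤ Fintype.card α) {c x y : α} (hx : x ≠ c) (hy : y ≠ c) :
    ∃ g : alternatingGroup α, (g : Perm α) c = c ∧ (g : Perm α) x = y := by
  have hinj : ∀ x, x ≠ c → Function.Injective (fun t : Bool => if t then c else x) := by
    intro x hx s t
    cases s <;> cases t <;> simp [hx, hx.symm]
  obtain ⟨g, hg⟩ := exists_alt (hinj x hx) (hinj y hy) (by simpa)
  exact ⟨g, hg true, hg false⟩

lemma coeff_of_fix (hc : 4 ≤ Fintype.card α) {c : α} {v : V} (hv : v ≠ 0) (h : FixT ρ {c} v) :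
    ∃ (v : V) (l : V →ₗ[ℂ] ℂ), l v ≠ 0 ∧ ∀ g k : alternatingGroup α,
      decide ((g : Perm α) c = c) = decide ((k : Perm α) c = c) → l (ρ g v) = l (ρ k v) := by
  obtain ⟨l, hl⟩ := Module.Projective.exists_dual_ne_zero ℂ hv
  refine ⟨v, l ∘ₗ avg ρ c, ?_, fun g k hgk => ?_⟩
  · have : avg ρ c v = ((Finset.univ.filter
        (fun k : alternatingGroup α => (k : Perm α) c = c)).card : ℂ) • v := by
      simp only [avg, LinearMap.sum_apply]
      rw [Finset.sum_congr rfl (g := fun _ => v) (fun k hk => h k (by simpa using hk))]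
      simp [Nat.cast_smul_eq_nsmul]
    rw [LinearMap.comp_apply, this, map_smul]
    exact mul_ne_zero (stab_card_ne c) hl
  · rw [decide_eq_decide] at hgk
    simp only [LinearMap.comp_apply]
    by_cases hg : (g : Perm α) c = c
    · rw [h g (by simpa using hg), h k (by simpa using hgk.1 hg)]
    · obtain ⟨s, hs1, hs2⟩ := exists_stab hc hg (fun h => hg (hgk.2 h))
      have h1 := h (k⁻¹ * s * g) (by simp [hs2])
      rw [← avg_right c _ s hs1]
      conv_rhs => rw [← h1, ← Module.End.mul_apply (ρ k), ← map_mul]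
      rw [← Module.End.mul_apply (ρ s), ← map_mul]
      congr 4
      group

variable (α) in
/-- The permutation representation. -/
noncomputable def permRep : Representation ℂ (alternatingGroup α) (α → ℂ) where
  toFun g := LinearMap.funLeft ℂ ℂ ((g : Perm α)⁻¹ : Perm α)
  map_one' := by ext; simp
  map_mul' g h := by ext; simp [LinearMap.funLeft_apply]

lemma permRep_apply (g : alternatingGroup α) (f : α → ℂ) (x : α) :
    permRep α g f x = f ((g : Perm α)⁻¹ x) := rfl

variable (α) in
/-- The sum of the coordinates. -/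
noncomputable def sumMap : (α → ℂ) →ₗ[ℂ] ℂ := ∑ x, LinearMap.proj x

omit [DecidableEq α] in
lemma sumMap_apply (f : α → ℂ) : sumMap α f = ∑ x, f x := by simp [sumMap]

variable (α) in
/-- The standard representation. -/
noncomputable def stdSub : Subrepresentation (permRep α) :=
  ⟨LinearMap.ker (sumMap α), fun g f hf => by
    simp only [LinearMap.mem_ker, sumMap_apply, permRep_apply] at hf ⊢
    rw [← hf]
    exact Equiv.sum_comp ((g : Perm α)⁻¹) f⟩

/-- A spanning family of the standard representation. -/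
noncomputable def stdVec (a : α) : (stdSub α).toSubmodule :=
  ⟨fun x => (if x = a then (Fintype.card α : ℂ) else 0) - 1, by
    change sumMap α _ = 0
    simp [sumMap_apply]⟩

lemma std_apply (g : alternatingGroup α) (a : α) :
    (stdSub α).toRepresentation g (stdVec a) = stdVec ((g : Perm α) a) := by
  ext x
  change (if (g : Perm α)⁻¹ x = a then (Fintype.card α : ℂ) else 0) - 1
    = (if x = (g : Perm α) a then (Fintype.card α : ℂ) else 0) - 1
  simp only [Perm.inv_eq_iff_eq]

lemma stdVec_ne (hc : 2 ≤ Fintype.card α) (a : α) : stdVec a ≠ 0 := by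
  intro h
  obtain ⟨b, hb⟩ := Fintype.exists_ne_of_one_lt_card hc a
  have := congrArg (fun f : (stdSub α).toSubmodule => f.1 b) h
  simp [stdVec, hb] at this

lemma std_irreducible (hc : 4 ≤ Fintype.card α) : (stdSub α).toRepresentation.IsIrreducible := by
  obtain ⟨a₀⟩ : Nonempty α := Fintype.card_pos_iff.1 (by omega)
  have hn : (Fintype.card α : ℂ) ≠ 0 := by
    have : Fintype.card α ≠ 0 := by omega
    exact_mod_cast this
  rw [irreducible_iff]
  refine ⟨⟨_, stdVec_ne (by omega) a₀⟩, fun S hS => ?_⟩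
  by_cases h0 : S = ⊥
  · exact Or.inl h0
  right
  obtain ⟨f, hf, hf0⟩ := Submodule.exists_mem_ne_zero_of_ne_bot h0
  obtain ⟨a, ha⟩ : ∃ a, f.1 a ≠ 0 := by
    by_contra h
    push Not at h
    exact hf0 (Subtype.ext (funext h))
  let f' := avg (stdSub α).toRepresentation a f
  have h1 : f' ∈ S := by
    simp only [f', avg, LinearMap.sum_apply]
    exact S.sum_mem (fun k _ => hS k f hf)
  have h2 : f'.1 a ≠ 0 := by
    have : f'.1 a = ((Finset.univ.filter
        (fun k : alternatingGroup α => (k : Perm α) a = a)).card : ℂ) * f.1 a := by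
      simp only [f', avg, LinearMap.sum_apply, AddSubmonoidClass.coe_finsetSum, Finset.sum_apply]
      rw [Finset.sum_congr rfl (g := fun _ => f.1 a)]
      · simp
      · intro k hk
        change f.1 ((k : Perm α)⁻¹ a) = _
        rw [Perm.inv_eq_iff_eq.2 (Finset.mem_filter.1 hk).2.symm]
    rw [this]
    exact mul_ne_zero (stab_card_ne a) ha
  obtain ⟨b, hb⟩ := Fintype.exists_ne_of_one_lt_card (by omega) a
  have h3 : ∀ x, x ≠ a → f'.1 x = f'.1 b := by
    intro x hx
    obtain ⟨s, hs1, hs2⟩ := exists_stab hc hx hb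
    have := congrArg (fun f : (stdSub α).toSubmodule => f.1 b) 
      (avg_left (ρ := (stdSub α).toRepresentation) a f s (by simpa))
    change f'.1 ((s : Perm α)⁻¹ b) = f'.1 b at this
    rwa [Perm.inv_eq_iff_eq.2 hs2.symm] at this
  have h4 : f'.1 a + (Fintype.card α - 1) * f'.1 b = 0 := by
    have h5 : sumMap α f'.1 = 0 := f'.2
    rw [sumMap_apply, ← Finset.add_sum_erase _ _ (Finset.mem_univ a),
      Finset.sum_congr rfl (g := fun _ => f'.1 b)
        (fun x hx => h3 x (Finset.ne_of_mem_erase hx))] at h5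
    simp only [Finset.sum_const, Finset.card_erase_of_mem (Finset.mem_univ a), Finset.card_univ,
      nsmul_eq_mul] at h5
    rwa [Nat.cast_sub (by omega), Nat.cast_one] at h5
  have h5 : f'.1 b ≠ 0 := fun h => h2 (by rwa [h, mul_zero, add_zero] at h4)
  have h6 : f' = (-f'.1 b) • stdVec a := by
    ext x
    change f'.1 x = -f'.1 b * ((if x = a then (Fintype.card α : ℂ) else 0) - 1)
    split_ifs with hx
    · rw [hx]
      linear_combination h4
    · rw [h3 x hx]
      ring
  have h7 : stdVec a ∈ S := by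
    rw [h6] at h1
    exact (S.smul_mem_iff (neg_ne_zero.2 h5)).1 h1
  have h8 : ∀ c, stdVec c ∈ S := by
    intro c
    obtain ⟨g, hg⟩ := exists_alt (ι := Unit) (f := fun _ => a) (f' := fun _ => c)
      (Function.injective_of_subsingleton _) (Function.injective_of_subsingleton _)
      (by simp; omega)
    rw [← hg (), ← std_apply]
    exact hS g _ h7
  rw [eq_top_iff]
  intro h _
  have h9 : h = ∑ c, (h.1 c / Fintype.card α) • stdVec c := by
    ext x
    have h10 : sumMap α h.1 = 0 := h.2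
    rw [sumMap_apply] at h10
    simp only [AddSubmonoidClass.coe_finsetSum, SetLike.val_smul, Finset.sum_apply, Pi.smul_apply,
      stdVec, smul_eq_mul, mul_sub, Finset.sum_sub_distrib, mul_ite, mul_zero, mul_one,
      Finset.sum_ite_eq, Finset.mem_univ, if_true, ← Finset.sum_div, h10]
    field_simp
    simp
  rw [h9]
  exact S.sum_mem (fun c _ => S.smul_mem _ (h8 c))

lemma std_finrank (hc : 1 ≤ Fintype.card α) :
    finrank ℂ (stdSub α).toSubmodule + 1 = Fintype.card α := by
  have h1 := LinearMap.finrank_range_add_finrank_ker (sumMap α)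
  obtain ⟨a⟩ : Nonempty α := Fintype.card_pos_iff.1 (by omega)
  have h2 : LinearMap.range (sumMap α) = ⊤ := by
    rw [LinearMap.range_eq_top]
    intro z
    exact ⟨Pi.single a z, by simp [sumMap_apply]⟩
  rw [h2] at h1
  simp only [finrank_top, finrank_self, finrank_fintype_fun_eq_card] at h1
  change finrank ℂ (LinearMap.ker (sumMap α)) + 1 = _
  omega

/-- Irreducible representations of weight at most one. -/
lemma weight_le_one (hc : 12 ≤ Fintype.card α) [FiniteDimensional ℂ V] (hρ : ρ.IsIrreducible)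
    (hw : ¬ HasW ρ 2) :
    ρ.character = (fun _ => 1) ∨ ρ.character = (stdSub α).toRepresentation.character := by
  classical
  by_cases h1 : HasW ρ 1
  swap
  · exact Or.inl (char_of_trivial hρ (trivial_of_not_hasW (by omega) h1))
  obtain ⟨c⟩ : Nonempty α := Fintype.card_pos_iff.1 (by omega)
  obtain ⟨v, hv, hfix⟩ := exists_fix_of_weight_one h1 hw hc c
  by_contra hne
  push Not at hne
  have hne' : (fun _ => 1) ≠ (stdSub α).toRepresentation.character := by
    intro h
    have h2 := congrFun h 1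
    rw [char_one] at h2
    have h3 : finrank ℂ (stdSub α).toSubmodule = 1 := by exact_mod_cast h2.symm
    have := std_finrank (α := α) (by omega)
    omega
  have := card_le_of_coeff {ρ.character, fun _ => 1, (stdSub α).toRepresentation.character}
    (fun g : alternatingGroup α => decide ((g : Perm α) c = c)) (by
      intro χ hχ
      simp only [Finset.mem_insert, Finset.mem_singleton] at hχ
      rcases hχ with rfl | rfl | rfl
      · exact ⟨V, _, _, inferInstance, ρ, hρ, rfl, coeff_of_fix (by omega) hv hfix⟩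
      · refine ⟨ℂ, _, _, inferInstance, Representation.trivial ℂ _ ℂ, ?_, ?_,
          1, LinearMap.id, one_ne_zero, fun _ _ _ => rfl⟩
        · rw [irreducible_iff]
          exact ⟨⟨1, one_ne_zero⟩, fun S _ => Ideal.eq_bot_or_top S⟩
        · ext g
          simp [character]
      · refine ⟨_, _, _, inferInstance, _, std_irreducible (by omega), rfl,
          coeff_of_fix (by omega) (stdVec_ne (by omega) c) (fun g hg => ?_)⟩
        rw [std_apply, hg c (by simp)])
  rw [Finset.card_eq_three.2 ⟨_, _, _, hne.1, hne.2, hne', rfl⟩] at this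
  simp at this

end Pool.Agent.MP_810665_al

end
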